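import Pool.Agent.Lib.MP_094079_nt.Spec

/-! Quaternion algebra behind the tests. -/
namespace Pool.Agent.Lib.MP_094079_nt

open Quaternion

variable {x F B G v v' w be xi : H} {A mu m D : ℤ}

theorem aa_sc (a : ℤ) : sc a = a • (1 : H) := by ext <;> simp [sc]

theorem aa_star_mul (x : H) : star x * x = nrm x • (1 : H) := by
  rw [← aa_sc]
  ext <;> simp [sc, nrm] <;> ring

theorem aa_mul_star (x : H) : x * star x = nrm x • (1 : H) := by
  rw [← aa_sc]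
  ext <;> simp [sc, nrm] <;> ring

theorem aa_nrm_mul (x y : H) : nrm (x * y) = nrm x * nrm y := by simp [nrm]; ring

theorem aa_nrm_star (x : H) : nrm (star x) = nrm x := by simp [nrm]

theorem aa_nrm_smul (a : ℤ) (x : H) : nrm (a • x) = a ^ 2 * nrm x := by simp [nrm]; ring

theorem aa_nrm_nonneg (x : H) : 0 ≤ nrm x := by unfold nrm; positivity

theorem aa_cancel {n : ℤ} (hn : n ≠ 0) {x y : H} (h : n • x = n • y) : x = y :=
  smul_right_injective H hn h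

theorem aa_dv_iff {n : ℤ} : Dv n x ↔ ∀ i, n ∣ co x i := by
  constructor
  · rintro ⟨y, rfl⟩ i
    rcases i with _ | _ | _ | i <;> simp [co]
  · intro h
    obtain ⟨a, ha⟩ := h 0
    obtain ⟨b, hb⟩ := h 1
    obtain ⟨c, hc⟩ := h 2
    obtain ⟨d, hd⟩ := h 3
    exact ⟨⟨a, b, c, d⟩, QuaternionAlgebra.ext ha hb hc hd⟩

theorem aa_co_smul (a : ℤ) (x : H) (i : ℕ) : co (a • x) i = a * co x i := by
  rcases i with _ | _ | _ | i <;> simp [co]

theorem aa_dv_mul {a b : ℤ} {x y : H} (h : Dv a x) (h' : Dv b y) : Dv (a * b) (x * y) := by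
  obtain ⟨s, rfl⟩ := h
  obtain ⟨t, rfl⟩ := h'
  exact ⟨s * t, smul_mul_smul_comm _ _ _ _⟩

theorem aa_dv_left {a : ℤ} {y : H} (x : H) (h : Dv a y) : Dv a (x * y) := by
  obtain ⟨t, rfl⟩ := h
  exact ⟨x * t, mul_smul_comm _ _ _⟩

theorem aa_dv_right {a : ℤ} (h : Dv a x) (y : H) : Dv a (x * y) := by
  obtain ⟨t, rfl⟩ := h
  exact ⟨t * y, smul_mul_assoc _ _ _⟩

theorem aa_dv_add {a : ℤ} {y : H} (h : Dv a x) (h' : Dv a y) : Dv a (x + y) := by
  obtain ⟨s, rfl⟩ := h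
  obtain ⟨t, rfl⟩ := h'
  exact ⟨s + t, (smul_add _ _ _).symm⟩

theorem aa_dv_sub {a : ℤ} {y : H} (h : Dv a x) (h' : Dv a y) : Dv a (x - y) := by
  obtain ⟨s, rfl⟩ := h
  obtain ⟨t, rfl⟩ := h'
  exact ⟨s - t, (smul_sub _ _ _).symm⟩

theorem aa_dv_smul {a b : ℤ} (h : a ∣ b) (x : H) : Dv a (b • x) := by
  obtain ⟨c, rfl⟩ := h
  exact ⟨c • x, mul_smul _ _ _⟩

theorem aa_dv_of_dvd {a b : ℤ} (h : a ∣ b) (h' : Dv b x) : Dv a x := by
  obtain ⟨t, rfl⟩ := h'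
  exact aa_dv_smul h t

theorem aa_dv_star {a : ℤ} (h : Dv a x) : Dv a (star x) := by
  obtain ⟨t, rfl⟩ := h
  exact ⟨star t, star_zsmul _ _⟩

theorem aa_dv_cancel {a c : ℤ} (hc : c ≠ 0) (h : Dv (c * a) (c • x)) : Dv a x := by
  obtain ⟨t, ht⟩ := h
  exact ⟨t, aa_cancel hc (ht.trans (mul_smul _ _ _))⟩

theorem aa_dv_cop {a c : ℤ} (hc : IsCoprime a c) (h : Dv a (c • x)) : Dv a x :=
  aa_dv_iff.2 fun i => hc.dvd_of_dvd_mul_left (aa_co_smul c x i ▸ aa_dv_iff.1 h i)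

theorem aa_star_sub (hv : v.re = 0) : star (sc mu - v) = sc mu + v := by
  ext <;> simp [sc, hv]

theorem aa_sq (hv : v.re = 0) :
    (sc mu + v) * (sc mu + v) = (2 * mu) • (sc mu + v) - (mu ^ 2 + nrm v) • (1 : H) := by
  rw [← aa_sc (mu ^ 2 + nrm v)]
  ext <;> simp [-zsmul_eq_mul, sc, nrm, hv] <;> ring

theorem aa_nrm_add (hv : v.re = 0) : nrm (sc mu + v) = mu ^ 2 + nrm v := by
  simp [sc, nrm, hv]; ring

theorem aa_sq4 (a : ℤ) : a % 2 = 0 ∧ a ^ 2 % 4 = 0 ∨ a % 2 = 1 ∧ a ^ 2 % 4 = 1 := by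
  rcases Int.even_or_odd' a with ⟨k, rfl | rfl⟩
  · exact Or.inl ⟨by omega, by rw [show (2 * k) ^ 2 = 4 * k ^ 2 by ring]; omega⟩
  · exact Or.inr ⟨by omega, by rw [show (2 * k + 1) ^ 2 = 4 * (k ^ 2 + k) + 1 by ring]; omega⟩

/-- the part of the norm dividing four divides every conjugate -/
theorem aa_tau {g : ℕ} (hg : (g : ℤ) = nrm G) (hv : v.re = 0) :
    Dv (Nat.gcd g 4 : ℕ) (star G * v * G) := by
  have h1 : ((Nat.gcd g 4 : ℕ) : ℤ) ∣ nrm G := hg ▸ Int.natCast_dvd_natCast.2 (Nat.gcd_dvd_left _ _)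
  rcases (Nat.dvd_prime_pow Nat.prime_two).1 (Nat.gcd_dvd_right g (2 ^ 2)) with ⟨i, hi, h⟩
  rw [show (2 ^ 2 : ℕ) = 4 from rfl] at h
  rw [h] at h1 ⊢
  obtain ⟨a, b, c, d, rfl⟩ : ∃ a b c d, G = mkH a b c d := ⟨_, _, _, _, rfl⟩
  interval_cases i
  · exact ⟨_, (one_smul _ _).symm⟩
  · have e : star (mkH a b c d) * v * mkH a b c d = nrm (mkH a b c d) • v + (2 : ℤ) •
        (a • (v * mkH 0 b c d).im + dot v (mkH 0 b c d) • mkH 0 b c d -
          nrm (mkH 0 b c d) • v) := by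
      ext <;> simp [-zsmul_eq_mul, mkH, nrm, dot, hv] <;> ring
    rw [e]
    exact aa_dv_add (aa_dv_smul h1 _) ⟨_, rfl⟩
  · have h2 : 2 ∣ b - a ∧ 2 ∣ c - a ∧ 2 ∣ d - a := by
      have := aa_sq4 a
      have := aa_sq4 b
      have := aa_sq4 c
      have := aa_sq4 d
      simp only [nrm, mkH] at h1
      omega
    obtain ⟨⟨b, hb⟩, ⟨c, hc⟩, ⟨d, hd⟩⟩ := h2
    rw [sub_eq_iff_eq_add] at hb hc hd
    subst hb hc hd
    refine ⟨a ^ 2 • mkH 0 v.imJ v.imK v.imI + a • (star (mkH 1 1 1 1) * v * mkH 0 b c d).im +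
      star (mkH 0 b c d) * v * mkH 0 b c d, ?_⟩
    ext <;> simp [-zsmul_eq_mul, mkH, hv] <;> ring

theorem aa_cop4 {n ML t : ℕ} (hodd : ML % 2 = 1) (hn : n ∣ ML) (ht : t ∣ 4) : Nat.Coprime n t :=
  Nat.Coprime.coprime_dvd_left hn (Nat.Coprime.coprime_dvd_right ht
    ((Nat.coprime_two_right.2 (Nat.odd_iff.2 hodd)).pow_right 2))

theorem aa_split {ML N g A : ℕ} (hodd : ML % 2 = 1) (hN : N ∣ ML) (hA : A ∣ g) (hA' : A ∣ ML)
    (hx : g * N ∣ 4 * ML) : ∃ k, g = Nat.gcd g 4 * (A * k) ∧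
      g * N / (Nat.gcd g 4 * A) = k * N ∧ A * (k * N) ∣ ML := by
  have h0 : 0 < Nat.gcd g 4 := Nat.gcd_pos_of_pos_right _ (by norm_num)
  obtain ⟨g', f, hc, h1, h2⟩ := Nat.exists_coprime g 4
  have h3 : A ∣ g' := (aa_cop4 hodd hA' (Nat.gcd_dvd_right g 4)).dvd_of_dvd_mul_right (h1 ▸ hA)
  obtain ⟨k, rfl⟩ := h3
  have hA0 : 0 < A := Nat.pos_of_dvd_of_pos hA' (by omega)
  generalize Nat.gcd g 4 = t at *
  subst h1
  refine ⟨k, mul_comm _ _, Nat.div_eq_of_eq_mul_right (mul_pos h0 hA0) (by ring), ?_⟩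
  have h4 : t * (A * k * N) ∣ t * (f * ML) := by
    rwa [h2, mul_right_comm _ t, mul_comm _ t, mul_comm f, mul_assoc t] at hx
  rw [← mul_assoc]
  exact (Nat.Coprime.mul_left hc (aa_cop4 hodd hN ⟨t, h2⟩)).dvd_of_dvd_mul_left
    (Nat.dvd_of_mul_dvd_mul_left h0 h4)

theorem aa_int {M0 l a b : ℕ} {y : ℤ} (hc : IsCoprime (2 * mu) (M0 : ℤ)) (hl : l = 1 ∨ l.Prime)
    (hlM : Nat.Coprime l M0) (h : a * b ∣ M0 * l) (h1 : (a : ℤ) * b ∣ 2 * mu * y)
    (ha : (a : ℤ) ∣ y) (hb : (b : ℤ) ∣ y) : (a : ℤ) * b ∣ y := by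
  obtain ⟨s, t, hs, ht, e⟩ := exists_dvd_and_dvd_of_dvd_mul h
  have e' : (a : ℤ) * b = s * t := by exact_mod_cast e
  rw [e'] at h1 ⊢
  refine IsCoprime.mul_dvd (Nat.isCoprime_iff_coprime.2
    (Nat.Coprime.coprime_dvd_left hs (Nat.Coprime.coprime_dvd_right ht hlM.symm)))
    ((hc.symm.of_isCoprime_of_dvd_left (Int.natCast_dvd_natCast.2 hs)).dvd_of_dvd_mul_left
      ((dvd_mul_right _ _).trans h1)) ?_
  have h2 : t = 1 ∨ t.Prime := by
    rcases hl with rfl | hl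
    · exact Or.inl (Nat.dvd_one.1 ht)
    · exact ((Nat.dvd_prime hl).1 ht).imp_right fun h : t = l => h ▸ hl
  rcases h2 with rfl | h2
  · simp
  · rcases (Nat.Prime.dvd_mul h2).1 (e ▸ dvd_mul_left t s) with h3 | h3
    · exact (Int.natCast_dvd_natCast.2 h3).trans ha
    · exact (Int.natCast_dvd_natCast.2 h3).trans hb

theorem aa_par {a b c g x s t u : ℤ} (hg : g % 2 = 1) (h : a ^ 2 + b ^ 2 + c ^ 2 = g ^ 2)
    (hx : g * x = a * s + b * t + c * u) (ha : 2 ∣ a - 1) : 2 ∣ x - s := by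
  have h1 : 2 ∣ b ∧ 2 ∣ c ∧ 2 ∣ g - 1 := by
    have := aa_sq4 a
    have := aa_sq4 b
    have := aa_sq4 c
    have := aa_sq4 g
    omega
  obtain ⟨⟨b, rfl⟩, ⟨c, rfl⟩, ⟨j, hj⟩⟩ := h1
  obtain ⟨k, hk⟩ := ha
  exact ⟨k * s + b * t + c * u - j * x, by linear_combination hx - x * hj + s * hk⟩

/-- `(x * G) * nrm F = (x * F) * (star F * G)` -/
theorem know (h : Kn x F) (hA : Dv A (star F * G)) : Dv A (x * G) := by
  refine aa_dv_cancel h.1 ?_
  have := aa_dv_mul h.2 hA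
  rwa [mul_assoc, ← mul_assoc F, aa_mul_star, smul_mul_assoc, one_mul, mul_smul_comm] at this

/-- one more step of the walk -/
theorem extend {p : ℕ} {L : List H} (hL : ExtOK p L) (hp : p ≠ 0) (hw : w.re = 0) (hD : nrm w = D)
    (h : Kn (sc mu + w) F) (hd : nrm F * p ∣ mu ^ 2 + D) :
    ∃ a ∈ L, nrm (F * a) = nrm F * p ∧ Kn (sc mu + w) (F * a) := by
  obtain ⟨h0, y, hy⟩ := h
  have h1 := congrArg nrm hy
  rw [aa_nrm_mul, aa_nrm_smul, aa_nrm_add hw, hD, sq (nrm F), mul_comm, mul_assoc] at h1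
  rw [mul_left_cancel₀ h0 h1] at hd
  obtain ⟨a, ha, h2⟩ := hL.2 y ((mul_dvd_mul_iff_left h0).1 hd)
  have h3 : nrm (F * a) = nrm F * p := by rw [aa_nrm_mul, hL.1 a ha]
  obtain ⟨z, hz⟩ := h2
  exact ⟨a, ha, h3, h3 ▸ mul_ne_zero h0 (Nat.cast_ne_zero.2 hp), z, by
    rw [← mul_assoc, hy, smul_mul_assoc, hz, h3, mul_smul]⟩

theorem aa_clash {r : ℕ} {y : H} (hr : 2 ≤ r) (hc : IsCoprime (2 * mu) (r : ℤ))
    (hs : x + y = (2 * mu) • (1 : H)) (hy : y.re = mu) (hF : Kn x F) (hB : Kn y B)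
    (hd : (r : ℤ) ∣ nrm B) (h : Dv r (star F * B)) : False := by
  have h1 := aa_dv_add (know hF h) (aa_dv_of_dvd hd hB.2)
  rw [← add_mul, hs, smul_mul_assoc, one_mul] at h1
  obtain ⟨C, rfl⟩ := aa_dv_cop hc.symm h1
  obtain ⟨h0, h2⟩ := hB
  have hr0 : (r : ℤ) ≠ 0 := by omega
  rw [aa_nrm_smul] at h0 h2
  rw [mul_smul_comm, sq, mul_assoc] at h2
  have h3 := aa_dv_right (aa_dv_cancel hr0 h2) (star C)
  rw [mul_assoc, aa_mul_star, mul_smul_comm, mul_one, mul_comm] at h3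
  have h4 : (r : ℤ) ∣ mu := hy ▸ aa_dv_iff.1 (aa_dv_cancel (right_ne_zero_of_mul h0) h3) 0
  have := Int.isUnit_iff.1 (hc.isUnit_of_dvd' (h4.mul_left 2) dvd_rfl)
  omega

theorem clash {r : ℕ} (hr : 2 ≤ r) (hc : IsCoprime (2 * mu) (r : ℤ)) (hv : v.re = 0)
    (hF : Kn (sc mu - v) F) (hB : Kn (sc mu + v) B)
    (hd : (r : ℤ) ∣ nrm F ∨ (r : ℤ) ∣ nrm B) (h : Dv r (star F * B)) : False := by
  have e : sc mu - v + (sc mu + v) = (2 * mu) • (1 : H) := by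
    rw [aa_sc, two_mul, add_smul, sub_add_add_cancel]
  rcases hd with hd | hd
  · refine aa_clash hr hc ((add_comm _ _).trans e) (by simp [sc, hv]) hB hF hd ?_
    simpa using aa_dv_star h
  · exact aa_clash hr hc e (by simp [sc, hv]) hF hB hd h

/-- moving the base point along `G` -/
theorem move {M0 l N g A : ℕ} (hv : v.re = 0) (hD : nrm v = D)
    (hML : ((M0 * l : ℕ) : ℤ) ∣ mu ^ 2 + D) (hc : IsCoprime (2 * mu) (M0 : ℤ))
    (hl : l = 1 ∨ l.Prime) (hlM : Nat.Coprime l M0) (hodd : (M0 * l) % 2 = 1)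
    (hbe : nrm be = N ∨ nrm be = 2 * N) (hNd : N ∣ M0 * l) (hN : (N : ℤ) ∣ m - mu) (hg : (g : ℤ) = nrm G)
    (hA : A ∣ g) (hA' : A ∣ M0 * l) (hx : g * N ∣ 4 * (M0 * l))
    (h1 : Dv A ((sc mu - v) * G))
    (h2 : Dv ((g * N / (Nat.gcd g 4 * A) : ℕ) : ℤ) ((sc mu + v) * G * be)) :
    g ≠ 0 ∧ ∃ v' : H, v'.re = 0 ∧ star G * v * G = (g : ℤ) • v' ∧ nrm v' = D ∧
      Dv N ((sc m + v') * be) := by
  obtain ⟨k, e1, e2, h3⟩ := aa_split hodd hNd hA hA' hx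
  have ht := aa_tau hg hv
  have c4 : ∀ {n : ℕ}, n ∣ A * (k * N) → ∀ {t : ℕ}, t ∣ 4 → IsCoprime (n : ℤ) t := fun h _ h' =>
    Nat.isCoprime_iff_coprime.2 (aa_cop4 hodd (h.trans h3) h')
  have t4 := Nat.gcd_dvd_right g 4
  rw [e2] at h2
  generalize Nat.gcd g 4 = t at *
  have hg0 : g ≠ 0 := by
    rintro rfl
    have := Nat.eq_zero_of_zero_dvd (zero_mul N ▸ hx)
    omega
  have hN0 : (N : ℤ) ≠ 0 := Nat.cast_ne_zero.2 (Nat.pos_of_dvd_of_pos hNd (by omega)).ne'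
  have hG : star G * G = (g : ℤ) • (1 : H) := hg ▸ aa_star_mul G
  have h4 := aa_dv_star h1
  rw [star_mul, aa_star_sub hv] at h4
  have h5 := aa_dv_mul h4 h2
  have e3 : star G * (sc mu + v) * ((sc mu + v) * G * be) =
      (2 * mu) • (star G * (sc mu + v) * G * be) - (mu ^ 2 + D) • (star G * G * be) := by
    rw [mul_assoc (sc mu + v), mul_assoc, ← mul_assoc (sc mu + v), aa_sq hv, hD]
    simp only [sub_mul, mul_sub, smul_mul_assoc, mul_smul_comm, one_mul, mul_assoc]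
  have h6 := aa_dv_add h5 (aa_dv_smul (a := (A : ℤ) * (k * N : ℕ)) (b := mu ^ 2 + D)
    (Dvd.dvd.trans (by exact_mod_cast h3) hML) (star G * G * be))
  rw [e3, sub_add_cancel] at h6
  have h7 : Dv ((A : ℤ) * (k * N : ℕ)) (star G * (sc mu + v) * G * be) := aa_dv_iff.2 fun i =>
    aa_int hc hl hlM h3 (aa_co_smul _ _ i ▸ aa_dv_iff.1 h6 i)
      (aa_dv_iff.1 (aa_dv_right (aa_dv_right h4 G) be) i)
      (aa_dv_iff.1 (by simpa only [mul_assoc] using aa_dv_left (star G) h2) i)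
  have e4 : (g : ℤ) = t * (A * k : ℕ) := by exact_mod_cast e1
  have h8 : Dv (N * (A * k : ℕ)) ((star G * v * G + (m * g) • (1 : H)) * be) := by
    have e5 : (star G * v * G + (m * g) • (1 : H)) * be =
        star G * (sc mu + v) * G * be + ((m - mu) * g) • be := by
      simp only [aa_sc, mul_add, add_mul, smul_mul_assoc, mul_smul_comm, mul_one, one_mul, hG]
      module
    rw [e5]
    refine aa_dv_add (aa_dv_of_dvd (dvd_of_eq ?_) h7) (aa_dv_smul (mul_dvd_mul hN ?_) _)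
    · push_cast
      ring
    · exact e4 ▸ dvd_mul_left _ _
  have hk : A * k ∣ A * (k * N) := ⟨N, by ring⟩
  have h9 : Dv (A * k : ℕ) (star G * v * G) := by
    have h10 := aa_dv_right h8 (star be)
    rw [mul_assoc, aa_mul_star, mul_smul_comm, mul_one] at h10
    have h11 : Dv (A * k : ℕ) (star G * v * G + (m * g) • (1 : H)) := by
      rcases hbe with h | h <;> rw [h] at h10
      · exact aa_dv_cancel hN0 h10
      · rw [mul_comm 2, mul_smul] at h10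
        exact aa_dv_cop (c4 hk (t := 2) (by norm_num)) (aa_dv_cancel hN0 h10)
    simpa using aa_dv_sub h11 (aa_dv_smul (b := m * g) (e4 ▸ (dvd_mul_left _ _).mul_left m) 1)
  obtain ⟨u, hu⟩ : Dv g (star G * v * G) := aa_dv_iff.2 fun i =>
    e4 ▸ (c4 hk t4).symm.mul_dvd (aa_dv_iff.1 ht i) (aa_dv_iff.1 h9 i)
  have hg1 : (g : ℤ) ≠ 0 := Nat.cast_ne_zero.2 hg0
  refine ⟨hg0, u, ?_, hu, ?_, ?_⟩
  · have : (star G * v * G).re = 0 := by simp [hv]; ring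
    simpa [hu, hg0] using this
  · have := congrArg nrm hu
    rw [aa_nrm_mul, aa_nrm_mul, aa_nrm_star, aa_nrm_smul, ← hg, hD] at this
    exact mul_left_cancel₀ (pow_ne_zero 2 hg1) (by linear_combination -this)
  · have e6 : (star G * v * G + (m * g) • (1 : H)) * be =
        ((A * k : ℕ) : ℤ) • (t : ℤ) • ((sc m + u) * be) := by
      rw [hu, e4]
      simp only [aa_sc, add_mul, smul_mul_assoc, one_mul]
      module
    rw [e6, mul_comm] at h8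
    exact aa_dv_cop (c4 ((dvd_mul_left _ _).mul_left _) t4)
      (aa_dv_cancel (right_ne_zero_of_mul (e4 ▸ hg1)) h8)

/-- the second modulus of a test divides `M0 * l` -/
theorem move_dvd {ML N g A : ℕ} (hodd : ML % 2 = 1) (hN : N ∣ ML) (hA : A ∣ g) (hA' : A ∣ ML)
    (hx : g * N ∣ 4 * ML) : g * N / (Nat.gcd g 4 * A) ∣ ML := by
  obtain ⟨k, -, e, h⟩ := aa_split hodd hN hA hA' hx
  exact e ▸ (dvd_mul_left _ _).trans h

theorem prim_move {M0 g : ℕ} (hv : v.re = 0) (hD : nrm v' = D) (hv' : v'.re = 0)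
    (hM : (M0 : ℤ) ∣ mu ^ 2 + D) (hc : IsCoprime (2 * mu) (M0 : ℤ)) (hg : (g : ℤ) = nrm G)
    (hx : g ∣ 4 * M0) (hp : Prim v) (h : star G * v * G = (g : ℤ) • v') : Prim v' := by
  have hodd : M0 % 2 = 1 := Nat.odd_iff.1 (Nat.coprime_two_left.1
    (Nat.isCoprime_iff_coprime.1 hc.of_mul_left_left))
  obtain ⟨k, e, -, h1⟩ := aa_split hodd (one_dvd _) (one_dvd g) (one_dvd _) (by rwa [mul_one])
  rw [one_mul] at e
  rw [one_mul, mul_one] at h1
  obtain ⟨w, hw⟩ := hp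
  obtain ⟨u, hu⟩ := aa_tau hg (v := w.im) rfl
  have hg0 : g ≠ 0 := by
    rintro rfl
    have := Nat.eq_zero_of_zero_dvd hx
    omega
  generalize Nat.gcd g 4 = t at *
  have e1 : (g : ℤ) = t * k := by exact_mod_cast e
  have e2 : dot (star G * v * G) (star G * w.im * G) = nrm G ^ 2 * dot v w := by
    simp [dot, nrm, hv]; ring
  have e3 : dot v' u = k := by
    rw [h, hu, hw, ← hg] at e2
    have h2 : (g : ℤ) * t ≠ 0 := Nat.cast_ne_zero.2
      (mul_ne_zero hg0 (left_ne_zero_of_mul (e ▸ hg0))) ∘ (Nat.cast_mul g t).trans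
    refine mul_left_cancel₀ h2 ?_
    simp only [dot, Quaternion.imI_smul, Quaternion.imJ_smul,
      Quaternion.imK_smul, smul_eq_mul] at e2 ⊢
    linear_combination e2 + g * e1
  have h3 : (k : ℤ) ∣ M0 := Int.natCast_dvd_natCast.2 h1
  obtain ⟨c, hc'⟩ := h3.trans hM
  have h4 : IsCoprime (k : ℤ) D := by
    have := ((hc.of_mul_left_right.symm.of_isCoprime_of_dvd_left h3).pow_right (n := 2)).neg_right
    rw [show D = -mu ^ 2 + k * c by linear_combination hc']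
    exact this.add_mul_left_right c
  obtain ⟨a, b, hab⟩ := h4
  refine ⟨a • u + b • v', ?_⟩
  rw [← hab, ← e3, ← hD]
  simp [dot, nrm, hv']
  ring

theorem pc_move {ML g c c' : ℕ} (hc : c ≤ 3) (hc' : c' ≤ 3) (hv : v.re = 0) (hv' : v'.re = 0)
    (hodd : ML % 2 = 1) (hg : (g : ℤ) = nrm G) (hx : g ∣ 4 * ML)
    (h : star G * v * G = (g : ℤ) • v')
    (he : (2 * (Nat.gcd g 4 : ℕ) : ℤ) ∣ Rm c' c G - (Nat.gcd g 4 : ℕ)) (hp : PC c m v) :
    PC c' m v' := by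
  by_cases h0 : c' = 0
  · exact Or.inl h0
  obtain ⟨k, e, -, h1⟩ := aa_split hodd (one_dvd _) (one_dvd g) (one_dvd _) (by rwa [mul_one])
  rw [one_mul] at e
  rw [one_mul, mul_one] at h1
  have hk : (k : ℤ) % 2 = 1 := by
    have := Nat.odd_iff.1 ((Nat.odd_iff.2 hodd).of_dvd_nat h1)
    omega
  have t0 : ((Nat.gcd g 4 : ℕ) : ℤ) ≠ 0 :=
    Nat.cast_ne_zero.2 (Nat.gcd_pos_of_pos_right _ (by norm_num)).ne'
  obtain ⟨a1, e1⟩ := aa_dv_iff.1 (aa_tau hg (v := eb 1) rfl) c'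
  obtain ⟨a2, e2⟩ := aa_dv_iff.1 (aa_tau hg (v := eb 2) rfl) c'
  obtain ⟨a3, e3⟩ := aa_dv_iff.1 (aa_tau hg (v := eb 3) rfl) c'
  have s1 : co (star G * eb 1 * G) c' ^ 2 + co (star G * eb 2 * G) c' ^ 2 +
      co (star G * eb 3 * G) c' ^ 2 = nrm G ^ 2 ∧ co (star G * v * G) c' =
      co (star G * eb 1 * G) c' * v.imI + co (star G * eb 2 * G) c' * v.imJ +
      co (star G * eb 3 * G) c' * v.imK := by
    interval_cases c'
    · exact absurd rfl h0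
    all_goals constructor <;> simp [co, eb, nrm, hv] <;> ring
  generalize Nat.gcd g 4 = t at *
  have e4 : (g : ℤ) = t * k := by exact_mod_cast e
  rw [h, aa_co_smul, e1, e2, e3, ← hg, e4] at s1
  have s2 : a1 ^ 2 + a2 ^ 2 + a3 ^ 2 = k ^ 2 :=
    mul_left_cancel₀ (pow_ne_zero 2 t0) (by linear_combination s1.1)
  have s3 : k * co v' c' = a1 * v.imI + a2 * v.imJ + a3 * v.imK :=
    mul_left_cancel₀ t0 (by linear_combination s1.2)
  have s4 : ∀ a : ℤ, 2 * (t : ℤ) ∣ t * a - t → 2 ∣ a - 1 := fun a ha =>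
    (mul_dvd_mul_iff_left t0).1 (by rwa [mul_comm, mul_sub, mul_one])
  have s5 : ∀ s : ℤ, 2 ∣ co v' c' - s → 2 ∣ s - m → PC c' m v' := fun s h1 h2 =>
    Or.inr (by simpa using dvd_add h1 h2)
  interval_cases c
  · have := s4 0 (by simpa [Rm, h0] using he)
    omega
  · exact s5 _ (aa_par hk s2 s3 (s4 _ (by simpa [Rm, h0, e1] using he)))
      (hp.resolve_left (by norm_num))
  · exact s5 v.imJ (aa_par (a := a2) (b := a1) (c := a3) (t := v.imI) (u := v.imK) hk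
      (by linear_combination s2) (by linear_combination s3)
      (s4 _ (by simpa [Rm, h0, e2] using he))) (hp.resolve_left (by norm_num))
  · exact s5 v.imK (aa_par (a := a3) (b := a1) (c := a2) (t := v.imI) (u := v.imJ) hk
      (by linear_combination s2) (by linear_combination s3)
      (s4 _ (by simpa [Rm, h0, e3] using he))) (hp.resolve_left (by norm_num))

theorem dot_bound {cx t : ℕ} (hx : xi.re = 0) (hn : nrm xi ≤ (cx : ℤ) ^ 2) (ht : 1 ≤ t) :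
    |dot xi (star G * eb t * G)| ≤ nrm G * cx := by
  have h1 : nrm (star G * eb t * G) = nrm G ^ 2 := by
    have : nrm (eb t) = 1 := by rcases t with _ | _ | _ | t <;> simp [eb, nrm]
    rw [aa_nrm_mul, aa_nrm_mul, aa_nrm_star, this]
    ring
  generalize star G * eb t * G = y at h1
  have h2 : dot xi y ^ 2 ≤ nrm xi * nrm y := by
    simp only [dot, nrm, hx]
    nlinarith [sq_nonneg (xi.imI * y.imJ - xi.imJ * y.imI), sq_nonneg (xi.imI * y.re),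
      sq_nonneg (xi.imI * y.imK - xi.imK * y.imI), sq_nonneg (xi.imJ * y.imK - xi.imK * y.imJ),
      sq_nonneg (xi.imJ * y.re), sq_nonneg (xi.imK * y.re)]
  refine abs_le_of_sq_le_sq (h2.trans ?_) (mul_nonneg (aa_nrm_nonneg G) (by positivity))
  rw [h1, mul_pow, mul_comm]
  exact mul_le_mul_of_nonneg_left hn (sq_nonneg _)

theorem dot_lin (hv : v.re = 0) :
    dot xi (star G * v * G) = dot xi (star G * eb 1 * G) * v.imI +
      dot xi (star G * eb 2 * G) * v.imJ + dot xi (star G * eb 3 * G) * v.imK := by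
  simp [dot, eb, hv]
  ring

theorem dot_smul (g : ℤ) : dot xi (g • v) = g * dot xi v := by
  simp [dot]
  ring

end Pool.Agent.Lib.MP_094079_nt
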