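import Mathlib

/-! Primitive representations as sums of three squares. -/

set_option autoImplicit false

namespace Pool.Agent.Lib.MP_094079_nt

namespace ThreeSq

/-- The symmetric matrix is the Gram matrix of three integer vectors. -/
def Gm (a b c d e f : ℤ) : Prop :=
  ∃ x1 x2 x3 y1 y2 y3 z1 z2 z3 : ℤ, x1 ^ 2 + x2 ^ 2 + x3 ^ 2 = a ∧ y1 ^ 2 + y2 ^ 2 + y3 ^ 2 = b ∧
    z1 ^ 2 + z2 ^ 2 + z3 ^ 2 = c ∧ x1 * y1 + x2 * y2 + x3 * y3 = d ∧
    x1 * z1 + x2 * z2 + x3 * z3 = e ∧ y1 * z1 + y2 * z2 + y3 * z3 = f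

/-- The symmetric matrix is positive and has determinant one. -/
def Un (a b c d e f : ℤ) : Prop :=
  (∀ x y z : ℤ, 0 ≤ a * x ^ 2 + b * y ^ 2 + c * z ^ 2 + 2 * (d * x * y + e * x * z + f * y * z)) ∧
    a * b * c + 2 * (d * e * f) - a * f ^ 2 - b * e ^ 2 - c * d ^ 2 = 1

variable {a b c d e f : ℤ}

theorem Gm.s12 (h : Gm b a c d f e) : Gm a b c d e f := by
  obtain ⟨x1, x2, x3, y1, y2, y3, z1, z2, z3, h1, h2, h3, h4, h5, h6⟩ := h
  exact ⟨y1, y2, y3, x1, x2, x3, z1, z2, z3, h2, h1, h3, by linarith, h6, h5⟩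

theorem Gm.s23 (h : Gm a c b e d f) : Gm a b c d e f := by
  obtain ⟨x1, x2, x3, y1, y2, y3, z1, z2, z3, h1, h2, h3, h4, h5, h6⟩ := h
  exact ⟨x1, x2, x3, z1, z2, z3, y1, y2, y3, h1, h3, h2, h5, h4, by linarith⟩

theorem Gm.mv (s t : ℤ) (h : Gm a b (a * s ^ 2 + b * t ^ 2 + c + 2 * (d * s * t + e * s + f * t))
    d (e + s * a + t * d) (f + s * d + t * b)) : Gm a b c d e f := by
  obtain ⟨x1, x2, x3, y1, y2, y3, z1, z2, z3, h1, h2, h3, h4, h5, h6⟩ := h
  exact ⟨x1, x2, x3, y1, y2, y3, z1 - s * x1 - t * y1, z2 - s * x2 - t * y2, z3 - s * x3 - t * y3,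
    h1, h2, by
      linear_combination h3 + s ^ 2 * h1 + t ^ 2 * h2 + 2 * s * t * h4 - 2 * s * h5 - 2 * t * h6,
    h4, by linear_combination h5 - s * h1 - t * h4, by linear_combination h6 - s * h4 - t * h2⟩

theorem Un.s12 (h : Un a b c d e f) : Un b a c d f e :=
  ⟨fun x y z => by linarith [h.1 y x z], by linarith [h.2]⟩

theorem Un.s23 (h : Un a b c d e f) : Un a c b e d f :=
  ⟨fun x y z => by linarith [h.1 x z y], by linarith [h.2]⟩

theorem Un.mv (s t : ℤ) (h : Un a b c d e f) :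
    Un a b (a * s ^ 2 + b * t ^ 2 + c + 2 * (d * s * t + e * s + f * t))
      d (e + s * a + t * d) (f + s * d + t * b) :=
  ⟨fun x y z => by linarith [h.1 (x + s * z) (y + t * z) z], by linear_combination h.2⟩

theorem ineq (h0 : 0 ≤ a) (h1 : a ≤ b) (h2 : b ≤ c) (hd : 2 * |d| ≤ a) (he : 2 * |e| ≤ a)
    (hf : 2 * |f| ≤ b) (h : d * e * f < 0 → 2 * (|d| + |e| + |f|) ≤ a + b) :
    a * b * c ≤ 4 * (a * b * c + 2 * (d * e * f) - a * f ^ 2 - b * e ^ 2 - c * d ^ 2) := by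
  rw [← sq_abs d, ← sq_abs e, ← sq_abs f]
  have k : -(|d| * |e| * |f|) ≤ d * e * f := by rw [← abs_mul, ← abs_mul]; exact neg_abs_le _
  have p1 := abs_nonneg d
  have p2 := abs_nonneg e
  have p3 := abs_nonneg f
  generalize |d| = D at *
  generalize |e| = E at *
  generalize |f| = F at *
  have hb : 0 ≤ b := h0.trans h1
  have hc : 0 ≤ c := hb.trans h2
  have hac : 0 ≤ a * c := mul_nonneg h0 hc
  have q1 : 2 * (a * F ^ 2) ≤ a * c * F := by
    nlinarith [mul_nonneg (mul_nonneg h0 p3) (show 0 ≤ c - 2 * F by linarith)]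
  have q2 : 2 * (b * E ^ 2) ≤ a * b * E := by
    nlinarith [mul_nonneg (mul_nonneg hb p2) (show 0 ≤ a - 2 * E by linarith)]
  have q2' : a * b * E ≤ a * c * E := by gcongr
  have q3 : 2 * (c * D ^ 2) ≤ a * c * D := by
    nlinarith [mul_nonneg (mul_nonneg hc p1) (show 0 ≤ a - 2 * D by linarith)]
  rcases lt_or_ge (d * e * f) 0 with k0 | k0
  · have q4 : a * c * (2 * (D + E + F)) ≤ a * c * (2 * b) :=
      mul_le_mul_of_nonneg_left (by linarith [h k0]) hac
    have q5 : 2 * D * (2 * F) * (2 * E) ≤ a * b * c :=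
      mul_le_mul (mul_le_mul hd hf (by positivity) h0) (by linarith) (by positivity)
        (mul_nonneg h0 hb)
    linarith
  · have q4 : a * c * (2 * (D + E + F)) ≤ a * c * (3 * b) :=
      mul_le_mul_of_nonneg_left (by linarith) hac
    linarith

theorem red (n : ℕ) : ∀ a b c d e f : ℤ, a + b + c < n → Un a b c d e f → Gm a b c d e f := by
  induction n with
  | zero =>
    intro a b c d e f hn h
    linarith [h.1 1 0 0, h.1 0 1 0, h.1 0 0 1, Nat.cast_zero (R := ℤ)]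
  | succ n ih =>
    have key : ∀ a b c d e f : ℤ, a + b + c < n + 1 → Un a b c d e f → a ≤ b → b ≤ c →
        Gm a b c d e f := by
      intro a b c d e f hn h h1 h2
      by_contra hG
      have m1 : ∀ s t : ℤ, 0 ≤ a * s ^ 2 + b * t ^ 2 + 2 * (d * s * t + e * s + f * t) :=
        fun s t => le_of_not_gt fun k =>
          hG (Gm.mv s t (ih _ _ _ _ _ _ (by linarith) (h.mv s t)))
      have m2 : ∀ s : ℤ, 0 ≤ a * s ^ 2 + 2 * (d * s) := fun s => le_of_not_gt fun k =>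
        hG (Gm.mv s 0 (ih _ _ _ _ _ _ (by linarith) (h.s23.mv s 0))).s23
      have h0 : 0 ≤ a := by linarith [h.1 1 0 0]
      have hd : 2 * |d| ≤ a := by cases abs_cases d <;> linarith [m2 1, m2 (-1)]
      have he : 2 * |e| ≤ a := by cases abs_cases e <;> linarith [m1 1 0, m1 (-1) 0]
      have hf : 2 * |f| ≤ b := by cases abs_cases f <;> linarith [m1 0 1, m1 0 (-1)]
      have hi := ineq h0 h1 h2 hd he hf fun k => by
        rcases abs_cases d with ⟨e1, k1⟩ | ⟨e1, k1⟩ <;> rcases abs_cases e with ⟨e2, k2⟩ | ⟨e2, k2⟩ <;>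
          rcases abs_cases f with ⟨e3, k3⟩ | ⟨e3, k3⟩ <;> rw [e1, e2, e3]
        · exact absurd k (not_lt.2 (by positivity))
        · linarith [m1 (-1) 1]
        · linarith [m1 1 (-1)]
        · nlinarith [mul_nonneg k1 (mul_pos_of_neg_of_neg k2 k3).le]
        · linarith [m1 (-1) (-1)]
        · nlinarith [mul_nonneg k2 (mul_pos_of_neg_of_neg k1 k3).le]
        · nlinarith [mul_nonneg k3 (mul_pos_of_neg_of_neg k1 k2).le]
        · linarith [m1 1 1]
      have h3 := h.2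
      rw [h3] at hi
      have ha : a ≤ 1 := le_of_not_gt fun k => by
        have : 2 * 2 * 2 ≤ a * b * c :=
          mul_le_mul (mul_le_mul k (by linarith) (by norm_num) h0) (by linarith) (by norm_num)
            (mul_nonneg h0 (by linarith))
        linarith
      obtain rfl : d = 0 := abs_eq_zero.1 (by have := abs_nonneg d; omega)
      obtain rfl : e = 0 := abs_eq_zero.1 (by have := abs_nonneg e; omega)
      obtain rfl : a = 1 := by
        rcases (by omega : a = 0 ∨ a = 1) with rfl | rfl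
        · simp at h3
        · rfl
      have h4 : 4 * f ^ 2 ≤ b * c := by
        rw [← sq_abs f]
        have := mul_le_mul hf (hf.trans h2) (by positivity) (by linarith)
        linarith
      obtain rfl : b = 1 := le_antisymm (le_of_not_gt fun k => by nlinarith) h1
      obtain rfl : f = 0 := abs_eq_zero.1 (by have := abs_nonneg f; omega)
      obtain rfl : c = 1 := by linarith
      exact hG ⟨1, 0, 0, 0, 1, 0, 0, 0, 1, rfl, rfl, rfl, rfl, rfl, rfl⟩
    intro a b c d e f hn h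
    push_cast at hn
    rcases le_total a b with h1 | h1 <;> rcases le_total b c with h2 | h2 <;>
      rcases le_total a c with h3 | h3
    · exact key _ _ _ _ _ _ hn h h1 h2
    · exact key _ _ _ _ _ _ hn h h1 h2
    · exact (key _ _ _ _ _ _ (by linarith) h.s23 h3 h2).s23
    · exact (key _ _ _ _ _ _ (by linarith) h.s23.s12 h3 h1).s12.s23
    · exact (key _ _ _ _ _ _ (by linarith) h.s12 h1 h3).s12
    · exact (key _ _ _ _ _ _ (by linarith) h.s12.s23 h2 h3).s23.s12
    · exact (key _ _ _ _ _ _ (by linarith) h.s12.s23.s12 h2 h1).s12.s23.s12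
    · exact (key _ _ _ _ _ _ (by linarith) h.s12.s23.s12 h2 h1).s12.s23.s12

theorem of_dvd {D d m s : ℤ} (hd : 0 < d) (hm : 0 < m) (h : m + 1 = d * D) (hs : m ∣ s ^ 2 + d) :
    ∃ x y z u v w : ℤ, x ^ 2 + y ^ 2 + z ^ 2 = D ∧ x * u + y * v + z * w = 1 := by
  obtain ⟨a, ha⟩ := hs
  obtain ⟨n, hn⟩ := exists_nat_gt (a + m + D)
  obtain ⟨x1, x2, x3, -, -, -, z1, z2, z3, -, -, h3, -, h5, -⟩ := red n a m D s 1 0 hn
    ⟨fun x y z => nonneg_of_mul_nonneg_left (b := d * m) (by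
      have : (a * x ^ 2 + m * y ^ 2 + D * z ^ 2 + 2 * (s * x * y + 1 * x * z + 0 * y * z)) *
          (d * m) = d * (m * y + s * x) ^ 2 + (d * x + m * z) ^ 2 + m * z ^ 2 := by
        linear_combination (-d * x ^ 2) * ha - (m * z ^ 2) * h
      rw [this]; positivity) (mul_pos hd hm), by linear_combination (-D) * ha - h⟩
  exact ⟨z1, z2, z3, x1, x2, x3, h3, by linarith⟩

theorem exists_prime {D : ℕ} (hD : D ≠ 0) {c k r : ℕ} (h : k * r + 1 = c * D) (hr : r % 2 = 1) :
    ∃ p d : ℕ, p.Prime ∧ k * p + 1 = d * D ∧ p % 4 = r % 4 ∧ d % (4 * k) = c % (4 * k) := by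
  obtain ⟨p, h1, h2, h3⟩ := Nat.forall_exists_prime_gt_and_modEq r (q := 4 * D) (a := r)
    (by omega) (Nat.Coprime.mul_right
      (Nat.Coprime.pow_right 2 (Nat.coprime_two_right.2 (Nat.odd_iff.2 hr)))
      (Nat.Coprime.of_dvd_right (Dvd.intro_left c h.symm) (by simp)))
  obtain ⟨j, hj⟩ := (Nat.modEq_iff_exists_eq_add h1.le).1 h3.symm
  exact ⟨p, c + 4 * k * j, h2, by rw [hj]; linear_combination h, by
    rw [hj, mul_assoc, Nat.add_mul_mod_self_left], Nat.add_mul_mod_self_left _ _ _⟩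

theorem exists_sq {p d : ℕ} (hp : p.Prime) (h : jacobiSym (-d) p = 1) :
    ∃ s : ℤ, (p : ℤ) ∣ s ^ 2 + d := by
  have := Fact.mk hp
  obtain ⟨s, hs⟩ := ZMod.isSquare_of_jacobiSym_eq_one h
  obtain ⟨s, rfl⟩ := ZMod.intCast_surjective s
  refine ⟨s, (ZMod.intCast_zmod_eq_zero_iff_dvd _ _).1 ?_⟩
  push_cast at hs ⊢
  linear_combination -hs

theorem odd_case {D : ℕ} {c r : ℕ} (h : 2 * r + 1 = c * D)
    (hc : c % 8 = 1 ∧ r % 4 = 1 ∨ c % 8 = 3 ∧ r % 2 = 1) :
    ∃ x y z u v w : ℤ, x ^ 2 + y ^ 2 + z ^ 2 = D ∧ x * u + y * v + z * w = 1 := by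
  obtain ⟨p, d, hp, h1, h2, h3⟩ := exists_prime (by rintro rfl; omega) h (by omega)
  have po : Odd p := Nat.odd_iff.2 (by omega)
  have dodd : Odd d := Nat.odd_iff.2 (by omega)
  have h1' : 2 * (p : ℤ) + 1 = d * D := by exact_mod_cast h1
  have j1 : jacobiSym p d = 1 := by
    rw [show jacobiSym p d = jacobiSym (4 * p) d by
        rw [jacobiSym.mul_left, jacobiSym.at_four dodd, one_mul],
      jacobiSym.mod_left' (a₂ := -2) (Int.modEq_iff_dvd.2 ⟨-(2 * D), by linear_combination -2 * h1'⟩),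
      jacobiSym.at_neg_two dodd, ZMod.χ₈'_nat_eq_if_mod_eight, if_neg (by omega), if_pos (by omega)]
  have j2 : jacobiSym (-d) p = 1 := by
    rw [jacobiSym.neg _ po]
    rcases (by omega : p % 4 = 1 ∨ p % 4 = 3 ∧ d % 4 = 3) with k | k
    · rw [ZMod.χ₄_nat_one_mod_four k, jacobiSym.quadratic_reciprocity_one_mod_four' dodd k, j1,
        one_mul]
    · rw [ZMod.χ₄_nat_three_mod_four k.1, jacobiSym.quadratic_reciprocity_three_mod_four k.2 k.1,
        j1]
      norm_num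
  obtain ⟨s, hs⟩ := exists_sq hp j2
  obtain ⟨s, hs, so⟩ : ∃ s : ℤ, (p : ℤ) ∣ s ^ 2 + d ∧ Odd s := by
    rcases Int.even_or_odd s with k | k
    · refine ⟨s + p, ?_, k.add_odd (Odd.natCast po)⟩
      rw [show (s + p) ^ 2 + d = s ^ 2 + d + p * (2 * s + p) by ring]
      exact hs.add (dvd_mul_right _ _)
    · exact ⟨s, hs, k⟩
  exact of_dvd (s := s) (by exact_mod_cast dodd.pos) (by exact_mod_cast by linarith [hp.pos]) h1'
    (IsCoprime.mul_dvd (Int.isCoprime_two_left.2 (Odd.natCast po))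
      (so.pow.add_odd (Odd.natCast dodd)).two_dvd hs)

end ThreeSq

open ThreeSq in
theorem three_sq_prim (D : ℕ) (h : D % 4 = 1 ∨ D % 4 = 2 ∨ D % 8 = 3) :
    ∃ x y z u v w : ℤ, x^2 + y^2 + z^2 = (D:ℤ) ∧ x*u + y*v + z*w = 1 := by
  rcases h with h | h | h
  · exact odd_case (c := 3) (r := (3 * D - 1) / 2) (by omega) (by omega)
  · obtain ⟨p, d, hp, h1, h2, h3⟩ := exists_prime (D := D) (by omega) (c := 1) (k := 1)
      (r := D - 1) (by omega) (by omega)
    have po : Odd p := Nat.odd_iff.2 (by omega)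
    have dodd : Odd d := Nat.odd_iff.2 (by omega)
    have h1' : (p : ℤ) + 1 = d * D := by exact_mod_cast by simpa using h1
    obtain ⟨s, hs⟩ := exists_sq (d := d) hp (by
      rw [jacobiSym.neg _ po, ZMod.χ₄_nat_one_mod_four (by omega),
        jacobiSym.quadratic_reciprocity_one_mod_four' dodd (by omega), one_mul,
        jacobiSym.mod_left' (a₂ := -1) (Int.modEq_iff_dvd.2 ⟨-D, by linear_combination -h1'⟩),
        jacobiSym.at_neg_one dodd, ZMod.χ₄_nat_one_mod_four (by omega)])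
    exact of_dvd (by exact_mod_cast dodd.pos) (by exact_mod_cast hp.pos) h1' hs
  · exact odd_case (c := 1) (r := (D - 1) / 2) (by omega) (by omega)

end Pool.Agent.Lib.MP_094079_nt
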