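import Pool.Agent.Lib.MP_094079_nt.Spec
import Pool.Agent.Lib.MP_094079_nt.ThreeSq

/-! Locks, lifting of square roots, the extremal representation and the final reading. -/
namespace Pool.Agent.Lib.MP_094079_nt

open Quaternion

variable {x y B G v v' a a' : H} {n g mu nu m D : ℤ}

theorem ab_dv : Dv n x ↔ n ∣ x.re ∧ n ∣ x.imI ∧ n ∣ x.imJ ∧ n ∣ x.imK := by
  constructor
  · rintro ⟨y, rfl⟩
    exact ⟨⟨y.re, rfl⟩, ⟨y.imI, rfl⟩, ⟨y.imJ, rfl⟩, ⟨y.imK, rfl⟩⟩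
  · rintro ⟨⟨a, h1⟩, ⟨b, h2⟩, ⟨c, h3⟩, ⟨d, h4⟩⟩
    exact ⟨⟨a, b, c, d⟩, Quaternion.ext _ _ h1 h2 h3 h4⟩

theorem ab_scc (k : ℤ) : (sc k).re = k ∧ (sc k).imI = 0 ∧ (sc k).imJ = 0 ∧ (sc k).imK = 0 :=
  ⟨rfl, rfl, rfl, rfl⟩

theorem ab_mkc (a b c d : ℤ) : (mkH a b c d).re = a ∧ (mkH a b c d).imI = b ∧
    (mkH a b c d).imJ = c ∧ (mkH a b c d).imK = d :=
  ⟨rfl, rfl, rfl, rfl⟩

theorem ab_star_mul (x : H) : star x * x = sc (nrm x) := by
  ext <;> simp [ab_scc, nrm] <;> ring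

theorem ab_sc (k : ℤ) : sc k = k • (1 : H) := by
  ext <;> simp [-zsmul_eq_mul, ab_scc]

theorem ab_add (h : Dv n x) (h' : Dv n y) : Dv n (x + y) := by
  obtain ⟨u, rfl⟩ := h
  obtain ⟨w, rfl⟩ := h'
  exact ⟨u + w, (smul_add _ _ _).symm⟩

theorem ab_left (y : H) (h : Dv n x) : Dv n (y * x) := by
  obtain ⟨u, rfl⟩ := h
  exact ⟨y * u, mul_smul_comm _ _ _⟩

theorem ab_right (h : Dv n x) (y : H) : Dv n (x * y) := by
  obtain ⟨u, rfl⟩ := h
  exact ⟨u * y, smul_mul_assoc _ _ _⟩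

theorem ab_smul {k : ℤ} (h : n ∣ k) (x : H) : Dv n (k • x) := by
  obtain ⟨c, rfl⟩ := h
  exact ⟨c • x, mul_smul _ _ _⟩

theorem ab_mul {k : ℤ} (h : Dv n x) (h' : Dv k y) : Dv (n * k) (x * y) := by
  obtain ⟨u, rfl⟩ := h
  obtain ⟨w, rfl⟩ := h'
  exact ⟨u * w, smul_mul_smul_comm _ _ _ _⟩

theorem ab_cancel (hc : IsCoprime n g) (h : Dv n (g • x)) : Dv n x := by
  rw [ab_dv] at h ⊢
  exact ⟨hc.dvd_of_dvd_mul_left h.1, hc.dvd_of_dvd_mul_left h.2.1, hc.dvd_of_dvd_mul_left h.2.2.1,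
    hc.dvd_of_dvd_mul_left h.2.2.2⟩

theorem ab_cancel' (hg : g ≠ 0) (h : Dv (g * n) (g • x)) : Dv n x := by
  rw [ab_dv] at h ⊢
  exact ⟨Int.dvd_of_mul_dvd_mul_left hg h.1, Int.dvd_of_mul_dvd_mul_left hg h.2.1,
    Int.dvd_of_mul_dvd_mul_left hg h.2.2.1, Int.dvd_of_mul_dvd_mul_left hg h.2.2.2⟩

theorem ab_conj (h : star G * v * G = nrm G • v') (mu : ℤ) :
    star G * (sc mu + v) * G = nrm G • (sc mu + v') := by
  rw [mul_add, add_mul, h, ab_sc, mul_smul_comm, mul_one, smul_mul_assoc, ab_star_mul, ab_sc,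
    smul_add, smul_comm]

theorem ab_comm (ha : a * G = G * a') (nu : ℤ) : (sc nu + a) * G = G * (sc nu + a') := by
  rw [mul_add, add_mul, ha, ab_sc, mul_smul_comm, smul_mul_assoc, mul_one, one_mul]

theorem ab_conj2 (h : star G * v * G = nrm G • v') (ha : a * G = G * a') (mu nu : ℤ) :
    star G * ((sc mu + v) * (sc nu + a)) * G = nrm G • ((sc mu + v') * (sc nu + a')) := by
  rw [← smul_mul_assoc, ← ab_conj h, mul_assoc, mul_assoc, ab_comm ha]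
  simp only [mul_assoc]

theorem ab_sq (hv : v.re = 0) (mu : ℤ) :
    (2 * mu) • (sc mu + v) = (sc mu + v) * (sc mu + v) + (mu ^ 2 + nrm v) • (1 : H) := by
  rw [← ab_sc]
  ext <;> simp [-zsmul_eq_mul, ab_scc, nrm, hv] <;> ring

theorem ab_exp {X Y S G : H} {a b s t : ℤ} (hX : a • X = X * X + s • (1 : H))
    (hY : b • Y = Y * Y + t • (1 : H)) :
    (a * b) • (S * (X * Y) * G) =
      S * X * (X * Y) * (Y * G) + t • (S * (X * X) * G) + s • (S * (b • Y) * G) := by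
  have e : (a * b) • (S * (X * Y) * G) = S * ((a • X) * (b • Y)) * G := by
    rw [smul_mul_smul_comm, mul_smul_comm, smul_mul_assoc]
  rw [e, hX]
  generalize b • Y = Z at hY ⊢
  rw [add_mul, smul_mul_assoc, one_mul, mul_add, add_mul, mul_smul_comm, smul_mul_assoc]
  congr 1
  rw [hY, mul_add, mul_smul_comm, mul_one, mul_add, add_mul, mul_smul_comm, smul_mul_assoc]
  simp only [mul_assoc]

theorem ab_sq8 (x : ℤ) : (x % 2 = 0 ∧ x ^ 2 % 4 = 0) ∨ (x % 2 = 1 ∧ x ^ 2 % 8 = 1) := by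
  have h : x % 4 = 0 ∨ x % 4 = 1 ∨ x % 4 = 2 ∨ x % 4 = 3 := by omega
  obtain ⟨k, hk⟩ : ∃ k, x = 4 * k + x % 4 := ⟨x / 4, by omega⟩
  rcases h with h | h | h | h <;> rw [h] at hk
  · have : x ^ 2 = 4 * (4 * k ^ 2) := by rw [hk]; ring
    omega
  · have : x ^ 2 = 8 * (2 * k ^ 2 + k) + 1 := by rw [hk]; ring
    omega
  · have : x ^ 2 = 4 * (4 * k ^ 2 + 4 * k + 1) := by rw [hk]; ring
    omega
  · have : x ^ 2 = 8 * (2 * k ^ 2 + 3 * k + 1) + 1 := by rw [hk]; ring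
    omega

theorem ab_cop {p x x' : ℤ} (hc : IsCoprime (2 * x) p) (h : p ∣ x' - x) : IsCoprime (2 * x') p := by
  obtain ⟨c, hc'⟩ := h
  have e : 2 * x' = 2 * x + p * (2 * c) := by linear_combination 2 * hc'
  rw [e]
  exact hc.add_mul_left_left _

theorem ab_sqd {k x x' d : ℤ} (h : k ∣ x ^ 2 + d) (h' : k ∣ x' - x) : k ∣ x' ^ 2 + d := by
  have e : x' ^ 2 + d = x ^ 2 + d + (x' - x) * (x' + x) := by ring
  rw [e]
  exact h.add (h'.mul_right _)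

theorem ab_prod (hv : v.re = 0) (m a b c : ℤ) : (sc m + v) * mkH a b c 0 =
    ⟨a * m - b * v.imI - c * v.imJ, b * m + a * v.imI - c * v.imK, c * m + a * v.imJ + b * v.imK,
      c * v.imI - b * v.imJ + a * v.imK⟩ := by
  ext <;> simp [ab_scc, ab_mkc, hv] <;> ring

theorem Dv.of_dvd {n k : ℤ} (h : Dv n x) (hk : k ∣ n) : Dv k x := by
  obtain ⟨u, rfl⟩ := h
  exact ab_smul hk u

theorem Dv.lcm {n k : ℤ} (h : Dv n x) (h' : Dv k x) (hc : IsCoprime n k) : Dv (n * k) x := by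
  rw [ab_dv] at h h' ⊢
  exact ⟨hc.mul_dvd h.1 h'.1, hc.mul_dvd h.2.1 h'.2.1, hc.mul_dvd h.2.2.1 h'.2.2.1,
    hc.mul_dvd h.2.2.2 h'.2.2.2⟩

theorem Dv.star (h : Dv n x) : Dv n (star x) := by
  rw [ab_dv] at h ⊢
  exact ⟨(re_star x).symm ▸ h.1, h.2.1.neg_right, h.2.2.1.neg_right, h.2.2.2.neg_right⟩

/-- changing the scalar parts of the two factors modulo `n` -/
theorem Dv.congr {mu' nu' : ℤ} (h : Dv n ((sc mu + v) * (sc nu + a))) (h1 : n ∣ mu' - mu)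
    (h2 : n ∣ nu' - nu) : Dv n ((sc mu' + v) * (sc nu' + a)) := by
  have e : (sc mu' + v) * (sc nu' + a) = (sc mu + v) * (sc nu + a) + (mu' - mu) • (sc nu' + a) +
      (nu' - nu) • (sc mu + v) := by
    ext <;> simp [-zsmul_eq_mul, ab_scc] <;> ring
  rw [e]
  exact ab_add (ab_add h (ab_smul h1 _)) (ab_smul h2 _)

theorem lock_fresh (hg : g = nrm G) (h : star G * v * G = g • v') (hc : IsCoprime n g)
    (hd : Dv n ((sc mu + v) * (G * x))) : Dv n ((sc mu + v') * x) := by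
  subst hg
  refine ab_cancel hc ?_
  rw [← smul_mul_assoc, ← ab_conj h, mul_assoc, mul_assoc]
  exact ab_left _ hd

theorem lock_keep (hg : g = nrm G) (h : star G * v * G = g • v') (ha : a * G = G * a')
    (hc : IsCoprime n g) (hd : Dv n ((sc mu + v) * (sc nu + a))) :
    Dv n ((sc mu + v') * (sc nu + a')) := by
  subst hg
  refine ab_cancel hc ?_
  rw [← ab_conj2 h ha]
  exact ab_right (ab_left _ hd) _

theorem lock_step {p tau : ℤ} {t : ℕ} (hv : v.re = 0) (hD : nrm v = D) (ha0 : a.re = 0)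
    (hg : nrm G = p * tau) (hp : p ≠ 0) (hc : IsCoprime p tau)
    (hc' : IsCoprime (2 * mu * nu) p)
    (h : star G * v * G = (p * tau) • v') (ha : a * G = G * a')
    (h1 : p ^ (t + 2) ∣ mu ^ 2 + D) (h2 : p ^ (t + 2) ∣ nu ^ 2 + nrm a)
    (hd : Dv (p ^ t) ((sc mu + v) * (sc nu - a))) (hF : Dv p ((sc mu - v) * G))
    (hA : Dv p ((sc nu - a) * G)) : Dv (p ^ (t + 1)) ((sc mu + v') * (sc nu - a')) := by
  subst hD
  have ha' : -a * G = G * -a' := by rw [neg_mul, mul_neg, ha]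
  have h0 : (-a).re = 0 := by simp [ha0]
  have hn : nrm (-a) = nrm a := by simp [nrm]
  have hs : star ((sc mu - v) * G) = star G * (sc mu + v) := by
    rw [star_mul]
    congr 1
    ext <;> simp [ab_scc, hv]
  have hF' := hF.star
  rw [hs] at hF'
  rw [sub_eq_add_neg] at hd hA ⊢
  rw [← hg] at h
  have k1 := ab_mul (ab_mul hF' hd) hA
  have e1 : p * p ^ t * p = p ^ (t + 2) := by ring
  rw [e1] at k1
  have e2 := ab_exp (S := star G) (G := G) (ab_sq hv mu) (ab_sq h0 nu)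
  rw [hn] at e2
  have k2 := ab_add (ab_add k1 (ab_smul h2 (star G * ((sc mu + v) * (sc mu + v)) * G)))
    (ab_smul h1 (star G * ((2 * nu) • (sc nu + -a)) * G))
  rw [← e2, ab_conj2 h ha', hg, smul_smul, pow_succ' p (t + 1),
    show 2 * mu * (2 * nu) * (p * tau) = p * (2 * (2 * mu * nu) * tau) by ring, mul_smul] at k2
  refine ab_cancel (IsCoprime.pow_left ?_) (ab_cancel' hp k2)
  exact (hc'.of_mul_left_left.of_mul_left_left.mul_left hc').symm.mul_right hc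

theorem lock_end (hv : v.re = 0) (hD : nrm v = D) (ha0 : a.re = 0) (hp : Prim v)
    (hd0 : 0 < nrm a) (h1 : n ∣ mu ^ 2 + D) (h2 : n ∣ nu ^ 2 + nrm a) (hn : D * nrm a < n)
    (hd : Dv n ((sc mu + v) * (sc nu - a))) : D ≤ nrm a := by
  obtain ⟨w, hw⟩ := hp
  have k1 : n ∣ mu * nu + dot v a := by
    have := (ab_dv.1 hd).1
    convert this using 1
    simp [ab_scc, dot, hv, ha0]
    ring
  have e1 : D * nrm a - dot v a ^ 2 = (v.imJ * a.imK - v.imK * a.imJ) ^ 2 +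
      (v.imK * a.imI - v.imI * a.imK) ^ 2 + (v.imI * a.imJ - v.imJ * a.imI) ^ 2 := by
    rw [← hD]
    simp only [nrm, dot, hv, ha0]
    ring
  have k2 : n ∣ D * nrm a - dot v a ^ 2 := by
    have e : D * nrm a - dot v a ^ 2 = (mu ^ 2 + D) * nrm a - mu ^ 2 * (nu ^ 2 + nrm a) +
        (mu * nu + dot v a) * (mu * nu - dot v a) := by ring
    rw [e]
    exact ((h1.mul_right _).sub (h2.mul_left _)).add (k1.mul_right _)
  have k3 : D * nrm a - dot v a ^ 2 = 0 :=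
    Int.eq_zero_of_dvd_of_nonneg_of_lt (by rw [e1]; positivity) (by nlinarith) k2
  rw [e1] at k3
  have z1 : v.imJ * a.imK - v.imK * a.imJ = 0 := by nlinarith
  have z2 : v.imK * a.imI - v.imI * a.imK = 0 := by nlinarith
  have z3 : v.imI * a.imJ - v.imJ * a.imI = 0 := by nlinarith
  unfold dot at hw
  have a1 : a.imI = dot a w * v.imI := by
    unfold dot
    linear_combination (-a.imI) * hw - w.imJ * z3 + w.imK * z2
  have a2 : a.imJ = dot a w * v.imJ := by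
    unfold dot
    linear_combination (-a.imJ) * hw + w.imI * z3 - w.imK * z1
  have a3 : a.imK = dot a w * v.imK := by
    unfold dot
    linear_combination (-a.imK) * hw - w.imI * z2 + w.imJ * z1
  generalize dot a w = s at a1 a2 a3
  have e2 : nrm a = s ^ 2 * D := by
    rw [← hD]
    simp only [nrm, hv, ha0]
    rw [a1, a2, a3]
    ring
  have p1 : 0 ≤ D := by
    rw [← hD, nrm]
    positivity
  have p2 : s ≠ 0 := by
    rintro rfl
    simp [e2] at hd0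
  have p3 : 1 ≤ s ^ 2 := by
    have := sq_pos_of_ne_zero p2
    omega
  rw [e2]
  exact le_mul_of_one_le_left p1 p3

theorem lock_know (hc : IsCoprime (2 * nu) n) (hd : Dv n (x * (sc nu - a)))
    (hB : Dv n ((sc nu + a) * B)) : Dv n (x * B) := by
  refine ab_cancel hc.symm ?_
  have e : (2 * nu) • (x * B) = x * (sc nu - a) * B + x * ((sc nu + a) * B) := by
    rw [mul_assoc, ← mul_add, ← add_mul, sub_add_add_cancel, ab_sc, ← add_smul, smul_mul_assoc,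
      one_mul, mul_smul_comm, two_mul]
  rw [e]
  exact ab_add (ab_right hd _) (ab_left _ hB)

theorem hensel {p M x d : ℤ} {k : ℕ} (hk : 1 ≤ k) (hc : IsCoprime (2 * x * M) p)
    (h : p ^ k ∣ x ^ 2 + d) (j : ℕ) :
    ∃ x' : ℤ, p ^ k * M ∣ x' - x ∧ p ^ (k + j) ∣ x' ^ 2 + d := by
  induction j with
  | zero => exact ⟨x, by simp, h⟩
  | succ j ih =>
    obtain ⟨y, h1, c, h2⟩ := ih
    have h3 : p ∣ y - x := ((dvd_pow_self p (by omega)).mul_right M).trans h1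
    obtain ⟨u, w, h4⟩ := (ab_cop hc.of_mul_left_left h3).mul_left hc.of_mul_left_right
    obtain ⟨i, hi⟩ : ∃ i, k + j = i + 1 := ⟨k + j - 1, by omega⟩
    refine ⟨y - p ^ (k + j) * M * (c * u), ?_, c * w + p ^ i * (M * c * u) ^ 2, ?_⟩
    · have e : y - p ^ (k + j) * M * (c * u) - x = y - x - p ^ k * M * (p ^ j * (c * u)) := by ring
      rw [e]
      exact h1.sub (dvd_mul_right _ _)
    · rw [← add_assoc, pow_succ p (k + j)]
      rw [hi] at h2 ⊢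
      linear_combination h2 - p ^ (i + 1) * c * h4

theorem mu_exists {p q l kp kq r0 s0 : ℕ} {x : ℤ} (h1 : 1 ≤ kp) (h2 : kp ≤ r0) (h3 : 1 ≤ kq)
    (h4 : kq ≤ s0) (hpq : Nat.Coprime p q) (hl : Nat.Coprime l (p * q))
    (hc : IsCoprime (2 * x) ((p * q : ℕ) : ℤ))
    (h : ((p ^ kp * q ^ kq * l : ℕ) : ℤ) ∣ x ^ 2 + D) :
    ∃ mu : ℤ, ((p ^ kp * q ^ kq * l : ℕ) : ℤ) ∣ mu - x ∧
      ((p ^ r0 * q ^ s0 * l : ℕ) : ℤ) ∣ mu ^ 2 + D ∧
      IsCoprime (2 * mu) ((p ^ r0 * q ^ s0 : ℕ) : ℤ) := by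
  push_cast at hc h ⊢
  have cpq : IsCoprime (p : ℤ) q := Nat.isCoprime_iff_coprime.2 hpq
  have cl : IsCoprime (l : ℤ) (p * q) := by exact_mod_cast Nat.isCoprime_iff_coprime.2 hl
  have clp := cl.of_mul_right_left
  have clq := cl.of_mul_right_right
  obtain ⟨x1, a1, a2⟩ := hensel (M := (q : ℤ) ^ kq * l) h1
    (hc.of_mul_right_left.mul_left (cpq.symm.pow_left.mul_left clp))
    (((dvd_mul_right _ _).mul_right _).trans h) (r0 - kp)
  rw [Nat.add_sub_cancel' h2] at a2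
  rw [← mul_assoc] at a1
  have a3 := ab_sqd h a1
  have dp : (p : ℤ) ∣ p ^ kp * q ^ kq * l := ((dvd_pow_self _ (by omega)).mul_right _).mul_right _
  have dq : (q : ℤ) ∣ p ^ kp * q ^ kq * l := ((dvd_pow_self _ (by omega)).mul_left _).mul_right _
  obtain ⟨x2, b1, b2⟩ := hensel (M := (p : ℤ) ^ r0 * l) h3
    ((ab_cop hc.of_mul_right_right (dq.trans a1)).mul_left (cpq.pow_left.mul_left clq))
    (((dvd_mul_left _ _).mul_right _).trans a3) (s0 - kq)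
  rw [Nat.add_sub_cancel' h4] at b2
  have b3 : (p : ℤ) ^ kp * q ^ kq * l ∣ x2 - x := by
    have e : x2 - x = x2 - x1 + (x1 - x) := by ring
    rw [e]
    refine Dvd.dvd.add (Dvd.dvd.trans ?_ b1) a1
    rw [mul_comm ((p : ℤ) ^ kp), mul_assoc]
    exact mul_dvd_mul_left _ (mul_dvd_mul_right (pow_dvd_pow _ h2) _)
  refine ⟨x2, b3, IsCoprime.mul_dvd (clp.symm.pow_left.mul_left clq.symm.pow_left)
    (IsCoprime.mul_dvd cpq.pow (ab_sqd a2 (((dvd_mul_right _ _).mul_left _).trans b1)) b2)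
    (ab_sqd ((dvd_mul_left _ _).trans h) ((dvd_mul_left _ _).trans b3)), ?_⟩
  exact (ab_cop hc.of_mul_right_left (dp.trans b3)).pow_right.mul_right
    (ab_cop hc.of_mul_right_right (dq.trans b3)).pow_right

/-- primitive triples with a given sum of squares -/
def abT (D x y z : ℤ) : Prop := x ^ 2 + y ^ 2 + z ^ 2 = D ∧ ∃ a b c : ℤ, x * a + y * b + z * c = 1

theorem abT_abs {x y z : ℤ} (h : abT D x y z) : abT D |x| |y| |z| := by
  obtain ⟨h1, a, b, c, h2⟩ := h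
  refine ⟨by simpa only [sq_abs] using h1, x.sign * a, y.sign * b, z.sign * c, ?_⟩
  rw [← mul_assoc, ← mul_assoc, ← mul_assoc, mul_comm |x|, mul_comm |y|, mul_comm |z|,
    Int.sign_mul_abs, Int.sign_mul_abs, Int.sign_mul_abs, h2]

theorem abT_12 {x y z : ℤ} (h : abT D x y z) : abT D y x z := by
  obtain ⟨h1, a, b, c, h2⟩ := h
  exact ⟨by linarith, b, a, c, by linarith⟩

theorem abT_23 {x y z : ℤ} (h : abT D x y z) : abT D x z y := by
  obtain ⟨h1, a, b, c, h2⟩ := h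
  exact ⟨by linarith, a, c, b, by linarith⟩

theorem abT_max (hD : 0 < D) (h : ∃ x y z, abT D x y z) :
    ∃ x y z, abT D x y z ∧ 0 < x ∧ y ≤ x ∧ z ≤ y ∧ 0 ≤ z ∧ D ≤ 3 * x ^ 2 ∧
      ∀ x' y' z', abT D x' y' z' → x' ≤ x := by
  obtain ⟨x, ⟨y, z, h1⟩, h2⟩ := Int.exists_greatest_of_bdd (P := fun x => ∃ y z, abT D x y z)
    ⟨D, fun x ⟨y, z, k⟩ => by nlinarith [k.1, Int.le_self_sq x]⟩ h
  have m : ∀ x' y' z', abT D x' y' z' → x' ≤ x := fun x' y' z' k => h2 x' ⟨y', z', k⟩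
  have h3 := abT_abs h1
  have e : |x| = x := (m _ _ _ h3).antisymm (le_abs_self x)
  rw [e] at h3
  have key : ∀ y z, abT D x y z → z ≤ y → 0 ≤ z → 0 < x ∧ y ≤ x ∧ z ≤ y ∧ 0 ≤ z ∧ D ≤ 3 * x ^ 2 := by
    intro y z k k1 k2
    have k3 := m _ _ _ (abT_12 k)
    have k4 : D ≤ 3 * x ^ 2 := by nlinarith [k.1]
    refine ⟨(k2.trans (k1.trans k3)).lt_of_ne ?_, k3, k1, k2, k4⟩
    rintro rfl
    simp at k4
    omega
  rcases le_total |z| |y| with k | k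
  · have := key _ _ h3 k (abs_nonneg _)
    exact ⟨x, _, _, h3, this.1, this.2.1, this.2.2.1, this.2.2.2.1, this.2.2.2.2, m⟩
  · have := key _ _ (abT_23 h3) k (abs_nonneg _)
    exact ⟨x, _, _, abT_23 h3, this.1, this.2.1, this.2.2.1, this.2.2.2.1, this.2.2.2.2, m⟩

/-- a primitive representation whose largest coordinate is as large as possible -/
theorem extremal (D : ℕ) (h : D % 4 = 1 ∨ D % 4 = 2 ∨ D % 8 = 3) :
    ∃ v : H, v.re = 0 ∧ nrm v = D ∧ Prim v ∧ 0 < v.imI ∧ v.imJ ≤ v.imI ∧ v.imK ≤ v.imJ ∧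
      0 ≤ v.imK ∧ (D : ℤ) ≤ 3 * v.imI ^ 2 ∧
      ∀ v' : H, v'.re = 0 → nrm v' = D → Prim v' → v'.imI ≤ v.imI := by
  obtain ⟨x, y, z, a, b, c, h1, h2⟩ := three_sq_prim D h
  obtain ⟨x, y, z, ⟨k1, a, b, c, k2⟩, k3, k4, k5, k6, k7, k8⟩ :=
    abT_max (D := D) (by omega) ⟨x, y, z, h1, a, b, c, h2⟩
  refine ⟨⟨0, x, y, z⟩, rfl, by simpa [nrm] using k1, ⟨⟨0, a, b, c⟩, k2⟩, k3, k4, k5, k6, k7,
    fun v' e1 e2 ⟨w, e3⟩ => k8 _ v'.imJ v'.imK ⟨?_, w.imI, w.imJ, w.imK, e3⟩⟩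
  simpa [nrm, e1] using e2

theorem pc_exists (hv : v.re = 0) (hD : nrm v = D) (h : (m ^ 2 + D) % 4 = 2) :
    PC 1 m v ∨ PC 2 m v ∨ PC 3 m v := by
  subst hD
  simp only [nrm, hv] at h
  have h0 := ab_sq8 m
  have h1 := ab_sq8 v.imI
  have h2 := ab_sq8 v.imJ
  have h3 := ab_sq8 v.imK
  simp only [PC, co]
  omega

/-- reading off the representation -/
theorem rp_of {a b c M : ℤ} {n k : ℕ} {u : H} (hM : 0 < M)
    (hu : (sc m + v) * mkH a b c 0 = M • u) (hv : v.re = 0) (hD : nrm v = D)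
    (hn : (m ^ 2 + D) * (a ^ 2 + b ^ 2 + c ^ 2) = M ^ 2 * n)
    (hk : m * (a ^ 2 + b ^ 2 + c ^ 2) = M * 2 ^ k)
    (h1 : 0 ≤ a * m - b * v.imI - c * v.imJ) (h2 : 0 ≤ b * m + a * v.imI - c * v.imK)
    (h3 : c = 0 ∨ 0 ≤ c * m + a * v.imJ + b * v.imK) : Rp a b c n := by
  rw [ab_prod hv] at hu
  have e0 : a * m - b * v.imI - c * v.imJ = M * u.re := congrArg QuaternionAlgebra.re hu
  have e1 : b * m + a * v.imI - c * v.imK = M * u.imI := congrArg QuaternionAlgebra.imI hu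
  have e2 : c * m + a * v.imJ + b * v.imK = M * u.imJ := congrArg QuaternionAlgebra.imJ hu
  have e3 : c * v.imI - b * v.imJ + a * v.imK = M * u.imK := congrArg QuaternionAlgebra.imK hu
  rw [e0] at h1
  rw [e1] at h2
  rw [e2] at h3
  have p1 := (mul_nonneg_iff_of_pos_left hM).1 h1
  have p2 := (mul_nonneg_iff_of_pos_left hM).1 h2
  have p3 : c * |u.imJ| = c * u.imJ := by
    rcases h3 with h3 | h3
    · simp [h3]
    · rw [abs_of_nonneg ((mul_nonneg_iff_of_pos_left hM).1 h3)]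
  subst hD
  simp only [nrm, hv] at hn
  refine ⟨u.re.natAbs, u.imI.natAbs, u.imJ.natAbs, u.imK.natAbs, k, ?_, ?_⟩
  · zify
    simp only [sq_abs]
    refine mul_left_cancel₀ (pow_ne_zero 2 hM.ne') ?_
    rw [← hn]
    have : M ^ 2 * (u.re ^ 2 + u.imI ^ 2 + u.imJ ^ 2 + u.imK ^ 2) =
        (M * u.re) ^ 2 + (M * u.imI) ^ 2 + (M * u.imJ) ^ 2 + (M * u.imK) ^ 2 := by ring
    rw [this, ← e0, ← e1, ← e2, ← e3]
    ring
  · simp only [Int.natCast_natAbs]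
    rw [p3, abs_of_nonneg p1, abs_of_nonneg p2]
    refine mul_left_cancel₀ hM.ne' ?_
    linear_combination hk - a * e0 - b * e1 - c * e2

theorem rp_four {a b c : ℤ} {n : ℕ} (h : Rp a b c n) : Rp a b c (4 * n) := by
  obtain ⟨x, y, z, w, k, h1, h2⟩ := h
  refine ⟨2 * x, 2 * y, 2 * z, 2 * w, k + 1, by rw [h1]; ring, ?_⟩
  push_cast
  linear_combination 2 * h2

/-- parity of the product, first case -/
theorem dv_two_odd {a b c : ℤ} (hv : v.re = 0) (hD : nrm v = D) (hm : m % 2 = 1) (h8 : D % 8 = 3)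
    (he : (a + b + c) % 2 = 0) : Dv 2 ((sc m + v) * mkH a b c 0) := by
  subst hD
  simp only [nrm, hv] at h8
  have h1 := ab_sq8 v.imI
  have h2 := ab_sq8 v.imJ
  have h3 := ab_sq8 v.imK
  obtain ⟨m', rfl⟩ : ∃ k, m = 2 * k + 1 := ⟨m / 2, by omega⟩
  obtain ⟨i, hi⟩ : ∃ k, v.imI = 2 * k + 1 := ⟨v.imI / 2, by omega⟩
  obtain ⟨j, hj⟩ : ∃ k, v.imJ = 2 * k + 1 := ⟨v.imJ / 2, by omega⟩
  obtain ⟨l, hl⟩ : ∃ k, v.imK = 2 * k + 1 := ⟨v.imK / 2, by omega⟩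
  obtain ⟨e, rfl⟩ : ∃ k, a = 2 * k - b - c := ⟨(a + b + c) / 2, by omega⟩
  rw [ab_prod hv, hi, hj, hl]
  exact ab_dv.2 ⟨⟨(2 * e - b - c) * m' + e - b - c - b * i - c * j, by ring⟩,
    ⟨b * m' + (2 * e - b - c) * i + e - c - c * l, by ring⟩,
    ⟨c * m' + (2 * e - b - c) * j + e + b * l, by ring⟩,
    ⟨c * i - b * j + (2 * e - b - c) * l + e - b, by ring⟩⟩

/-- parity of the product, second case -/
theorem dv_two_pc {a b c : ℤ} {c0 : ℕ} (hv : v.re = 0) (hD : nrm v = D)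
    (h : (m ^ 2 + D) % 4 = 2) (hp : PC c0 m v)
    (hc : (c0 = 1 ∧ a % 2 = 1 ∧ b % 2 = 1 ∧ c % 2 = 0) ∨ (c0 = 2 ∧ a % 2 = 1 ∧ b % 2 = 0 ∧ c % 2 = 1)) :
    Dv 2 ((sc m + v) * mkH a b c 0) := by
  subst hD
  simp only [nrm, hv] at h
  have h0 := ab_sq8 m
  have h1 := ab_sq8 v.imI
  have h2 := ab_sq8 v.imJ
  have h3 := ab_sq8 v.imK
  rw [ab_prod hv]
  refine ab_dv.2 ?_
  rcases hc with ⟨rfl, ha, hb, hc⟩ | ⟨rfl, ha, hb, hc⟩ <;> simp only [PC, co] at hp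
  · obtain ⟨a', rfl⟩ : ∃ k, a = 2 * k + 1 := ⟨a / 2, by omega⟩
    obtain ⟨b', rfl⟩ : ∃ k, b = 2 * k + 1 := ⟨b / 2, by omega⟩
    obtain ⟨c', rfl⟩ : ∃ k, c = 2 * k := ⟨c / 2, by omega⟩
    obtain ⟨i, hi⟩ : ∃ k, v.imI = m + 2 * k := ⟨(v.imI - m) / 2, by omega⟩
    obtain ⟨j, hj⟩ : ∃ k, v.imK = v.imJ + 2 * k := ⟨(v.imK - v.imJ) / 2, by omega⟩
    exact ⟨⟨a' * m - b' * v.imI - c' * v.imJ - i, by linear_combination -hi⟩,
      ⟨b' * m + a' * v.imI - c' * v.imK + m + i, by linear_combination hi⟩,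
      ⟨c' * m + a' * v.imJ + b' * v.imK + v.imJ + j, by linear_combination hj⟩,
      ⟨c' * v.imI - b' * v.imJ + a' * v.imK + j, by linear_combination hj⟩⟩
  · obtain ⟨a', rfl⟩ : ∃ k, a = 2 * k + 1 := ⟨a / 2, by omega⟩
    obtain ⟨b', rfl⟩ : ∃ k, b = 2 * k := ⟨b / 2, by omega⟩
    obtain ⟨c', rfl⟩ : ∃ k, c = 2 * k + 1 := ⟨c / 2, by omega⟩
    obtain ⟨i, hi⟩ : ∃ k, v.imJ = m + 2 * k := ⟨(v.imJ - m) / 2, by omega⟩
    obtain ⟨j, hj⟩ : ∃ k, v.imK = v.imI + 2 * k := ⟨(v.imK - v.imI) / 2, by omega⟩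
    exact ⟨⟨a' * m - b' * v.imI - c' * v.imJ - i, by linear_combination -hi⟩,
      ⟨b' * m + a' * v.imI - c' * v.imK - j, by linear_combination -hj⟩,
      ⟨c' * m + a' * v.imJ + b' * v.imK + m + i, by linear_combination hi⟩,
      ⟨c' * v.imI - b' * v.imJ + a' * v.imK + v.imI + j, by linear_combination hj⟩⟩

end Pool.Agent.Lib.MP_094079_nt
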