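import Pool.Agent.Lib.MP_094079_nt.Spec

/-! A sieve on bit masks for the small values of `n`. -/
namespace Pool.Agent.Lib.MP_094079_nt

noncomputable section

/-- union of the masks `f 0, ..., f (n-1)` -/
def brOr (n : Nat) (f : Nat → Nat) : Nat := Nat.rec 0 (fun i acc => Nat.lor acc (f i)) n

/-- the exponent `D i^2 + 2 r i` -/
def brE (D r i : Nat) : Nat := Nat.mul i (Nat.add (Nat.mul D i) (Nat.mul 2 r))

/-- the mask of the numbers `D i^2 + 2 r i` -/
def brTh (D n r : Nat) : Nat := brOr n (fun i => Nat.pow 2 (brE D r i))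

def brFrc (r : Nat) (k : Nat → Nat) : Nat := Nat.rec (k 0) (fun m _ => k (Nat.succ m)) r

structure BrP where
  ap : Nat
  an : Nat
  bp : Nat
  bn : Nat
  cp : Nat
  cn : Nat
  d1 : Nat
  d2 : Nat
  d3 : Nat
  D : Nat
  n : Nat

def brL (a b c x y z : Nat) : Nat := Nat.add (Nat.add (Nat.mul a x) (Nat.mul b y)) (Nat.mul c z)

def brRow2 (D n v pd : Nat) : Nat :=
  brFrc (Nat.mod pd D) (fun r =>
    Nat.shiftLeft (Nat.shiftRight (brTh D n r) (brE D r (Nat.div pd D))) v)

/-- the norms of the points `(x, y, z) + j d` -/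
def brRow (P : BrP) (x y z k : Nat) : Nat :=
  cond (Nat.beq (brL P.ap P.bp P.cp x y z) (Nat.add (Nat.pow 2 k) (brL P.an P.bn P.cn x y z)))
    (brRow2 P.D P.n (brL x y z x y z) (brL P.d1 P.d2 P.d3 x y z)) 0

def brDec (P : BrP) (c : Nat) : Nat :=
  brRow P (Nat.land c 4095) (Nat.land (Nat.shiftRight c 12) 4095)
    (Nat.land (Nat.shiftRight c 24) 4095) (Nat.shiftRight c 36)

def brBlk (P : BrP) (c : Nat) : Nat :=
  brOr 64 (fun i => brDec P (Nat.land (Nat.shiftRight c (Nat.mul 40 i)) 1099511627775))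

def brT (P : BrP) (L : Nat) (cs : List Nat) : Nat :=
  Nat.land (List.rec 0 (fun c _ acc => Nat.lor acc (brBlk P c)) cs) (Nat.sub (Nat.pow 2 L) 1)

/-- the mask of the multiples of four -/
def brPat (n : Nat) : Nat := brOr n (fun i => Nat.pow 2 (Nat.mul 4 i))

def brOk (pat w acc m : Nat) : Bool :=
  Nat.beq (Nat.land (Nat.lor (Nat.land acc m) (Nat.shiftRight pat (Nat.mod (Nat.mul w w) 4))) m) m

def brStep (T pat : Nat) (ih : Nat → Nat → Bool) (w acc : Nat) : Bool :=
  cond (brOk pat w acc (Nat.sub (Nat.pow 2 (Nat.succ (Nat.mul 2 w))) 1))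
    (ih (Nat.succ w) (Nat.lor (Nat.shiftRight acc (Nat.succ (Nat.mul 2 w))) T)) false

def brSl (T pat cnt : Nat) : Nat → Nat → Bool :=
  Nat.rec (fun _ _ => true) (fun _ ih => brStep T pat ih) cnt

def brChk (P : BrP) (L : Nat) (cs : List Nat) (W : Nat) : Bool :=
  brSl (brT P L cs) (brPat W) W 0 (brT P L cs)

end

theorem brOr_bit {n : ℕ} {f : ℕ → ℕ} {t : ℕ} (h : (brOr n f).testBit t = true) :
    ∃ i, (f i).testBit t = true := by
  induction n with
  | zero => simp [brOr] at h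
  | succ n ih =>
    have e : brOr (n + 1) f = brOr n f ||| f n := rfl
    rw [e, Nat.testBit_or, Bool.or_eq_true] at h
    exact h.elim ih fun h => ⟨n, h⟩

theorem brFrc_eq (r : ℕ) (k : ℕ → ℕ) : brFrc r k = k r := by cases r <;> rfl

theorem brTh_bit {D n r t : ℕ} (h : (brTh D n r).testBit t = true) : ∃ i, t = brE D r i := by
  obtain ⟨i, hi⟩ := brOr_bit h
  exact ⟨i, (Nat.testBit_two_pow.symm.trans hi |> of_decide_eq_true).symm⟩

theorem brRow2_bit {D n v pd t : ℕ} (hD : 0 < D) (h : (brRow2 D n v pd).testBit t = true) :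
    ∃ j, t = v + 2 * j * pd + j ^ 2 * D := by
  rw [brRow2, brFrc_eq] at h
  change ((brTh D n (pd % D) >>> brE D (pd % D) (pd / D)) <<< v).testBit t = true at h
  rw [Nat.testBit_shiftLeft, Bool.and_eq_true, Nat.testBit_shiftRight, decide_eq_true_iff] at h
  obtain ⟨i, hi⟩ := brTh_bit h.2
  have hv := h.1
  have hpd := Nat.div_add_mod pd D
  generalize pd / D = s at *
  generalize pd % D = r at *
  simp only [brE, Nat.mul_eq, Nat.add_eq] at hi
  have hs : s ≤ i := by
    by_contra hc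
    obtain ⟨e, rfl⟩ : ∃ e, s = i + e + 1 := ⟨s - i - 1, by omega⟩
    nlinarith [Nat.zero_le (t - v), Nat.zero_le (D * e), Nat.zero_le (D * i), Nat.zero_le (r * e),
      Nat.zero_le (D * e * i), Nat.zero_le (D * e * e)]
  obtain ⟨j, rfl⟩ := Nat.exists_eq_add_of_le hs
  obtain ⟨u, rfl⟩ := Nat.exists_eq_add_of_le hv
  rw [Nat.add_sub_cancel_left] at hi
  exact ⟨j, by subst hpd; nlinarith⟩

/-- the values that the mask may contain -/
def BrG (P : BrP) (t : ℕ) : Prop :=
  ∃ x y z k : ℕ, t = x ^ 2 + y ^ 2 + z ^ 2 ∧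
    P.ap * x + P.bp * y + P.cp * z = 2 ^ k + (P.an * x + P.bn * y + P.cn * z)

def BrH (P : BrP) : Prop :=
  0 < P.D ∧ P.D = P.d1 ^ 2 + P.d2 ^ 2 + P.d3 ^ 2 ∧
    P.ap * P.d1 + P.bp * P.d2 + P.cp * P.d3 = P.an * P.d1 + P.bn * P.d2 + P.cn * P.d3

theorem brRow_bit {P : BrP} (hP : BrH P) {x y z k t : ℕ} (h : (brRow P x y z k).testBit t = true) :
    BrG P t := by
  obtain ⟨h0, h1, h2⟩ := hP
  unfold brRow at h
  cases hb : Nat.beq (brL P.ap P.bp P.cp x y z)
      (Nat.add (Nat.pow 2 k) (brL P.an P.bn P.cn x y z)) with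
  | false => rw [hb] at h; simp at h
  | true =>
    rw [hb, cond_true] at h
    obtain ⟨j, hj⟩ := brRow2_bit h0 h
    have hb' := Nat.eq_of_beq_eq_true hb
    simp only [brL, Nat.mul_eq, Nat.add_eq, Nat.pow_eq] at hj hb'
    refine ⟨x + j * P.d1, y + j * P.d2, z + j * P.d3, k, by rw [hj, h1]; ring, ?_⟩
    have h3 := congrArg (j * ·) h2
    nlinarith

theorem brT_bit {P : BrP} (hP : BrH P) {L : ℕ} {cs : List ℕ} {t : ℕ}
    (h : (brT P L cs).testBit t = true) : BrG P t := by
  unfold brT at h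
  rw [Nat.land_eq, Nat.testBit_and, Bool.and_eq_true] at h
  replace h := h.1
  induction cs with
  | nil => simp at h
  | cons c cs ih =>
    change (_ ||| brBlk P c).testBit t = true at h
    rw [Nat.testBit_or, Bool.or_eq_true] at h
    refine h.elim ih fun h => ?_
    obtain ⟨i, hi⟩ := brOr_bit h
    exact brRow_bit hP hi

theorem brSl_ok {T cnt n0 : ℕ} {R : ℕ → Prop}
    (hT : ∀ w j, T.testBit j = true → R (w ^ 2 + j)) :
    ∀ w acc, brSl T (brPat n0) cnt w acc = true → (∀ j, acc.testBit j = true → R (w ^ 2 + j)) →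
      ∀ n, w ^ 2 ≤ n → n < (w + cnt) ^ 2 → n % 4 ≠ 0 → R n := by
  induction cnt with
  | zero => intro w acc _ _ n h1 h2; simp at h2; omega
  | succ cnt ih =>
    intro w acc h ha n h1 h2 h4
    change brStep T (brPat n0) (brSl T (brPat n0) cnt) w acc = true at h
    unfold brStep at h
    cases hb : brOk (brPat n0) w acc (Nat.sub (Nat.pow 2 (Nat.succ (Nat.mul 2 w))) 1) with
    | false => rw [hb] at h; simp at h
    | true =>
      rw [hb, cond_true] at h
      obtain ⟨j, rfl⟩ := Nat.exists_eq_add_of_le h1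
      by_cases hj : j < 2 * w + 1
      · have e : ((acc &&& (2 ^ (2 * w + 1) - 1) ||| brPat n0 >>> (w * w % 4)) &&&
            (2 ^ (2 * w + 1) - 1)) = 2 ^ (2 * w + 1) - 1 := Nat.eq_of_beq_eq_true hb
        have e' := congrArg (·.testBit j) e
        simp only [Nat.testBit_and, Nat.testBit_or, Nat.testBit_two_pow_sub_one, hj, decide_true,
          Bool.and_true, Bool.or_eq_true, Nat.testBit_shiftRight] at e'
        refine e'.elim (ha j) fun hp => ?_
        obtain ⟨i, hi⟩ := brOr_bit hp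
        have : 4 * i = w * w % 4 + j := of_decide_eq_true (Nat.testBit_two_pow.symm.trans hi)
        rw [sq] at h4
        omega
      · refine ih (w + 1) _ h (fun i hi => ?_) _ (by nlinarith) (by rwa [add_assoc, add_comm 1]) h4
        change (acc >>> (2 * w + 1) ||| T).testBit i = true at hi
        rw [Nat.testBit_or, Bool.or_eq_true, Nat.testBit_shiftRight] at hi
        refine hi.elim (fun hi => ?_) (hT _ _)
        have := ha _ hi
        rwa [show w ^ 2 + (2 * w + 1 + i) = (w + 1) ^ 2 + i by ring] at this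

theorem brChk_ok {P : BrP} (hP : BrH P) {L W X : ℕ} {cs : List ℕ} (h : brChk P L cs W = true)
    (hX : X < W ^ 2) {a b c : ℤ} (ha : a = P.ap - P.an) (hb : b = P.bp - P.bn)
    (hc : c = P.cp - P.cn) : ∀ n : ℕ, 0 < n → n ≤ X → n % 4 ≠ 0 → Rp a b c n := by
  have key : ∀ w j, (brT P L cs).testBit j = true → Rp a b c (w ^ 2 + j) := by
    intro w j hj
    obtain ⟨x, y, z, k, h1, h2⟩ := brT_bit hP hj
    refine ⟨x, y, z, w, k, by omega, ?_⟩
    have h3 : (P.ap : ℤ) * x + P.bp * y + P.cp * z = 2 ^ k + (P.an * x + P.bn * y + P.cn * z) := by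
      exact_mod_cast h2
    rw [ha, hb, hc]
    linarith
  intro n _ hn h4
  exact brSl_ok key 0 _ h (key 0) n (by simp) (by rw [zero_add]; omega) h4

end Pool.Agent.Lib.MP_094079_nt
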