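/-! Kernel checker for the escape search (pure natural number code). -/
namespace Pool.Agent.Lib.MP_094079_nt

noncomputable section

structure T4 where
  t0 : Nat
  t1 : Nat
  t2 : Nat
  t3 : Nat

structure UT where
  u00 : Nat
  u01 : Nat
  u02 : Nat
  u03 : Nat
  u11 : Nat
  u12 : Nat
  u13 : Nat
  u22 : Nat
  u23 : Nat
  u33 : Nat

structure Grid where
  R : Nat
  c0 : Nat
  rz : Nat
  tx : Nat
  ty : Nat
  tz : Nat
  cz : Nat
  ones : Nat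
  top : Nat

structure Par where
  W : Nat
  M0 : Nat
  ML : Nat
  M4 : Nat
  ML4 : Nat
  l : Nat
  p : Nat
  q : Nat
  nodd : Nat
  cx : Nat
  K : Nat
  mg1 : Nat
  mg2 : Nat
  ta : Nat
  n0 : Nat
  qs : Nat
  nst : Nat
  dmax : Nat
  tab : Nat
  kf : T4
  kb : T4
  rp : List T4
  rq : List T4
  rl : List T4
  U0 : UT
  U1 : UT
  U2 : UT
  U3 : UT
  X : UT
  Y : UT

structure Fm where
  gm : Nat
  o1 : Nat
  o2 : Nat
  o3 : Nat
  len : Nat
  rm : Nat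
  wo : Nat

def mkFm (W gb : Nat) : Fm :=
  ⟨Nat.sub (Nat.pow 2 (Nat.succ gb)) 1, Nat.add 10 (Nat.succ gb), Nat.add 10 (Nat.mul 2 (Nat.succ gb)),
   Nat.add 10 (Nat.mul 3 (Nat.succ gb)), Nat.add 10 (Nat.mul 4 (Nat.succ gb)),
   Nat.sub (Nat.pow 2 (Nat.add 10 (Nat.mul 4 (Nat.succ gb)))) 1, Nat.sub W (Nat.pow 2 gb)⟩

def m76 : Nat := Nat.sub (Nat.pow 2 76) 1
def m512 : Nat := Nat.sub (Nat.pow 2 512) 1
def m2048 : Nat := Nat.sub (Nat.pow 2 2048) 1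
def LA : Nat := Nat.pow 2 512
def HI : Nat := Nat.mul (Nat.mul (Nat.sub (Nat.pow 2 80) 1) (Nat.pow 2 432))
  (Nat.add 1 (Nat.mul LA (Nat.add 1 (Nat.mul LA (Nat.add 1 LA)))))
/-- the value 4096 in the lanes 2, ..., 7 -/
def on6 : Nat := Nat.mul (Nat.mul 4096 (Nat.mul LA LA)) (Nat.add 1 (Nat.mul LA (Nat.add 1 (Nat.mul LA (Nat.add 1
  (Nat.mul LA (Nat.add 1 (Nat.mul LA (Nat.add 1 LA)))))))))

def sel2 (x a b : Nat) : Nat := Nat.rec a (fun _ _ => b) x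
def sel4 (x a b c d : Nat) : Nat :=
  Nat.rec a (fun x1 _ => Nat.rec b (fun x2 _ => Nat.rec c (fun _ _ => d) x2) x1) x
def selU (P : Par) (c : Nat) : UT :=
  Nat.rec P.U0 (fun x1 _ => Nat.rec P.U1 (fun x2 _ => Nat.rec P.U2 (fun _ _ => P.U3) x2) x1) c

def fin (s err : Nat) : Nat := Nat.mul s (Nat.sub 1 err)

def lin4 (g0 g1 g2 g3 t0 t1 t2 t3 : Nat) : Nat :=
  Nat.add (Nat.add (Nat.mul g0 t0) (Nat.mul g1 t1)) (Nat.add (Nat.mul g2 t2) (Nat.mul g3 t3))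

def pk4 (g0 g1 g2 g3 : Nat) : Nat :=
  Nat.add g0 (Nat.mul LA (Nat.add g1 (Nat.mul LA (Nat.add g2 (Nat.mul LA g3)))))

def geo (U : UT) (g0 g1 g2 g3 : Nat) : Nat :=
  Nat.add (Nat.add
    (Nat.mul g0 (Nat.add (Nat.add (Nat.mul g0 U.u00) (Nat.mul g1 U.u01))
      (Nat.add (Nat.mul g2 U.u02) (Nat.mul g3 U.u03))))
    (Nat.mul g1 (Nat.add (Nat.add (Nat.mul g1 U.u11) (Nat.mul g2 U.u12)) (Nat.mul g3 U.u13))))
    (Nat.add (Nat.mul g2 (Nat.add (Nat.mul g2 U.u22) (Nat.mul g3 U.u23)))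
      (Nat.mul g3 (Nat.mul g3 U.u33)))

def grp (P A : Nat) : Nat := Nat.add (Nat.mod P A) (Nat.land (Nat.div P A) HI)

def ln (W P sh : Nat) : Nat := Nat.mod (Nat.land (Nat.shiftRight P sh) m512) W

def withF2 {α : Type} (T PF : Nat) (k : Nat → Nat → Nat → Nat → Nat → α) : α :=
  k PF (Nat.land T m2048) (Nat.land (Nat.shiftRight T 2048) m2048)
    (Nat.land (Nat.shiftRight T 4096) m2048) (Nat.shiftRight T 6144)
def withF {α : Type} (P : Par) (PF : Nat) (k : Nat → Nat → Nat → Nat → Nat → α) : α :=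
  withF2 (lin4 (ln P.W PF 0) (ln P.W PF 512) (ln P.W PF 1024) (ln P.W PF 1536)
    P.kf.t0 P.kf.t1 P.kf.t2 P.kf.t3) PF k
def withB {α : Type} (P : Par) (PB : Nat) (k : Nat → Nat → Nat → Nat → Nat → α) : α :=
  withF2 (lin4 (ln P.W PB 0) (ln P.W PB 512) (ln P.W PB 1024) (ln P.W PB 1536)
    P.kb.t0 P.kb.t1 P.kb.t2 P.kb.t3) PB k

def cmul2 (T g0 g1 g2 g3 : Nat) : Nat :=
  lin4 g0 g1 g2 g3 (Nat.land T m2048) (Nat.land (Nat.shiftRight T 2048) m2048)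
    (Nat.land (Nat.shiftRight T 4096) m2048) (Nat.shiftRight T 6144)
/-- packed residues of `star x * g` -/
def cmul (P : Par) (x0 x1 x2 x3 g0 g1 g2 g3 : Nat) : Nat :=
  cmul2 (lin4 x0 x1 x2 x3 P.kf.t0 P.kf.t1 P.kf.t2 P.kf.t3) g0 g1 g2 g3
/-- packed residues of `star x * g` for packed `x` -/
def pmul (P : Par) (x g0 g1 g2 g3 : Nat) : Nat :=
  cmul P (ln P.W x 0) (ln P.W x 512) (ln P.W x 1024) (ln P.W x 1536) g0 g1 g2 g3

/-- grid lanes of a linear form, first stage -/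
def fv1 (G : Grid) (c1 c2 c3 mgl : Nat) : Nat :=
  Nat.add (Nat.add (Nat.mul c2 G.ty) (Nat.mul c3 G.tz))
    (Nat.add (Nat.mul (Nat.sub (Nat.add (Nat.mul c1 G.R) G.c0)
      (Nat.add mgl (Nat.add (Nat.sub 4096 c2) (Nat.sub 4096 c3)))) G.ones) G.cz)
/-- grid lanes of a linear form, second stage -/
def fv2 (G : Grid) (c1 c2 c3 mgl : Nat) : Nat :=
  Nat.add (Nat.add (Nat.add (Nat.mul c1 G.tx) (Nat.mul c2 G.ty))
    (Nat.add (Nat.mul c3 G.tz) (Nat.mul (Nat.sub G.c0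
      (Nat.add (Nat.add (Nat.mul G.R (Nat.add (Nat.add c1 c2) c3)) mgl)
        (Nat.add (Nat.sub 4096 c1) (Nat.add (Nat.sub 4096 c2) (Nat.sub 4096 c3))))) G.ones))) G.cz
def cf (Q sh : Nat) : Nat := Nat.land (Nat.shiftRight Q sh) 8191

abbrev K3 := Nat → Nat → Nat → Nat
abbrev FV := Nat → Nat → Nat → Nat → Nat

def testF (P : Par) (fv : FV) (mask Q u : Nat) : Nat :=
  Nat.xor mask (Nat.land
    (Nat.land mask (fv (cf Q 1024) (cf Q 1536) (cf Q 2048) (Nat.mul P.mg1 u)))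
    (fv (cf Q 2560) (cf Q 3072) (cf Q 3584) (Nat.mul P.mg2 u)))
def getA (P : Par) (g r : Nat) : Nat :=
  Nat.gcd g (Nat.land (Nat.shiftRight P.ta (Nat.mul 80 (Nat.land (Nat.shiftRight r 2) 3)))
    1208925819614629174706175)
def terr (P : Par) (Pg PF PB g sh tau A x : Nat) : Nat :=
  Nat.add (Nat.add (Nat.mod P.ML4 x) (Nat.shiftRight (Nat.mul g P.cx) sh))
    (Nat.add (Nat.add (grp PF A) (grp PB (Nat.div x (Nat.mul tau A))))
      (Nat.xor (Nat.mod (Nat.shiftRight Pg 512) (Nat.mul 2 tau)) tau))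
def testC (P : Par) (rz : Nat) (fv : FV) (k : K3) (mask e s r Pg PF PB g sh : Nat) : Nat :=
  k (testF P fv mask (Nat.shiftRight (Nat.add Pg (Nat.shiftLeft on6 sh)) sh)
      (Nat.succ (Nat.div (Nat.mul g rz) (Nat.shiftLeft P.K sh))))
    (Nat.add e (terr P Pg PF PB g sh (Nat.gcd g 4) (getA P g r) (Nat.mul g P.nodd))) s
def testB (P : Par) (rz : Nat) (fv : FV) (k : K3) (mask e s r Pg PF PB : Nat) : Nat :=
  testC P rz fv k mask e s r Pg PF PB (Nat.land Pg m76) (Nat.land (Nat.shiftRight r 4) 63)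
def testA (P : Par) (rz : Nat) (fv : FV) (U : UT) (k : K3)
    (t0 t1 t2 t3 b0 b1 b2 b3 mask e s r g0 g1 g2 g3 : Nat) : Nat :=
  testB P rz fv k mask e s r (geo U g0 g1 g2 g3) (lin4 g0 g1 g2 g3 t0 t1 t2 t3)
    (lin4 g0 g1 g2 g3 b0 b1 b2 b3)
def gq (fm : Fm) (r o : Nat) : Nat := Nat.add (Nat.land (Nat.shiftRight r o) fm.gm) fm.wo
def test1 (P : Par) (rz : Nat) (fv : FV) (U : UT) (fm : Fm) (k : K3)
    (t0 t1 t2 t3 b0 b1 b2 b3 mask e s r : Nat) : Nat :=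
  testA P rz fv U k t0 t1 t2 t3 b0 b1 b2 b3 mask e s r
    (gq fm r 10) (gq fm r fm.o1) (gq fm r fm.o2) (gq fm r fm.o3)

def extF (fv : FV) (mask Q u : Nat) : Nat :=
  Nat.xor mask (Nat.land mask (fv (cf Q 1024) (cf Q 1536) (cf Q 2048) u))
def xerr (P : Par) (PF PB g sh A : Nat) : Nat :=
  Nat.add (Nat.add (Nat.mod P.M4 g) (Nat.shiftRight (Nat.mul g P.cx) sh))
    (Nat.add (grp PF A) (grp PB (Nat.div g (Nat.mul (Nat.gcd g 4) A))))
def extC (P : Par) (rz : Nat) (fv : FV) (k : K3) (mask e s r Pg PF PB g sh : Nat) : Nat :=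
  k (extF fv mask (Nat.shiftRight (Nat.add Pg (Nat.shiftLeft on6 sh)) sh)
      (Nat.succ (Nat.shiftRight (Nat.mul g rz) sh)))
    (Nat.add e (xerr P PF PB g sh (getA P g r))) s
def extB (P : Par) (rz : Nat) (fv : FV) (k : K3) (mask e s r Pg PF PB : Nat) : Nat :=
  extC P rz fv k mask e s r Pg PF PB (Nat.land Pg m76) (Nat.land (Nat.shiftRight r 4) 63)
def extA (P : Par) (rz : Nat) (fv : FV) (k : K3)
    (t0 t1 t2 t3 PB mask e s r g0 g1 g2 g3 : Nat) : Nat :=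
  extB P rz fv k mask e s r (geo P.X g0 g1 g2 g3) (lin4 g0 g1 g2 g3 t0 t1 t2 t3)
    (pmul P PB g0 g1 g2 g3)
def ext1 (P : Par) (rz : Nat) (fv : FV) (fm : Fm) (k : K3)
    (t0 t1 t2 t3 PB mask e s r : Nat) : Nat :=
  extA P rz fv k t0 t1 t2 t3 PB mask e s r
    (gq fm r 10) (gq fm r fm.o1) (gq fm r fm.o2) (gq fm r fm.o3)

abbrev KB := Nat → Nat → Nat → Nat → Nat → Nat → K3
abbrev KF := Nat → Nat → Nat → Nat → Nat → Nat → KB
abbrev LF := Nat → Nat → Nat → Nat → Nat → Nat → Nat → Nat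

def brF1 (P : Par) (L : List T4) (ih : KF) (f0 f1 f2 f3 nF PB b0 b1 b2 b3 nB mask e : Nat) :
    Nat → Nat :=
  List.rec (fun s => s) (fun c _ r s => r
    (withF P (lin4 f0 f1 f2 f3 c.t0 c.t1 c.t2 c.t3) ih nF PB b0 b1 b2 b3 nB mask e s)) L
def brF0 (P : Par) (L : List T4) (ih : KF) (PF nF PB b0 b1 b2 b3 nB mask e s : Nat) : Nat :=
  brF1 P L ih (ln P.W PF 0) (ln P.W PF 512) (ln P.W PF 1024) (ln P.W PF 1536) nF
    PB b0 b1 b2 b3 nB mask (Nat.add e (Nat.mod P.ML nF)) s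
def brB1 (P : Par) (L : List T4) (ih : KB) (f0 f1 f2 f3 nB mask e : Nat) : Nat → Nat :=
  List.rec (fun s => s) (fun c _ r s => r
    (withB P (lin4 f0 f1 f2 f3 c.t0 c.t1 c.t2 c.t3) ih nB mask e s)) L
def brB0 (P : Par) (L : List T4) (ih : KB) (PB nB mask e s : Nat) : Nat :=
  brB1 P L ih (ln P.W PB 0) (ln P.W PB 512) (ln P.W PB 1024) (ln P.W PB 1536) nB mask
    (Nat.add e (Nat.mod P.ML nB)) s

def clash1 (P : Par) (t0 t1 t2 t3 nF PB nB e s r : Nat) : Nat :=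
  fin s (Nat.add (Nat.add (Nat.add e (Nat.mod P.M0 r)) (Nat.sub 2 r))
    (Nat.add (Nat.mul (Nat.mod nF r) (Nat.mod nB r))
      (grp (lin4 (ln P.W PB 0) (ln P.W PB 512) (ln P.W PB 1024) (ln P.W PB 1536)
        t0 t1 t2 t3) r)))

def dead : K3 := fun mask e s => fin s (Nat.add e mask)

def other (P : Par) (lf : LF) (ih : KF) (PF t0 t1 t2 t3 nF PB b0 b1 b2 b3 nB mask e s o : Nat) :
    Nat :=
  sel2 (Nat.shiftRight o 2)
    (sel4 o
      (brF0 P P.rp ih PF (Nat.mul nF P.p) PB b0 b1 b2 b3 nB mask e s)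
      (brB0 P P.rp (ih PF t0 t1 t2 t3 nF) PB (Nat.mul nB P.p) mask e s)
      (brF0 P P.rq ih PF (Nat.mul nF P.q) PB b0 b1 b2 b3 nB mask e s)
      (brB0 P P.rq (ih PF t0 t1 t2 t3 nF) PB (Nat.mul nB P.q) mask e s))
    (sel4 (Nat.land o 3)
      (brF0 P P.rl ih PF (Nat.mul nF P.l) PB b0 b1 b2 b3 nB mask e s)
      (clash1 P t0 t1 t2 t3 nF PB nB e (Nat.shiftRight s 8) (Nat.land s 255))
      (lf t0 t1 t2 t3 PB e s) (dead mask e s))

def step (P : Par) (rz : Nat) (fv : FV) (U : UT) (fm : Fm) (xb : Nat) (lf : LF) (ih : KF) : KF :=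
  fun PF t0 t1 t2 t3 nF PB b0 b1 b2 b3 nB mask e s =>
    sel4 (Nat.land s 3)
      (test1 P rz fv U fm dead t0 t1 t2 t3 b0 b1 b2 b3 mask e
        (Nat.shiftRight s fm.len) (Nat.land s fm.rm))
      (test1 P rz fv U fm (ih PF t0 t1 t2 t3 nF PB b0 b1 b2 b3 nB) t0 t1 t2 t3 b0 b1 b2 b3 mask e
        (Nat.shiftRight s fm.len) (Nat.land s fm.rm))
      (other P lf ih PF t0 t1 t2 t3 nF PB b0 b1 b2 b3 nB mask e (Nat.shiftRight s 5)
        (Nat.land (Nat.shiftRight s 2) 7))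
      (ext1 P rz fv fm (ih PF t0 t1 t2 t3 nF PB b0 b1 b2 b3 nB) t0 t1 t2 t3 PB mask
        (Nat.add e xb) (Nat.shiftRight s fm.len) (Nat.land s fm.rm))

def run (P : Par) (rz : Nat) (fv : FV) (U : UT) (fm : Fm) (xb : Nat) (lf : LF) (fuel : Nat) : KF :=
  Nat.rec (fun _ _ _ _ _ _ _ _ _ _ _ _ _ _ _ => 0) (fun _ ih => step P rz fv U fm xb lf ih) fuel

/-- residue of a coordinate of a coded quaternion -/
def dq (P : Par) (fc o : Nat) : Nat :=
  Nat.add (Nat.land (Nat.shiftRight fc o) 4294967295) (Nat.sub P.W 2147483648)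
def nq (P : Par) (fc : Nat) : Nat :=
  Nat.land (geo P.X (dq P fc 0) (dq P fc 32) (dq P fc 64) (dq P fc 96)) m76
def pq (P : Par) (fc : Nat) : Nat := pk4 (dq P fc 0) (dq P fc 32) (dq P fc 64) (dq P fc 96)
def lq (P : Par) (fc t0 t1 t2 t3 : Nat) : Nat :=
  lin4 (dq P fc 0) (dq P fc 32) (dq P fc 64) (dq P fc 96) t0 t1 t2 t3

def start (P : Par) (G : Grid) (fv : FV) (U : UT) (fm : Fm) (xb : Nat) (lf : LF) (fc bc e s : Nat) : Nat :=
  withB P (pq P bc) (withF P (pq P fc) (run P G.rz fv U fm xb lf 400) (nq P fc)) (nq P bc) G.top e s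

def ccl (fc : Nat) : Nat := Nat.land (Nat.shiftRight fc 128) 3
def cutA (P : Par) (c t0 t1 t2 t3 PB e s fc bc : Nat) : Nat :=
  fin s (Nat.add (Nat.add (Nat.add (Nat.add e (Nat.xor (ccl fc) c)) (Nat.mod P.ML (nq P fc)))
      (Nat.mod P.ML (nq P bc)))
    (Nat.add (grp (lq P fc t0 t1 t2 t3) (nq P fc))
      (grp (pmul P PB (dq P bc 0) (dq P bc 32) (dq P bc 64) (dq P bc 96)) (nq P bc))))
def cutL (P : Par) (cs : List (Nat × Nat)) (c t0 t1 t2 t3 PB e s i : Nat) : Nat :=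
  cutA P c t0 t1 t2 t3 PB (Nat.add e (Nat.sub (Nat.succ i) cs.length)) s
    (cs.getD i (0, 0)).1 (cs.getD i (0, 0)).2
def lfS (P : Par) (cs : List (Nat × Nat)) (c : Nat) (lk : LF) : LF :=
  fun t0 t1 t2 t3 PB e s =>
    sel2 (Nat.land s 1)
      (cutL P cs c t0 t1 t2 t3 PB e (Nat.shiftRight s 9) (Nat.land (Nat.shiftRight s 1) 255))
      (lk t0 t1 t2 t3 PB e (Nat.shiftRight s 1))

/-- packed residues of `star x * star z` for packed `z` -/
def cmulc (P : Par) (x0 x1 x2 x3 z : Nat) : Nat :=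
  cmul P x0 x1 x2 x3 (ln P.W z 0) (Nat.sub P.W (ln P.W z 512)) (Nat.sub P.W (ln P.W z 1024))
    (Nat.sub P.W (ln P.W z 1536))
def stR (P : Par) (i : Nat) : Nat :=
  Nat.land (Nat.shiftRight P.tab (Nat.mul 80 i)) 1208925819614629174706175
def sraw (st o : Nat) : Nat := Nat.land (Nat.shiftRight st o) 65535
def spos (P : Par) (st o : Nat) : Nat := Nat.add (sraw st o) (Nat.sub P.W 32768)
def sneg (P : Par) (st o : Nat) : Nat := Nat.sub (Nat.add P.W 32768) (sraw st o)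
def snu (st : Nat) : Nat := Nat.land (Nat.shiftRight st 48) 1073741823
def scl (st : Nat) : Nat := Nat.land (Nat.shiftRight st 78) 3
def perr (Pg c' c tau : Nat) : Nat :=
  Nat.xor (Nat.mod (Nat.shiftRight Pg (Nat.mul 512 (Nat.add (Nat.mul 4 c') c))) (Nat.mul 2 tau)) tau

def freshB (P : Par) (c t0 t1 t2 t3 PB e s st g0 g1 g2 g3 Pg : Nat) : Nat :=
  fin s (Nat.add (Nat.add (Nat.add e (Nat.mod 4 (Nat.land Pg m76)))
      (perr Pg (scl st) c (Nat.land Pg m76)))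
    (Nat.add
      (grp (cmulc P (snu st) (sneg P st 0) (sneg P st 16) (sneg P st 32)
        (pmul P PB g0 g1 g2 g3)) P.n0)
      (grp (cmulc P (snu st) (spos P st 0) (spos P st 16) (spos P st 32)
        (lin4 g0 g1 g2 g3 t0 t1 t2 t3)) P.qs)))
def freshA (P : Par) (c t0 t1 t2 t3 PB e s st g0 g1 g2 g3 : Nat) : Nat :=
  freshB P c t0 t1 t2 t3 PB e s st g0 g1 g2 g3 (geo P.Y g0 g1 g2 g3)
def fresh1 (P : Par) (fm : Fm) (c t0 t1 t2 t3 PB e s i r : Nat) : Nat :=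
  freshA P c t0 t1 t2 t3 PB (Nat.add e (Nat.sub (Nat.succ i) P.nst)) s (stR P i)
    (gq fm r 10) (gq fm r fm.o1) (gq fm r fm.o2) (gq fm r fm.o3)
def fresh (P : Par) (fm : Fm) (c : Nat) : LF :=
  fun t0 t1 t2 t3 PB e s =>
    fresh1 P fm c t0 t1 t2 t3 PB e (Nat.shiftRight (Nat.shiftRight s 16) fm.len)
      (Nat.land s 65535) (Nat.land (Nat.shiftRight s 16) fm.rm)

def agreeC (P : Par) (st t0 t1 t2 t3 e s st' sg g0 g1 g2 g3 Pg g tau : Nat) : Nat :=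
  fin s (Nat.add (Nat.add (Nat.add (Nat.add e (Nat.xor g (Nat.mul P.p tau)))
      (perr Pg (scl st') (scl st) tau))
    (Nat.add (grp (lin4 g0 g1 g2 g3 t0 t1 t2 t3) P.p)
      (grp (cmul P (snu st) (spos P st 0) (spos P st 16) (spos P st 32) g0 g1 g2 g3) P.p)))
    (Nat.add
      (sel2 sg (Nat.xor (Nat.mod (snu st') P.n0) (Nat.mod (snu st) P.n0))
        (Nat.mod (Nat.add (snu st') (snu st)) P.n0))
      (grp (Nat.add (cmul P 0 (sneg P st 0) (sneg P st 16) (sneg P st 32) g0 g1 g2 g3)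
        (cmul P g0 (Nat.sub (Nat.mul 2 P.W) g1) (Nat.sub (Nat.mul 2 P.W) g2)
          (Nat.sub (Nat.mul 2 P.W) g3) 0
          (sel2 sg (sneg P st' 0) (spos P st' 0)) (sel2 sg (sneg P st' 16) (spos P st' 16))
          (sel2 sg (sneg P st' 32) (spos P st' 32)))) 18446744073709551616)))
def agreeB (P : Par) (st t0 t1 t2 t3 e s st' sg g0 g1 g2 g3 Pg : Nat) : Nat :=
  agreeC P st t0 t1 t2 t3 e s st' sg g0 g1 g2 g3 Pg (Nat.land Pg m76)
    (Nat.gcd (Nat.land Pg m76) 4)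
def agreeA (P : Par) (st t0 t1 t2 t3 e s st' sg g0 g1 g2 g3 : Nat) : Nat :=
  agreeB P st t0 t1 t2 t3 e s st' sg g0 g1 g2 g3 (geo P.Y g0 g1 g2 g3)
def agree1 (P : Par) (fm : Fm) (st t0 t1 t2 t3 e s i r : Nat) : Nat :=
  agreeA P st t0 t1 t2 t3 (Nat.add e (Nat.sub (Nat.succ i) P.nst)) s (stR P i) (Nat.land r 1)
    (gq fm r 10) (gq fm r fm.o1) (gq fm r fm.o2) (gq fm r fm.o3)
def agree (P : Par) (fm : Fm) (st : Nat) : LF :=
  fun t0 t1 t2 t3 _ e s =>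
    agree1 P fm st t0 t1 t2 t3 e (Nat.shiftRight (Nat.shiftRight s 16) fm.len)
      (Nat.land s 65535) (Nat.land (Nat.shiftRight s 16) fm.rm)
def nolf : LF := fun _ _ _ _ _ _ _ => 0

def sd (P : Par) (st : Nat) : Nat :=
  Nat.land (geo P.X 0 (spos P st 0) (spos P st 16) (spos P st 32)) m76
def serr (P : Par) (st fc bc : Nat) : Nat :=
  Nat.add (Nat.add (Nat.add (Nat.sub (sd P st) P.dmax) (Nat.sub 1 (sd P st)))
    (Nat.add (Nat.mod (Nat.add (Nat.mul (snu st) (snu st)) (sd P st)) P.n0)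
      (Nat.xor (Nat.gcd (snu st) P.M0) 1)))
    (Nat.add (Nat.add (Nat.mod P.qs (nq P fc)) (Nat.mod P.n0 (nq P bc)))
      (Nat.add
        (grp (cmul P (snu st) (spos P st 0) (spos P st 16) (spos P st 32)
          (dq P fc 0) (dq P fc 32) (dq P fc 64) (dq P fc 96)) (nq P fc))
        (grp (cmul P (snu st) (sneg P st 0) (sneg P st 16) (sneg P st 32)
          (dq P bc 0) (dq P bc 32) (dq P bc 64) (dq P bc 96)) (nq P bc))))
def chkS1 (P : Par) (G : Grid) (fm : Fm) (cs : List (Nat × Nat)) (st fc bc s : Nat) : Nat :=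
  start P G (fv2 G) (selU P (scl st)) fm 1 (lfS P cs (scl st) (agree P fm st)) fc bc (serr P st fc bc) s
def chkS0 (P : Par) (G : Grid) (fm : Fm) (cs : List (Nat × Nat)) (i s : Nat) : Nat :=
  chkS1 P G fm cs (stR P i) (Nat.land s 340282366920938463463374607431768211455)
    (Nat.land (Nat.shiftRight s 128) 340282366920938463463374607431768211455)
    (Nat.shiftRight s 256)
/-- check of the lock states `lo, ..., lo + cnt - 1` -/
def chkS (P : Par) (G : Grid) (gb : Nat) (cs : List (Nat × Nat)) (lo cnt s : Nat) : Nat :=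
  Nat.rec s (fun i r => chkS0 P G (mkFm P.W gb) cs (Nat.add lo i) r) cnt
/-- check of a piece of the first stage -/
def chk1 (P : Par) (G : Grid) (gb : Nat) (cs : List (Nat × Nat)) (fc bc s : Nat) : Nat :=
  start P G (fv1 G) (selU P (ccl fc)) (mkFm P.W gb) 0
    (lfS P cs (ccl fc) (fresh P (mkFm P.W gb) (ccl fc))) fc bc 0 s
/-- check of a piece of the second stage -/
def chk2 (P : Par) (G : Grid) (gb : Nat) (cs : List (Nat × Nat)) (fc bc s : Nat) : Nat :=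
  start P G (fv2 G) (selU P (ccl fc)) (mkFm P.W gb) 1 (lfS P cs (ccl fc) nolf) fc bc 0 s

end

end Pool.Agent.Lib.MP_094079_nt
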