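import Pool.Agent.Lib.MP_094079_nt.Fin
import Pool.Agent.Lib.MP_094079_nt.Da_12
import Pool.Agent.Lib.MP_094079_nt.Da_13
import Pool.Agent.Lib.MP_094079_nt.Dc_0

/-! All positive integers for one form of norm six. -/
namespace Pool.Agent.Lib.MP_094079_nt

set_option maxRecDepth 100000
set_option exponentiation.threshold 20000

def Sa : Sp :=
  ⟨mkH 1 1 (-2) 0, mkH 0 (-1) 2 0, mkH 0 1 0 2, 1, 16, 9, 5, 3, RP3, RP7, RP5⟩
theorem oka : ParOK Pa Sa :=
  parChk_sound (by decide +kernel) (Or.inr Nat.prime_five) ext_3 ext_7 ext_5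
theorem ta_0 : ∀ i < 7, StOK Pa Sa (stR Pa i) :=
  sts_step oka (by decide) cs_nil sa_0 (fun _ h => absurd h (Nat.not_lt_zero _))
theorem ta_7 : ∀ i < 17, StOK Pa Sa (stR Pa i) :=
  sts_step oka (by decide) cs_nil sa_7 ta_0
theorem ta_17 : ∀ i < 25, StOK Pa Sa (stR Pa i) :=
  sts_step oka (by decide) cs_nil sa_17 ta_7
theorem ta_25 : ∀ i < 36, StOK Pa Sa (stR Pa i) :=
  sts_step oka (by decide) cs_nil sa_25 ta_17
theorem ta_36 : ∀ i < 43, StOK Pa Sa (stR Pa i) :=
  sts_step oka (by decide) cs_nil sa_36 ta_25
theorem ta_43 : ∀ i < 53, StOK Pa Sa (stR Pa i) :=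
  sts_step oka (by decide) cs_nil sa_43 ta_36
theorem ta_53 : ∀ i < 62, StOK Pa Sa (stR Pa i) :=
  sts_step oka (by decide) cs_nil sa_53 ta_43
theorem ta_62 : ∀ i < 69, StOK Pa Sa (stR Pa i) :=
  sts_step oka (by decide) cs_nil sa_62 ta_53
theorem ta_69 : ∀ i < 76, StOK Pa Sa (stR Pa i) :=
  sts_step oka (by decide) cs_nil sa_69 ta_62
theorem ta_76 : ∀ i < 86, StOK Pa Sa (stR Pa i) :=
  sts_step oka (by decide) cs_nil sa_76 ta_69
theorem ta_86 : ∀ i < 95, StOK Pa Sa (stR Pa i) :=
  sts_step oka (by decide) cs_nil sa_86 ta_76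
theorem ta_95 : ∀ i < 106, StOK Pa Sa (stR Pa i) :=
  sts_step oka (by decide) cs_nil sa_95 ta_86
theorem ta_106 : ∀ i < 116, StOK Pa Sa (stR Pa i) :=
  sts_step oka (by decide) cs_nil sa_106 ta_95
theorem ta_116 : ∀ i < 127, StOK Pa Sa (stR Pa i) :=
  sts_step oka (by decide) cs_nil sa_116 ta_106
theorem ta_127 : ∀ i < 136, StOK Pa Sa (stR Pa i) :=
  sts_step oka (by decide) cs_nil sa_127 ta_116
theorem ta_136 : ∀ i < 149, StOK Pa Sa (stR Pa i) :=
  sts_step oka (by decide) cs_nil sa_136 ta_127
theorem ta_149 : ∀ i < 158, StOK Pa Sa (stR Pa i) :=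
  sts_step oka (by decide) cs_nil sa_149 ta_136
theorem ta_158 : ∀ i < 166, StOK Pa Sa (stR Pa i) :=
  sts_step oka (by decide) cs_nil sa_158 ta_149
theorem ta_166 : ∀ i < 174, StOK Pa Sa (stR Pa i) :=
  sts_step oka (by decide) cs_nil sa_166 ta_158
theorem ta_174 : ∀ i < 184, StOK Pa Sa (stR Pa i) :=
  sts_step oka (by decide) cs_nil sa_174 ta_166
theorem ta_184 : ∀ i < 193, StOK Pa Sa (stR Pa i) :=
  sts_step oka (by decide) cs_nil sa_184 ta_174
theorem ta_193 : ∀ i < 202, StOK Pa Sa (stR Pa i) :=
  sts_step oka (by decide) cs_nil sa_193 ta_184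
theorem ta_202 : ∀ i < 213, StOK Pa Sa (stR Pa i) :=
  sts_step oka (by decide) cs_nil sa_202 ta_193
theorem ta_213 : ∀ i < 223, StOK Pa Sa (stR Pa i) :=
  sts_step oka (by decide) cs_nil sa_213 ta_202
theorem ta_223 : ∀ i < 235, StOK Pa Sa (stR Pa i) :=
  sts_step oka (by decide) cs_nil sa_223 ta_213
theorem ta_235 : ∀ i < 247, StOK Pa Sa (stR Pa i) :=
  sts_step oka (by decide) cs_nil sa_235 ta_223
theorem ta_247 : ∀ i < 254, StOK Pa Sa (stR Pa i) :=
  sts_step oka (by decide) cs_nil sa_247 ta_235
theorem ta_254 : ∀ i < 263, StOK Pa Sa (stR Pa i) :=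
  sts_step oka (by decide) cs_nil sa_254 ta_247
theorem ta_263 : ∀ i < 272, StOK Pa Sa (stR Pa i) :=
  sts_step oka (by decide) cs_nil sa_263 ta_254
theorem ta_272 : ∀ i < 284, StOK Pa Sa (stR Pa i) :=
  sts_step oka (by decide) cs_nil sa_272 ta_263
theorem ta_284 : ∀ i < 295, StOK Pa Sa (stR Pa i) :=
  sts_step oka (by decide) cs_nil sa_284 ta_272
theorem ta_295 : ∀ i < 304, StOK Pa Sa (stR Pa i) :=
  sts_step oka (by decide) cs_nil sa_295 ta_284
theorem ta_304 : ∀ i < 312, StOK Pa Sa (stR Pa i) :=
  sts_step oka (by decide) cs_nil sa_304 ta_295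
theorem ta_312 : ∀ i < 323, StOK Pa Sa (stR Pa i) :=
  sts_step oka (by decide) cs_nil sa_312 ta_304
theorem ta_323 : ∀ i < 333, StOK Pa Sa (stR Pa i) :=
  sts_step oka (by decide) cs_nil sa_323 ta_312
theorem ta_333 : ∀ i < 343, StOK Pa Sa (stR Pa i) :=
  sts_step oka (by decide) cs_nil sa_333 ta_323
theorem ta_343 : ∀ i < 353, StOK Pa Sa (stR Pa i) :=
  sts_step oka (by decide) cs_nil sa_343 ta_333
theorem ta_353 : ∀ i < 363, StOK Pa Sa (stR Pa i) :=
  sts_step oka (by decide) cs_nil sa_353 ta_343
theorem ta_363 : ∀ i < 372, StOK Pa Sa (stR Pa i) :=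
  sts_step oka (by decide) cs_nil sa_363 ta_353
theorem ta_372 : ∀ i < 383, StOK Pa Sa (stR Pa i) :=
  sts_step oka (by decide) cs_nil sa_372 ta_363
theorem ta_383 : ∀ i < 394, StOK Pa Sa (stR Pa i) :=
  sts_step oka (by decide) cs_nil sa_383 ta_372
theorem ta_394 : ∀ i < 404, StOK Pa Sa (stR Pa i) :=
  sts_step oka (by decide) cs_nil sa_394 ta_383
theorem ta_404 : ∀ i < 414, StOK Pa Sa (stR Pa i) :=
  sts_step oka (by decide) cs_nil sa_404 ta_394
theorem ta_414 : ∀ i < 422, StOK Pa Sa (stR Pa i) :=
  sts_step oka (by decide) cs_nil sa_414 ta_404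
theorem ta_422 : ∀ i < 431, StOK Pa Sa (stR Pa i) :=
  sts_step oka (by decide) cs_nil sa_422 ta_414
theorem ta_431 : ∀ i < 441, StOK Pa Sa (stR Pa i) :=
  sts_step oka (by decide) cs_nil sa_431 ta_422
theorem ta_441 : ∀ i < 454, StOK Pa Sa (stR Pa i) :=
  sts_step oka (by decide) cs_nil sa_441 ta_431
theorem ta_454 : ∀ i < 465, StOK Pa Sa (stR Pa i) :=
  sts_step oka (by decide) cs_nil sa_454 ta_441
theorem ta_465 : ∀ i < 474, StOK Pa Sa (stR Pa i) :=
  sts_step oka (by decide) cs_nil sa_465 ta_454
theorem ta_474 : ∀ i < 482, StOK Pa Sa (stR Pa i) :=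
  sts_step oka (by decide) cs_nil sa_474 ta_465
theorem ta_482 : ∀ i < 493, StOK Pa Sa (stR Pa i) :=
  sts_step oka (by decide) cs_nil sa_482 ta_474
theorem ta_493 : ∀ i < 503, StOK Pa Sa (stR Pa i) :=
  sts_step oka (by decide) cs_nil sa_493 ta_482
theorem ta_503 : ∀ i < 515, StOK Pa Sa (stR Pa i) :=
  sts_step oka (by decide) cs_nil sa_503 ta_493
theorem ta_515 : ∀ i < 525, StOK Pa Sa (stR Pa i) :=
  sts_step oka (by decide) cs_nil sa_515 ta_503
theorem ta_525 : ∀ i < 538, StOK Pa Sa (stR Pa i) :=
  sts_step oka (by decide) cs_nil sa_525 ta_515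
theorem ta_538 : ∀ i < 552, StOK Pa Sa (stR Pa i) :=
  sts_step oka (by decide) cs_nil sa_538 ta_525
theorem ta_552 : ∀ i < 565, StOK Pa Sa (stR Pa i) :=
  sts_step oka (by decide) cs_nil sa_552 ta_538
theorem ta_565 : ∀ i < 575, StOK Pa Sa (stR Pa i) :=
  sts_step oka (by decide) cs_nil sa_565 ta_552
theorem ta_575 : ∀ i < 583, StOK Pa Sa (stR Pa i) :=
  sts_step oka (by decide) cs_nil sa_575 ta_565
theorem ta_583 : ∀ i < 595, StOK Pa Sa (stR Pa i) :=
  sts_step oka (by decide) cs_nil sa_583 ta_575
theorem ta_595 : ∀ i < 606, StOK Pa Sa (stR Pa i) :=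
  sts_step oka (by decide) cs_nil sa_595 ta_583
theorem ta_606 : ∀ i < 618, StOK Pa Sa (stR Pa i) :=
  sts_step oka (by decide) cs_nil sa_606 ta_595
theorem ta_618 : ∀ i < 630, StOK Pa Sa (stR Pa i) :=
  sts_step oka (by decide) cs_nil sa_618 ta_606
theorem ta_630 : ∀ i < 639, StOK Pa Sa (stR Pa i) :=
  sts_step oka (by decide) cs_nil sa_630 ta_618
theorem ta_639 : ∀ i < 649, StOK Pa Sa (stR Pa i) :=
  sts_step oka (by decide) cs_nil sa_639 ta_630
theorem ta_649 : ∀ i < 661, StOK Pa Sa (stR Pa i) :=
  sts_step oka (by decide) cs_nil sa_649 ta_639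
theorem ta_661 : ∀ i < 672, StOK Pa Sa (stR Pa i) :=
  sts_step oka (by decide) cs_nil sa_661 ta_649
theorem ta_672 : ∀ i < 684, StOK Pa Sa (stR Pa i) :=
  sts_step oka (by decide) cs_nil sa_672 ta_661
theorem ta_684 : ∀ i < 694, StOK Pa Sa (stR Pa i) :=
  sts_step oka (by decide) cs_nil sa_684 ta_672
theorem ta_694 : ∀ i < 707, StOK Pa Sa (stR Pa i) :=
  sts_step oka (by decide) cs_nil sa_694 ta_684
theorem ta_707 : ∀ i < 718, StOK Pa Sa (stR Pa i) :=
  sts_step oka (by decide) cs_nil sa_707 ta_694
theorem ta_718 : ∀ i < 729, StOK Pa Sa (stR Pa i) :=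
  sts_step oka (by decide) cs_nil sa_718 ta_707
theorem ta_729 : ∀ i < 742, StOK Pa Sa (stR Pa i) :=
  sts_step oka (by decide) cs_nil sa_729 ta_718
theorem ta_742 : ∀ i < 752, StOK Pa Sa (stR Pa i) :=
  sts_step oka (by decide) cs_nil sa_742 ta_729
theorem ta_752 : ∀ i < 762, StOK Pa Sa (stR Pa i) :=
  sts_step oka (by decide) cs_nil sa_752 ta_742
theorem ta_762 : ∀ i < 773, StOK Pa Sa (stR Pa i) :=
  sts_step oka (by decide) cs_nil sa_762 ta_752
theorem ta_773 : ∀ i < 784, StOK Pa Sa (stR Pa i) :=
  sts_step oka (by decide) cs_nil sa_773 ta_762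
theorem ta_784 : ∀ i < 794, StOK Pa Sa (stR Pa i) :=
  sts_step oka (by decide) cs_nil sa_784 ta_773
theorem ta_794 : ∀ i < 803, StOK Pa Sa (stR Pa i) :=
  sts_step oka (by decide) cs_nil sa_794 ta_784
theorem ta_803 : ∀ i < 812, StOK Pa Sa (stR Pa i) :=
  sts_step oka (by decide) cs_nil sa_803 ta_794
theorem ta_812 : ∀ i < 822, StOK Pa Sa (stR Pa i) :=
  sts_step oka (by decide) cs_nil sa_812 ta_803
theorem ta_822 : ∀ i < 834, StOK Pa Sa (stR Pa i) :=
  sts_step oka (by decide) cs_nil sa_822 ta_812
theorem ta_834 : ∀ i < 847, StOK Pa Sa (stR Pa i) :=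
  sts_step oka (by decide) cs_nil sa_834 ta_822
theorem ta_847 : ∀ i < 858, StOK Pa Sa (stR Pa i) :=
  sts_step oka (by decide) cs_nil sa_847 ta_834
theorem ta_858 : ∀ i < 869, StOK Pa Sa (stR Pa i) :=
  sts_step oka (by decide) cs_nil sa_858 ta_847
theorem ta_869 : ∀ i < 880, StOK Pa Sa (stR Pa i) :=
  sts_step oka (by decide) cs_nil sa_869 ta_858
theorem ta_880 : ∀ i < 881, StOK Pa Sa (stR Pa i) :=
  sts_step oka (by decide) cs_nil sa_880 ta_869
theorem lga : ∀ i < Pa.nst, LG0 Pa Sa (stR Pa i) := lg0_all oka ta_880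
theorem ca_0 : CutGood Pa Sa G1_48 (fv1 G1_48) 0 0x180000000800000018000000180000001 0x80000001800000018000000180000002 :=
  chk1_sound oka (by decide) lga cs_nil ka_0
theorem ca_1 : CutGood Pa Sa G1_48 (fv1 G1_48) 0 0x180000000800000018000000180000001 0x7fffffff800000018000000180000002 :=
  chk1_sound oka (by decide) lga cs_nil ka_1
theorem ca_2 : CutGood Pa Sa G1_48 (fv1 G1_48) 0 0x18000000080000002800000027fffffff 0x7fffffff7fffffff8000000180000002 :=
  chk1_sound oka (by decide) lga cs_nil ka_2
theorem ca_3 : CutGood Pa Sa G1_48 (fv1 G1_48) 0 0x17ffffffc800000017fffffff7ffffffd 0x7fffffff7fffffff8000000180000002 :=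
  chk1_sound oka (by decide) lga cs_nil ka_3
theorem ca_4 : CutGood Pa Sa G1_48 (fv1 G1_48) 0 0x180000000800000018000000180000001 0x80000001800000017fffffff80000002 :=
  chk1_sound oka (by decide) lga cs_nil ka_4
theorem ca_5 : CutGood Pa Sa G1_48 (fv1 G1_48) 0 0x180000001800000018000000380000002 0x7fffffff800000017fffffff80000002 :=
  chk1_sound oka (by decide) lga cs_nil ka_5
theorem ca_6 : CutGood Pa Sa G1_48 (fv1 G1_48) 0 0x180000000800000018000000180000001 0x7fffffff800000017fffffff80000002 :=
  chk1_sound oka (by decide) lga (cs_cons ca_5 cs_nil) ka_6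
theorem ca_7 : CutGood Pa Sa G1_48 (fv1 G1_48) 0 0x17fffffff80000002800000067ffffffe 0x800000017fffffff7fffffff80000002 :=
  chk1_sound oka (by decide) lga cs_nil ka_7
theorem ca_8 : CutGood Pa Sa G1_48 (fv1 G1_48) 0 0x18000000080000002800000027fffffff 0x800000017fffffff7fffffff80000002 :=
  chk1_sound oka (by decide) lga (cs_cons ca_7 cs_nil) ka_8
theorem ca_9 : CutGood Pa Sa G1_48 (fv1 G1_48) 0 0x17ffffffe800000028000000180000000 0x800000017fffffff7fffffff80000002 :=
  chk1_sound oka (by decide) lga cs_nil ka_9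
theorem ca_10 : CutGood Pa Sa G1_48 (fv1 G1_48) 0 0x180000007800000098000000d80000004 0x80000000800000008000000080000001 :=
  chk1_sound oka (by decide) lga cs_nil ka_10
theorem ca_11 : CutGood Pa Sa G1_48 (fv1 G1_48) 0 0x18000000280000006800000027fffffff 0x80000000800000008000000080000001 :=
  chk1_sound oka (by decide) lga (cs_cons ca_10 cs_nil) ka_11
theorem ca_12 : CutGood Pa Sa G1_48 (fv1 G1_48) 0 0x18000000580000004800000007ffffffe 0x800000017fffffff7fffffff80000002 :=
  chk1_sound oka (by decide) lga cs_nil ka_12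
theorem ca_13 : CutGood Pa Sa G1_48 (fv1 G1_48) 0 0x18000000580000004800000007ffffffe 0x80000000800000008000000080000001 :=
  chk1_sound oka (by decide) lga (cs_cons ca_12 cs_nil) ka_13
theorem ca_14 : CutGood Pa Sa G1_48 (fv1 G1_48) 0 0x18000000480000003800000047ffffffe 0x80000000800000008000000080000001 :=
  chk1_sound oka (by decide) lga cs_nil ka_14
theorem ca_15 : CutGood Pa Sa G1_48 (fv1 G1_48) 0 0x1800000018000000c800000018000000d 0x80000000800000008000000080000001 :=
  chk1_sound oka (by decide) lga cs_nil ka_15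
theorem ca_16 : CutGood Pa Sa G1_48 (fv1 G1_48) 0 0x180000004800000058000000080000002 0x80000000800000008000000080000001 :=
  chk1_sound oka (by decide) lga (cs_cons ca_15 cs_nil) ka_16
theorem ca_17 : CutGood Pa Sa G1_48 (fv1 G1_48) 0 0x18000000c7ffffff98000000b80000001 0x80000000800000008000000080000001 :=
  chk1_sound oka (by decide) lga cs_nil ka_17
theorem ca_18 : CutGood Pa Sa G1_48 (fv1 G1_48) 0 0x1800000037ffffffe800000047ffffffc 0x80000000800000008000000080000001 :=
  chk1_sound oka (by decide) lga (cs_cons ca_17 cs_nil) ka_18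
theorem ca_19 : CutGood Pa Sa G1_48 (fv1 G1_48) 0 0x180000008800000038000000b8000000b 0x80000000800000008000000080000001 :=
  chk1_sound oka (by decide) lga cs_nil ka_19
theorem ca_20 : CutGood Pa Sa G1_48 (fv1 G1_48) 0 0x180000005800000028000000480000000 0x80000000800000008000000080000001 :=
  chk1_sound oka (by decide) lga (cs_cons ca_19 cs_nil) ka_20
theorem ca_21 : CutGood Pa Sa G1_48 (fv1 G1_48) 0 0x180000001800000088000000f80000005 0x80000000800000008000000080000001 :=
  chk1_sound oka (by decide) lga cs_nil ka_21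
theorem ca_22 : CutGood Pa Sa G1_48 (fv1 G1_48) 0 0x18000000280000001800000067ffffffe 0x80000000800000008000000080000001 :=
  chk1_sound oka (by decide) lga (cs_cons ca_21 cs_nil) ka_22
theorem ca_23 : CutGood Pa Sa G1_48 (fv1 G1_48) 0 0x17ffffffe7fffffff800000067ffffffe 0x80000000800000008000000080000001 :=
  chk1_sound oka (by decide) lga cs_nil ka_23
theorem ca_24 : CutGood Pa Sa G1_48 (fv1 G1_48) 0 0x17ffffffb7ffffffe8000000480000000 0x80000000800000008000000080000001 :=
  chk1_sound oka (by decide) lga cs_nil ka_24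
theorem ca_25 : CutGood Pa Sa G1_48 (fv1 G1_48) 0 0x18000000080000001800000057fffffef 0x80000000800000008000000080000001 :=
  chk1_sound oka (by decide) lga cs_nil ka_25
theorem ca_26 : CutGood Pa Sa G1_48 (fv1 G1_48) 0 0x1800000077fffffe6800000227fffffee 0x80000000800000018000000180000001 :=
  chk1_sound oka (by decide) lga cs_nil ka_26
theorem ca_27 : CutGood Pa Sa G1_48 (fv1 G1_48) 0 0x17ffffffd80000002800000047ffffffc 0x80000000800000008000000080000001 :=
  chk1_sound oka (by decide) lga (cs_cons ca_25 (cs_cons ca_26 cs_nil)) ka_27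
theorem ca_28 : CutGood Pa Sa G1_48 (fv1 G1_48) 0 0x17ffffffe7ffffffa800000027fffffff 0x80000000800000008000000080000001 :=
  chk1_sound oka (by decide) lga cs_nil ka_28
theorem ca_29 : CutGood Pa Sa G1_48 (fv1 G1_48) 0 0x17ffffffc7ffffffb8000000080000002 0x80000000800000008000000080000001 :=
  chk1_sound oka (by decide) lga cs_nil ka_29
theorem ca_30 : CutGood Pa Sa G1_48 (fv1 G1_48) 0 0x17ffffffc7ffffffd800000047ffffffe 0x800000017fffffff8000000180000002 :=
  chk1_sound oka (by decide) lga cs_nil ka_30
theorem ca_31 : CutGood Pa Sa G1_48 (fv1 G1_48) 0 0x17ffffffc7ffffffd800000047ffffffe 0x80000000800000008000000080000001 :=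
  chk1_sound oka (by decide) lga (cs_cons ca_30 cs_nil) ka_31
theorem ca_32 : CutGood Pa Sa G1_48 (fv1 G1_48) 0 0x1800000087fffffe47ffffffc7ffffff7 0x80000000800000008000000080000001 :=
  chk1_sound oka (by decide) lga cs_nil ka_32
theorem ca_33 : CutGood Pa Sa G1_48 (fv1 G1_48) 0 0x17ffffff87ffffff57ffffff57ffffffd 0x80000000800000018000000180000001 :=
  chk1_sound oka (by decide) lga cs_nil ka_33
theorem ca_34 : CutGood Pa Sa G1_48 (fv1 G1_48) 0 0x17ffffff07fffffff7ffffff97ffffffd 0x80000000800000018000000180000001 :=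
  chk1_sound oka (by decide) lga cs_nil ka_34
theorem ca_35 : CutGood Pa Sa G1_48 (fv1 G1_48) 0 0x17ffffffb7ffffffc800000007ffffffe 0x80000000800000008000000080000001 :=
  chk1_sound oka (by decide) lga (cs_cons ca_32 (cs_cons ca_33 (cs_cons ca_34 cs_nil))) ka_35
theorem ca_36 : CutGood Pa Sa G1_48 (fv1 G1_48) 0 0x180000009800000297fffffef8000001c 0x800000017fffffff7fffffff80000002 :=
  chk1_sound oka (by decide) lga cs_nil ka_36
theorem ca_37 : CutGood Pa Sa G1_48 (fv1 G1_48) 0 0x18000000680000005800000077ffffffb 0x7fffffff7fffffff7fffffff80000002 :=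
  chk1_sound oka (by decide) lga cs_nil ka_37
theorem ca_38 : CutGood Pa Sa G1_48 (fv1 G1_48) 0 0x1800000067ffffffe800000027fffffff 0x80000000800000008000000080000001 :=
  chk1_sound oka (by decide) lga (cs_cons ca_36 (cs_cons ca_37 cs_nil)) ka_38
theorem ca_39 : CutGood Pa Sa G1_48 (fv1 G1_48) 0 0x1800000057ffffffc8000000080000002 0x80000001800000018000000180000002 :=
  chk1_sound oka (by decide) lga cs_nil ka_39
theorem ca_40 : CutGood Pa Sa G1_48 (fv1 G1_48) 0 0x180000007800000018000000680000007 0x7fffffff7fffffff7fffffff80000002 :=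
  chk1_sound oka (by decide) lga cs_nil ka_40
theorem ca_41 : CutGood Pa Sa G1_48 (fv1 G1_48) 0 0x1800000057ffffffc8000000080000002 0x80000000800000008000000080000001 :=
  chk1_sound oka (by decide) lga (cs_cons ca_39 (cs_cons ca_40 cs_nil)) ka_41
theorem ca_42 : CutGood Pa Sa G1_48 (fv1 G1_48) 0 0x18000000b7ffffff87ffffff57ffffffd 0x7fffffff800000008000000180000001 :=
  chk1_sound oka (by decide) lga cs_nil ka_42
theorem ca_43 : CutGood Pa Sa G1_48 (fv1 G1_48) 0 0x18000001880000002800000137ffffffe 0x7fffffff7fffffff7fffffff80000002 :=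
  chk1_sound oka (by decide) lga cs_nil ka_43
theorem ca_44 : CutGood Pa Sa G1_48 (fv1 G1_48) 0 0x18000001a800000067ffffff37ffffff8 0x80000000800000008000000080000001 :=
  chk1_sound oka (by decide) lga cs_nil ka_44
theorem ca_45 : CutGood Pa Sa G1_48 (fv1 G1_48) 0 0x18000000c80000010800000117ffffff0 0x80000000800000008000000080000001 :=
  chk1_sound oka (by decide) lga cs_nil ka_45
theorem ca_46 : CutGood Pa Sa G1_48 (fv1 G1_48) 0 0x1800000017ffffff07ffffff97ffffffd 0x80000000800000008000000080000001 :=
  chk1_sound oka (by decide) lga cs_nil ka_46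
theorem ca_47 : CutGood Pa Sa G1_48 (fv1 G1_48) 0 0x1800000047ffffffb800000007ffffffe 0x80000000800000008000000080000001 :=
  chk1_sound oka (by decide) lga (cs_cons ca_42 (cs_cons ca_43 (cs_cons ca_44 (cs_cons ca_45 (cs_cons ca_46 cs_nil))))) ka_47
theorem ca_48 : CutGood Pa Sa G1_48 (fv1 G1_48) 0 0x1800000037ffffffc800000047ffffffe 0x80000000800000008000000080000001 :=
  chk1_sound oka (by decide) lga cs_nil ka_48
theorem ca_49 : CutGood Pa Sa G1_48 (fv1 G1_48) 0 0x1800000077ffffff97fffffff7ffffffa 0x7fffffff800000018000000180000002 :=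
  chk1_sound oka (by decide) lga cs_nil ka_49
theorem ca_50 : CutGood Pa Sa G1_48 (fv1 G1_48) 0 0x1800000027ffffffb8000000480000000 0x800000017fffffff7fffffff80000002 :=
  chk1_sound oka (by decide) lga cs_nil ka_50
theorem ca_51 : CutGood Pa Sa G1_48 (fv1 G1_48) 0 0x1800000027ffffffb8000000480000000 0x80000000800000008000000080000001 :=
  chk1_sound oka (by decide) lga (cs_cons ca_49 (cs_cons ca_50 cs_nil)) ka_51
theorem ca_52 : CutGood Pa Sa G1_48 (fv1 G1_48) 0 0x1800000017ffffffe800000067ffffffe 0x80000000800000008000000080000001 :=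
  chk1_sound oka (by decide) lga cs_nil ka_52
theorem ca_53 : CutGood Pa Sa G1_48 (fv1 G1_48) 0 0x17ffffffe7ffffffd800000047ffffffc 0x80000000800000008000000080000001 :=
  chk1_sound oka (by decide) lga cs_nil ka_53
theorem ca_54 : CutGood Pa Sa G1_48 (fv1 G1_48) 0 0x27ffffff8800000058000000480000000 0x7ffffffe80000000800000027fffffff :=
  chk1_sound oka (by decide) lga cs_nil ka_54
theorem ca_55 : CutGood Pa Sa G1_48 (fv1 G1_48) 0 0x27ffffffe800000018000000680000008 0x7ffffffe80000000800000027fffffff :=
  chk1_sound oka (by decide) lga cs_nil ka_55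
theorem ca_56 : CutGood Pa Sa G1_48 (fv1 G1_48) 0 0x27fffffff800000028000000380000001 0x7fffffff800000008000000180000001 :=
  chk1_sound oka (by decide) lga (cs_cons ca_54 (cs_cons ca_55 cs_nil)) ka_56
theorem ca_57 : CutGood Pa Sa G1_48 (fv1 G1_48) 0 0x27fffffff800000028000000380000001 0x800000077fffffff8000000280000003 :=
  chk1_sound oka (by decide) lga cs_nil ka_57
theorem ca_58 : CutGood Pa Sa G1_48 (fv1 G1_48) 0 0x27fffffff800000028000000380000001 0x7fffffff7ffffffc8000000080000002 :=
  chk1_sound oka (by decide) lga cs_nil ka_58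
theorem ca_59 : CutGood Pa Sa G1_48 (fv1 G1_48) 0 0x27fffffff800000028000000380000001 0x7ffffffd7ffffffe8000000280000002 :=
  chk1_sound oka (by decide) lga cs_nil ka_59
theorem ca_60 : CutGood Pa Sa G1_48 (fv1 G1_48) 0 0x27fffffff800000028000000380000001 0x800000007fffffff8000000180000001 :=
  chk1_sound oka (by decide) lga (cs_cons ca_57 (cs_cons ca_58 (cs_cons ca_59 cs_nil))) ka_60
theorem ca_61 : CutGood Pa Sa G1_48 (fv1 G1_48) 0 0x27ffffffe800000048000000980000002 0x80000000800000008000000080000001 :=
  chk1_sound oka (by decide) lga cs_nil ka_61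
theorem ca_62 : CutGood Pa Sa G1_48 (fv1 G1_48) 0 0x280000001800000038000000280000001 0x80000000800000008000000080000001 :=
  chk1_sound oka (by decide) lga (cs_cons ca_61 cs_nil) ka_62
theorem ca_63 : CutGood Pa Sa G1_48 (fv1 G1_48) 0 0x27fffffff800000038000000180000002 0x8000000180000007800000037ffffffe :=
  chk1_sound oka (by decide) lga cs_nil ka_63
theorem ca_64 : CutGood Pa Sa G1_48 (fv1 G1_48) 0 0x27ffffff880000009800000087ffffff2 0x7fffffff800000018000000180000002 :=
  chk1_sound oka (by decide) lga cs_nil ka_64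
theorem ca_65 : CutGood Pa Sa G1_48 (fv1 G1_48) 0 0x27ffffffe800000018000000680000002 0x80000001800000017fffffff80000002 :=
  chk1_sound oka (by decide) lga cs_nil ka_65
theorem ca_66 : CutGood Pa Sa G1_48 (fv1 G1_48) 0 0x27fffffff800000038000000180000002 0x80000000800000008000000080000001 :=
  chk1_sound oka (by decide) lga (cs_cons ca_63 (cs_cons ca_64 (cs_cons ca_65 cs_nil))) ka_66
theorem ca_67 : CutGood Pa Sa G1_48 (fv1 G1_48) 0 0x280000001800000028000000180000003 0x80000000800000008000000080000001 :=
  chk1_sound oka (by decide) lga cs_nil ka_67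
theorem ca_68 : CutGood Pa Sa G1_48 (fv1 G1_48) 0 0x28000000280000006800000027fffffff 0x80000000800000008000000080000001 :=
  chk1_sound oka (by decide) lga cs_nil ka_68
theorem ca_69 : CutGood Pa Sa G1_48 (fv1 G1_48) 0 0x28000000480000003800000047ffffffe 0x80000000800000008000000080000001 :=
  chk1_sound oka (by decide) lga cs_nil ka_69
theorem ca_70 : CutGood Pa Sa G1_48 (fv1 G1_48) 0 0x280000001800000038000000a7ffffffb 0x80000001800000017fffffff80000002 :=
  chk1_sound oka (by decide) lga cs_nil ka_70
theorem ca_71 : CutGood Pa Sa G1_48 (fv1 G1_48) 0 0x280000001800000038000000a7ffffffb 0x7fffffff800000017fffffff80000002 :=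
  chk1_sound oka (by decide) lga cs_nil ka_71
theorem ca_72 : CutGood Pa Sa G1_48 (fv1 G1_48) 0 0x280000003800000048000000480000002 0x80000000800000008000000080000001 :=
  chk1_sound oka (by decide) lga (cs_cons ca_70 (cs_cons ca_71 cs_nil)) ka_72
theorem ca_73 : CutGood Pa Sa G1_48 (fv1 G1_48) 0 0x28000000580000006800000057ffffff9 0x80000000800000008000000080000001 :=
  chk1_sound oka (by decide) lga cs_nil ka_73
theorem ca_74 : CutGood Pa Sa G1_48 (fv1 G1_48) 0 0x280000002800000078000000980000001 0x80000000800000008000000080000001 :=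
  chk1_sound oka (by decide) lga cs_nil ka_74
theorem ca_75 : CutGood Pa Sa G1_48 (fv1 G1_48) 0 0x27ffffffe800000048000000580000000 0x80000000800000008000000080000001 :=
  chk1_sound oka (by decide) lga cs_nil ka_75
theorem ca_76 : CutGood Pa Sa G1_48 (fv1 G1_48) 0 0x280000002800000058000000480000000 0x80000000800000008000000080000001 :=
  chk1_sound oka (by decide) lga cs_nil ka_76
theorem ca_77 : CutGood Pa Sa G1_48 (fv1 G1_48) 0 0x280000001800000028000000680000002 0x80000000800000008000000080000001 :=
  chk1_sound oka (by decide) lga cs_nil ka_77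
theorem ca_78 : CutGood Pa Sa G1_48 (fv1 G1_48) 0 0x280000000800000028000000280000001 0x80000000800000008000000080000001 :=
  chk1_sound oka (by decide) lga (cs_cons ca_75 (cs_cons ca_76 (cs_cons ca_77 cs_nil))) ka_78
theorem ca_79 : CutGood Pa Sa G1_48 (fv1 G1_48) 0 0x28000000d7fffffff8000000c80000001 0x80000000800000008000000080000001 :=
  chk1_sound oka (by decide) lga cs_nil ka_79
theorem ca_80 : CutGood Pa Sa G1_48 (fv1 G1_48) 0 0x2800000037ffffff5800000087ffffff5 0x80000000800000008000000080000001 :=
  chk1_sound oka (by decide) lga cs_nil ka_80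
theorem ca_81 : CutGood Pa Sa G1_48 (fv1 G1_48) 0 0x27ffffffb7ffffffb8000001080000003 0x80000000800000008000000080000001 :=
  chk1_sound oka (by decide) lga cs_nil ka_81
theorem ca_82 : CutGood Pa Sa G1_48 (fv1 G1_48) 0 0x28000000f7ffffffc8000000780000005 0x80000000800000018000000180000001 :=
  chk1_sound oka (by decide) lga cs_nil ka_82
theorem ca_83 : CutGood Pa Sa G1_48 (fv1 G1_48) 0 0x2800000097ffffff87fffffff8000000d 0x80000000800000018000000180000001 :=
  chk1_sound oka (by decide) lga cs_nil ka_83
theorem ca_84 : CutGood Pa Sa G1_48 (fv1 G1_48) 0 0x27ffffff97ffffff8800000098000000b 0x80000000800000018000000180000001 :=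
  chk1_sound oka (by decide) lga cs_nil ka_84
theorem ca_85 : CutGood Pa Sa G1_48 (fv1 G1_48) 0 0x2800000027ffffffd8000000480000004 0x80000000800000008000000080000001 :=
  chk1_sound oka (by decide) lga (cs_cons ca_82 (cs_cons ca_83 (cs_cons ca_84 cs_nil))) ka_85
theorem ca_86 : CutGood Pa Sa G1_48 (fv1 G1_48) 0 0x2800000017ffffffa8000000280000002 0x80000000800000008000000080000001 :=
  chk1_sound oka (by decide) lga cs_nil ka_86
theorem ca_87 : CutGood Pa Sa G1_48 (fv1 G1_48) 0 0x2800000077fffffff800000097ffffffe 0x80000001800000017fffffff80000002 :=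
  chk1_sound oka (by decide) lga cs_nil ka_87
theorem ca_88 : CutGood Pa Sa G1_48 (fv1 G1_48) 0 0x2800000077fffffff800000097ffffffe 0x7fffffff7fffffff7fffffff80000002 :=
  chk1_sound oka (by decide) lga cs_nil ka_88
theorem ca_89 : CutGood Pa Sa G1_48 (fv1 G1_48) 0 0x27fffffff7ffffffe8000000680000002 0x80000000800000008000000080000001 :=
  chk1_sound oka (by decide) lga (cs_cons ca_87 (cs_cons ca_88 cs_nil)) ka_89
theorem ca_90 : CutGood Pa Sa G1_48 (fv1 G1_48) 0 0x2800000057ffffff88000000f7fffffff 0x80000000800000008000000080000001 :=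
  chk1_sound oka (by decide) lga cs_nil ka_90
theorem ca_91 : CutGood Pa Sa G1_48 (fv1 G1_48) 0 0x2800000337ffffff87ffffff97ffffff5 0x80000000800000008000000080000001 :=
  chk1_sound oka (by decide) lga cs_nil ka_91
theorem ca_92 : CutGood Pa Sa G1_48 (fv1 G1_48) 0 0x27ffffffb7ffffff4800000058000000b 0x80000000800000008000000080000001 :=
  chk1_sound oka (by decide) lga (cs_cons ca_91 cs_nil) ka_92
theorem ca_93 : CutGood Pa Sa G1_48 (fv1 G1_48) 0 0x27ffffffe7ffffffb8000000480000000 0x80000000800000008000000080000001 :=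
  chk1_sound oka (by decide) lga (cs_cons ca_90 (cs_cons ca_92 cs_nil)) ka_93
theorem ca_94 : CutGood Pa Sa G1_48 (fv1 G1_48) 0 0x27ffffffe7ffffffc8000000380000004 0x80000000800000008000000080000001 :=
  chk1_sound oka (by decide) lga cs_nil ka_94
theorem ca_95 : CutGood Pa Sa G1_48 (fv1 G1_48) 0 0x2800000067ffffff57fffffe47ffffffe 0x80000000800000008000000080000001 :=
  chk1_sound oka (by decide) lga cs_nil ka_95
theorem ca_96 : CutGood Pa Sa G1_48 (fv1 G1_48) 0 0x27ffffffe7ffffffa800000027fffffff 0x80000000800000008000000080000001 :=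
  chk1_sound oka (by decide) lga (cs_cons ca_95 cs_nil) ka_96
theorem ca_97 : CutGood Pa Sa G1_48 (fv1 G1_48) 0 0x28000000e7fffffda800000217fffffb4 0x80000000800000008000000080000001 :=
  chk1_sound oka (by decide) lga cs_nil ka_97
theorem ca_98 : CutGood Pa Sa G1_48 (fv1 G1_48) 0 0x2800000047ffffff38000000980000007 0x80000000800000008000000080000001 :=
  chk1_sound oka (by decide) lga (cs_cons ca_97 cs_nil) ka_98
theorem ca_99 : CutGood Pa Sa G1_48 (fv1 G1_48) 0 0x27ffffffc7ffffff9800000058000000f 0x80000001800000008000000180000001 :=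
  chk1_sound oka (by decide) lga cs_nil ka_99
theorem ca_100 : CutGood Pa Sa G1_48 (fv1 G1_48) 0 0x27ffffffc7ffffff9800000058000000f 0x80000000800000008000000080000001 :=
  chk1_sound oka (by decide) lga (cs_cons ca_99 cs_nil) ka_100
theorem ca_101 : CutGood Pa Sa G1_48 (fv1 G1_48) 0 0x27ffffff47ffffff57fffffff80000007 0x80000000800000008000000080000001 :=
  chk1_sound oka (by decide) lga cs_nil ka_101
theorem ca_102 : CutGood Pa Sa G1_48 (fv1 G1_48) 0 0x27ffffffc7ffffffb8000000080000002 0x80000000800000008000000080000001 :=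
  chk1_sound oka (by decide) lga cs_nil ka_102
theorem ca_103 : CutGood Pa Sa G1_48 (fv1 G1_48) 0 0x27ffffff77ffffff88000000b80000007 0x80000000800000008000000080000001 :=
  chk1_sound oka (by decide) lga cs_nil ka_103
theorem ca_104 : CutGood Pa Sa G1_48 (fv1 G1_48) 0 0x27ffffffc7ffffffd800000047ffffffe 0x80000000800000008000000080000001 :=
  chk1_sound oka (by decide) lga (cs_cons ca_103 cs_nil) ka_104
theorem ca_105 : CutGood Pa Sa G1_48 (fv1 G1_48) 0 0x27ffffff67fffffe6800000007ffffff3 0x80000000800000008000000080000001 :=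
  chk1_sound oka (by decide) lga cs_nil ka_105
theorem ca_106 : CutGood Pa Sa G1_48 (fv1 G1_48) 0 0x27ffffffb7ffffffc800000007ffffffe 0x80000000800000008000000080000001 :=
  chk1_sound oka (by decide) lga (cs_cons ca_105 cs_nil) ka_106
theorem ca_107 : CutGood Pa Sa G1_48 (fv1 G1_48) 0 0x27ffffffa7ffffffe8000000280000001 0x7fffffff7fffffff8000000180000002 :=
  chk1_sound oka (by decide) lga cs_nil ka_107
theorem ca_108 : CutGood Pa Sa G1_48 (fv1 G1_48) 0 0x27ffffffa7ffffffe8000000280000001 0x80000001800000017fffffff80000002 :=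
  chk1_sound oka (by decide) lga cs_nil ka_108
theorem ca_109 : CutGood Pa Sa G1_48 (fv1 G1_48) 0 0x27ffffffa7ffffffe8000000280000001 0x800000007fffffff8000000280000004 :=
  chk1_sound oka (by decide) lga cs_nil ka_109
theorem ca_110 : CutGood Pa Sa G1_48 (fv1 G1_48) 0 0x27ffffffe7ffffff98000000980000001 0x7fffffff7fffffff7fffffff80000002 :=
  chk1_sound oka (by decide) lga cs_nil ka_110
theorem ca_111 : CutGood Pa Sa G1_48 (fv1 G1_48) 0 0x27ffffffa7ffffffe8000000280000001 0x80000000800000008000000080000001 :=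
  chk1_sound oka (by decide) lga (cs_cons ca_107 (cs_cons ca_108 (cs_cons ca_109 (cs_cons ca_110 cs_nil)))) ka_111
theorem ca_112 : CutGood Pa Sa G1_48 (fv1 G1_48) 0 0x27fffffff800000008000000180000001 0x80000000800000008000000080000001 :=
  chk1_sound oka (by decide) lga (cs_cons ca_79 (cs_cons ca_80 (cs_cons ca_81 (cs_cons ca_85 (cs_cons ca_86 (cs_cons ca_89 (cs_cons ca_93 (cs_cons ca_94 (cs_cons ca_96 (cs_cons ca_98 (cs_cons ca_100 (cs_cons ca_101 (cs_cons ca_102 (cs_cons ca_104 (cs_cons ca_106 (cs_cons ca_111 cs_nil)))))))))))))))) ka_112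
theorem ca_113 : CutGood Pa Sa G1_48 (fv1 G1_48) 0 0x27fffffff7ffffff5800000077ffffff4 0x80000000800000018000000180000001 :=
  chk1_sound oka (by decide) lga cs_nil ka_113
theorem ca_114 : CutGood Pa Sa G1_48 (fv1 G1_48) 0 0x2800000027fffffff8000000680000008 0x7ffffffb800000007fffffff80000001 :=
  chk1_sound oka (by decide) lga cs_nil ka_114
theorem ca_115 : CutGood Pa Sa G1_48 (fv1 G1_48) 0 0x2800000017ffffffe8000000380000001 0x80000000800000018000000180000001 :=
  chk1_sound oka (by decide) lga (cs_cons ca_113 (cs_cons ca_114 cs_nil)) ka_115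
theorem ca_116 : CutGood Pa Sa G1_48 (fv1 G1_48) 0 0x27fffffff7ffffff5800000077ffffff4 0x80000001800000008000000180000001 :=
  chk1_sound oka (by decide) lga cs_nil ka_116
theorem ca_117 : CutGood Pa Sa G1_48 (fv1 G1_48) 0 0x2800000027fffffff8000000680000008 0x80000001800000008000000180000001 :=
  chk1_sound oka (by decide) lga cs_nil ka_117
theorem ca_118 : CutGood Pa Sa G1_48 (fv1 G1_48) 0 0x2800000017ffffffe8000000380000001 0x80000001800000008000000180000001 :=
  chk1_sound oka (by decide) lga (cs_cons ca_116 (cs_cons ca_117 cs_nil)) ka_118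
theorem ca_119 : CutGood Pa Sa G1_48 (fv1 G1_48) 0 0x2800000017fffffff8000000280000003 0x80000000800000008000000080000001 :=
  chk1_sound oka (by decide) lga cs_nil ka_119
theorem ca_120 : CutGood Pa Sa G1_48 (fv1 G1_48) 0 0x28000000c7fffffff8000000d80000001 0x80000000800000008000000080000001 :=
  chk1_sound oka (by decide) lga cs_nil ka_120
theorem ca_121 : CutGood Pa Sa G1_48 (fv1 G1_48) 0 0x280000005800000008000000280000004 0x80000000800000008000000080000001 :=
  chk1_sound oka (by decide) lga (cs_cons ca_120 cs_nil) ka_121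
theorem ca_122 : CutGood Pa Sa G1_48 (fv1 G1_48) 0 0x280000009800000088000000d80000001 0x80000000800000008000000080000001 :=
  chk1_sound oka (by decide) lga cs_nil ka_122
theorem ca_123 : CutGood Pa Sa G1_48 (fv1 G1_48) 0 0x2800000017ffffff88000000f7ffffffb 0x80000000800000018000000180000001 :=
  chk1_sound oka (by decide) lga cs_nil ka_123
theorem ca_124 : CutGood Pa Sa G1_48 (fv1 G1_48) 0 0x27ffffffd80000004800000117fffffff 0x80000000800000018000000180000001 :=
  chk1_sound oka (by decide) lga cs_nil ka_124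
theorem ca_125 : CutGood Pa Sa G1_48 (fv1 G1_48) 0 0x2800000027fffffff8000000680000002 0x80000000800000008000000080000001 :=
  chk1_sound oka (by decide) lga (cs_cons ca_122 (cs_cons ca_123 (cs_cons ca_124 cs_nil))) ka_125
theorem ca_126 : CutGood Pa Sa G1_48 (fv1 G1_48) 0 0x2800000047ffffffd8000000480000002 0x80000000800000008000000080000001 :=
  chk1_sound oka (by decide) lga cs_nil ka_126
theorem ca_127 : CutGood Pa Sa G1_48 (fv1 G1_48) 0 0x2800000017ffffffe800000067ffffffe 0x80000000800000008000000080000001 :=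
  chk1_sound oka (by decide) lga cs_nil ka_127
theorem ca_128 : CutGood Pa Sa G1_48 (fv1 G1_48) 0 0x27fffffff7ffffffe8000000180000003 0x80000000800000008000000080000001 :=
  chk1_sound oka (by decide) lga cs_nil ka_128
theorem ca_129 : CutGood Pa Sa G1_48 (fv1 G1_48) 0 0x380000000800000008000000180000002 0x7ffffffe800000028000000180000000 :=
  chk1_sound oka (by decide) lga cs_nil ka_129
theorem ca_130 : CutGood Pa Sa G1_48 (fv1 G1_48) 0 0x380000000800000008000000180000002 0x7ffffffe800000008000000280000001 :=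
  chk1_sound oka (by decide) lga cs_nil ka_130
theorem ca_131 : CutGood Pa Sa G1_48 (fv1 G1_48) 0 0x3800000047ffffffa8000000780000002 0x80000000800000018000000180000001 :=
  chk1_sound oka (by decide) lga cs_nil ka_131
theorem ca_132 : CutGood Pa Sa G1_48 (fv1 G1_48) 0 0x380000008800000018000000d80000009 0x80000000800000018000000180000001 :=
  chk1_sound oka (by decide) lga cs_nil ka_132
theorem ca_133 : CutGood Pa Sa G1_48 (fv1 G1_48) 0 0x3800000017fffffff8000000280000003 0x80000000800000018000000180000001 :=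
  chk1_sound oka (by decide) lga (cs_cons ca_131 (cs_cons ca_132 cs_nil)) ka_133
theorem ca_134 : CutGood Pa Sa G1_48 (fv1 G1_48) 0 0x37ffffffc800000008000000580000008 0x80000000800000018000000180000001 :=
  chk1_sound oka (by decide) lga cs_nil ka_134
theorem ca_135 : CutGood Pa Sa G1_48 (fv1 G1_48) 0 0x37ffffffd7fffffff8000000280000001 0x80000000800000018000000180000001 :=
  chk1_sound oka (by decide) lga (cs_cons ca_134 cs_nil) ka_135
theorem ca_136 : CutGood Pa Sa G1_48 (fv1 G1_48) 0 0x3800000007fffffff8000000080000002 0x80000000800000018000000180000001 :=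
  chk1_sound oka (by decide) lga cs_nil ka_136
theorem ca_137 : CutGood Pa Sa G1_48 (fv1 G1_48) 0 0x380000001800000038000000080000005 0x7ffffffa7ffffffe800000047ffffffb :=
  chk1_sound oka (by decide) lga cs_nil ka_137
theorem ca_138 : CutGood Pa Sa G1_48 (fv1 G1_48) 0 0x37fffffff800000028000000680000008 0x7ffffffc80000003800000017fffffff :=
  chk1_sound oka (by decide) lga cs_nil ka_138
theorem ca_139 : CutGood Pa Sa G1_48 (fv1 G1_48) 0 0x3800000037fffffff8000000080000005 0x8000000080000002800000027fffffff :=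
  chk1_sound oka (by decide) lga (cs_cons ca_138 cs_nil) ka_139
theorem ca_140 : CutGood Pa Sa G1_48 (fv1 G1_48) 0 0x37ffffffd800000017ffffffc80000003 0x7ffffffc80000003800000017fffffff :=
  chk1_sound oka (by decide) lga cs_nil ka_140
theorem ca_141 : CutGood Pa Sa G1_48 (fv1 G1_48) 0 0x380000000800000007fffffff80000002 0x8000000080000002800000027fffffff :=
  chk1_sound oka (by decide) lga (cs_cons ca_137 (cs_cons ca_139 (cs_cons ca_140 cs_nil))) ka_141
theorem ca_142 : CutGood Pa Sa G1_48 (fv1 G1_48) 0 0x3800000037fffffff7ffffffc80000003 0x7ffffffe800000008000000280000001 :=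
  chk1_sound oka (by decide) lga cs_nil ka_142
theorem ca_143 : CutGood Pa Sa G1_48 (fv1 G1_48) 0 0x380000000800000007fffffff80000002 0x7ffffffe800000008000000280000001 :=
  chk1_sound oka (by decide) lga (cs_cons ca_142 cs_nil) ka_143
theorem ca_144 : CutGood Pa Sa G1_48 (fv1 G1_48) 0 0x380000000800000008000000180000002 0x7ffffffb8000000c800000047ffffffe :=
  chk1_sound oka (by decide) lga cs_nil ka_144
theorem ca_145 : CutGood Pa Sa G1_48 (fv1 G1_48) 0 0x380000000800000008000000180000002 0x7ffffff8800000058000000680000008 :=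
  chk1_sound oka (by decide) lga cs_nil ka_145
theorem ca_146 : CutGood Pa Sa G1_48 (fv1 G1_48) 0 0x380000000800000008000000180000002 0x80000002800000028000000180000000 :=
  chk1_sound oka (by decide) lga (cs_cons ca_144 (cs_cons ca_145 cs_nil)) ka_146
theorem ca_147 : CutGood Pa Sa G1_48 (fv1 G1_48) 0 0x380000001800000008000000080000002 0x80000001800000047fffffff7ffffffd :=
  chk1_sound oka (by decide) lga cs_nil ka_147
theorem ca_148 : CutGood Pa Sa G1_48 (fv1 G1_48) 0 0x380000001800000008000000080000002 0x80000000800000057fffffff80000001 :=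
  chk1_sound oka (by decide) lga cs_nil ka_148
theorem ca_149 : CutGood Pa Sa G1_48 (fv1 G1_48) 0 0x3800000007fffffff8000000080000002 0x80000002800000028000000180000000 :=
  chk1_sound oka (by decide) lga cs_nil ka_149
theorem ca_150 : CutGood Pa Sa G1_48 (fv1 G1_48) 0 0x380000000800000007fffffff80000002 0x80000002800000028000000180000000 :=
  chk1_sound oka (by decide) lga cs_nil ka_150
theorem ca_151 : CutGood Pa Sa G1_48 (fv1 G1_48) 0 0x380000000800000008000000180000002 0x8000000280000000800000027fffffff :=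
  chk1_sound oka (by decide) lga cs_nil ka_151
theorem ca_152 : CutGood Pa Sa G1_48 (fv1 G1_48) 0 0x380000000800000018000000080000002 0x8000000280000000800000027fffffff :=
  chk1_sound oka (by decide) lga cs_nil ka_152
theorem ca_153 : CutGood Pa Sa G1_48 (fv1 G1_48) 0 0x380000001800000008000000080000002 0x8000000280000000800000027fffffff :=
  chk1_sound oka (by decide) lga cs_nil ka_153
theorem ca_154 : CutGood Pa Sa G1_48 (fv1 G1_48) 0 0x380000000800000007fffffff80000002 0x8000000280000000800000027fffffff :=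
  chk1_sound oka (by decide) lga cs_nil ka_154
theorem ca_155 : CutGood Pa Sa G1_48 (fv1 G1_48) 0 0x380000000800000008000000080000001 0x8000000280000000800000027fffffff :=
  chk1_sound oka (by decide) lga (cs_cons ca_151 (cs_cons ca_152 (cs_cons ca_153 (cs_cons ca_154 cs_nil)))) ka_155
theorem ca_156 : CutGood Pa Sa G1_48 (fv1 G1_48) 0 0x380000003800000048000000180000003 0x7ffffffe80000000800000027fffffff :=
  chk1_sound oka (by decide) lga cs_nil ka_156
theorem ca_157 : CutGood Pa Sa G1_48 (fv1 G1_48) 0 0x380000001800000018000000180000002 0x7ffffffe80000000800000027fffffff :=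
  chk1_sound oka (by decide) lga (cs_cons ca_156 cs_nil) ka_157
theorem ca_158 : CutGood Pa Sa G1_48 (fv1 G1_48) 0 0x3800000017ffffffc8000000380000003 0x7ffffffe80000000800000027fffffff :=
  chk1_sound oka (by decide) lga cs_nil ka_158
theorem ca_159 : CutGood Pa Sa G1_48 (fv1 G1_48) 0 0x3800000017fffffff8000000180000002 0x7ffffffe80000000800000027fffffff :=
  chk1_sound oka (by decide) lga (cs_cons ca_158 cs_nil) ka_159
theorem ca_160 : CutGood Pa Sa G1_48 (fv1 G1_48) 0 0x3800000007ffffffd8000000180000005 0x7ffffffe80000000800000027fffffff :=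
  chk1_sound oka (by decide) lga cs_nil ka_160
theorem ca_161 : CutGood Pa Sa G1_48 (fv1 G1_48) 0 0x37fffffff7fffffff8000000180000002 0x7ffffffe80000000800000027fffffff :=
  chk1_sound oka (by decide) lga (cs_cons ca_160 cs_nil) ka_161
theorem ca_162 : CutGood Pa Sa G1_48 (fv1 G1_48) 0 0x380000001800000017fffffff80000002 0x7ffffffe80000000800000027fffffff :=
  chk1_sound oka (by decide) lga cs_nil ka_162
theorem ca_163 : CutGood Pa Sa G1_48 (fv1 G1_48) 0 0x37fffffff800000017fffffff80000002 0x7ffffffe80000000800000027fffffff :=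
  chk1_sound oka (by decide) lga cs_nil ka_163
theorem ca_164 : CutGood Pa Sa G1_48 (fv1 G1_48) 0 0x3800000037ffffffc7fffffff80000003 0x7ffffffe80000000800000027fffffff :=
  chk1_sound oka (by decide) lga cs_nil ka_164
theorem ca_165 : CutGood Pa Sa G1_48 (fv1 G1_48) 0 0x3800000017fffffff7fffffff80000002 0x7ffffffe80000000800000027fffffff :=
  chk1_sound oka (by decide) lga (cs_cons ca_164 cs_nil) ka_165
theorem ca_166 : CutGood Pa Sa G1_48 (fv1 G1_48) 0 0x37fffffff7ffffffe8000000380000001 0x7fffffff7ffffff98000000280000003 :=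
  chk1_sound oka (by decide) lga cs_nil ka_166
theorem ca_167 : CutGood Pa Sa G1_48 (fv1 G1_48) 0 0x380000000800000008000000180000002 0x800000057ffffff4800000047ffffffe :=
  chk1_sound oka (by decide) lga cs_nil ka_167
theorem ca_168 : CutGood Pa Sa G1_48 (fv1 G1_48) 0 0x380000000800000008000000180000002 0x7ffffffd7ffffffb800000027ffffffb :=
  chk1_sound oka (by decide) lga cs_nil ka_168
theorem ca_169 : CutGood Pa Sa G1_48 (fv1 G1_48) 0 0x380000000800000008000000180000002 0x7ffffffe7ffffffe8000000180000000 :=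
  chk1_sound oka (by decide) lga (cs_cons ca_166 (cs_cons ca_167 (cs_cons ca_168 cs_nil))) ka_169
theorem ca_170 : CutGood Pa Sa G1_48 (fv1 G1_48) 0 0x37fffffff800000007ffffffd80000005 0x7ffffffe7ffffffe8000000180000000 :=
  chk1_sound oka (by decide) lga cs_nil ka_170
theorem ca_171 : CutGood Pa Sa G1_48 (fv1 G1_48) 0 0x380000000800000018000000080000002 0x7ffffffe7ffffffe8000000180000000 :=
  chk1_sound oka (by decide) lga (cs_cons ca_170 cs_nil) ka_171
theorem ca_172 : CutGood Pa Sa G1_48 (fv1 G1_48) 0 0x3800000047ffffffd7fffffff80000003 0x7fffffff7ffffffc7fffffff7ffffffd :=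
  chk1_sound oka (by decide) lga cs_nil ka_172
theorem ca_173 : CutGood Pa Sa G1_48 (fv1 G1_48) 0 0x380000001800000008000000080000002 0x7fffffff7ffffffc7fffffff7ffffffd :=
  chk1_sound oka (by decide) lga (cs_cons ca_172 cs_nil) ka_173
theorem ca_174 : CutGood Pa Sa G1_48 (fv1 G1_48) 0 0x37fffffff800000008000000080000002 0x800000077ffffffb800000167ffffffd :=
  chk1_sound oka (by decide) lga cs_nil ka_174
theorem ca_175 : CutGood Pa Sa G1_48 (fv1 G1_48) 0 0x37fffffff800000008000000080000002 0x7fffffff7ffffff98000000280000003 :=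
  chk1_sound oka (by decide) lga (cs_cons ca_174 cs_nil) ka_175
theorem ca_176 : CutGood Pa Sa G1_48 (fv1 G1_48) 0 0x37fffffff800000008000000080000002 0x800000057ffffff4800000047ffffffe :=
  chk1_sound oka (by decide) lga cs_nil ka_176
theorem ca_177 : CutGood Pa Sa G1_48 (fv1 G1_48) 0 0x37fffffff800000008000000080000002 0x7ffffffe7ffffffe8000000180000000 :=
  chk1_sound oka (by decide) lga (cs_cons ca_175 (cs_cons ca_176 cs_nil)) ka_177
theorem ca_178 : CutGood Pa Sa G1_48 (fv1 G1_48) 0 0x380000000800000007fffffff80000002 0x7ffffffe7ffffffe8000000180000000 :=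
  chk1_sound oka (by decide) lga cs_nil ka_178
theorem ca_179 : CutGood Pa Sa G1_48 (fv1 G1_48) 0 0x3800000027fffffff8000000380000001 0x800000007fffffff8000000180000001 :=
  chk1_sound oka (by decide) lga cs_nil ka_179
theorem ca_180 : CutGood Pa Sa G1_48 (fv1 G1_48) 0 0x37fffffff7ffffffe8000000380000001 0x800000007fffffff8000000180000001 :=
  chk1_sound oka (by decide) lga cs_nil ka_180
theorem ca_181 : CutGood Pa Sa G1_48 (fv1 G1_48) 0 0x380000000800000018000000080000002 0x800000007fffffff8000000180000001 :=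
  chk1_sound oka (by decide) lga cs_nil ka_181
theorem ca_182 : CutGood Pa Sa G1_48 (fv1 G1_48) 0 0x380000003800000018000000280000001 0x800000007fffffff8000000180000001 :=
  chk1_sound oka (by decide) lga cs_nil ka_182
theorem ca_183 : CutGood Pa Sa G1_48 (fv1 G1_48) 0 0x37ffffffc800000068000000780000002 0x800000007fffffff8000000180000001 :=
  chk1_sound oka (by decide) lga cs_nil ka_183
theorem ca_184 : CutGood Pa Sa G1_48 (fv1 G1_48) 0 0x37ffffff87fffffff8000000d80000009 0x800000007fffffff8000000180000001 :=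
  chk1_sound oka (by decide) lga cs_nil ka_184
theorem ca_185 : CutGood Pa Sa G1_48 (fv1 G1_48) 0 0x37fffffff800000018000000280000003 0x800000007fffffff8000000180000001 :=
  chk1_sound oka (by decide) lga (cs_cons ca_183 (cs_cons ca_184 cs_nil)) ka_185
theorem ca_186 : CutGood Pa Sa G1_48 (fv1 G1_48) 0 0x380000000800000007fffffff80000002 0x80000002800000008000000280000001 :=
  chk1_sound oka (by decide) lga cs_nil ka_186
theorem ca_187 : CutGood Pa Sa G1_48 (fv1 G1_48) 0 0x37ffffffd800000018000000080000005 0x800000047ffffffd800000017fffffff :=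
  chk1_sound oka (by decide) lga cs_nil ka_187
theorem ca_188 : CutGood Pa Sa G1_48 (fv1 G1_48) 0 0x37fffffff7ffffffd8000000080000005 0x800000047ffffffd800000017fffffff :=
  chk1_sound oka (by decide) lga cs_nil ka_188
theorem ca_189 : CutGood Pa Sa G1_48 (fv1 G1_48) 0 0x380000000800000007fffffff80000002 0x800000007ffffffe800000027fffffff :=
  chk1_sound oka (by decide) lga (cs_cons ca_187 (cs_cons ca_188 cs_nil)) ka_189
theorem ca_190 : CutGood Pa Sa G1_48 (fv1 G1_48) 0 0x380000000800000008000000080000001 0x800000007fffffff8000000180000001 :=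
  chk1_sound oka (by decide) lga (cs_cons ca_179 (cs_cons ca_180 (cs_cons ca_181 (cs_cons ca_182 (cs_cons ca_185 (cs_cons ca_186 (cs_cons ca_189 cs_nil))))))) ka_190
theorem roota_0 : CutGood Pa Sa G1_48 (fv1 G1_48) 0 0x180000000800000008000000080000001 0x80000000800000008000000080000001 :=
  chk1_sound oka (by decide) lga (cs_cons ca_0 (cs_cons ca_1 (cs_cons ca_2 (cs_cons ca_3 (cs_cons ca_4 (cs_cons ca_6 (cs_cons ca_8 (cs_cons ca_9 (cs_cons ca_11 (cs_cons ca_13 (cs_cons ca_14 (cs_cons ca_16 (cs_cons ca_18 (cs_cons ca_20 (cs_cons ca_22 (cs_cons ca_23 (cs_cons ca_24 (cs_cons ca_27 (cs_cons ca_28 (cs_cons ca_29 (cs_cons ca_31 (cs_cons ca_35 (cs_cons ca_38 (cs_cons ca_41 (cs_cons ca_47 (cs_cons ca_48 (cs_cons ca_51 (cs_cons ca_52 (cs_cons ca_53 cs_nil))))))))))))))))))))))))))))) ra_0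
theorem roota_1 : CutGood Pa Sa G1_48 (fv1 G1_48) 0 0x280000000800000008000000080000001 0x80000000800000008000000080000001 :=
  chk1_sound oka (by decide) lga (cs_cons ca_56 (cs_cons ca_60 (cs_cons ca_62 (cs_cons ca_66 (cs_cons ca_67 (cs_cons ca_68 (cs_cons ca_69 (cs_cons ca_72 (cs_cons ca_73 (cs_cons ca_74 (cs_cons ca_78 (cs_cons ca_112 (cs_cons ca_115 (cs_cons ca_118 (cs_cons ca_119 (cs_cons ca_121 (cs_cons ca_125 (cs_cons ca_126 (cs_cons ca_127 (cs_cons ca_128 cs_nil)))))))))))))))))))) ra_1
theorem roota_2 : CutGood Pa Sa G1_48 (fv1 G1_48) 0 0x380000000800000008000000080000001 0x80000000800000008000000080000001 :=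
  chk1_sound oka (by decide) lga (cs_cons ca_129 (cs_cons ca_130 (cs_cons ca_133 (cs_cons ca_135 (cs_cons ca_136 (cs_cons ca_141 (cs_cons ca_143 (cs_cons ca_146 (cs_cons ca_147 (cs_cons ca_148 (cs_cons ca_149 (cs_cons ca_150 (cs_cons ca_155 (cs_cons ca_157 (cs_cons ca_159 (cs_cons ca_161 (cs_cons ca_162 (cs_cons ca_163 (cs_cons ca_165 (cs_cons ca_169 (cs_cons ca_171 (cs_cons ca_173 (cs_cons ca_177 (cs_cons ca_178 (cs_cons ca_190 cs_nil))))))))))))))))))))))))) ra_2
theorem alla : All Pa Sa true := core1 roota_0 roota_1 roota_2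

def Sc : Sp :=
  ⟨mkH 1 1 (-2) 0, mkH 0 (-1) 2 0, mkH 0 1 0 2, 0, 16, 9, 5, 3, RP3, RP7, RP1⟩
theorem okc : ParOK Pc Sc :=
  parChk_sound (by decide +kernel) (Or.inl rfl) ext_3 ext_7 ext_1
theorem tc_0 : ∀ i < 8, StOK Pc Sc (stR Pc i) :=
  sts_step okc (by decide) cs_nil sc_0 (fun _ h => absurd h (Nat.not_lt_zero _))
theorem lgc : ∀ i < Pc.nst, LG0 Pc Sc (stR Pc i) := lg0_all okc tc_0
theorem cc_0 : CutGood Pc Sc G1_48 (fv1 G1_48) 0 0x7ffffffe7ffffffe8000000180000000 0x80000000800000008000000080000001 :=
  chk1_sound okc (by decide) lgc cs_nil kc_0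
theorem cc_1 : CutGood Pc Sc G1_48 (fv1 G1_48) 0 0x800000007fffffff8000000180000001 0x80000000800000008000000080000001 :=
  chk1_sound okc (by decide) lgc cs_nil kc_1
theorem rootc_0 : CutGood Pc Sc G1_48 (fv1 G1_48) 0 0x80000000800000008000000080000001 0x80000000800000008000000080000001 :=
  chk1_sound okc (by decide) lgc (cs_cons cc_0 (cs_cons cc_1 cs_nil)) rc_0
theorem allc : All Pc Sc false := core0 rootc_0

def brP112 : BrP := ⟨1, 0, 1, 0, 0, 2, 1, 1, 1, 3, 148⟩

def brC112 : List Nat := [
  0x400000100f400000f001200500000e200500e000300300000e300300e000000600000d000600d000400000200e400000e002400000300d400000d003100500000c100500c000400000400c400000c004200400000c200400c000300200000c300200c0004000008008100400000a100400a000200300000a200300a000300100000a300100a0000004000009000400900010030000081003008000200200000820020080003000000008300000800000030000070003007000300000100730000070013000002006300000600210020000061002006000200100000620010060003000003005300000500330000040040002000005000200500010010000041001004000200000000420000040002000001003200000300100010000030001003000200000200210000000021000002000100000100100000000010000001000,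
  0xc019000300900001a300901a000500000501b200a01800050000070195000019007000b000017000b01700050000080185000018008300800001830080180005000009017500001700940040000184004018000500000a016500001600a100a000016100a01600020090000162009016000500000b015500001500b500000c014500001400c000a000015500001100f500001001040030000164003016000100900001410090140002008000014200801400000090000130009013000300600001430060140004002000014400201400010080000121008012000200700001220070120000008000011000801100030050000123005012000400100001240010120001007000010100701000020060000102006010000000700000f000700f0003004000010300401000040000000104000010000100600000e100600e000,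
  0x1011024000400b000026400b0260002010000024201002400000110000230011023000300e000024300e0240005003000026500302600010100000221010022000400a000024400a024000200f000022200f02200000100000210010021000300d000022300d02200050020000245002024000100f000020100f02000040090000224009022000200e000020200e020000000f00001f000f01f000300c000020300c02000050010000225001022000100e00001e100e01e00040080000204008020000200d00001e200d01e000000e00001d000e01d00050000000205000020000300b00001e300b01e000500000101f500001f001100d00001c100d01c000400700001e400701e000200c00001c200c01c000500000201e500001e002000d00001b000d01b000300a00001c500001c004200b00001a200b01a000000c000019,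
  0x2017000032201703200040120000344012034000600000a036600003600a0018000031001803100030150000323015032000600000b035600003500b600000c034600003400c10170000301017030000500a000034500a0340004011000032401103200020160000302016030000600000d033600003300d001700002f001702f00030140000303014030000600001d023600002301d600001e022600002201e301100002a301102a000600001f021600002101f6000020020500600002c500602c00010130000281013028000400d00002a400d02a000201200002820120280000013000027001302700030100000283010028000500500002a500502a00010120000261012026000400c000028400c0280002011000026201102600000120000250012025000300f000026300f026000500400002850040280001011000024,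
  0x201e000040201e0400004019000042401904200050120000445012044000001f00003f001f03f00060030000466003046000301c000040301c040000101e00003e101e03e000201d00003e201d03e000401800004040180400005011000042501104200060020000446002044000001e00003d001e03d000301b00003e301b03e000101d00003c101d03c000201b00003a201b03a000401600003c401603c000500f00003e500f03e000001c000039001c039000301900003a301903a000600000103f600003f001101b000038101b038000600000203e600003e002201a000038201a038000401500003a401503a000500e00003c500e03c000001b000037001b037000600000303d600003d00330180000383018038000600000403c600003c004101a000036101a03600010180000321018032000500b000036500b036000,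
  0x40200000504020050000002600004d002604d000302200004c302204c00060090000526009052000102400004a102404a000202300004a202304a000401e00004c401e04c00000240000490024049000501700004e501704e000302100004a302104a0001022000046102204600020210000462021046000401c000048401c048000501500004a501504a00000220000450022045000301f000046301f046000600600004c600604c0001021000044102104400020200000442020044000401b000046401b0460005014000048501404800000210000430021043000301e000044301e044000600500004a600504a00010200000421020042000201f000042201f042000401a000044401a044000501300004650130460000020000041002004100060040000486004048000301d000042301d042000101f000040101f040000,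
  0x202c05c000700001f061700006101f402700005e700005e022202b00005a202b05a000402600005c402605c00060110000626011062000700002305d700005d023002c000059002c059000501f00005e501f05e000302900005a302905a000700002405c202a05800060100000606010060000402500005a402505a00070000270597000059027002b000057700005202e700002f051700005102f1029000054102905400070000300507000050030600e00005c700004e03200290000530029053000700003304d700004d033501c000058501c058000302600005410270000501027050000600c000058600c0580002026000050202605000040210000524021052000002700004f002704f000501a000054501a05400030240000503024050000102600004e102604e000600b000056600b056000202500004e202504e000,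
  0x2e05d00050210000625021062000302b00005e302b05e000700001d063700006301d700001e062700006201e102d00005c102d05c000202c00005c]

theorem brK112 : brChk brP112 65536 brC112 1450 = true := by decide +kernel

theorem brute_112 : ∀ n : ℕ, 0 < n → n ≤ 2100000 → n % 4 ≠ 0 → Rp 1 1 (-2) n :=
  brChk_ok (P := brP112) ⟨by decide, by decide, by decide⟩ brK112 (by norm_num) rfl rfl rfl

def tbla : ℕ := 0x294001b0002080034400150000ac0068000028003a400508000a400690002000016c006e800284004a800020001640050000a0c001a80010400354006e000a04004a000080003b4006f0000b4001a0002240034c0014000294001b0002080034400150000ac0068000028003a400508000a400690002000016c006e800284004a800020001640050000a0c001a80010400354006e000a04004a000080003b4006f0000b4001a0002240034c0014000294001b0002080034400150000ac0068000028003a400508000a400690002000016c006e800284004a800020001640050000a0c001a80010400354006e000a04004a000080003b4006f0000b4001a0002240034c0014000294001b0002080034400150000ac0068000028003a400508000a400690002000016c006e800284004a800020001640050000a0c001a8001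0400354006e000a04004a000080003b4006f0000b4001a0002240034c0014000294001b0002080034400150000ac0068000028003a400508000a400690002000016c006e800284004a800020001640050000a0c001a80010400354006e000a04004a000080003b4006f0000b4001a0002240034c0014000294001b0002080034400150000ac0068000028003a400508000a400690002000016c006e800284004a800020001640050000a0c001a80010400354006e000a04004a000080003b4006f0000b4001a0002240034c0014000294001b0002080034400150000ac0068000028003a400508000a400690002000016c006e800284004a800020001640050000a0c001a80010400354006e000a04004a000080003b4006f0000b4001a0002240034c0014000294001b0002080034400150000ac0068000028003a400508000a400690002000016c006e800284004a800020001640050000a0c001a80010400354006e000a04004a000080003b4006f0000b4001a0002240034c0014000294001b0002080034400150000ac0068000028003a400508000a400690002000016c006e800284004a800020001640050000a0c001a80010400354006e000a04004a000080003b4006f0000b4001a0002240034c0014000294001b0002080034400150000ac0068000028003a400508000a400690002000016c006e800284004a800020001640050000a0c001a80010400354006e000a04004a000080003b4006f0000b4001a0002240034c0014000294001b0002080034400150000ac0068000028003a400508000a400690002000016c006e800284004a800020001640050000a0c001a80010400354006e000a04004a000080003b4006f0000b4001a0002240034c0014000294001b0002080034400150000ac0068000028003a400508000a400690002000016c006e800284004a800020001640050000a0c001a80010400354006e000a04004a000080003b4006f0000b4001a0002240034c0014000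
theorem picka : ∀ r < 840, r % 2 = 1 →
    tj tbla r ≤ 5 ∧ Pk 105 21 3 (6 * r) (tj tbla r) (tx tbla r) := by decide +kernel
theorem biga (n : ℕ) (hX : 2100000 < n) (h4 : n % 2 = 1) :
    Rp 1 1 (-2) n := by
  obtain ⟨hj, hp⟩ := picka (n % 840) (Nat.mod_lt _ (by norm_num)) (by omega)
  generalize tj tbla (n % 840) = j at hj hp
  generalize tx tbla (n % 840) = x at hp
  have h4j := pow4_le hj
  have hg := goal_of_pk oka alla (kp := 1) (Md := 105) (t := 6 * n) (j := j) (x := x)
    (by decide) (by decide) (by decide) rfl (by decide)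
    (hp.mod ((Nat.mod_modEq n 840).mul_left 6))
    (by show (3 * 64 ^ 2 + 1) * 4 ^ j ≤ _; omega) (by show 193325 + 4 ^ j < _; omega) (fun _ => by omega)
  refine rp_goal (M := 6) (k := j) hg rfl (by norm_num)
    (Or.inr ⟨rfl, rfl, fun v hv hD h => dv_two_pc hv hD
      (by rw [sq_two_pow]; push_cast; omega) h (Or.inl ⟨rfl, by decide, by decide, by decide⟩)⟩) ?_ ?_ ?_
  · rw [sq_two_pow]; push_cast; ring
  · ring
  · intro v h1 h2
    have h1 : 2 * (2 : ℤ) ^ j ≤ (-1) * v.imI + 2 * v.imJ + 0 * v.imK := h1
    have h2 : 2 * (2 : ℤ) ^ j ≤ 1 * v.imI + 0 * v.imJ + 2 * v.imK := h2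
    have h3 : (0 : ℤ) < 2 ^ j := by positivity
    exact ⟨by linarith, by linarith, Or.inr (by linarith)⟩
def tblc : ℕ := 0x4c000800016c00020000280016400104002000020800080000440002800164001040004c002080016c00020000280009000104002000020800080000440020000164000300004c000800016c00020000280016400104002000020800080000440002800164001040004c002080016c00020000280009000104002000020800080000440020000164000300004c000800016c00020000280016400104002000020800080000440002800164001040004c002080016c000200002800090001040020000208000800004400200001640003000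
theorem pickc : ∀ r < 168, r % 2 = 1 → Pk 21 21 3 (12 * r) 0 (tx tblc r) ∨
    (tj tblc r ≤ 4 ∧ Pk 21 21 3 (3 * r) (tj tblc r) (tx tblc r)) := by decide +kernel
theorem bigc (n : ℕ) (hX : 2100000 < 2 * n) (h4 : n % 2 = 1) :
    Rp 1 1 (-2) (2 * n) := by
  rcases pickc (n % 168) (Nat.mod_lt _ (by norm_num)) (by omega) with hp | ⟨hj, hp⟩
  · have hg := goal_of_pk okc allc (kp := 1) (Md := 21) (t := 12 * n) (j := 0)
      (by decide) (by decide) (by decide) rfl (by decide)
      (hp.mod ((Nat.mod_modEq n 168).mul_left 12))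
      (by show (3 * 64 ^ 2 + 1) * 4 ^ 0 ≤ _; omega) (by show 83 + 4 ^ 0 < _; omega) (by simp)
    refine rp_goal (M := 6) (k := 0) hg rfl (by norm_num)
      (Or.inr ⟨rfl, rfl, fun v hv hD _ => dv_two_odd hv hD (by norm_num)
        (by push_cast; omega) (by decide)⟩) ?_ ?_ ?_
    · push_cast; ring
    · ring
    · intro v h1 h2
      have h1 : 2 * (2 : ℤ) ^ 0 ≤ (-1) * v.imI + 2 * v.imJ + 0 * v.imK := h1
      have h2 : 2 * (2 : ℤ) ^ 0 ≤ 1 * v.imI + 0 * v.imJ + 2 * v.imK := h2
      have h3 : (0 : ℤ) < 2 ^ 0 := by positivity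
      exact ⟨by linarith, by linarith, Or.inr (by linarith)⟩
  generalize tj tblc (n % 168) = j at hj hp
  have h4j := pow4_le hj
  have hg := goal_of_pk okc allc (kp := 1) (Md := 21) (t := 3 * n) (j := j)
    (by decide) (by decide) (by decide) rfl (by decide)
    (hp.mod ((Nat.mod_modEq n 168).mul_left 3))
    (by show (3 * 64 ^ 2 + 1) * 4 ^ j ≤ _; omega) (by show 83 + 4 ^ j < _; omega) (by simp)
  refine rp_goal (M := 3) (k := j + 1) hg rfl (by norm_num) (Or.inl rfl) ?_ ?_ ?_
  · rw [sq_two_pow]; push_cast; ring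
  · ring
  · intro v h1 h2
    have h1 : 2 * (2 : ℤ) ^ j ≤ (-1) * v.imI + 2 * v.imJ + 0 * v.imK := h1
    have h2 : 2 * (2 : ℤ) ^ j ≤ 1 * v.imI + 0 * v.imJ + 2 * v.imK := h2
    have h3 : (0 : ℤ) < 2 ^ j := by positivity
    exact ⟨by linarith, by linarith, Or.inr (by linarith)⟩
theorem form112 (n : ℕ) (hn : 0 < n) : Rp 1 1 (-2) n := by
  refine all_of (E := fun _ => True) (fun _ _ => trivial) (fun n hn h4 _ => ?_) n hn trivial
  by_cases hX : n ≤ 2100000
  · exact brute_112 n hn hX h4
  by_cases h2 : n % 2 = 1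
  · exact biga n (by omega) h2
  obtain ⟨k, rfl⟩ : 2 ∣ n := by omega
  exact bigc k (by omega) (by omega)

end Pool.Agent.Lib.MP_094079_nt
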