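import Pool.Agent.Lib.MP_094079_nt.Fin
import Pool.Agent.Lib.MP_094079_nt.Db_12
import Pool.Agent.Lib.MP_094079_nt.Db_13
import Pool.Agent.Lib.MP_094079_nt.Dd_0

/-! All positive integers for one form of norm six. -/
namespace Pool.Agent.Lib.MP_094079_nt

set_option maxRecDepth 100000
set_option exponentiation.threshold 20000

def Sb : Sp :=
  ⟨mkH 1 2 (-1) 0, mkH 0 (-2) 1 0, mkH 0 1 0 1, 2, 16, 9, 5, 3, RP3, RP7, RP5⟩
theorem okb : ParOK Pb Sb :=
  parChk_sound (by decide +kernel) (Or.inr Nat.prime_five) ext_3 ext_7 ext_5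
theorem tb_0 : ∀ i < 6, StOK Pb Sb (stR Pb i) :=
  sts_step okb (by decide) cs_nil sb_0 (fun _ h => absurd h (Nat.not_lt_zero _))
theorem tb_6 : ∀ i < 12, StOK Pb Sb (stR Pb i) :=
  sts_step okb (by decide) cs_nil sb_6 tb_0
theorem tb_12 : ∀ i < 18, StOK Pb Sb (stR Pb i) :=
  sts_step okb (by decide) cs_nil sb_12 tb_6
theorem tb_18 : ∀ i < 23, StOK Pb Sb (stR Pb i) :=
  sts_step okb (by decide) cs_nil sb_18 tb_12
theorem tb_23 : ∀ i < 27, StOK Pb Sb (stR Pb i) :=
  sts_step okb (by decide) cs_nil sb_23 tb_18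
theorem tb_27 : ∀ i < 33, StOK Pb Sb (stR Pb i) :=
  sts_step okb (by decide) cs_nil sb_27 tb_23
theorem tb_33 : ∀ i < 38, StOK Pb Sb (stR Pb i) :=
  sts_step okb (by decide) cs_nil sb_33 tb_27
theorem tb_38 : ∀ i < 46, StOK Pb Sb (stR Pb i) :=
  sts_step okb (by decide) cs_nil sb_38 tb_33
theorem tb_46 : ∀ i < 54, StOK Pb Sb (stR Pb i) :=
  sts_step okb (by decide) cs_nil sb_46 tb_38
theorem tb_54 : ∀ i < 60, StOK Pb Sb (stR Pb i) :=
  sts_step okb (by decide) cs_nil sb_54 tb_46
theorem tb_60 : ∀ i < 65, StOK Pb Sb (stR Pb i) :=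
  sts_step okb (by decide) cs_nil sb_60 tb_54
theorem tb_65 : ∀ i < 71, StOK Pb Sb (stR Pb i) :=
  sts_step okb (by decide) cs_nil sb_65 tb_60
theorem tb_71 : ∀ i < 79, StOK Pb Sb (stR Pb i) :=
  sts_step okb (by decide) cs_nil sb_71 tb_65
theorem tb_79 : ∀ i < 85, StOK Pb Sb (stR Pb i) :=
  sts_step okb (by decide) cs_nil sb_79 tb_71
theorem tb_85 : ∀ i < 91, StOK Pb Sb (stR Pb i) :=
  sts_step okb (by decide) cs_nil sb_85 tb_79
theorem tb_91 : ∀ i < 97, StOK Pb Sb (stR Pb i) :=
  sts_step okb (by decide) cs_nil sb_91 tb_85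
theorem tb_97 : ∀ i < 103, StOK Pb Sb (stR Pb i) :=
  sts_step okb (by decide) cs_nil sb_97 tb_91
theorem tb_103 : ∀ i < 109, StOK Pb Sb (stR Pb i) :=
  sts_step okb (by decide) cs_nil sb_103 tb_97
theorem tb_109 : ∀ i < 116, StOK Pb Sb (stR Pb i) :=
  sts_step okb (by decide) cs_nil sb_109 tb_103
theorem tb_116 : ∀ i < 121, StOK Pb Sb (stR Pb i) :=
  sts_step okb (by decide) cs_nil sb_116 tb_109
theorem tb_121 : ∀ i < 128, StOK Pb Sb (stR Pb i) :=
  sts_step okb (by decide) cs_nil sb_121 tb_116
theorem tb_128 : ∀ i < 135, StOK Pb Sb (stR Pb i) :=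
  sts_step okb (by decide) cs_nil sb_128 tb_121
theorem tb_135 : ∀ i < 141, StOK Pb Sb (stR Pb i) :=
  sts_step okb (by decide) cs_nil sb_135 tb_128
theorem tb_141 : ∀ i < 146, StOK Pb Sb (stR Pb i) :=
  sts_step okb (by decide) cs_nil sb_141 tb_135
theorem tb_146 : ∀ i < 152, StOK Pb Sb (stR Pb i) :=
  sts_step okb (by decide) cs_nil sb_146 tb_141
theorem tb_152 : ∀ i < 156, StOK Pb Sb (stR Pb i) :=
  sts_step okb (by decide) cs_nil sb_152 tb_146
theorem tb_156 : ∀ i < 161, StOK Pb Sb (stR Pb i) :=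
  sts_step okb (by decide) cs_nil sb_156 tb_152
theorem tb_161 : ∀ i < 165, StOK Pb Sb (stR Pb i) :=
  sts_step okb (by decide) cs_nil sb_161 tb_156
theorem tb_165 : ∀ i < 168, StOK Pb Sb (stR Pb i) :=
  sts_step okb (by decide) cs_nil sb_165 tb_161
theorem tb_168 : ∀ i < 173, StOK Pb Sb (stR Pb i) :=
  sts_step okb (by decide) cs_nil sb_168 tb_165
theorem tb_173 : ∀ i < 179, StOK Pb Sb (stR Pb i) :=
  sts_step okb (by decide) cs_nil sb_173 tb_168
theorem tb_179 : ∀ i < 185, StOK Pb Sb (stR Pb i) :=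
  sts_step okb (by decide) cs_nil sb_179 tb_173
theorem tb_185 : ∀ i < 192, StOK Pb Sb (stR Pb i) :=
  sts_step okb (by decide) cs_nil sb_185 tb_179
theorem tb_192 : ∀ i < 200, StOK Pb Sb (stR Pb i) :=
  sts_step okb (by decide) cs_nil sb_192 tb_185
theorem tb_200 : ∀ i < 208, StOK Pb Sb (stR Pb i) :=
  sts_step okb (by decide) cs_nil sb_200 tb_192
theorem tb_208 : ∀ i < 214, StOK Pb Sb (stR Pb i) :=
  sts_step okb (by decide) cs_nil sb_208 tb_200
theorem tb_214 : ∀ i < 220, StOK Pb Sb (stR Pb i) :=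
  sts_step okb (by decide) cs_nil sb_214 tb_208
theorem tb_220 : ∀ i < 227, StOK Pb Sb (stR Pb i) :=
  sts_step okb (by decide) cs_nil sb_220 tb_214
theorem tb_227 : ∀ i < 234, StOK Pb Sb (stR Pb i) :=
  sts_step okb (by decide) cs_nil sb_227 tb_220
theorem tb_234 : ∀ i < 240, StOK Pb Sb (stR Pb i) :=
  sts_step okb (by decide) cs_nil sb_234 tb_227
theorem tb_240 : ∀ i < 247, StOK Pb Sb (stR Pb i) :=
  sts_step okb (by decide) cs_nil sb_240 tb_234
theorem tb_247 : ∀ i < 253, StOK Pb Sb (stR Pb i) :=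
  sts_step okb (by decide) cs_nil sb_247 tb_240
theorem tb_253 : ∀ i < 260, StOK Pb Sb (stR Pb i) :=
  sts_step okb (by decide) cs_nil sb_253 tb_247
theorem tb_260 : ∀ i < 266, StOK Pb Sb (stR Pb i) :=
  sts_step okb (by decide) cs_nil sb_260 tb_253
theorem tb_266 : ∀ i < 272, StOK Pb Sb (stR Pb i) :=
  sts_step okb (by decide) cs_nil sb_266 tb_260
theorem tb_272 : ∀ i < 280, StOK Pb Sb (stR Pb i) :=
  sts_step okb (by decide) cs_nil sb_272 tb_266
theorem tb_280 : ∀ i < 287, StOK Pb Sb (stR Pb i) :=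
  sts_step okb (by decide) cs_nil sb_280 tb_272
theorem tb_287 : ∀ i < 294, StOK Pb Sb (stR Pb i) :=
  sts_step okb (by decide) cs_nil sb_287 tb_280
theorem tb_294 : ∀ i < 300, StOK Pb Sb (stR Pb i) :=
  sts_step okb (by decide) cs_nil sb_294 tb_287
theorem tb_300 : ∀ i < 305, StOK Pb Sb (stR Pb i) :=
  sts_step okb (by decide) cs_nil sb_300 tb_294
theorem tb_305 : ∀ i < 312, StOK Pb Sb (stR Pb i) :=
  sts_step okb (by decide) cs_nil sb_305 tb_300
theorem tb_312 : ∀ i < 318, StOK Pb Sb (stR Pb i) :=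
  sts_step okb (by decide) cs_nil sb_312 tb_305
theorem tb_318 : ∀ i < 325, StOK Pb Sb (stR Pb i) :=
  sts_step okb (by decide) cs_nil sb_318 tb_312
theorem tb_325 : ∀ i < 333, StOK Pb Sb (stR Pb i) :=
  sts_step okb (by decide) cs_nil sb_325 tb_318
theorem tb_333 : ∀ i < 339, StOK Pb Sb (stR Pb i) :=
  sts_step okb (by decide) cs_nil sb_333 tb_325
theorem tb_339 : ∀ i < 345, StOK Pb Sb (stR Pb i) :=
  sts_step okb (by decide) cs_nil sb_339 tb_333
theorem tb_345 : ∀ i < 351, StOK Pb Sb (stR Pb i) :=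
  sts_step okb (by decide) cs_nil sb_345 tb_339
theorem tb_351 : ∀ i < 359, StOK Pb Sb (stR Pb i) :=
  sts_step okb (by decide) cs_nil sb_351 tb_345
theorem tb_359 : ∀ i < 361, StOK Pb Sb (stR Pb i) :=
  sts_step okb (by decide) cs_nil sb_359 tb_351
theorem tb_361 : ∀ i < 364, StOK Pb Sb (stR Pb i) :=
  sts_step okb (by decide) cs_nil sb_361 tb_359
theorem tb_364 : ∀ i < 370, StOK Pb Sb (stR Pb i) :=
  sts_step okb (by decide) cs_nil sb_364 tb_361
theorem tb_370 : ∀ i < 377, StOK Pb Sb (stR Pb i) :=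
  sts_step okb (by decide) cs_nil sb_370 tb_364
theorem tb_377 : ∀ i < 385, StOK Pb Sb (stR Pb i) :=
  sts_step okb (by decide) cs_nil sb_377 tb_370
theorem tb_385 : ∀ i < 392, StOK Pb Sb (stR Pb i) :=
  sts_step okb (by decide) cs_nil sb_385 tb_377
theorem tb_392 : ∀ i < 398, StOK Pb Sb (stR Pb i) :=
  sts_step okb (by decide) cs_nil sb_392 tb_385
theorem tb_398 : ∀ i < 405, StOK Pb Sb (stR Pb i) :=
  sts_step okb (by decide) cs_nil sb_398 tb_392
theorem tb_405 : ∀ i < 412, StOK Pb Sb (stR Pb i) :=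
  sts_step okb (by decide) cs_nil sb_405 tb_398
theorem tb_412 : ∀ i < 419, StOK Pb Sb (stR Pb i) :=
  sts_step okb (by decide) cs_nil sb_412 tb_405
theorem tb_419 : ∀ i < 427, StOK Pb Sb (stR Pb i) :=
  sts_step okb (by decide) cs_nil sb_419 tb_412
theorem tb_427 : ∀ i < 435, StOK Pb Sb (stR Pb i) :=
  sts_step okb (by decide) cs_nil sb_427 tb_419
theorem tb_435 : ∀ i < 441, StOK Pb Sb (stR Pb i) :=
  sts_step okb (by decide) cs_nil sb_435 tb_427
theorem tb_441 : ∀ i < 445, StOK Pb Sb (stR Pb i) :=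
  sts_step okb (by decide) cs_nil sb_441 tb_435
theorem tb_445 : ∀ i < 450, StOK Pb Sb (stR Pb i) :=
  sts_step okb (by decide) cs_nil sb_445 tb_441
theorem tb_450 : ∀ i < 456, StOK Pb Sb (stR Pb i) :=
  sts_step okb (by decide) cs_nil sb_450 tb_445
theorem tb_456 : ∀ i < 464, StOK Pb Sb (stR Pb i) :=
  sts_step okb (by decide) cs_nil sb_456 tb_450
theorem tb_464 : ∀ i < 471, StOK Pb Sb (stR Pb i) :=
  sts_step okb (by decide) cs_nil sb_464 tb_456
theorem tb_471 : ∀ i < 477, StOK Pb Sb (stR Pb i) :=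
  sts_step okb (by decide) cs_nil sb_471 tb_464
theorem tb_477 : ∀ i < 483, StOK Pb Sb (stR Pb i) :=
  sts_step okb (by decide) cs_nil sb_477 tb_471
theorem tb_483 : ∀ i < 491, StOK Pb Sb (stR Pb i) :=
  sts_step okb (by decide) cs_nil sb_483 tb_477
theorem tb_491 : ∀ i < 496, StOK Pb Sb (stR Pb i) :=
  sts_step okb (by decide) cs_nil sb_491 tb_483
theorem tb_496 : ∀ i < 504, StOK Pb Sb (stR Pb i) :=
  sts_step okb (by decide) cs_nil sb_496 tb_491
theorem tb_504 : ∀ i < 511, StOK Pb Sb (stR Pb i) :=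
  sts_step okb (by decide) cs_nil sb_504 tb_496
theorem tb_511 : ∀ i < 519, StOK Pb Sb (stR Pb i) :=
  sts_step okb (by decide) cs_nil sb_511 tb_504
theorem tb_519 : ∀ i < 526, StOK Pb Sb (stR Pb i) :=
  sts_step okb (by decide) cs_nil sb_519 tb_511
theorem tb_526 : ∀ i < 533, StOK Pb Sb (stR Pb i) :=
  sts_step okb (by decide) cs_nil sb_526 tb_519
theorem tb_533 : ∀ i < 539, StOK Pb Sb (stR Pb i) :=
  sts_step okb (by decide) cs_nil sb_533 tb_526
theorem tb_539 : ∀ i < 546, StOK Pb Sb (stR Pb i) :=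
  sts_step okb (by decide) cs_nil sb_539 tb_533
theorem tb_546 : ∀ i < 553, StOK Pb Sb (stR Pb i) :=
  sts_step okb (by decide) cs_nil sb_546 tb_539
theorem tb_553 : ∀ i < 559, StOK Pb Sb (stR Pb i) :=
  sts_step okb (by decide) cs_nil sb_553 tb_546
theorem tb_559 : ∀ i < 566, StOK Pb Sb (stR Pb i) :=
  sts_step okb (by decide) cs_nil sb_559 tb_553
theorem tb_566 : ∀ i < 574, StOK Pb Sb (stR Pb i) :=
  sts_step okb (by decide) cs_nil sb_566 tb_559
theorem tb_574 : ∀ i < 581, StOK Pb Sb (stR Pb i) :=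
  sts_step okb (by decide) cs_nil sb_574 tb_566
theorem tb_581 : ∀ i < 587, StOK Pb Sb (stR Pb i) :=
  sts_step okb (by decide) cs_nil sb_581 tb_574
theorem tb_587 : ∀ i < 595, StOK Pb Sb (stR Pb i) :=
  sts_step okb (by decide) cs_nil sb_587 tb_581
theorem tb_595 : ∀ i < 602, StOK Pb Sb (stR Pb i) :=
  sts_step okb (by decide) cs_nil sb_595 tb_587
theorem tb_602 : ∀ i < 607, StOK Pb Sb (stR Pb i) :=
  sts_step okb (by decide) cs_nil sb_602 tb_595
theorem tb_607 : ∀ i < 615, StOK Pb Sb (stR Pb i) :=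
  sts_step okb (by decide) cs_nil sb_607 tb_602
theorem tb_615 : ∀ i < 622, StOK Pb Sb (stR Pb i) :=
  sts_step okb (by decide) cs_nil sb_615 tb_607
theorem tb_622 : ∀ i < 627, StOK Pb Sb (stR Pb i) :=
  sts_step okb (by decide) cs_nil sb_622 tb_615
theorem tb_627 : ∀ i < 633, StOK Pb Sb (stR Pb i) :=
  sts_step okb (by decide) cs_nil sb_627 tb_622
theorem tb_633 : ∀ i < 639, StOK Pb Sb (stR Pb i) :=
  sts_step okb (by decide) cs_nil sb_633 tb_627
theorem tb_639 : ∀ i < 647, StOK Pb Sb (stR Pb i) :=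
  sts_step okb (by decide) cs_nil sb_639 tb_633
theorem tb_647 : ∀ i < 655, StOK Pb Sb (stR Pb i) :=
  sts_step okb (by decide) cs_nil sb_647 tb_639
theorem tb_655 : ∀ i < 662, StOK Pb Sb (stR Pb i) :=
  sts_step okb (by decide) cs_nil sb_655 tb_647
theorem tb_662 : ∀ i < 669, StOK Pb Sb (stR Pb i) :=
  sts_step okb (by decide) cs_nil sb_662 tb_655
theorem tb_669 : ∀ i < 677, StOK Pb Sb (stR Pb i) :=
  sts_step okb (by decide) cs_nil sb_669 tb_662
theorem tb_677 : ∀ i < 684, StOK Pb Sb (stR Pb i) :=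
  sts_step okb (by decide) cs_nil sb_677 tb_669
theorem tb_684 : ∀ i < 689, StOK Pb Sb (stR Pb i) :=
  sts_step okb (by decide) cs_nil sb_684 tb_677
theorem tb_689 : ∀ i < 695, StOK Pb Sb (stR Pb i) :=
  sts_step okb (by decide) cs_nil sb_689 tb_684
theorem tb_695 : ∀ i < 701, StOK Pb Sb (stR Pb i) :=
  sts_step okb (by decide) cs_nil sb_695 tb_689
theorem tb_701 : ∀ i < 708, StOK Pb Sb (stR Pb i) :=
  sts_step okb (by decide) cs_nil sb_701 tb_695
theorem tb_708 : ∀ i < 715, StOK Pb Sb (stR Pb i) :=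
  sts_step okb (by decide) cs_nil sb_708 tb_701
theorem tb_715 : ∀ i < 722, StOK Pb Sb (stR Pb i) :=
  sts_step okb (by decide) cs_nil sb_715 tb_708
theorem tb_722 : ∀ i < 730, StOK Pb Sb (stR Pb i) :=
  sts_step okb (by decide) cs_nil sb_722 tb_715
theorem tb_730 : ∀ i < 738, StOK Pb Sb (stR Pb i) :=
  sts_step okb (by decide) cs_nil sb_730 tb_722
theorem tb_738 : ∀ i < 745, StOK Pb Sb (stR Pb i) :=
  sts_step okb (by decide) cs_nil sb_738 tb_730
theorem tb_745 : ∀ i < 751, StOK Pb Sb (stR Pb i) :=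
  sts_step okb (by decide) cs_nil sb_745 tb_738
theorem tb_751 : ∀ i < 757, StOK Pb Sb (stR Pb i) :=
  sts_step okb (by decide) cs_nil sb_751 tb_745
theorem tb_757 : ∀ i < 762, StOK Pb Sb (stR Pb i) :=
  sts_step okb (by decide) cs_nil sb_757 tb_751
theorem lgb : ∀ i < Pb.nst, LG0 Pb Sb (stR Pb i) := lg0_all okb tb_757
theorem cb_0 : CutGood Pb Sb G1_48 (fv1 G1_48) 0 0x17ffffffd800000008000000180000005 0x80000000800000018000000180000001 :=
  chk1_sound okb (by decide) lgb cs_nil kb_0
theorem cb_1 : CutGood Pb Sb G1_48 (fv1 G1_48) 0 0x180000003800000007fffffff80000005 0x7ffffffe800000008000000280000001 :=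
  chk1_sound okb (by decide) lgb cs_nil kb_1
theorem cb_2 : CutGood Pb Sb G1_48 (fv1 G1_48) 0 0x180000000800000018000000080000002 0x80000000800000018000000180000001 :=
  chk1_sound okb (by decide) lgb (cs_cons cb_0 (cs_cons cb_1 cs_nil)) kb_2
theorem cb_3 : CutGood Pb Sb G1_48 (fv1 G1_48) 0 0x180000004800000017ffffffd80000003 0x7ffffffe800000028000000180000000 :=
  chk1_sound okb (by decide) lgb cs_nil kb_3
theorem cb_4 : CutGood Pb Sb G1_48 (fv1 G1_48) 0 0x180000001800000008000000080000002 0x7ffffffe800000028000000180000000 :=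
  chk1_sound okb (by decide) lgb (cs_cons cb_3 cs_nil) kb_4
theorem cb_5 : CutGood Pb Sb G1_48 (fv1 G1_48) 0 0x180000001800000008000000080000002 0x7ffffffe800000008000000280000001 :=
  chk1_sound okb (by decide) lgb cs_nil kb_5
theorem cb_6 : CutGood Pb Sb G1_48 (fv1 G1_48) 0 0x180000003800000008000000180000005 0x80000000800000018000000180000001 :=
  chk1_sound okb (by decide) lgb cs_nil kb_6
theorem cb_7 : CutGood Pb Sb G1_48 (fv1 G1_48) 0 0x1800000037ffffffc8000000180000003 0x80000000800000018000000180000001 :=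
  chk1_sound okb (by decide) lgb cs_nil kb_7
theorem cb_8 : CutGood Pb Sb G1_48 (fv1 G1_48) 0 0x17ffffffd800000007fffffff80000005 0x80000000800000018000000180000001 :=
  chk1_sound okb (by decide) lgb cs_nil kb_8
theorem cb_9 : CutGood Pb Sb G1_48 (fv1 G1_48) 0 0x1800000027ffffffa8000000480000007 0x80000000800000018000000180000001 :=
  chk1_sound okb (by decide) lgb cs_nil kb_9
theorem cb_10 : CutGood Pb Sb G1_48 (fv1 G1_48) 0 0x17ffffffd7ffffffc7fffffff80000003 0x80000000800000018000000180000001 :=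
  chk1_sound okb (by decide) lgb cs_nil kb_10
theorem cb_11 : CutGood Pb Sb G1_48 (fv1 G1_48) 0 0x1800000007fffffff8000000080000002 0x80000000800000018000000180000001 :=
  chk1_sound okb (by decide) lgb (cs_cons cb_6 (cs_cons cb_7 (cs_cons cb_8 (cs_cons cb_9 (cs_cons cb_10 cs_nil))))) kb_11
theorem cb_12 : CutGood Pb Sb G1_48 (fv1 G1_48) 0 0x17ffffffc7fffffff8000000080000002 0x80000002800000028000000180000000 :=
  chk1_sound okb (by decide) lgb cs_nil kb_12
theorem cb_13 : CutGood Pb Sb G1_48 (fv1 G1_48) 0 0x180000000800000008000000080000001 0x80000002800000028000000180000000 :=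
  chk1_sound okb (by decide) lgb (cs_cons cb_12 cs_nil) kb_13
theorem cb_14 : CutGood Pb Sb G1_48 (fv1 G1_48) 0 0x17fffffff800000008000000080000002 0x8000000280000000800000027fffffff :=
  chk1_sound okb (by decide) lgb cs_nil kb_14
theorem cb_15 : CutGood Pb Sb G1_48 (fv1 G1_48) 0 0x180000001800000018000000180000002 0x80000000800000028000000280000001 :=
  chk1_sound okb (by decide) lgb cs_nil kb_15
theorem cb_16 : CutGood Pb Sb G1_48 (fv1 G1_48) 0 0x17fffffff7fffffff8000000180000002 0x80000000800000028000000280000001 :=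
  chk1_sound okb (by decide) lgb cs_nil kb_16
theorem cb_17 : CutGood Pb Sb G1_48 (fv1 G1_48) 0 0x180000003800000017ffffffc80000003 0x80000000800000028000000280000001 :=
  chk1_sound okb (by decide) lgb cs_nil kb_17
theorem cb_18 : CutGood Pb Sb G1_48 (fv1 G1_48) 0 0x180000000800000008000000080000001 0x80000000800000028000000280000001 :=
  chk1_sound okb (by decide) lgb (cs_cons cb_15 (cs_cons cb_16 (cs_cons cb_17 cs_nil))) kb_18
theorem cb_19 : CutGood Pb Sb G1_48 (fv1 G1_48) 0 0x180000003800000018000000180000002 0x7fffffff800000008000000180000001 :=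
  chk1_sound okb (by decide) lgb cs_nil kb_19
theorem cb_20 : CutGood Pb Sb G1_48 (fv1 G1_48) 0 0x1800000017fffffff8000000380000002 0x7fffffff800000008000000180000001 :=
  chk1_sound okb (by decide) lgb cs_nil kb_20
theorem cb_21 : CutGood Pb Sb G1_48 (fv1 G1_48) 0 0x180000001800000007ffffffe8000000a 0x7fffffff800000008000000180000001 :=
  chk1_sound okb (by decide) lgb cs_nil kb_21
theorem cb_22 : CutGood Pb Sb G1_48 (fv1 G1_48) 0 0x1800000027fffffff8000000180000003 0x7fffffff800000008000000180000001 :=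
  chk1_sound okb (by decide) lgb (cs_cons cb_21 cs_nil) kb_22
theorem cb_23 : CutGood Pb Sb G1_48 (fv1 G1_48) 0 0x1800000017fffffff8000000280000003 0x7fffffff800000008000000180000001 :=
  chk1_sound okb (by decide) lgb cs_nil kb_23
theorem cb_24 : CutGood Pb Sb G1_48 (fv1 G1_48) 0 0x1800000037ffffff5800000088000000b 0x7fffffff800000008000000180000001 :=
  chk1_sound okb (by decide) lgb cs_nil kb_24
theorem cb_25 : CutGood Pb Sb G1_48 (fv1 G1_48) 0 0x17ffffffb800000038000001080000005 0x7fffffff800000008000000180000001 :=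
  chk1_sound okb (by decide) lgb cs_nil kb_25
theorem cb_26 : CutGood Pb Sb G1_48 (fv1 G1_48) 0 0x17ffffff87ffffffb8000000080000004 0x7fffffff800000008000000180000001 :=
  chk1_sound okb (by decide) lgb cs_nil kb_26
theorem cb_27 : CutGood Pb Sb G1_48 (fv1 G1_48) 0 0x17fffffff7ffffffe8000000180000003 0x7fffffff800000008000000180000001 :=
  chk1_sound okb (by decide) lgb (cs_cons cb_24 (cs_cons cb_25 (cs_cons cb_26 cs_nil))) kb_27
theorem cb_28 : CutGood Pb Sb G1_48 (fv1 G1_48) 0 0x1800000007fffffff8000000180000001 0x7fffffff800000008000000180000001 :=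
  chk1_sound okb (by decide) lgb (cs_cons cb_23 (cs_cons cb_27 cs_nil)) kb_28
theorem cb_29 : CutGood Pb Sb G1_48 (fv1 G1_48) 0 0x280000001800000028000000380000001 0x80000000800000018000000180000001 :=
  chk1_sound okb (by decide) lgb cs_nil kb_29
theorem cb_30 : CutGood Pb Sb G1_48 (fv1 G1_48) 0 0x27ffffffd80000004800000087ffffffc 0x8000000080000001800000017ffffffb :=
  chk1_sound okb (by decide) lgb cs_nil kb_30
theorem cb_31 : CutGood Pb Sb G1_48 (fv1 G1_48) 0 0x27fffffea800000018000000d7ffffff7 0x7ffffffe800000028000000180000000 :=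
  chk1_sound okb (by decide) lgb cs_nil kb_31
theorem cb_32 : CutGood Pb Sb G1_48 (fv1 G1_48) 0 0x2800000027fffffff8000001b7fffffff 0x7ffffffe800000028000000180000000 :=
  chk1_sound okb (by decide) lgb cs_nil kb_32
theorem cb_33 : CutGood Pb Sb G1_48 (fv1 G1_48) 0 0x27fffffea7ffffff77fffffff8000000d 0x80000000800000018000000180000001 :=
  chk1_sound okb (by decide) lgb cs_nil kb_33
theorem cb_34 : CutGood Pb Sb G1_48 (fv1 G1_48) 0 0x27ffffff97ffffffc8000000680000002 0x80000000800000018000000180000001 :=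
  chk1_sound okb (by decide) lgb (cs_cons cb_33 cs_nil) kb_34
theorem cb_35 : CutGood Pb Sb G1_48 (fv1 G1_48) 0 0x27ffffff37fffffff8000000c7fffffff 0x80000003800000028000000280000002 :=
  chk1_sound okb (by decide) lgb cs_nil kb_35
theorem cb_36 : CutGood Pb Sb G1_48 (fv1 G1_48) 0 0x27ffffffb800000008000000480000008 0x80000000800000018000000180000001 :=
  chk1_sound okb (by decide) lgb (cs_cons cb_35 cs_nil) kb_36
theorem cb_37 : CutGood Pb Sb G1_48 (fv1 G1_48) 0 0x27ffffff5800000038000000d7ffffffc 0x80000000800000018000000180000001 :=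
  chk1_sound okb (by decide) lgb cs_nil kb_37
theorem cb_38 : CutGood Pb Sb G1_48 (fv1 G1_48) 0 0x27ffffffe800000018000000380000001 0x80000000800000018000000180000001 :=
  chk1_sound okb (by decide) lgb (cs_cons cb_30 (cs_cons cb_31 (cs_cons cb_32 (cs_cons cb_34 (cs_cons cb_36 (cs_cons cb_37 cs_nil)))))) kb_38
theorem cb_39 : CutGood Pb Sb G1_48 (fv1 G1_48) 0 0x27ffffff8800000068000000180000002 0x80000000800000018000000180000001 :=
  chk1_sound okb (by decide) lgb cs_nil kb_39
theorem cb_40 : CutGood Pb Sb G1_48 (fv1 G1_48) 0 0x2800000028000000a8000000180000000 0x7ffffffe800000028000000180000000 :=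
  chk1_sound okb (by decide) lgb cs_nil kb_40
theorem cb_41 : CutGood Pb Sb G1_48 (fv1 G1_48) 0 0x28000000280000000800000018000000a 0x80000000800000018000000180000001 :=
  chk1_sound okb (by decide) lgb cs_nil kb_41
theorem cb_42 : CutGood Pb Sb G1_48 (fv1 G1_48) 0 0x27fffffff7fffffff8000000280000003 0x80000000800000018000000180000001 :=
  chk1_sound okb (by decide) lgb (cs_cons cb_41 cs_nil) kb_42
theorem cb_43 : CutGood Pb Sb G1_48 (fv1 G1_48) 0 0x280000001800000008000000080000002 0x8000000080000002800000027fffffff :=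
  chk1_sound okb (by decide) lgb cs_nil kb_43
theorem cb_44 : CutGood Pb Sb G1_48 (fv1 G1_48) 0 0x2800000007fffffff8000000380000005 0x7ffffffb800000007fffffff80000001 :=
  chk1_sound okb (by decide) lgb cs_nil kb_44
theorem cb_45 : CutGood Pb Sb G1_48 (fv1 G1_48) 0 0x280000000800000017ffffffd80000005 0x7ffffffe800000028000000180000000 :=
  chk1_sound okb (by decide) lgb cs_nil kb_45
theorem cb_46 : CutGood Pb Sb G1_48 (fv1 G1_48) 0 0x2800000007ffffffd7fffffff80000005 0x7ffffffb800000007fffffff80000001 :=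
  chk1_sound okb (by decide) lgb cs_nil kb_46
theorem cb_47 : CutGood Pb Sb G1_48 (fv1 G1_48) 0 0x27fffffff800000008000000080000002 0x80000001800000028000000480000000 :=
  chk1_sound okb (by decide) lgb cs_nil kb_47
theorem cb_48 : CutGood Pb Sb G1_48 (fv1 G1_48) 0 0x2800000057ffffffe8000000480000000 0x80000003800000028000000280000002 :=
  chk1_sound okb (by decide) lgb cs_nil kb_48
theorem cb_49 : CutGood Pb Sb G1_48 (fv1 G1_48) 0 0x27fffffff800000008000000080000002 0x7fffffff800000028000000080000004 :=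
  chk1_sound okb (by decide) lgb cs_nil kb_49
theorem cb_50 : CutGood Pb Sb G1_48 (fv1 G1_48) 0 0x27fffffff800000008000000080000002 0x80000000800000018000000180000001 :=
  chk1_sound okb (by decide) lgb (cs_cons cb_47 (cs_cons cb_48 (cs_cons cb_49 cs_nil))) kb_50
theorem cb_51 : CutGood Pb Sb G1_48 (fv1 G1_48) 0 0x2800000007fffffff8000000080000002 0x80000000800000018000000180000001 :=
  chk1_sound okb (by decide) lgb cs_nil kb_51
theorem cb_52 : CutGood Pb Sb G1_48 (fv1 G1_48) 0 0x280000000800000007fffffff80000002 0x80000000800000018000000180000001 :=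
  chk1_sound okb (by decide) lgb cs_nil kb_52
theorem cb_53 : CutGood Pb Sb G1_48 (fv1 G1_48) 0 0x280000000800000008000000080000001 0x80000000800000018000000180000001 :=
  chk1_sound okb (by decide) lgb (cs_cons cb_29 (cs_cons cb_38 (cs_cons cb_39 (cs_cons cb_40 (cs_cons cb_42 (cs_cons cb_43 (cs_cons cb_44 (cs_cons cb_45 (cs_cons cb_46 (cs_cons cb_50 (cs_cons cb_51 (cs_cons cb_52 cs_nil)))))))))))) kb_53
theorem cb_54 : CutGood Pb Sb G1_48 (fv1 G1_48) 0 0x280000000800000008000000080000001 0x80000002800000028000000180000000 :=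
  chk1_sound okb (by decide) lgb cs_nil kb_54
theorem cb_55 : CutGood Pb Sb G1_48 (fv1 G1_48) 0 0x280000000800000008000000180000002 0x8000000280000000800000027fffffff :=
  chk1_sound okb (by decide) lgb cs_nil kb_55
theorem cb_56 : CutGood Pb Sb G1_48 (fv1 G1_48) 0 0x280000003800000007fffffff80000005 0x8000000280000000800000027fffffff :=
  chk1_sound okb (by decide) lgb cs_nil kb_56
theorem cb_57 : CutGood Pb Sb G1_48 (fv1 G1_48) 0 0x280000000800000018000000080000002 0x8000000280000000800000027fffffff :=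
  chk1_sound okb (by decide) lgb (cs_cons cb_56 cs_nil) kb_57
theorem cb_58 : CutGood Pb Sb G1_48 (fv1 G1_48) 0 0x280000001800000008000000080000002 0x8000000280000000800000027fffffff :=
  chk1_sound okb (by decide) lgb cs_nil kb_58
theorem cb_59 : CutGood Pb Sb G1_48 (fv1 G1_48) 0 0x2800000168000000b800000037ffffff5 0x8000000280000000800000027fffffff :=
  chk1_sound okb (by decide) lgb cs_nil kb_59
theorem cb_60 : CutGood Pb Sb G1_48 (fv1 G1_48) 0 0x2800000037fffffff8000000080000005 0x8000000280000000800000027fffffff :=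
  chk1_sound okb (by decide) lgb (cs_cons cb_59 cs_nil) kb_60
theorem cb_61 : CutGood Pb Sb G1_48 (fv1 G1_48) 0 0x27fffffff7ffffffd8000000080000005 0x8000000380000004800000017fffffff :=
  chk1_sound okb (by decide) lgb cs_nil kb_61
theorem cb_62 : CutGood Pb Sb G1_48 (fv1 G1_48) 0 0x27fffffff7ffffff37fffffff8000000c 0x8000000280000000800000027fffffff :=
  chk1_sound okb (by decide) lgb cs_nil kb_62
theorem cb_63 : CutGood Pb Sb G1_48 (fv1 G1_48) 0 0x2800000037fffffff7ffffffc80000003 0x8000000380000004800000017fffffff :=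
  chk1_sound okb (by decide) lgb cs_nil kb_63
theorem cb_64 : CutGood Pb Sb G1_48 (fv1 G1_48) 0 0x280000000800000007fffffff80000002 0x8000000280000000800000027fffffff :=
  chk1_sound okb (by decide) lgb (cs_cons cb_60 (cs_cons cb_61 (cs_cons cb_62 (cs_cons cb_63 cs_nil)))) kb_64
theorem cb_65 : CutGood Pb Sb G1_48 (fv1 G1_48) 0 0x27ffffff680000000800000017ffffffe 0x80000000800000028000000280000001 :=
  chk1_sound okb (by decide) lgb cs_nil kb_65
theorem cb_66 : CutGood Pb Sb G1_48 (fv1 G1_48) 0 0x27fffffff800000038000000080000005 0x80000000800000028000000280000001 :=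
  chk1_sound okb (by decide) lgb cs_nil kb_66
theorem cb_67 : CutGood Pb Sb G1_48 (fv1 G1_48) 0 0x27fffffff800000018000000180000002 0x80000000800000028000000280000001 :=
  chk1_sound okb (by decide) lgb (cs_cons cb_65 (cs_cons cb_66 cs_nil)) kb_67
theorem cb_68 : CutGood Pb Sb G1_48 (fv1 G1_48) 0 0x2800000047ffffffd8000000180000003 0x7ffffffc800000018000000380000001 :=
  chk1_sound okb (by decide) lgb cs_nil kb_68
theorem cb_69 : CutGood Pb Sb G1_48 (fv1 G1_48) 0 0x2800000017fffffff8000000180000002 0x80000000800000028000000280000001 :=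
  chk1_sound okb (by decide) lgb (cs_cons cb_68 cs_nil) kb_69
theorem cb_70 : CutGood Pb Sb G1_48 (fv1 G1_48) 0 0x27fffffff7fffffff8000000180000002 0x80000000800000028000000280000001 :=
  chk1_sound okb (by decide) lgb cs_nil kb_70
theorem cb_71 : CutGood Pb Sb G1_48 (fv1 G1_48) 0 0x2800000037fffffff8000000080000005 0x7ffffffd80000004800000017fffffff :=
  chk1_sound okb (by decide) lgb cs_nil kb_71
theorem cb_72 : CutGood Pb Sb G1_48 (fv1 G1_48) 0 0x2800000017fffffff7fffffff80000002 0x80000000800000028000000280000001 :=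
  chk1_sound okb (by decide) lgb (cs_cons cb_71 cs_nil) kb_72
theorem cb_73 : CutGood Pb Sb G1_48 (fv1 G1_48) 0 0x280000002800000018000000680000008 0x80000000800000028000000280000001 :=
  chk1_sound okb (by decide) lgb cs_nil kb_73
theorem cb_74 : CutGood Pb Sb G1_48 (fv1 G1_48) 0 0x27fffffff7fffffff7fffffff80000002 0x80000000800000028000000280000001 :=
  chk1_sound okb (by decide) lgb (cs_cons cb_73 cs_nil) kb_74
theorem cb_75 : CutGood Pb Sb G1_48 (fv1 G1_48) 0 0x280000001800000038000000080000005 0x800000007ffffffe8000000280000001 :=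
  chk1_sound okb (by decide) lgb cs_nil kb_75
theorem cb_76 : CutGood Pb Sb G1_48 (fv1 G1_48) 0 0x280000000800000007fffffff80000002 0x800000007ffffffe8000000280000001 :=
  chk1_sound okb (by decide) lgb (cs_cons cb_75 cs_nil) kb_76
theorem cb_77 : CutGood Pb Sb G1_48 (fv1 G1_48) 0 0x280000000800000008000000080000001 0x800000007ffffffe8000000280000001 :=
  chk1_sound okb (by decide) lgb (cs_cons cb_76 cs_nil) kb_77
theorem cb_78 : CutGood Pb Sb G1_48 (fv1 G1_48) 0 0x27ffffffe7fffffff8000000680000008 0x7ffffffe80000000800000027fffffff :=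
  chk1_sound okb (by decide) lgb cs_nil kb_78
theorem cb_79 : CutGood Pb Sb G1_48 (fv1 G1_48) 0 0x27ffffff77ffffffe8000000480000002 0x7ffffffe80000000800000027fffffff :=
  chk1_sound okb (by decide) lgb cs_nil kb_79
theorem cb_80 : CutGood Pb Sb G1_48 (fv1 G1_48) 0 0x280000000800000007fffffff80000002 0x7ffffffe80000000800000027fffffff :=
  chk1_sound okb (by decide) lgb (cs_cons cb_78 (cs_cons cb_79 cs_nil)) kb_80
theorem cb_81 : CutGood Pb Sb G1_48 (fv1 G1_48) 0 0x280000000800000008000000080000001 0x7ffffffe80000000800000027fffffff :=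
  chk1_sound okb (by decide) lgb (cs_cons cb_80 cs_nil) kb_81
theorem cb_82 : CutGood Pb Sb G1_48 (fv1 G1_48) 0 0x28000000680000007800000047ffffffe 0x800000027ffffffe8000000180000000 :=
  chk1_sound okb (by decide) lgb cs_nil kb_82
theorem cb_83 : CutGood Pb Sb G1_48 (fv1 G1_48) 0 0x280000007800000048000000680000002 0x800000027ffffffe8000000180000000 :=
  chk1_sound okb (by decide) lgb cs_nil kb_83
theorem cb_84 : CutGood Pb Sb G1_48 (fv1 G1_48) 0 0x27fffffff800000038000000080000005 0x800000027ffffffe8000000180000000 :=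
  chk1_sound okb (by decide) lgb cs_nil kb_84
theorem cb_85 : CutGood Pb Sb G1_48 (fv1 G1_48) 0 0x280000000800000008000000180000002 0x800000027ffffffe8000000180000000 :=
  chk1_sound okb (by decide) lgb (cs_cons cb_82 (cs_cons cb_83 (cs_cons cb_84 cs_nil))) kb_85
theorem cb_86 : CutGood Pb Sb G1_48 (fv1 G1_48) 0 0x2800000017ffffffd8000000480000003 0x800000017ffffffc7fffffff7ffffffd :=
  chk1_sound okb (by decide) lgb cs_nil kb_86
theorem cb_87 : CutGood Pb Sb G1_48 (fv1 G1_48) 0 0x2800000017ffffffd8000000480000003 0x800000007fffffff800000017ffffffb :=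
  chk1_sound okb (by decide) lgb cs_nil kb_87
theorem cb_88 : CutGood Pb Sb G1_48 (fv1 G1_48) 0 0x280000007800000048000000680000002 0x800000057ffffffd800000057ffffffe :=
  chk1_sound okb (by decide) lgb cs_nil kb_88
theorem cb_89 : CutGood Pb Sb G1_48 (fv1 G1_48) 0 0x280000007800000048000000680000002 0x800000007ffffffe800000027fffffff :=
  chk1_sound okb (by decide) lgb (cs_cons cb_88 cs_nil) kb_89
theorem cb_90 : CutGood Pb Sb G1_48 (fv1 G1_48) 0 0x27fffffff800000038000000080000005 0x800000007fffffff800000017ffffffb :=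
  chk1_sound okb (by decide) lgb cs_nil kb_90
theorem cb_91 : CutGood Pb Sb G1_48 (fv1 G1_48) 0 0x280000000800000008000000180000002 0x800000007ffffffe800000027fffffff :=
  chk1_sound okb (by decide) lgb (cs_cons cb_86 (cs_cons cb_87 (cs_cons cb_89 (cs_cons cb_90 cs_nil)))) kb_91
theorem cb_92 : CutGood Pb Sb G1_48 (fv1 G1_48) 0 0x2800000028000000a800000007fffffff 0x800000007fffffff8000000180000001 :=
  chk1_sound okb (by decide) lgb cs_nil kb_92
theorem cb_93 : CutGood Pb Sb G1_48 (fv1 G1_48) 0 0x280000000800000038000000180000005 0x800000007fffffff8000000180000001 :=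
  chk1_sound okb (by decide) lgb cs_nil kb_93
theorem cb_94 : CutGood Pb Sb G1_48 (fv1 G1_48) 0 0x280000004800000008000000580000008 0x800000007fffffff8000000180000001 :=
  chk1_sound okb (by decide) lgb cs_nil kb_94
theorem cb_95 : CutGood Pb Sb G1_48 (fv1 G1_48) 0 0x280000001800000008000000080000002 0x800000007fffffff8000000180000001 :=
  chk1_sound okb (by decide) lgb (cs_cons cb_92 (cs_cons cb_93 (cs_cons cb_94 cs_nil))) kb_95
theorem cb_96 : CutGood Pb Sb G1_48 (fv1 G1_48) 0 0x27fffffff800000008000000080000002 0x800000027ffffffe8000000180000000 :=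
  chk1_sound okb (by decide) lgb cs_nil kb_96
theorem cb_97 : CutGood Pb Sb G1_48 (fv1 G1_48) 0 0x27fffffff800000008000000080000002 0x800000007ffffffe800000027fffffff :=
  chk1_sound okb (by decide) lgb cs_nil kb_97
theorem cb_98 : CutGood Pb Sb G1_48 (fv1 G1_48) 0 0x2800000017ffffffd8000000280000001 0x800000017ffffffe8000000080000004 :=
  chk1_sound okb (by decide) lgb cs_nil kb_98
theorem cb_99 : CutGood Pb Sb G1_48 (fv1 G1_48) 0 0x2800000007fffffff8000000080000002 0x800000007fffffff8000000180000001 :=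
  chk1_sound okb (by decide) lgb (cs_cons cb_98 cs_nil) kb_99
theorem cb_100 : CutGood Pb Sb G1_48 (fv1 G1_48) 0 0x280000000800000007fffffff80000002 0x800000017ffffffc8000000280000000 :=
  chk1_sound okb (by decide) lgb cs_nil kb_100
theorem cb_101 : CutGood Pb Sb G1_48 (fv1 G1_48) 0 0x280000000800000007fffffff80000002 0x7ffffffd7ffffffe8000000280000002 :=
  chk1_sound okb (by decide) lgb cs_nil kb_101
theorem cb_102 : CutGood Pb Sb G1_48 (fv1 G1_48) 0 0x280000000800000007fffffff80000002 0x800000007fffffff8000000180000001 :=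
  chk1_sound okb (by decide) lgb (cs_cons cb_100 (cs_cons cb_101 cs_nil)) kb_102
theorem cb_103 : CutGood Pb Sb G1_48 (fv1 G1_48) 0 0x37fffffff7fffffff800000067ffffffb 0x80000000800000008000000080000001 :=
  chk1_sound okb (by decide) lgb cs_nil kb_103
theorem cb_104 : CutGood Pb Sb G1_48 (fv1 G1_48) 0 0x37ffffff78000000d800000017ffffff8 0x80000000800000008000000080000001 :=
  chk1_sound okb (by decide) lgb cs_nil kb_104
theorem cb_105 : CutGood Pb Sb G1_48 (fv1 G1_48) 0 0x3800000058000000f800000077ffffffc 0x800000007fffffff8000000180000001 :=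
  chk1_sound okb (by decide) lgb cs_nil kb_105
theorem cb_106 : CutGood Pb Sb G1_48 (fv1 G1_48) 0 0x37fffffff800000008000000480000002 0x7fffffff800000008000000180000001 :=
  chk1_sound okb (by decide) lgb cs_nil kb_106
theorem cb_107 : CutGood Pb Sb G1_48 (fv1 G1_48) 0 0x37ffffffd800000048000000d7ffffff5 0x80000000800000008000000080000001 :=
  chk1_sound okb (by decide) lgb cs_nil kb_107
theorem cb_108 : CutGood Pb Sb G1_48 (fv1 G1_48) 0 0x37ffffffc800000028000000680000007 0x80000000800000008000000080000001 :=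
  chk1_sound okb (by decide) lgb cs_nil kb_108
theorem cb_109 : CutGood Pb Sb G1_48 (fv1 G1_48) 0 0x37ffffff8800000068000000280000001 0x80000000800000008000000080000001 :=
  chk1_sound okb (by decide) lgb cs_nil kb_109
theorem cb_110 : CutGood Pb Sb G1_48 (fv1 G1_48) 0 0x380000004800000088000000480000003 0x80000000800000008000000080000001 :=
  chk1_sound okb (by decide) lgb cs_nil kb_110
theorem cb_111 : CutGood Pb Sb G1_48 (fv1 G1_48) 0 0x380000001800000048000000080000002 0x80000000800000008000000080000001 :=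
  chk1_sound okb (by decide) lgb (cs_cons cb_110 cs_nil) kb_111
theorem cb_112 : CutGood Pb Sb G1_48 (fv1 G1_48) 0 0x380000003800000058000000580000002 0x80000000800000008000000080000001 :=
  chk1_sound okb (by decide) lgb cs_nil kb_112
theorem cb_113 : CutGood Pb Sb G1_48 (fv1 G1_48) 0 0x37fffffff800000028000000080000004 0x80000000800000008000000080000001 :=
  chk1_sound okb (by decide) lgb cs_nil kb_113
theorem cb_114 : CutGood Pb Sb G1_48 (fv1 G1_48) 0 0x380000000800000018000000180000001 0x80000000800000008000000080000001 :=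
  chk1_sound okb (by decide) lgb (cs_cons cb_103 (cs_cons cb_104 (cs_cons cb_105 (cs_cons cb_106 (cs_cons cb_107 (cs_cons cb_108 (cs_cons cb_109 (cs_cons cb_111 (cs_cons cb_112 (cs_cons cb_113 cs_nil)))))))))) kb_114
theorem cb_115 : CutGood Pb Sb G1_48 (fv1 G1_48) 0 0x380000001800000008000000180000001 0x7fffffff800000048000000280000000 :=
  chk1_sound okb (by decide) lgb cs_nil kb_115
theorem cb_116 : CutGood Pb Sb G1_48 (fv1 G1_48) 0 0x380000001800000008000000180000001 0x7fffffff800000008000000480000002 :=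
  chk1_sound okb (by decide) lgb cs_nil kb_116
theorem cb_117 : CutGood Pb Sb G1_48 (fv1 G1_48) 0 0x380000001800000008000000180000001 0x80000003800000028000000280000002 :=
  chk1_sound okb (by decide) lgb cs_nil kb_117
theorem cb_118 : CutGood Pb Sb G1_48 (fv1 G1_48) 0 0x380000001800000008000000180000001 0x80000001800000008000000280000004 :=
  chk1_sound okb (by decide) lgb cs_nil kb_118
theorem cb_119 : CutGood Pb Sb G1_48 (fv1 G1_48) 0 0x380000001800000008000000180000001 0x7fffffff800000028000000080000004 :=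
  chk1_sound okb (by decide) lgb cs_nil kb_119
theorem cb_120 : CutGood Pb Sb G1_48 (fv1 G1_48) 0 0x380000006800000088000000280000001 0x7fffffff800000008000000180000001 :=
  chk1_sound okb (by decide) lgb cs_nil kb_120
theorem cb_121 : CutGood Pb Sb G1_48 (fv1 G1_48) 0 0x3800000048000000d8000000b7ffffffd 0x7fffffff800000008000000180000001 :=
  chk1_sound okb (by decide) lgb cs_nil kb_121
theorem cb_122 : CutGood Pb Sb G1_48 (fv1 G1_48) 0 0x38000000d8000001a800000007ffffff6 0x7fffffff800000008000000180000001 :=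
  chk1_sound okb (by decide) lgb cs_nil kb_122
theorem cb_123 : CutGood Pb Sb G1_48 (fv1 G1_48) 0 0x380000004800000028000000980000002 0x7fffffff800000008000000180000001 :=
  chk1_sound okb (by decide) lgb cs_nil kb_123
theorem cb_124 : CutGood Pb Sb G1_48 (fv1 G1_48) 0 0x3800000027fffffff8000000480000000 0x7fffffff800000008000000180000001 :=
  chk1_sound okb (by decide) lgb (cs_cons cb_122 (cs_cons cb_123 cs_nil)) kb_124
theorem cb_125 : CutGood Pb Sb G1_48 (fv1 G1_48) 0 0x38000000d800000048000000b7ffffffd 0x7fffffff800000008000000180000001 :=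
  chk1_sound okb (by decide) lgb cs_nil kb_125
theorem cb_126 : CutGood Pb Sb G1_48 (fv1 G1_48) 0 0x37ffffffc7ffffffd800000117fffffff 0x7fffffff800000008000000180000001 :=
  chk1_sound okb (by decide) lgb cs_nil kb_126
theorem cb_127 : CutGood Pb Sb G1_48 (fv1 G1_48) 0 0x380000001800000028000000680000008 0x7fffffff800000008000000180000001 :=
  chk1_sound okb (by decide) lgb cs_nil kb_127
theorem cb_128 : CutGood Pb Sb G1_48 (fv1 G1_48) 0 0x380000000800000018000000480000002 0x7fffffff800000008000000180000001 :=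
  chk1_sound okb (by decide) lgb (cs_cons cb_125 (cs_cons cb_126 (cs_cons cb_127 cs_nil))) kb_128
theorem cb_129 : CutGood Pb Sb G1_48 (fv1 G1_48) 0 0x38000000a7ffffffe7fffffff80000000 0x7fffffff800000008000000180000001 :=
  chk1_sound okb (by decide) lgb cs_nil kb_129
theorem cb_130 : CutGood Pb Sb G1_48 (fv1 G1_48) 0 0x380000010800000077fffffff80000003 0x7fffffff800000008000000180000001 :=
  chk1_sound okb (by decide) lgb cs_nil kb_130
theorem cb_131 : CutGood Pb Sb G1_48 (fv1 G1_48) 0 0x380000008800000018000000f7ffffffb 0x7fffffff800000008000000180000001 :=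
  chk1_sound okb (by decide) lgb cs_nil kb_131
theorem cb_132 : CutGood Pb Sb G1_48 (fv1 G1_48) 0 0x3800000047fffffff8000000080000002 0x7fffffff800000008000000180000001 :=
  chk1_sound okb (by decide) lgb (cs_cons cb_129 (cs_cons cb_130 (cs_cons cb_131 cs_nil))) kb_132
theorem cb_133 : CutGood Pb Sb G1_48 (fv1 G1_48) 0 0x3800000027ffffffd8000000280000002 0x7fffffff800000008000000180000001 :=
  chk1_sound okb (by decide) lgb cs_nil kb_133
theorem cb_134 : CutGood Pb Sb G1_48 (fv1 G1_48) 0 0x37fffffff7ffffffe800000008000000a 0x7ffffffc7fffffff7fffffff7ffffffd :=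
  chk1_sound okb (by decide) lgb cs_nil kb_134
theorem cb_135 : CutGood Pb Sb G1_48 (fv1 G1_48) 0 0x3800000007fffffff8000000280000004 0x7fffffff800000008000000180000001 :=
  chk1_sound okb (by decide) lgb (cs_cons cb_134 cs_nil) kb_135
theorem cb_136 : CutGood Pb Sb G1_48 (fv1 G1_48) 0 0x380000001800000008000000180000001 0x7fffffff800000008000000180000001 :=
  chk1_sound okb (by decide) lgb (cs_cons cb_120 (cs_cons cb_121 (cs_cons cb_124 (cs_cons cb_128 (cs_cons cb_132 (cs_cons cb_133 (cs_cons cb_135 cs_nil))))))) kb_136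
theorem cb_137 : CutGood Pb Sb G1_48 (fv1 G1_48) 0 0x3800000027fffffff8000000480000000 0x800000007fffffff8000000180000001 :=
  chk1_sound okb (by decide) lgb cs_nil kb_137
theorem cb_138 : CutGood Pb Sb G1_48 (fv1 G1_48) 0 0x380000001800000008000000180000001 0x800000007fffffff8000000180000001 :=
  chk1_sound okb (by decide) lgb (cs_cons cb_137 cs_nil) kb_138
theorem cb_139 : CutGood Pb Sb G1_48 (fv1 G1_48) 0 0x37fffffea7ffffffc800000027fffffeb 0x80000000800000008000000080000001 :=
  chk1_sound okb (by decide) lgb cs_nil kb_139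
theorem cb_140 : CutGood Pb Sb G1_48 (fv1 G1_48) 0 0x37fffffff7ffffffe8000000680000002 0x80000000800000008000000080000001 :=
  chk1_sound okb (by decide) lgb (cs_cons cb_139 cs_nil) kb_140
theorem cb_141 : CutGood Pb Sb G1_48 (fv1 G1_48) 0 0x3800000007ffffffe8000000280000001 0x80000000800000008000000080000001 :=
  chk1_sound okb (by decide) lgb (cs_cons cb_140 cs_nil) kb_141
theorem cb_142 : CutGood Pb Sb G1_48 (fv1 G1_48) 0 0x37ffffffc800000028000000580000000 0x80000000800000008000000080000001 :=
  chk1_sound okb (by decide) lgb cs_nil kb_142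
theorem cb_143 : CutGood Pb Sb G1_48 (fv1 G1_48) 0 0x37ffffffe80000000800000027fffffff 0x80000000800000008000000080000001 :=
  chk1_sound okb (by decide) lgb (cs_cons cb_142 cs_nil) kb_143
theorem cb_144 : CutGood Pb Sb G1_48 (fv1 G1_48) 0 0x3800000017ffffffe8000000380000001 0x80000001800000018000000180000002 :=
  chk1_sound okb (by decide) lgb cs_nil kb_144
theorem cb_145 : CutGood Pb Sb G1_48 (fv1 G1_48) 0 0x3800000017ffffffe8000000380000001 0x800000017fffffff7fffffff80000002 :=
  chk1_sound okb (by decide) lgb cs_nil kb_145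
theorem cb_146 : CutGood Pb Sb G1_48 (fv1 G1_48) 0 0x3800000017ffffffe8000000380000001 0x80000000800000008000000080000001 :=
  chk1_sound okb (by decide) lgb (cs_cons cb_144 (cs_cons cb_145 cs_nil)) kb_146
theorem cb_147 : CutGood Pb Sb G1_48 (fv1 G1_48) 0 0x37ffffff77fffffff800000077ffffffe 0x800000017fffffff8000000180000002 :=
  chk1_sound okb (by decide) lgb cs_nil kb_147
theorem cb_148 : CutGood Pb Sb G1_48 (fv1 G1_48) 0 0x3800000017fffffff8000000280000003 0x7fffffff7fffffff8000000180000002 :=
  chk1_sound okb (by decide) lgb cs_nil kb_148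
theorem cb_149 : CutGood Pb Sb G1_48 (fv1 G1_48) 0 0x37fffffff800000028000000680000002 0x80000001800000008000000280000004 :=
  chk1_sound okb (by decide) lgb cs_nil kb_149
theorem cb_150 : CutGood Pb Sb G1_48 (fv1 G1_48) 0 0x37fffffff800000028000000680000002 0x800000017fffffff7fffffff80000002 :=
  chk1_sound okb (by decide) lgb cs_nil kb_150
theorem cb_151 : CutGood Pb Sb G1_48 (fv1 G1_48) 0 0x3800000017fffffff8000000280000003 0x80000000800000008000000080000001 :=
  chk1_sound okb (by decide) lgb (cs_cons cb_147 (cs_cons cb_148 (cs_cons cb_149 (cs_cons cb_150 cs_nil)))) kb_151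
theorem cb_152 : CutGood Pb Sb G1_48 (fv1 G1_48) 0 0x3800000017ffffffd8000000180000002 0x80000000800000008000000080000001 :=
  chk1_sound okb (by decide) lgb cs_nil kb_152
theorem cb_153 : CutGood Pb Sb G1_48 (fv1 G1_48) 0 0x380000005800000088000000f7fffffff 0x80000000800000008000000080000001 :=
  chk1_sound okb (by decide) lgb cs_nil kb_153
theorem cb_154 : CutGood Pb Sb G1_48 (fv1 G1_48) 0 0x37ffffffe80000001800000067ffffffe 0x80000000800000008000000080000001 :=
  chk1_sound okb (by decide) lgb (cs_cons cb_153 cs_nil) kb_154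
theorem cb_155 : CutGood Pb Sb G1_48 (fv1 G1_48) 0 0x37ffffffd7ffffffc800000047ffffffe 0x80000000800000008000000080000001 :=
  chk1_sound okb (by decide) lgb cs_nil kb_155
theorem cb_156 : CutGood Pb Sb G1_48 (fv1 G1_48) 0 0x37ffffff57ffffffd800000168000000b 0x80000000800000018000000180000001 :=
  chk1_sound okb (by decide) lgb cs_nil kb_156
theorem cb_157 : CutGood Pb Sb G1_48 (fv1 G1_48) 0 0x3800000027ffffffc8000000980000002 0x80000000800000018000000180000001 :=
  chk1_sound okb (by decide) lgb (cs_cons cb_156 cs_nil) kb_157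
theorem cb_158 : CutGood Pb Sb G1_48 (fv1 G1_48) 0 0x38000000b7ffffff47fffffff80000007 0x7ffffffe800000008000000280000001 :=
  chk1_sound okb (by decide) lgb cs_nil kb_158
theorem cb_159 : CutGood Pb Sb G1_48 (fv1 G1_48) 0 0x3800000007ffffff6800000017ffffffe 0x80000000800000008000000080000001 :=
  chk1_sound okb (by decide) lgb (cs_cons cb_158 cs_nil) kb_159
theorem cb_160 : CutGood Pb Sb G1_48 (fv1 G1_48) 0 0x3800000037ffffff08000000780000001 0x80000000800000008000000080000001 :=
  chk1_sound okb (by decide) lgb cs_nil kb_160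
theorem cb_161 : CutGood Pb Sb G1_48 (fv1 G1_48) 0 0x37ffffff97fffffd27ffffffa80000002 0x80000000800000018000000180000001 :=
  chk1_sound okb (by decide) lgb cs_nil kb_161
theorem cb_162 : CutGood Pb Sb G1_48 (fv1 G1_48) 0 0x3800000037ffffff07ffffffb7ffffffb 0x80000000800000018000000180000001 :=
  chk1_sound okb (by decide) lgb cs_nil kb_162
theorem cb_163 : CutGood Pb Sb G1_48 (fv1 G1_48) 0 0x37ffffffa7ffffff87fffffff80000002 0x80000000800000008000000080000001 :=
  chk1_sound okb (by decide) lgb (cs_cons cb_161 (cs_cons cb_162 cs_nil)) kb_163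
theorem cb_164 : CutGood Pb Sb G1_48 (fv1 G1_48) 0 0x3800000007ffffff68000000d7fffffe6 0x80000000800000018000000180000001 :=
  chk1_sound okb (by decide) lgb cs_nil kb_164
theorem cb_165 : CutGood Pb Sb G1_48 (fv1 G1_48) 0 0x3800000017ffffff48000000d7fffffff 0x80000000800000008000000080000001 :=
  chk1_sound okb (by decide) lgb (cs_cons cb_164 cs_nil) kb_165
theorem cb_166 : CutGood Pb Sb G1_48 (fv1 G1_48) 0 0x37fffffff7ffffffd8000000280000001 0x80000000800000008000000080000001 :=
  chk1_sound okb (by decide) lgb (cs_cons cb_157 (cs_cons cb_159 (cs_cons cb_160 (cs_cons cb_163 (cs_cons cb_165 cs_nil))))) kb_166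
theorem cb_167 : CutGood Pb Sb G1_48 (fv1 G1_48) 0 0x3800000007fffffff7ffffffe8000000a 0x7fffffff800000008000000180000001 :=
  chk1_sound okb (by decide) lgb cs_nil kb_167
theorem cb_168 : CutGood Pb Sb G1_48 (fv1 G1_48) 0 0x38000000d800000008000000a8000001a 0x7fffffff800000017fffffff80000002 :=
  chk1_sound okb (by decide) lgb cs_nil kb_168
theorem cb_169 : CutGood Pb Sb G1_48 (fv1 G1_48) 0 0x37fffffff7ffffffe8000000180000003 0x80000000800000008000000080000001 :=
  chk1_sound okb (by decide) lgb (cs_cons cb_167 (cs_cons cb_168 cs_nil)) kb_169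
theorem rootb_0 : CutGood Pb Sb G1_48 (fv1 G1_48) 0 0x180000000800000008000000080000001 0x80000000800000008000000080000001 :=
  chk1_sound okb (by decide) lgb (cs_cons cb_2 (cs_cons cb_4 (cs_cons cb_5 (cs_cons cb_11 (cs_cons cb_13 (cs_cons cb_14 (cs_cons cb_18 (cs_cons cb_19 (cs_cons cb_20 (cs_cons cb_22 (cs_cons cb_28 cs_nil))))))))))) rb_0
theorem rootb_1 : CutGood Pb Sb G1_48 (fv1 G1_48) 0 0x280000000800000008000000080000001 0x80000000800000008000000080000001 :=
  chk1_sound okb (by decide) lgb (cs_cons cb_53 (cs_cons cb_54 (cs_cons cb_55 (cs_cons cb_57 (cs_cons cb_58 (cs_cons cb_64 (cs_cons cb_67 (cs_cons cb_69 (cs_cons cb_70 (cs_cons cb_72 (cs_cons cb_74 (cs_cons cb_77 (cs_cons cb_81 (cs_cons cb_85 (cs_cons cb_91 (cs_cons cb_95 (cs_cons cb_96 (cs_cons cb_97 (cs_cons cb_99 (cs_cons cb_102 cs_nil)))))))))))))))))))) rb_1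
theorem rootb_2 : CutGood Pb Sb G1_48 (fv1 G1_48) 0 0x380000000800000008000000080000001 0x80000000800000008000000080000001 :=
  chk1_sound okb (by decide) lgb (cs_cons cb_114 (cs_cons cb_115 (cs_cons cb_116 (cs_cons cb_117 (cs_cons cb_118 (cs_cons cb_119 (cs_cons cb_136 (cs_cons cb_138 (cs_cons cb_141 (cs_cons cb_143 (cs_cons cb_146 (cs_cons cb_151 (cs_cons cb_152 (cs_cons cb_154 (cs_cons cb_155 (cs_cons cb_166 (cs_cons cb_169 cs_nil))))))))))))))))) rb_2
theorem allb : All Pb Sb true := core1 rootb_0 rootb_1 rootb_2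

def Sd : Sp :=
  ⟨mkH 1 2 (-1) 0, mkH 0 (-2) 1 0, mkH 0 1 0 1, 0, 16, 9, 5, 3, RP3, RP7, RP1⟩
theorem okd : ParOK Pd Sd :=
  parChk_sound (by decide +kernel) (Or.inl rfl) ext_3 ext_7 ext_1
theorem td_0 : ∀ i < 14, StOK Pd Sd (stR Pd i) :=
  sts_step okd (by decide) cs_nil sd_0 (fun _ h => absurd h (Nat.not_lt_zero _))
theorem td_14 : ∀ i < 20, StOK Pd Sd (stR Pd i) :=
  sts_step okd (by decide) cs_nil sd_14 td_0
theorem lgd : ∀ i < Pd.nst, LG0 Pd Sd (stR Pd i) := lg0_all okd td_14
theorem cd_0 : CutGood Pd Sd G1_48 (fv1 G1_48) 0 0x80000000800000008000000080000001 0x80000000800000018000000180000001 :=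
  chk1_sound okd (by decide) lgd cs_nil kd_0
theorem rootd_0 : CutGood Pd Sd G1_48 (fv1 G1_48) 0 0x80000000800000008000000080000001 0x80000000800000008000000080000001 :=
  chk1_sound okd (by decide) lgd (cs_cons cd_0 cs_nil) rd_0
theorem alld : All Pd Sd false := core0 rootd_0

def brP121 : BrP := ⟨1, 0, 2, 0, 0, 1, 1, 0, 1, 2, 182⟩

def brC121 : List Nat := [
  0x301000c000500601300050000070120011009000201000a0005004012000400c00e00010100090005000008010300e00b0005002011000000f008000500000900e200e009000400a00d000100e00800050000100004000000010500000a00c300c00a000500000f002500000b00a000d007000500000e004500000c008400800c000200c008000500000d006400000100e100c007000300a009000400600b000000b006000200a007000400000200c100a0060003008008000400400a000400000300a0009005000200800600010080050004002009000300600700040000040080007004000300000100600050030002004004000300200500010040030003000002004300000400020000000043000003002200200300000030020001002002000200000100220000020001000000002000100100010000010000000000001,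
  0x600a025000401e0170003020014000600000f02200210110006008024000501801c000202001200010200110006000010020401c0160006006023000301e013000001f0100006002021000501401a000001d00f000201c010000600001301a60000200005000000020101c00f000500000101e201a00f0006000016014600001d006101a00e0006000017012600001c0084016013000600001801050100180003018010000600001b00a600001900e600001a00c001900d000500000201c201800e000101800d000500e0170004014012000301600f000500000301a001700c000201600d000500c016000101600c0004012011000301400e0005000004018001500b000201400c000500a015000101400b00040100100005000005016301200d0005008014000001300a000201200b0005000006014101200a000400e00f000,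
  0x203201b000103201a0006000004038502a025000601e02f000303001c000402e01f0000031019000203001a00060000050361030019000601c02e0005028024000302e01b000402c01e000002f018000202e0190006000006034601a02d000102e0180005026023000302c01a000402a01d000002d0170006000007032601802c000202c018000102c0170005024022000302a019000402801c0006000008030601602b000002b016000202a017000102a0160005022021000600000902e3028018000402601b000601402a0000029015000202801600050200200001028015000600000a02c102601400040220190003024016000600000c0280025013000600e0270002024014000501c01e0001024013000600000d02640200180003022015000600c0260000023012000501a01d0002022013000600000e0241022012000,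
  0x1046024000701604b000603403a0003044026000503e02f00040420290000045023000700001c0482044024000701404a00010440230006032039000700001d0463042025000503c02e0004040028000503a02d000403e027000700001f04200410210002040022000700e0470001040021000602e037000003d01f000203c020000700002303a602a035000103c01f0007006043000503402a000303a021000700003b00a6022031000003501b000700002c028700003a00c203401c000700002d026700003900e700003301a003301a000]

theorem brK121 : brChk brP121 65536 brC121 1450 = true := by decide +kernel

theorem brute_121 : ∀ n : ℕ, 0 < n → n ≤ 2100000 → n % 4 ≠ 0 → Rp 1 2 (-1) n :=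
  brChk_ok (P := brP121) ⟨by decide, by decide, by decide⟩ brK121 (by norm_num) rfl rfl rfl

def tblb : ℕ := 0x294001b0002080034400150000ac0068000028003a400508000a400690002000016c006e800284004a800020001640050000a0c001a80010400354006e000a04004a000080003b4006f0000b4001a0002240034c0014000294001b0002080034400150000ac0068000028003a400508000a400690002000016c006e800284004a800020001640050000a0c001a80010400354006e000a04004a000080003b4006f0000b4001a0002240034c0014000294001b0002080034400150000ac0068000028003a400508000a400690002000016c006e800284004a800020001640050000a0c001a80010400354006e000a04004a000080003b4006f0000b4001a0002240034c0014000294001b0002080034400150000ac0068000028003a400508000a400690002000016c006e800284004a800020001640050000a0c001a80010400354006e000a04004a000080003b4006f0000b4001a0002240034c0014000294001b0002080034400150000ac0068000028003a400508000a400690002000016c006e800284004a800020001640050000a0c001a80010400354006e000a04004a000080003b4006f0000b4001a0002240034c0014000294001b000208003440015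0000ac0068000028003a400508000a400690002000016c006e800284004a800020001640050000a0c001a80010400354006e000a04004a000080003b4006f0000b4001a0002240034c0014000294001b0002080034400150000ac0068000028003a400508000a400690002000016c006e800284004a800020001640050000a0c001a80010400354006e000a04004a000080003b4006f0000b4001a0002240034c0014000294001b0002080034400150000ac0068000028003a400508000a400690002000016c006e800284004a800020001640050000a0c001a80010400354006e000a04004a000080003b4006f0000b4001a0002240034c0014000294001b0002080034400150000ac0068000028003a400508000a400690002000016c006e800284004a800020001640050000a0c001a80010400354006e000a04004a000080003b4006f0000b4001a0002240034c0014000294001b0002080034400150000ac0068000028003a400508000a400690002000016c006e800284004a800020001640050000a0c001a80010400354006e000a04004a000080003b4006f0000b4001a0002240034c0014000294001b0002080034400150000ac0068000028003a400508000a400690002000016c006e800284004a800020001640050000a0c001a80010400354006e000a04004a000080003b4006f0000b4001a0002240034c0014000294001b0002080034400150000ac0068000028003a400508000a400690002000016c006e800284004a800020001640050000a0c001a80010400354006e000a04004a000080003b4006f0000b4001a0002240034c0014000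
theorem pickb : ∀ r < 840, r % 2 = 1 →
    tj tblb r ≤ 5 ∧ Pk 105 21 3 (6 * r) (tj tblb r) (tx tblb r) := by decide +kernel
theorem bigb (n : ℕ) (hX : 2100000 < n) (h4 : n % 2 = 1) :
    Rp 1 2 (-1) n := by
  obtain ⟨hj, hp⟩ := pickb (n % 840) (Nat.mod_lt _ (by norm_num)) (by omega)
  generalize tj tblb (n % 840) = j at hj hp
  generalize tx tblb (n % 840) = x at hp
  have h4j := pow4_le hj
  have hg := goal_of_pk okb allb (kp := 1) (Md := 105) (t := 6 * n) (j := j) (x := x)
    (by decide) (by decide) (by decide) rfl (by decide)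
    (hp.mod ((Nat.mod_modEq n 840).mul_left 6))
    (by show (3 * 64 ^ 2 + 1) * 4 ^ j ≤ _; omega) (by show 22805 + 4 ^ j < _; omega) (fun _ => by omega)
  refine rp_goal (M := 6) (k := j) hg rfl (by norm_num)
    (Or.inr ⟨rfl, rfl, fun v hv hD h => dv_two_pc hv hD
      (by rw [sq_two_pow]; push_cast; omega) h (Or.inr ⟨rfl, by decide, by decide, by decide⟩)⟩) ?_ ?_ ?_
  · rw [sq_two_pow]; push_cast; ring
  · ring
  · intro v h1 h2
    have h1 : 1 * (2 : ℤ) ^ j ≤ (-2) * v.imI + 1 * v.imJ + 0 * v.imK := h1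
    have h2 : 0 * (2 : ℤ) ^ j ≤ 1 * v.imI + 0 * v.imJ + 1 * v.imK := h2
    have h3 : (0 : ℤ) < 2 ^ j := by positivity
    exact ⟨by linarith, by linarith, Or.inr (by linarith)⟩
def tbld : ℕ := 0x4c000800016c00020000280016400104002000020800080000440002800164001040004c002080016c00020000280009000104002000020800080000440020000164000300004c000800016c00020000280016400104002000020800080000440002800164001040004c002080016c00020000280009000104002000020800080000440020000164000300004c000800016c00020000280016400104002000020800080000440002800164001040004c002080016c000200002800090001040020000208000800004400200001640003000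
theorem pickd : ∀ r < 168, r % 2 = 1 → Pk 21 21 3 (12 * r) 0 (tx tbld r) ∨
    (tj tbld r ≤ 4 ∧ Pk 21 21 3 (3 * r) (tj tbld r) (tx tbld r)) := by decide +kernel
theorem bigd (n : ℕ) (hX : 2100000 < 2 * n) (h4 : n % 2 = 1) :
    Rp 1 2 (-1) (2 * n) := by
  rcases pickd (n % 168) (Nat.mod_lt _ (by norm_num)) (by omega) with hp | ⟨hj, hp⟩
  · have hg := goal_of_pk okd alld (kp := 1) (Md := 21) (t := 12 * n) (j := 0)
      (by decide) (by decide) (by decide) rfl (by decide)
      (hp.mod ((Nat.mod_modEq n 168).mul_left 12))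
      (by show (3 * 64 ^ 2 + 1) * 4 ^ 0 ≤ _; omega) (by show 227 + 4 ^ 0 < _; omega) (by simp)
    refine rp_goal (M := 6) (k := 0) hg rfl (by norm_num)
      (Or.inr ⟨rfl, rfl, fun v hv hD _ => dv_two_odd hv hD (by norm_num)
        (by push_cast; omega) (by decide)⟩) ?_ ?_ ?_
    · push_cast; ring
    · ring
    · intro v h1 h2
      have h1 : 1 * (2 : ℤ) ^ 0 ≤ (-2) * v.imI + 1 * v.imJ + 0 * v.imK := h1
      have h2 : 0 * (2 : ℤ) ^ 0 ≤ 1 * v.imI + 0 * v.imJ + 1 * v.imK := h2
      have h3 : (0 : ℤ) < 2 ^ 0 := by positivity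
      exact ⟨by linarith, by linarith, Or.inr (by linarith)⟩
  generalize tj tbld (n % 168) = j at hj hp
  have h4j := pow4_le hj
  have hg := goal_of_pk okd alld (kp := 1) (Md := 21) (t := 3 * n) (j := j)
    (by decide) (by decide) (by decide) rfl (by decide)
    (hp.mod ((Nat.mod_modEq n 168).mul_left 3))
    (by show (3 * 64 ^ 2 + 1) * 4 ^ j ≤ _; omega) (by show 227 + 4 ^ j < _; omega) (by simp)
  refine rp_goal (M := 3) (k := j + 1) hg rfl (by norm_num) (Or.inl rfl) ?_ ?_ ?_
  · rw [sq_two_pow]; push_cast; ring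
  · ring
  · intro v h1 h2
    have h1 : 1 * (2 : ℤ) ^ j ≤ (-2) * v.imI + 1 * v.imJ + 0 * v.imK := h1
    have h2 : 0 * (2 : ℤ) ^ j ≤ 1 * v.imI + 0 * v.imJ + 1 * v.imK := h2
    have h3 : (0 : ℤ) < 2 ^ j := by positivity
    exact ⟨by linarith, by linarith, Or.inr (by linarith)⟩
theorem form121 (n : ℕ) (hn : 0 < n) : Rp 1 2 (-1) n := by
  refine all_of (E := fun _ => True) (fun _ _ => trivial) (fun n hn h4 _ => ?_) n hn trivial
  by_cases hX : n ≤ 2100000
  · exact brute_121 n hn hX h4
  by_cases h2 : n % 2 = 1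
  · exact bigb n (by omega) h2
  obtain ⟨k, rfl⟩ : 2 ∣ n := by omega
  exact bigd k (by omega) (by omega)

end Pool.Agent.Lib.MP_094079_nt
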