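import Pool.Agent.Lib.MP_094079_nt.Fin
import Pool.Agent.Lib.MP_094079_nt.De_44
import Pool.Agent.Lib.MP_094079_nt.De_45
import Pool.Agent.Lib.MP_094079_nt.De_46
import Pool.Agent.Lib.MP_094079_nt.De_47

/-! All positive integers for a form of norm twenty one. -/
namespace Pool.Agent.Lib.MP_094079_nt

set_option maxRecDepth 100000
set_option exponentiation.threshold 20000

def Se : Sp :=
  ⟨mkH 4 (-2) (-1) 0, mkH 0 4 0 1, mkH 0 0 4 (-2), 0, 16, 9, 5, 3, RP3, RP7, RP5⟩
theorem oke : ParOK Pe Se :=
  parChk_sound (by decide +kernel) (Or.inr Nat.prime_five) ext_3 ext_7 ext_5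
theorem te_0 : ∀ i < 4, StOK Pe Se (stR Pe i) :=
  sts_step oke (by decide) cs_nil se_0 (fun _ h => absurd h (Nat.not_lt_zero _))
theorem te_4 : ∀ i < 8, StOK Pe Se (stR Pe i) :=
  sts_step oke (by decide) cs_nil se_4 te_0
theorem te_8 : ∀ i < 12, StOK Pe Se (stR Pe i) :=
  sts_step oke (by decide) cs_nil se_8 te_4
theorem te_12 : ∀ i < 16, StOK Pe Se (stR Pe i) :=
  sts_step oke (by decide) cs_nil se_12 te_8
theorem te_16 : ∀ i < 22, StOK Pe Se (stR Pe i) :=
  sts_step oke (by decide) cs_nil se_16 te_12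
theorem te_22 : ∀ i < 28, StOK Pe Se (stR Pe i) :=
  sts_step oke (by decide) cs_nil se_22 te_16
theorem te_28 : ∀ i < 32, StOK Pe Se (stR Pe i) :=
  sts_step oke (by decide) cs_nil se_28 te_22
theorem te_32 : ∀ i < 37, StOK Pe Se (stR Pe i) :=
  sts_step oke (by decide) cs_nil se_32 te_28
theorem te_37 : ∀ i < 44, StOK Pe Se (stR Pe i) :=
  sts_step oke (by decide) cs_nil se_37 te_32
theorem te_44 : ∀ i < 48, StOK Pe Se (stR Pe i) :=
  sts_step oke (by decide) cs_nil se_44 te_37
theorem te_48 : ∀ i < 51, StOK Pe Se (stR Pe i) :=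
  sts_step oke (by decide) cs_nil se_48 te_44
theorem te_51 : ∀ i < 57, StOK Pe Se (stR Pe i) :=
  sts_step oke (by decide) cs_nil se_51 te_48
theorem te_57 : ∀ i < 63, StOK Pe Se (stR Pe i) :=
  sts_step oke (by decide) cs_nil se_57 te_51
theorem te_63 : ∀ i < 68, StOK Pe Se (stR Pe i) :=
  sts_step oke (by decide) cs_nil se_63 te_57
theorem te_68 : ∀ i < 72, StOK Pe Se (stR Pe i) :=
  sts_step oke (by decide) cs_nil se_68 te_63
theorem te_72 : ∀ i < 78, StOK Pe Se (stR Pe i) :=
  sts_step oke (by decide) cs_nil se_72 te_68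
theorem te_78 : ∀ i < 84, StOK Pe Se (stR Pe i) :=
  sts_step oke (by decide) cs_nil se_78 te_72
theorem te_84 : ∀ i < 88, StOK Pe Se (stR Pe i) :=
  sts_step oke (by decide) cs_nil se_84 te_78
theorem te_88 : ∀ i < 93, StOK Pe Se (stR Pe i) :=
  sts_step oke (by decide) cs_nil se_88 te_84
theorem te_93 : ∀ i < 99, StOK Pe Se (stR Pe i) :=
  sts_step oke (by decide) cs_nil se_93 te_88
theorem te_99 : ∀ i < 104, StOK Pe Se (stR Pe i) :=
  sts_step oke (by decide) cs_nil se_99 te_93
theorem te_104 : ∀ i < 111, StOK Pe Se (stR Pe i) :=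
  sts_step oke (by decide) cs_nil se_104 te_99
theorem te_111 : ∀ i < 116, StOK Pe Se (stR Pe i) :=
  sts_step oke (by decide) cs_nil se_111 te_104
theorem te_116 : ∀ i < 119, StOK Pe Se (stR Pe i) :=
  sts_step oke (by decide) cs_nil se_116 te_111
theorem te_119 : ∀ i < 122, StOK Pe Se (stR Pe i) :=
  sts_step oke (by decide) cs_nil se_119 te_116
theorem te_122 : ∀ i < 126, StOK Pe Se (stR Pe i) :=
  sts_step oke (by decide) cs_nil se_122 te_119
theorem te_126 : ∀ i < 131, StOK Pe Se (stR Pe i) :=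
  sts_step oke (by decide) cs_nil se_126 te_122
theorem te_131 : ∀ i < 139, StOK Pe Se (stR Pe i) :=
  sts_step oke (by decide) cs_nil se_131 te_126
theorem te_139 : ∀ i < 145, StOK Pe Se (stR Pe i) :=
  sts_step oke (by decide) cs_nil se_139 te_131
theorem te_145 : ∀ i < 154, StOK Pe Se (stR Pe i) :=
  sts_step oke (by decide) cs_nil se_145 te_139
theorem te_154 : ∀ i < 161, StOK Pe Se (stR Pe i) :=
  sts_step oke (by decide) cs_nil se_154 te_145
theorem te_161 : ∀ i < 166, StOK Pe Se (stR Pe i) :=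
  sts_step oke (by decide) cs_nil se_161 te_154
theorem te_166 : ∀ i < 174, StOK Pe Se (stR Pe i) :=
  sts_step oke (by decide) cs_nil se_166 te_161
theorem te_174 : ∀ i < 182, StOK Pe Se (stR Pe i) :=
  sts_step oke (by decide) cs_nil se_174 te_166
theorem te_182 : ∀ i < 189, StOK Pe Se (stR Pe i) :=
  sts_step oke (by decide) cs_nil se_182 te_174
theorem te_189 : ∀ i < 198, StOK Pe Se (stR Pe i) :=
  sts_step oke (by decide) cs_nil se_189 te_182
theorem te_198 : ∀ i < 205, StOK Pe Se (stR Pe i) :=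
  sts_step oke (by decide) cs_nil se_198 te_189
theorem te_205 : ∀ i < 211, StOK Pe Se (stR Pe i) :=
  sts_step oke (by decide) cs_nil se_205 te_198
theorem te_211 : ∀ i < 219, StOK Pe Se (stR Pe i) :=
  sts_step oke (by decide) cs_nil se_211 te_205
theorem te_219 : ∀ i < 225, StOK Pe Se (stR Pe i) :=
  sts_step oke (by decide) cs_nil se_219 te_211
theorem te_225 : ∀ i < 232, StOK Pe Se (stR Pe i) :=
  sts_step oke (by decide) cs_nil se_225 te_219
theorem te_232 : ∀ i < 238, StOK Pe Se (stR Pe i) :=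
  sts_step oke (by decide) cs_nil se_232 te_225
theorem te_238 : ∀ i < 246, StOK Pe Se (stR Pe i) :=
  sts_step oke (by decide) cs_nil se_238 te_232
theorem te_246 : ∀ i < 252, StOK Pe Se (stR Pe i) :=
  sts_step oke (by decide) cs_nil se_246 te_238
theorem te_252 : ∀ i < 255, StOK Pe Se (stR Pe i) :=
  sts_step oke (by decide) cs_nil se_252 te_246
theorem te_255 : ∀ i < 260, StOK Pe Se (stR Pe i) :=
  sts_step oke (by decide) cs_nil se_255 te_252
theorem te_260 : ∀ i < 267, StOK Pe Se (stR Pe i) :=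
  sts_step oke (by decide) cs_nil se_260 te_255
theorem te_267 : ∀ i < 275, StOK Pe Se (stR Pe i) :=
  sts_step oke (by decide) cs_nil se_267 te_260
theorem te_275 : ∀ i < 283, StOK Pe Se (stR Pe i) :=
  sts_step oke (by decide) cs_nil se_275 te_267
theorem te_283 : ∀ i < 288, StOK Pe Se (stR Pe i) :=
  sts_step oke (by decide) cs_nil se_283 te_275
theorem te_288 : ∀ i < 295, StOK Pe Se (stR Pe i) :=
  sts_step oke (by decide) cs_nil se_288 te_283
theorem te_295 : ∀ i < 303, StOK Pe Se (stR Pe i) :=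
  sts_step oke (by decide) cs_nil se_295 te_288
theorem te_303 : ∀ i < 308, StOK Pe Se (stR Pe i) :=
  sts_step oke (by decide) cs_nil se_303 te_295
theorem te_308 : ∀ i < 313, StOK Pe Se (stR Pe i) :=
  sts_step oke (by decide) cs_nil se_308 te_303
theorem te_313 : ∀ i < 318, StOK Pe Se (stR Pe i) :=
  sts_step oke (by decide) cs_nil se_313 te_308
theorem te_318 : ∀ i < 325, StOK Pe Se (stR Pe i) :=
  sts_step oke (by decide) cs_nil se_318 te_313
theorem te_325 : ∀ i < 332, StOK Pe Se (stR Pe i) :=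
  sts_step oke (by decide) cs_nil se_325 te_318
theorem te_332 : ∀ i < 339, StOK Pe Se (stR Pe i) :=
  sts_step oke (by decide) cs_nil se_332 te_325
theorem te_339 : ∀ i < 347, StOK Pe Se (stR Pe i) :=
  sts_step oke (by decide) cs_nil se_339 te_332
theorem te_347 : ∀ i < 353, StOK Pe Se (stR Pe i) :=
  sts_step oke (by decide) cs_nil se_347 te_339
theorem te_353 : ∀ i < 358, StOK Pe Se (stR Pe i) :=
  sts_step oke (by decide) cs_nil se_353 te_347
theorem te_358 : ∀ i < 368, StOK Pe Se (stR Pe i) :=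
  sts_step oke (by decide) cs_nil se_358 te_353
theorem te_368 : ∀ i < 376, StOK Pe Se (stR Pe i) :=
  sts_step oke (by decide) cs_nil se_368 te_358
theorem te_376 : ∀ i < 384, StOK Pe Se (stR Pe i) :=
  sts_step oke (by decide) cs_nil se_376 te_368
theorem te_384 : ∀ i < 393, StOK Pe Se (stR Pe i) :=
  sts_step oke (by decide) cs_nil se_384 te_376
theorem te_393 : ∀ i < 397, StOK Pe Se (stR Pe i) :=
  sts_step oke (by decide) cs_nil se_393 te_384
theorem te_397 : ∀ i < 404, StOK Pe Se (stR Pe i) :=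
  sts_step oke (by decide) cs_nil se_397 te_393
theorem te_404 : ∀ i < 412, StOK Pe Se (stR Pe i) :=
  sts_step oke (by decide) cs_nil se_404 te_397
theorem te_412 : ∀ i < 419, StOK Pe Se (stR Pe i) :=
  sts_step oke (by decide) cs_nil se_412 te_404
theorem te_419 : ∀ i < 426, StOK Pe Se (stR Pe i) :=
  sts_step oke (by decide) cs_nil se_419 te_412
theorem te_426 : ∀ i < 434, StOK Pe Se (stR Pe i) :=
  sts_step oke (by decide) cs_nil se_426 te_419
theorem te_434 : ∀ i < 438, StOK Pe Se (stR Pe i) :=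
  sts_step oke (by decide) cs_nil se_434 te_426
theorem te_438 : ∀ i < 444, StOK Pe Se (stR Pe i) :=
  sts_step oke (by decide) cs_nil se_438 te_434
theorem te_444 : ∀ i < 451, StOK Pe Se (stR Pe i) :=
  sts_step oke (by decide) cs_nil se_444 te_438
theorem te_451 : ∀ i < 457, StOK Pe Se (stR Pe i) :=
  sts_step oke (by decide) cs_nil se_451 te_444
theorem te_457 : ∀ i < 463, StOK Pe Se (stR Pe i) :=
  sts_step oke (by decide) cs_nil se_457 te_451
theorem te_463 : ∀ i < 469, StOK Pe Se (stR Pe i) :=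
  sts_step oke (by decide) cs_nil se_463 te_457
theorem te_469 : ∀ i < 475, StOK Pe Se (stR Pe i) :=
  sts_step oke (by decide) cs_nil se_469 te_463
theorem te_475 : ∀ i < 484, StOK Pe Se (stR Pe i) :=
  sts_step oke (by decide) cs_nil se_475 te_469
theorem te_484 : ∀ i < 491, StOK Pe Se (stR Pe i) :=
  sts_step oke (by decide) cs_nil se_484 te_475
theorem te_491 : ∀ i < 496, StOK Pe Se (stR Pe i) :=
  sts_step oke (by decide) cs_nil se_491 te_484
theorem te_496 : ∀ i < 502, StOK Pe Se (stR Pe i) :=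
  sts_step oke (by decide) cs_nil se_496 te_491
theorem te_502 : ∀ i < 507, StOK Pe Se (stR Pe i) :=
  sts_step oke (by decide) cs_nil se_502 te_496
theorem te_507 : ∀ i < 514, StOK Pe Se (stR Pe i) :=
  sts_step oke (by decide) cs_nil se_507 te_502
theorem te_514 : ∀ i < 521, StOK Pe Se (stR Pe i) :=
  sts_step oke (by decide) cs_nil se_514 te_507
theorem te_521 : ∀ i < 529, StOK Pe Se (stR Pe i) :=
  sts_step oke (by decide) cs_nil se_521 te_514
theorem te_529 : ∀ i < 538, StOK Pe Se (stR Pe i) :=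
  sts_step oke (by decide) cs_nil se_529 te_521
theorem te_538 : ∀ i < 546, StOK Pe Se (stR Pe i) :=
  sts_step oke (by decide) cs_nil se_538 te_529
theorem te_546 : ∀ i < 555, StOK Pe Se (stR Pe i) :=
  sts_step oke (by decide) cs_nil se_546 te_538
theorem te_555 : ∀ i < 564, StOK Pe Se (stR Pe i) :=
  sts_step oke (by decide) cs_nil se_555 te_546
theorem te_564 : ∀ i < 572, StOK Pe Se (stR Pe i) :=
  sts_step oke (by decide) cs_nil se_564 te_555
theorem te_572 : ∀ i < 580, StOK Pe Se (stR Pe i) :=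
  sts_step oke (by decide) cs_nil se_572 te_564
theorem te_580 : ∀ i < 586, StOK Pe Se (stR Pe i) :=
  sts_step oke (by decide) cs_nil se_580 te_572
theorem te_586 : ∀ i < 594, StOK Pe Se (stR Pe i) :=
  sts_step oke (by decide) cs_nil se_586 te_580
theorem te_594 : ∀ i < 600, StOK Pe Se (stR Pe i) :=
  sts_step oke (by decide) cs_nil se_594 te_586
theorem te_600 : ∀ i < 606, StOK Pe Se (stR Pe i) :=
  sts_step oke (by decide) cs_nil se_600 te_594
theorem te_606 : ∀ i < 614, StOK Pe Se (stR Pe i) :=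
  sts_step oke (by decide) cs_nil se_606 te_600
theorem te_614 : ∀ i < 620, StOK Pe Se (stR Pe i) :=
  sts_step oke (by decide) cs_nil se_614 te_606
theorem te_620 : ∀ i < 628, StOK Pe Se (stR Pe i) :=
  sts_step oke (by decide) cs_nil se_620 te_614
theorem te_628 : ∀ i < 636, StOK Pe Se (stR Pe i) :=
  sts_step oke (by decide) cs_nil se_628 te_620
theorem te_636 : ∀ i < 643, StOK Pe Se (stR Pe i) :=
  sts_step oke (by decide) cs_nil se_636 te_628
theorem te_643 : ∀ i < 651, StOK Pe Se (stR Pe i) :=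
  sts_step oke (by decide) cs_nil se_643 te_636
theorem te_651 : ∀ i < 658, StOK Pe Se (stR Pe i) :=
  sts_step oke (by decide) cs_nil se_651 te_643
theorem te_658 : ∀ i < 664, StOK Pe Se (stR Pe i) :=
  sts_step oke (by decide) cs_nil se_658 te_651
theorem te_664 : ∀ i < 671, StOK Pe Se (stR Pe i) :=
  sts_step oke (by decide) cs_nil se_664 te_658
theorem te_671 : ∀ i < 680, StOK Pe Se (stR Pe i) :=
  sts_step oke (by decide) cs_nil se_671 te_664
theorem te_680 : ∀ i < 685, StOK Pe Se (stR Pe i) :=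
  sts_step oke (by decide) cs_nil se_680 te_671
theorem te_685 : ∀ i < 692, StOK Pe Se (stR Pe i) :=
  sts_step oke (by decide) cs_nil se_685 te_680
theorem te_692 : ∀ i < 700, StOK Pe Se (stR Pe i) :=
  sts_step oke (by decide) cs_nil se_692 te_685
theorem te_700 : ∀ i < 706, StOK Pe Se (stR Pe i) :=
  sts_step oke (by decide) cs_nil se_700 te_692
theorem te_706 : ∀ i < 714, StOK Pe Se (stR Pe i) :=
  sts_step oke (by decide) cs_nil se_706 te_700
theorem te_714 : ∀ i < 722, StOK Pe Se (stR Pe i) :=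
  sts_step oke (by decide) cs_nil se_714 te_706
theorem te_722 : ∀ i < 728, StOK Pe Se (stR Pe i) :=
  sts_step oke (by decide) cs_nil se_722 te_714
theorem te_728 : ∀ i < 735, StOK Pe Se (stR Pe i) :=
  sts_step oke (by decide) cs_nil se_728 te_722
theorem te_735 : ∀ i < 743, StOK Pe Se (stR Pe i) :=
  sts_step oke (by decide) cs_nil se_735 te_728
theorem te_743 : ∀ i < 748, StOK Pe Se (stR Pe i) :=
  sts_step oke (by decide) cs_nil se_743 te_735
theorem te_748 : ∀ i < 756, StOK Pe Se (stR Pe i) :=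
  sts_step oke (by decide) cs_nil se_748 te_743
theorem te_756 : ∀ i < 764, StOK Pe Se (stR Pe i) :=
  sts_step oke (by decide) cs_nil se_756 te_748
theorem te_764 : ∀ i < 771, StOK Pe Se (stR Pe i) :=
  sts_step oke (by decide) cs_nil se_764 te_756
theorem te_771 : ∀ i < 778, StOK Pe Se (stR Pe i) :=
  sts_step oke (by decide) cs_nil se_771 te_764
theorem te_778 : ∀ i < 784, StOK Pe Se (stR Pe i) :=
  sts_step oke (by decide) cs_nil se_778 te_771
theorem te_784 : ∀ i < 791, StOK Pe Se (stR Pe i) :=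
  sts_step oke (by decide) cs_nil se_784 te_778
theorem te_791 : ∀ i < 799, StOK Pe Se (stR Pe i) :=
  sts_step oke (by decide) cs_nil se_791 te_784
theorem te_799 : ∀ i < 808, StOK Pe Se (stR Pe i) :=
  sts_step oke (by decide) cs_nil se_799 te_791
theorem te_808 : ∀ i < 815, StOK Pe Se (stR Pe i) :=
  sts_step oke (by decide) cs_nil se_808 te_799
theorem te_815 : ∀ i < 823, StOK Pe Se (stR Pe i) :=
  sts_step oke (by decide) cs_nil se_815 te_808
theorem te_823 : ∀ i < 833, StOK Pe Se (stR Pe i) :=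
  sts_step oke (by decide) cs_nil se_823 te_815
theorem te_833 : ∀ i < 840, StOK Pe Se (stR Pe i) :=
  sts_step oke (by decide) cs_nil se_833 te_823
theorem te_840 : ∀ i < 847, StOK Pe Se (stR Pe i) :=
  sts_step oke (by decide) cs_nil se_840 te_833
theorem te_847 : ∀ i < 852, StOK Pe Se (stR Pe i) :=
  sts_step oke (by decide) cs_nil se_847 te_840
theorem te_852 : ∀ i < 858, StOK Pe Se (stR Pe i) :=
  sts_step oke (by decide) cs_nil se_852 te_847
theorem te_858 : ∀ i < 864, StOK Pe Se (stR Pe i) :=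
  sts_step oke (by decide) cs_nil se_858 te_852
theorem te_864 : ∀ i < 870, StOK Pe Se (stR Pe i) :=
  sts_step oke (by decide) cs_nil se_864 te_858
theorem te_870 : ∀ i < 875, StOK Pe Se (stR Pe i) :=
  sts_step oke (by decide) cs_nil se_870 te_864
theorem te_875 : ∀ i < 884, StOK Pe Se (stR Pe i) :=
  sts_step oke (by decide) cs_nil se_875 te_870
theorem te_884 : ∀ i < 891, StOK Pe Se (stR Pe i) :=
  sts_step oke (by decide) cs_nil se_884 te_875
theorem te_891 : ∀ i < 898, StOK Pe Se (stR Pe i) :=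
  sts_step oke (by decide) cs_nil se_891 te_884
theorem te_898 : ∀ i < 904, StOK Pe Se (stR Pe i) :=
  sts_step oke (by decide) cs_nil se_898 te_891
theorem te_904 : ∀ i < 914, StOK Pe Se (stR Pe i) :=
  sts_step oke (by decide) cs_nil se_904 te_898
theorem te_914 : ∀ i < 922, StOK Pe Se (stR Pe i) :=
  sts_step oke (by decide) cs_nil se_914 te_904
theorem te_922 : ∀ i < 930, StOK Pe Se (stR Pe i) :=
  sts_step oke (by decide) cs_nil se_922 te_914
theorem te_930 : ∀ i < 937, StOK Pe Se (stR Pe i) :=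
  sts_step oke (by decide) cs_nil se_930 te_922
theorem te_937 : ∀ i < 945, StOK Pe Se (stR Pe i) :=
  sts_step oke (by decide) cs_nil se_937 te_930
theorem te_945 : ∀ i < 953, StOK Pe Se (stR Pe i) :=
  sts_step oke (by decide) cs_nil se_945 te_937
theorem te_953 : ∀ i < 960, StOK Pe Se (stR Pe i) :=
  sts_step oke (by decide) cs_nil se_953 te_945
theorem te_960 : ∀ i < 968, StOK Pe Se (stR Pe i) :=
  sts_step oke (by decide) cs_nil se_960 te_953
theorem te_968 : ∀ i < 975, StOK Pe Se (stR Pe i) :=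
  sts_step oke (by decide) cs_nil se_968 te_960
theorem te_975 : ∀ i < 983, StOK Pe Se (stR Pe i) :=
  sts_step oke (by decide) cs_nil se_975 te_968
theorem te_983 : ∀ i < 990, StOK Pe Se (stR Pe i) :=
  sts_step oke (by decide) cs_nil se_983 te_975
theorem te_990 : ∀ i < 997, StOK Pe Se (stR Pe i) :=
  sts_step oke (by decide) cs_nil se_990 te_983
theorem te_997 : ∀ i < 1007, StOK Pe Se (stR Pe i) :=
  sts_step oke (by decide) cs_nil se_997 te_990
theorem te_1007 : ∀ i < 1012, StOK Pe Se (stR Pe i) :=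
  sts_step oke (by decide) cs_nil se_1007 te_997
theorem te_1012 : ∀ i < 1019, StOK Pe Se (stR Pe i) :=
  sts_step oke (by decide) cs_nil se_1012 te_1007
theorem te_1019 : ∀ i < 1026, StOK Pe Se (stR Pe i) :=
  sts_step oke (by decide) cs_nil se_1019 te_1012
theorem te_1026 : ∀ i < 1034, StOK Pe Se (stR Pe i) :=
  sts_step oke (by decide) cs_nil se_1026 te_1019
theorem te_1034 : ∀ i < 1039, StOK Pe Se (stR Pe i) :=
  sts_step oke (by decide) cs_nil se_1034 te_1026
theorem te_1039 : ∀ i < 1045, StOK Pe Se (stR Pe i) :=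
  sts_step oke (by decide) cs_nil se_1039 te_1034
theorem te_1045 : ∀ i < 1055, StOK Pe Se (stR Pe i) :=
  sts_step oke (by decide) cs_nil se_1045 te_1039
theorem te_1055 : ∀ i < 1063, StOK Pe Se (stR Pe i) :=
  sts_step oke (by decide) cs_nil se_1055 te_1045
theorem te_1063 : ∀ i < 1072, StOK Pe Se (stR Pe i) :=
  sts_step oke (by decide) cs_nil se_1063 te_1055
theorem te_1072 : ∀ i < 1080, StOK Pe Se (stR Pe i) :=
  sts_step oke (by decide) cs_nil se_1072 te_1063
theorem te_1080 : ∀ i < 1089, StOK Pe Se (stR Pe i) :=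
  sts_step oke (by decide) cs_nil se_1080 te_1072
theorem te_1089 : ∀ i < 1096, StOK Pe Se (stR Pe i) :=
  sts_step oke (by decide) cs_nil se_1089 te_1080
theorem te_1096 : ∀ i < 1104, StOK Pe Se (stR Pe i) :=
  sts_step oke (by decide) cs_nil se_1096 te_1089
theorem te_1104 : ∀ i < 1114, StOK Pe Se (stR Pe i) :=
  sts_step oke (by decide) cs_nil se_1104 te_1096
theorem te_1114 : ∀ i < 1124, StOK Pe Se (stR Pe i) :=
  sts_step oke (by decide) cs_nil se_1114 te_1104
theorem te_1124 : ∀ i < 1132, StOK Pe Se (stR Pe i) :=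
  sts_step oke (by decide) cs_nil se_1124 te_1114
theorem te_1132 : ∀ i < 1138, StOK Pe Se (stR Pe i) :=
  sts_step oke (by decide) cs_nil se_1132 te_1124
theorem te_1138 : ∀ i < 1144, StOK Pe Se (stR Pe i) :=
  sts_step oke (by decide) cs_nil se_1138 te_1132
theorem te_1144 : ∀ i < 1152, StOK Pe Se (stR Pe i) :=
  sts_step oke (by decide) cs_nil se_1144 te_1138
theorem te_1152 : ∀ i < 1159, StOK Pe Se (stR Pe i) :=
  sts_step oke (by decide) cs_nil se_1152 te_1144
theorem te_1159 : ∀ i < 1169, StOK Pe Se (stR Pe i) :=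
  sts_step oke (by decide) cs_nil se_1159 te_1152
theorem te_1169 : ∀ i < 1179, StOK Pe Se (stR Pe i) :=
  sts_step oke (by decide) cs_nil se_1169 te_1159
theorem te_1179 : ∀ i < 1187, StOK Pe Se (stR Pe i) :=
  sts_step oke (by decide) cs_nil se_1179 te_1169
theorem te_1187 : ∀ i < 1195, StOK Pe Se (stR Pe i) :=
  sts_step oke (by decide) cs_nil se_1187 te_1179
theorem te_1195 : ∀ i < 1204, StOK Pe Se (stR Pe i) :=
  sts_step oke (by decide) cs_nil se_1195 te_1187
theorem te_1204 : ∀ i < 1214, StOK Pe Se (stR Pe i) :=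
  sts_step oke (by decide) cs_nil se_1204 te_1195
theorem te_1214 : ∀ i < 1219, StOK Pe Se (stR Pe i) :=
  sts_step oke (by decide) cs_nil se_1214 te_1204
theorem te_1219 : ∀ i < 1225, StOK Pe Se (stR Pe i) :=
  sts_step oke (by decide) cs_nil se_1219 te_1214
theorem te_1225 : ∀ i < 1233, StOK Pe Se (stR Pe i) :=
  sts_step oke (by decide) cs_nil se_1225 te_1219
theorem te_1233 : ∀ i < 1243, StOK Pe Se (stR Pe i) :=
  sts_step oke (by decide) cs_nil se_1233 te_1225
theorem te_1243 : ∀ i < 1251, StOK Pe Se (stR Pe i) :=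
  sts_step oke (by decide) cs_nil se_1243 te_1233
theorem te_1251 : ∀ i < 1259, StOK Pe Se (stR Pe i) :=
  sts_step oke (by decide) cs_nil se_1251 te_1243
theorem te_1259 : ∀ i < 1266, StOK Pe Se (stR Pe i) :=
  sts_step oke (by decide) cs_nil se_1259 te_1251
theorem te_1266 : ∀ i < 1275, StOK Pe Se (stR Pe i) :=
  sts_step oke (by decide) cs_nil se_1266 te_1259
theorem te_1275 : ∀ i < 1282, StOK Pe Se (stR Pe i) :=
  sts_step oke (by decide) cs_nil se_1275 te_1266
theorem te_1282 : ∀ i < 1290, StOK Pe Se (stR Pe i) :=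
  sts_step oke (by decide) cs_nil se_1282 te_1275
theorem te_1290 : ∀ i < 1299, StOK Pe Se (stR Pe i) :=
  sts_step oke (by decide) cs_nil se_1290 te_1282
theorem te_1299 : ∀ i < 1308, StOK Pe Se (stR Pe i) :=
  sts_step oke (by decide) cs_nil se_1299 te_1290
theorem te_1308 : ∀ i < 1314, StOK Pe Se (stR Pe i) :=
  sts_step oke (by decide) cs_nil se_1308 te_1299
theorem te_1314 : ∀ i < 1321, StOK Pe Se (stR Pe i) :=
  sts_step oke (by decide) cs_nil se_1314 te_1308
theorem te_1321 : ∀ i < 1331, StOK Pe Se (stR Pe i) :=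
  sts_step oke (by decide) cs_nil se_1321 te_1314
theorem te_1331 : ∀ i < 1339, StOK Pe Se (stR Pe i) :=
  sts_step oke (by decide) cs_nil se_1331 te_1321
theorem te_1339 : ∀ i < 1348, StOK Pe Se (stR Pe i) :=
  sts_step oke (by decide) cs_nil se_1339 te_1331
theorem te_1348 : ∀ i < 1356, StOK Pe Se (stR Pe i) :=
  sts_step oke (by decide) cs_nil se_1348 te_1339
theorem te_1356 : ∀ i < 1363, StOK Pe Se (stR Pe i) :=
  sts_step oke (by decide) cs_nil se_1356 te_1348
theorem te_1363 : ∀ i < 1372, StOK Pe Se (stR Pe i) :=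
  sts_step oke (by decide) cs_nil se_1363 te_1356
theorem te_1372 : ∀ i < 1379, StOK Pe Se (stR Pe i) :=
  sts_step oke (by decide) cs_nil se_1372 te_1363
theorem te_1379 : ∀ i < 1387, StOK Pe Se (stR Pe i) :=
  sts_step oke (by decide) cs_nil se_1379 te_1372
theorem te_1387 : ∀ i < 1392, StOK Pe Se (stR Pe i) :=
  sts_step oke (by decide) cs_nil se_1387 te_1379
theorem te_1392 : ∀ i < 1401, StOK Pe Se (stR Pe i) :=
  sts_step oke (by decide) cs_nil se_1392 te_1387
theorem te_1401 : ∀ i < 1411, StOK Pe Se (stR Pe i) :=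
  sts_step oke (by decide) cs_nil se_1401 te_1392
theorem te_1411 : ∀ i < 1420, StOK Pe Se (stR Pe i) :=
  sts_step oke (by decide) cs_nil se_1411 te_1401
theorem te_1420 : ∀ i < 1425, StOK Pe Se (stR Pe i) :=
  sts_step oke (by decide) cs_nil se_1420 te_1411
theorem te_1425 : ∀ i < 1435, StOK Pe Se (stR Pe i) :=
  sts_step oke (by decide) cs_nil se_1425 te_1420
theorem te_1435 : ∀ i < 1443, StOK Pe Se (stR Pe i) :=
  sts_step oke (by decide) cs_nil se_1435 te_1425
theorem te_1443 : ∀ i < 1452, StOK Pe Se (stR Pe i) :=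
  sts_step oke (by decide) cs_nil se_1443 te_1435
theorem te_1452 : ∀ i < 1459, StOK Pe Se (stR Pe i) :=
  sts_step oke (by decide) cs_nil se_1452 te_1443
theorem te_1459 : ∀ i < 1466, StOK Pe Se (stR Pe i) :=
  sts_step oke (by decide) cs_nil se_1459 te_1452
theorem te_1466 : ∀ i < 1475, StOK Pe Se (stR Pe i) :=
  sts_step oke (by decide) cs_nil se_1466 te_1459
theorem te_1475 : ∀ i < 1483, StOK Pe Se (stR Pe i) :=
  sts_step oke (by decide) cs_nil se_1475 te_1466
theorem te_1483 : ∀ i < 1491, StOK Pe Se (stR Pe i) :=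
  sts_step oke (by decide) cs_nil se_1483 te_1475
theorem te_1491 : ∀ i < 1497, StOK Pe Se (stR Pe i) :=
  sts_step oke (by decide) cs_nil se_1491 te_1483
theorem te_1497 : ∀ i < 1505, StOK Pe Se (stR Pe i) :=
  sts_step oke (by decide) cs_nil se_1497 te_1491
theorem te_1505 : ∀ i < 1514, StOK Pe Se (stR Pe i) :=
  sts_step oke (by decide) cs_nil se_1505 te_1497
theorem te_1514 : ∀ i < 1524, StOK Pe Se (stR Pe i) :=
  sts_step oke (by decide) cs_nil se_1514 te_1505
theorem te_1524 : ∀ i < 1533, StOK Pe Se (stR Pe i) :=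
  sts_step oke (by decide) cs_nil se_1524 te_1514
theorem te_1533 : ∀ i < 1541, StOK Pe Se (stR Pe i) :=
  sts_step oke (by decide) cs_nil se_1533 te_1524
theorem te_1541 : ∀ i < 1551, StOK Pe Se (stR Pe i) :=
  sts_step oke (by decide) cs_nil se_1541 te_1533
theorem te_1551 : ∀ i < 1558, StOK Pe Se (stR Pe i) :=
  sts_step oke (by decide) cs_nil se_1551 te_1541
theorem te_1558 : ∀ i < 1567, StOK Pe Se (stR Pe i) :=
  sts_step oke (by decide) cs_nil se_1558 te_1551
theorem te_1567 : ∀ i < 1576, StOK Pe Se (stR Pe i) :=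
  sts_step oke (by decide) cs_nil se_1567 te_1558
theorem te_1576 : ∀ i < 1585, StOK Pe Se (stR Pe i) :=
  sts_step oke (by decide) cs_nil se_1576 te_1567
theorem te_1585 : ∀ i < 1593, StOK Pe Se (stR Pe i) :=
  sts_step oke (by decide) cs_nil se_1585 te_1576
theorem te_1593 : ∀ i < 1597, StOK Pe Se (stR Pe i) :=
  sts_step oke (by decide) cs_nil se_1593 te_1585
theorem lge : ∀ i < Pe.nst, LG0 Pe Se (stR Pe i) := lg0_all oke te_1593
theorem ce_0 : CutGood Pe Se G1_48 (fv1 G1_48) 0 0x7fffffef800000058000000180000000 0x7fffffff80000005800000017ffffffa :=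
  chk1_sound oke (by decide) lge cs_nil ke_0
theorem ce_1 : CutGood Pe Se G1_48 (fv1 G1_48) 0 0x7fffffff800000028000000380000001 0x7ffffff28000000a800000087ffffff7 :=
  chk1_sound oke (by decide) lge cs_nil ke_1
theorem ce_2 : CutGood Pe Se G1_48 (fv1 G1_48) 0 0x7fffffff800000028000000380000001 0x7ffffffb800000058000000380000002 :=
  chk1_sound oke (by decide) lge (cs_cons ce_1 cs_nil) ke_2
theorem ce_3 : CutGood Pe Se G1_48 (fv1 G1_48) 0 0x8000000080000005800000027ffffffc 0x7ffffffd800000077ffffffe7fffffff :=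
  chk1_sound oke (by decide) lge cs_nil ke_3
theorem ce_4 : CutGood Pe Se G1_48 (fv1 G1_48) 0 0x8000000080000005800000027ffffffc 0x7ffffff87ffffffd8000000a80000004 :=
  chk1_sound oke (by decide) lge cs_nil ke_4
theorem ce_5 : CutGood Pe Se G1_48 (fv1 G1_48) 0 0x7ffffff07ffffff48000001080000011 0x80000001800000048000000280000000 :=
  chk1_sound oke (by decide) lge cs_nil ke_5
theorem ce_6 : CutGood Pe Se G1_48 (fv1 G1_48) 0 0x7fffffff7ffffff98000000680000007 0x80000001800000048000000280000000 :=
  chk1_sound oke (by decide) lge cs_nil ke_6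
theorem ce_7 : CutGood Pe Se G1_48 (fv1 G1_48) 0 0x7fffffff800000038000000180000002 0x80000001800000048000000280000000 :=
  chk1_sound oke (by decide) lge (cs_cons ce_5 (cs_cons ce_6 cs_nil)) ke_7
theorem ce_8 : CutGood Pe Se G1_48 (fv1 G1_48) 0 0x7fffffff800000018000000280000003 0x80000001800000048000000280000000 :=
  chk1_sound oke (by decide) lge cs_nil ke_8
theorem ce_9 : CutGood Pe Se G1_48 (fv1 G1_48) 0 0x80000002800000028000000680000001 0x7ffffffc8000000b8000000180000003 :=
  chk1_sound oke (by decide) lge cs_nil ke_9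
theorem ce_10 : CutGood Pe Se G1_48 (fv1 G1_48) 0 0x80000001800000028000000180000003 0x80000004800000058000000980000005 :=
  chk1_sound oke (by decide) lge cs_nil ke_10
theorem ce_11 : CutGood Pe Se G1_48 (fv1 G1_48) 0 0x80000001800000028000000180000003 0x80000001800000048000000280000000 :=
  chk1_sound oke (by decide) lge (cs_cons ce_9 (cs_cons ce_10 cs_nil)) ke_11
theorem ce_12 : CutGood Pe Se G1_48 (fv1 G1_48) 0 0x80000000800000018000000180000001 0x80000001800000048000000280000000 :=
  chk1_sound oke (by decide) lge (cs_cons ce_0 (cs_cons ce_2 (cs_cons ce_3 (cs_cons ce_4 (cs_cons ce_7 (cs_cons ce_8 (cs_cons ce_11 cs_nil))))))) ke_12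
theorem ce_13 : CutGood Pe Se G1_48 (fv1 G1_48) 0 0x7fffffff8000000c8000000d7fffffff 0x80000002800000018000000480000000 :=
  chk1_sound oke (by decide) lge cs_nil ke_13
theorem ce_14 : CutGood Pe Se G1_48 (fv1 G1_48) 0 0x8000000780000010800000037fffffff 0x80000002800000018000000480000000 :=
  chk1_sound oke (by decide) lge cs_nil ke_14
theorem ce_15 : CutGood Pe Se G1_48 (fv1 G1_48) 0 0x8000000080000005800000027ffffffc 0x80000002800000018000000480000000 :=
  chk1_sound oke (by decide) lge (cs_cons ce_13 (cs_cons ce_14 cs_nil)) ke_15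
theorem ce_16 : CutGood Pe Se G1_48 (fv1 G1_48) 0 0x7ffffffc800000038000000480000002 0x80000002800000018000000480000000 :=
  chk1_sound oke (by decide) lge cs_nil ke_16
theorem ce_17 : CutGood Pe Se G1_48 (fv1 G1_48) 0 0x8000000380000004800000047ffffffe 0x80000002800000018000000480000000 :=
  chk1_sound oke (by decide) lge cs_nil ke_17
theorem ce_18 : CutGood Pe Se G1_48 (fv1 G1_48) 0 0x800000027fffffff800000067ffffffe 0x80000002800000018000000480000000 :=
  chk1_sound oke (by decide) lge cs_nil ke_18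
theorem ce_19 : CutGood Pe Se G1_48 (fv1 G1_48) 0 0x7fffffff800000038000000180000002 0x80000002800000018000000480000000 :=
  chk1_sound oke (by decide) lge cs_nil ke_19
theorem ce_20 : CutGood Pe Se G1_48 (fv1 G1_48) 0 0x7fffffff800000018000000280000003 0x80000002800000018000000480000000 :=
  chk1_sound oke (by decide) lge cs_nil ke_20
theorem ce_21 : CutGood Pe Se G1_48 (fv1 G1_48) 0 0x80000001800000028000000180000003 0x8000003c800000138000002c7fffffc6 :=
  chk1_sound oke (by decide) lge cs_nil ke_21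
theorem ce_22 : CutGood Pe Se G1_48 (fv1 G1_48) 0 0x80000001800000028000000180000003 0x80000010800000008000000d7ffffffc :=
  chk1_sound oke (by decide) lge (cs_cons ce_21 cs_nil) ke_22
theorem ce_23 : CutGood Pe Se G1_48 (fv1 G1_48) 0 0x80000001800000028000000180000003 0x80000002800000018000000480000000 :=
  chk1_sound oke (by decide) lge (cs_cons ce_22 cs_nil) ke_23
theorem ce_24 : CutGood Pe Se G1_48 (fv1 G1_48) 0 0x7fffffef800000058000000180000000 0x7ffffffd7fffffff8000000780000002 :=
  chk1_sound oke (by decide) lge cs_nil ke_24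
theorem ce_25 : CutGood Pe Se G1_48 (fv1 G1_48) 0 0x7fffffff800000028000000380000001 0x7ffffffd7fffffff8000000780000002 :=
  chk1_sound oke (by decide) lge (cs_cons ce_24 cs_nil) ke_25
theorem ce_26 : CutGood Pe Se G1_48 (fv1 G1_48) 0 0x7ffffffe80000007800000067ffffffc 0x7ffffffd7ffffff68000000480000008 :=
  chk1_sound oke (by decide) lge cs_nil ke_26
theorem ce_27 : CutGood Pe Se G1_48 (fv1 G1_48) 0 0x8000000780000016800000098000000b 0x8000001980000018800000147ffffff6 :=
  chk1_sound oke (by decide) lge cs_nil ke_27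
theorem ce_28 : CutGood Pe Se G1_48 (fv1 G1_48) 0 0x7fffffff800000028000000380000001 0x7ffffff97fffffff8000000280000003 :=
  chk1_sound oke (by decide) lge (cs_cons ce_26 (cs_cons ce_27 cs_nil)) ke_28
theorem ce_29 : CutGood Pe Se G1_48 (fv1 G1_48) 0 0x80000001800000038000000280000001 0x7ffffff97fffffff8000000280000003 :=
  chk1_sound oke (by decide) lge cs_nil ke_29
theorem ce_30 : CutGood Pe Se G1_48 (fv1 G1_48) 0 0x80000001800000018000000380000002 0x7ffffffb800000087ffffffd80000007 :=
  chk1_sound oke (by decide) lge cs_nil ke_30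
theorem ce_31 : CutGood Pe Se G1_48 (fv1 G1_48) 0 0x80000001800000018000000380000002 0x7ffffffe800000038000000280000002 :=
  chk1_sound oke (by decide) lge (cs_cons ce_30 cs_nil) ke_31
theorem ce_32 : CutGood Pe Se G1_48 (fv1 G1_48) 0 0x7fffffff800000038000000180000002 0x7ffffffd7fffffff8000000780000002 :=
  chk1_sound oke (by decide) lge cs_nil ke_32
theorem ce_33 : CutGood Pe Se G1_48 (fv1 G1_48) 0 0x7ffffffc800000068000000780000002 0x7ffffffd7fffffff8000000780000002 :=
  chk1_sound oke (by decide) lge cs_nil ke_33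
theorem ce_34 : CutGood Pe Se G1_48 (fv1 G1_48) 0 0x7fffffff800000018000000280000003 0x7ffffff97fffffff8000000280000003 :=
  chk1_sound oke (by decide) lge cs_nil ke_34
theorem ce_35 : CutGood Pe Se G1_48 (fv1 G1_48) 0 0x80000001800000028000000180000003 0x7ffffffb800000087ffffffd80000007 :=
  chk1_sound oke (by decide) lge cs_nil ke_35
theorem ce_36 : CutGood Pe Se G1_48 (fv1 G1_48) 0 0x80000001800000028000000180000003 0x7ffffffe800000038000000280000002 :=
  chk1_sound oke (by decide) lge (cs_cons ce_35 cs_nil) ke_36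
theorem ce_37 : CutGood Pe Se G1_48 (fv1 G1_48) 0 0x80000000800000018000000180000001 0x7ffffffe800000038000000280000002 :=
  chk1_sound oke (by decide) lge (cs_cons ce_25 (cs_cons ce_28 (cs_cons ce_29 (cs_cons ce_31 (cs_cons ce_32 (cs_cons ce_33 (cs_cons ce_34 (cs_cons ce_36 cs_nil)))))))) ke_37
theorem ce_38 : CutGood Pe Se G1_48 (fv1 G1_48) 0 0x8000000080000002800000057ffffffc 0x800000007ffffffe8000000680000003 :=
  chk1_sound oke (by decide) lge cs_nil ke_38
theorem ce_39 : CutGood Pe Se G1_48 (fv1 G1_48) 0 0x7ffffffb7fffffee800000147ffffff2 0x800000017fffffff8000000180000002 :=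
  chk1_sound oke (by decide) lge cs_nil ke_39
theorem ce_40 : CutGood Pe Se G1_48 (fv1 G1_48) 0 0x800000067ffffffb800000077ffffffb 0x800000017fffffff8000000180000002 :=
  chk1_sound oke (by decide) lge (cs_cons ce_39 cs_nil) ke_40
theorem ce_41 : CutGood Pe Se G1_48 (fv1 G1_48) 0 0x7fffffff7ffffff6800000037ffffffb 0x800000017fffffff8000000180000002 :=
  chk1_sound oke (by decide) lge cs_nil ke_41
theorem ce_42 : CutGood Pe Se G1_48 (fv1 G1_48) 0 0x7ffffff57ffffffe800000037fffffff 0x800000017fffffff8000000180000002 :=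
  chk1_sound oke (by decide) lge cs_nil ke_42
theorem ce_43 : CutGood Pe Se G1_48 (fv1 G1_48) 0 0x7ffffffb800000027ffffffb7ffffff7 0x800000017fffffff8000000180000002 :=
  chk1_sound oke (by decide) lge cs_nil ke_43
theorem ce_44 : CutGood Pe Se G1_48 (fv1 G1_48) 0 0x7fffffff800000028000000380000001 0x800000017fffffff8000000180000002 :=
  chk1_sound oke (by decide) lge (cs_cons ce_38 (cs_cons ce_40 (cs_cons ce_41 (cs_cons ce_42 (cs_cons ce_43 cs_nil))))) ke_44
theorem ce_45 : CutGood Pe Se G1_48 (fv1 G1_48) 0 0x7fffffe8800000087ffffff97ffffff0 0x800000017fffffff8000000180000002 :=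
  chk1_sound oke (by decide) lge cs_nil ke_45
theorem ce_46 : CutGood Pe Se G1_48 (fv1 G1_48) 0 0x7ffffff9800000097ffffffe7fffffff 0x800000017fffffff8000000180000002 :=
  chk1_sound oke (by decide) lge (cs_cons ce_45 cs_nil) ke_46
theorem ce_47 : CutGood Pe Se G1_48 (fv1 G1_48) 0 0x800000037fffffff800000057ffffff6 0x800000007ffffffe8000000680000003 :=
  chk1_sound oke (by decide) lge cs_nil ke_47
theorem ce_48 : CutGood Pe Se G1_48 (fv1 G1_48) 0 0x800000037fffffff800000057ffffff6 0x800000017fffffff8000000180000002 :=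
  chk1_sound oke (by decide) lge (cs_cons ce_47 cs_nil) ke_48
theorem ce_49 : CutGood Pe Se G1_48 (fv1 G1_48) 0 0x7ffffffb7ffffffb800000067ffffff9 0x800000017fffffff8000000180000002 :=
  chk1_sound oke (by decide) lge cs_nil ke_49
theorem ce_50 : CutGood Pe Se G1_48 (fv1 G1_48) 0 0x7ffffffb7ffffffb8000000980000002 0x800000097fffffff7ffffff180000006 :=
  chk1_sound oke (by decide) lge cs_nil ke_50
theorem ce_51 : CutGood Pe Se G1_48 (fv1 G1_48) 0 0x7fffffee7ffffff2800000137ffffff8 0x800000017fffffff8000000180000002 :=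
  chk1_sound oke (by decide) lge cs_nil ke_51
theorem ce_52 : CutGood Pe Se G1_48 (fv1 G1_48) 0 0x7ffffff57ffffffd8000000280000001 0x800000017fffffff8000000180000002 :=
  chk1_sound oke (by decide) lge (cs_cons ce_51 cs_nil) ke_52
theorem ce_53 : CutGood Pe Se G1_48 (fv1 G1_48) 0 0x80000001800000038000000280000001 0x800000017fffffff8000000180000002 :=
  chk1_sound oke (by decide) lge (cs_cons ce_46 (cs_cons ce_48 (cs_cons ce_49 (cs_cons ce_50 (cs_cons ce_52 cs_nil))))) ke_53
theorem ce_54 : CutGood Pe Se G1_48 (fv1 G1_48) 0 0x800000017ffffffb800000037ffffff6 0x800000167ffffffb8000000680000016 :=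
  chk1_sound oke (by decide) lge cs_nil ke_54
theorem ce_55 : CutGood Pe Se G1_48 (fv1 G1_48) 0 0x800000027fffffff800000067ffffffe 0x8000000b800000048000000180000003 :=
  chk1_sound oke (by decide) lge (cs_cons ce_54 cs_nil) ke_55
theorem ce_56 : CutGood Pe Se G1_48 (fv1 G1_48) 0 0x80000001800000018000000380000002 0x800000047fffffff8000000280000000 :=
  chk1_sound oke (by decide) lge (cs_cons ce_55 cs_nil) ke_56
theorem ce_57 : CutGood Pe Se G1_48 (fv1 G1_48) 0 0x7ffffffb80000009800000057ffffffe 0x800000017ffffffe8000000480000000 :=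
  chk1_sound oke (by decide) lge cs_nil ke_57
theorem ce_58 : CutGood Pe Se G1_48 (fv1 G1_48) 0 0x7ffffffb7ffffff88000000f7fffffff 0x800000017ffffffe8000000480000000 :=
  chk1_sound oke (by decide) lge cs_nil ke_58
theorem ce_59 : CutGood Pe Se G1_48 (fv1 G1_48) 0 0x800000027fffffff800000067ffffffe 0x800000017ffffffe8000000480000000 :=
  chk1_sound oke (by decide) lge (cs_cons ce_58 cs_nil) ke_59
theorem ce_60 : CutGood Pe Se G1_48 (fv1 G1_48) 0 0x7ffffff97fffffff800000097ffffffe 0x800000017ffffffe8000000480000000 :=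
  chk1_sound oke (by decide) lge cs_nil ke_60
theorem ce_61 : CutGood Pe Se G1_48 (fv1 G1_48) 0 0x7ffffffd7fffffff800000057ffffff6 0x800000007ffffffe8000000680000003 :=
  chk1_sound oke (by decide) lge cs_nil ke_61
theorem ce_62 : CutGood Pe Se G1_48 (fv1 G1_48) 0 0x7ffffffd80000004800000047ffffffe 0x800000017fffffff8000000180000002 :=
  chk1_sound oke (by decide) lge (cs_cons ce_61 cs_nil) ke_62
theorem ce_63 : CutGood Pe Se G1_48 (fv1 G1_48) 0 0x8000000d7ffffff28000000680000002 0x800000017fffffff8000000180000002 :=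
  chk1_sound oke (by decide) lge cs_nil ke_63
theorem ce_64 : CutGood Pe Se G1_48 (fv1 G1_48) 0 0x7fffffff7ffffffe8000001480000000 0x800000017fffffff8000000180000002 :=
  chk1_sound oke (by decide) lge cs_nil ke_64
theorem ce_65 : CutGood Pe Se G1_48 (fv1 G1_48) 0 0x7ffffff97ffffff78000000180000002 0x800000017fffffff8000000180000002 :=
  chk1_sound oke (by decide) lge cs_nil ke_65
theorem ce_66 : CutGood Pe Se G1_48 (fv1 G1_48) 0 0x80000000800000018000000180000001 0x800000017fffffff8000000180000002 :=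
  chk1_sound oke (by decide) lge (cs_cons ce_44 (cs_cons ce_53 (cs_cons ce_56 (cs_cons ce_57 (cs_cons ce_59 (cs_cons ce_60 (cs_cons ce_62 (cs_cons ce_63 (cs_cons ce_64 (cs_cons ce_65 cs_nil)))))))))) ke_66
theorem ce_67 : CutGood Pe Se G1_48 (fv1 G1_48) 0 0x7ffffffc80000004800000027ffffffd 0x80000001800000008000000480000002 :=
  chk1_sound oke (by decide) lge cs_nil ke_67
theorem ce_68 : CutGood Pe Se G1_48 (fv1 G1_48) 0 0x80000001800000038000000280000001 0x7fffffff80000005800000067fffffff :=
  chk1_sound oke (by decide) lge cs_nil ke_68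
theorem ce_69 : CutGood Pe Se G1_48 (fv1 G1_48) 0 0x80000001800000038000000280000001 0x7ffffffd7fffffff800000077ffffffe :=
  chk1_sound oke (by decide) lge cs_nil ke_69
theorem ce_70 : CutGood Pe Se G1_48 (fv1 G1_48) 0 0x80000001800000018000000380000002 0x7ffffffd7fffffff800000077ffffffe :=
  chk1_sound oke (by decide) lge cs_nil ke_70
theorem ce_71 : CutGood Pe Se G1_48 (fv1 G1_48) 0 0x7ffffff57ffffffe800000037fffffff 0x800000147ffffffc7ffffffb80000000 :=
  chk1_sound oke (by decide) lge cs_nil ke_71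
theorem ce_72 : CutGood Pe Se G1_48 (fv1 G1_48) 0 0x7fffffff800000028000000380000001 0x800000147ffffffc7ffffffb80000000 :=
  chk1_sound oke (by decide) lge (cs_cons ce_71 cs_nil) ke_72
theorem ce_73 : CutGood Pe Se G1_48 (fv1 G1_48) 0 0x7fffffff800000028000000380000001 0x80000007800000018000000280000003 :=
  chk1_sound oke (by decide) lge (cs_cons ce_72 cs_nil) ke_73
theorem ce_74 : CutGood Pe Se G1_48 (fv1 G1_48) 0 0x7fffffff800000028000000380000001 0x80000003800000018000000780000002 :=
  chk1_sound oke (by decide) lge cs_nil ke_74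
theorem ce_75 : CutGood Pe Se G1_48 (fv1 G1_48) 0 0x80000001800000018000000380000002 0x80000007800000018000000280000003 :=
  chk1_sound oke (by decide) lge cs_nil ke_75
theorem ce_76 : CutGood Pe Se G1_48 (fv1 G1_48) 0 0x7ffffff97fffffff800000097ffffffe 0x8000000c80000008800000088000000d :=
  chk1_sound oke (by decide) lge cs_nil ke_76
theorem ce_77 : CutGood Pe Se G1_48 (fv1 G1_48) 0 0x80000001800000018000000380000002 0x8000000c80000008800000088000000d :=
  chk1_sound oke (by decide) lge (cs_cons ce_76 cs_nil) ke_77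
theorem ce_78 : CutGood Pe Se G1_48 (fv1 G1_48) 0 0x7fffffff800000038000000180000002 0x80000007800000018000000280000003 :=
  chk1_sound oke (by decide) lge cs_nil ke_78
theorem ce_79 : CutGood Pe Se G1_48 (fv1 G1_48) 0 0x7fffffff800000038000000180000002 0x80000003800000018000000780000002 :=
  chk1_sound oke (by decide) lge cs_nil ke_79
theorem ce_80 : CutGood Pe Se G1_48 (fv1 G1_48) 0 0x7fffffff800000018000000280000003 0x800000027ffffffd8000000280000002 :=
  chk1_sound oke (by decide) lge cs_nil ke_80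
theorem ce_81 : CutGood Pe Se G1_48 (fv1 G1_48) 0 0x80000001800000028000000180000003 0x800000007ffffffc800000147ffffffb :=
  chk1_sound oke (by decide) lge cs_nil ke_81
theorem ce_82 : CutGood Pe Se G1_48 (fv1 G1_48) 0 0x80000001800000028000000180000003 0x80000003800000018000000780000002 :=
  chk1_sound oke (by decide) lge (cs_cons ce_81 cs_nil) ke_82
theorem ce_83 : CutGood Pe Se G1_48 (fv1 G1_48) 0 0x80000000800000018000000180000001 0x800000027ffffffd8000000280000002 :=
  chk1_sound oke (by decide) lge (cs_cons ce_73 (cs_cons ce_74 (cs_cons ce_75 (cs_cons ce_77 (cs_cons ce_78 (cs_cons ce_79 (cs_cons ce_80 (cs_cons ce_82 cs_nil)))))))) ke_83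
theorem ce_84 : CutGood Pe Se G1_48 (fv1 G1_48) 0 0x80000001800000038000000280000001 0x80000008800000038000000a80000004 :=
  chk1_sound oke (by decide) lge cs_nil ke_84
theorem ce_85 : CutGood Pe Se G1_48 (fv1 G1_48) 0 0x80000001800000018000000380000002 0x8000001080000000800000088000000b :=
  chk1_sound oke (by decide) lge cs_nil ke_85
theorem ce_86 : CutGood Pe Se G1_48 (fv1 G1_48) 0 0x80000001800000018000000380000002 0x800000017ffffffb800000017ffffffa :=
  chk1_sound oke (by decide) lge cs_nil ke_86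
theorem ce_87 : CutGood Pe Se G1_48 (fv1 G1_48) 0 0x7fffffff800000038000000180000002 0x800000047ffffff58000000180000003 :=
  chk1_sound oke (by decide) lge cs_nil ke_87
theorem ce_88 : CutGood Pe Se G1_48 (fv1 G1_48) 0 0x80000001800000028000000180000003 0x7ffffffc7ffffff07ffffff380000000 :=
  chk1_sound oke (by decide) lge cs_nil ke_88
theorem ce_89 : CutGood Pe Se G1_48 (fv1 G1_48) 0 0x80000001800000028000000180000003 0x800000027fffffee800000077ffffff8 :=
  chk1_sound oke (by decide) lge cs_nil ke_89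
theorem ce_90 : CutGood Pe Se G1_48 (fv1 G1_48) 0 0x80000001800000028000000180000003 0x7fffffff7ffffffc8000000280000000 :=
  chk1_sound oke (by decide) lge (cs_cons ce_88 (cs_cons ce_89 cs_nil)) ke_90
theorem ce_91 : CutGood Pe Se G1_48 (fv1 G1_48) 0 0x80000000800000018000000180000001 0x7fffffff7ffffffc8000000280000000 :=
  chk1_sound oke (by decide) lge (cs_cons ce_84 (cs_cons ce_85 (cs_cons ce_86 (cs_cons ce_87 (cs_cons ce_90 cs_nil))))) ke_91
theorem ce_92 : CutGood Pe Se G1_48 (fv1 G1_48) 0 0x8000000280000003800000047ffffffc 0x7fffffff800000048000000080000002 :=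
  chk1_sound oke (by decide) lge cs_nil ke_92
theorem ce_93 : CutGood Pe Se G1_48 (fv1 G1_48) 0 0x8000000f80000004800000077ffffffb 0x80000001800000007ffffffb8000000b :=
  chk1_sound oke (by decide) lge cs_nil ke_93
theorem ce_94 : CutGood Pe Se G1_48 (fv1 G1_48) 0 0x8000000280000003800000047ffffffc 0x7ffffffe800000018000000080000004 :=
  chk1_sound oke (by decide) lge (cs_cons ce_93 cs_nil) ke_94
theorem ce_95 : CutGood Pe Se G1_48 (fv1 G1_48) 0 0x7fffffff80000002800000067ffffffe 0x80000002800000068000000080000003 :=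
  chk1_sound oke (by decide) lge cs_nil ke_95
theorem ce_96 : CutGood Pe Se G1_48 (fv1 G1_48) 0 0x7fffffff80000002800000067ffffffe 0x80000001800000017fffffff80000002 :=
  chk1_sound oke (by decide) lge (cs_cons ce_95 cs_nil) ke_96
theorem ce_97 : CutGood Pe Se G1_48 (fv1 G1_48) 0 0x7ffffffe800000058000000480000000 0x80000004800000078000000180000009 :=
  chk1_sound oke (by decide) lge cs_nil ke_97
theorem ce_98 : CutGood Pe Se G1_48 (fv1 G1_48) 0 0x7ffffffe800000058000000480000000 0x7ffffff48000000e7ffffff680000001 :=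
  chk1_sound oke (by decide) lge cs_nil ke_98
theorem ce_99 : CutGood Pe Se G1_48 (fv1 G1_48) 0 0x7ffffffe800000058000000480000000 0x800000048000000e8000000f80000002 :=
  chk1_sound oke (by decide) lge cs_nil ke_99
theorem ce_100 : CutGood Pe Se G1_48 (fv1 G1_48) 0 0x7ffffffe800000058000000480000000 0x80000002800000038000000280000002 :=
  chk1_sound oke (by decide) lge (cs_cons ce_98 (cs_cons ce_99 cs_nil)) ke_100
theorem ce_101 : CutGood Pe Se G1_48 (fv1 G1_48) 0 0x80000002800000048000000580000000 0x7ffffffb80000005800000037ffffffe :=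
  chk1_sound oke (by decide) lge cs_nil ke_101
theorem ce_102 : CutGood Pe Se G1_48 (fv1 G1_48) 0 0x7fffffef800000108000000c7ffffff0 0x80000002800000038000000280000002 :=
  chk1_sound oke (by decide) lge cs_nil ke_102
theorem ce_103 : CutGood Pe Se G1_48 (fv1 G1_48) 0 0x80000002800000048000000580000000 0x80000002800000038000000280000002 :=
  chk1_sound oke (by decide) lge (cs_cons ce_102 cs_nil) ke_103
theorem ce_104 : CutGood Pe Se G1_48 (fv1 G1_48) 0 0x7fffffef800000108000000c7ffffff0 0x7ffffffe800000018000000080000004 :=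
  chk1_sound oke (by decide) lge cs_nil ke_104
theorem ce_105 : CutGood Pe Se G1_48 (fv1 G1_48) 0 0x8000000d800000018000000c7fffffff 0x7ffffffe800000018000000080000004 :=
  chk1_sound oke (by decide) lge cs_nil ke_105
theorem ce_106 : CutGood Pe Se G1_48 (fv1 G1_48) 0 0x7ffffff27ffffffd8000001a7ffffff8 0x7ffffffe800000018000000080000004 :=
  chk1_sound oke (by decide) lge cs_nil ke_106
theorem ce_107 : CutGood Pe Se G1_48 (fv1 G1_48) 0 0x80000002800000048000000580000000 0x7ffffffe800000018000000080000004 :=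
  chk1_sound oke (by decide) lge (cs_cons ce_104 (cs_cons ce_105 (cs_cons ce_106 cs_nil))) ke_107
theorem ce_108 : CutGood Pe Se G1_48 (fv1 G1_48) 0 0x7fffffef800000067ffffffc7ffffff8 0x80000004800000047ffffffc80000001 :=
  chk1_sound oke (by decide) lge cs_nil ke_108
theorem ce_109 : CutGood Pe Se G1_48 (fv1 G1_48) 0 0x7ffffffe800000018000000680000002 0x80000001800000017fffffff80000002 :=
  chk1_sound oke (by decide) lge (cs_cons ce_108 cs_nil) ke_109
theorem ce_110 : CutGood Pe Se G1_48 (fv1 G1_48) 0 0x7fffffe6800000027ffffff57ffffff4 0x7ffffffe800000018000000080000004 :=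
  chk1_sound oke (by decide) lge cs_nil ke_110
theorem ce_111 : CutGood Pe Se G1_48 (fv1 G1_48) 0 0x7ffffffb800000028000000480000000 0x7ffffffe800000018000000080000004 :=
  chk1_sound oke (by decide) lge (cs_cons ce_110 cs_nil) ke_111
theorem ce_112 : CutGood Pe Se G1_48 (fv1 G1_48) 0 0x7ffffffc800000028000000380000004 0x80000002800000038000000280000002 :=
  chk1_sound oke (by decide) lge cs_nil ke_112
theorem ce_113 : CutGood Pe Se G1_48 (fv1 G1_48) 0 0x7ffffffe800000008000000280000001 0x80000001800000017fffffff80000002 :=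
  chk1_sound oke (by decide) lge (cs_cons ce_109 (cs_cons ce_111 (cs_cons ce_112 cs_nil))) ke_113
theorem ce_114 : CutGood Pe Se G1_48 (fv1 G1_48) 0 0x7ffffffe7ffffff5800000067fffffe4 0x7fffffff800000017fffffff80000002 :=
  chk1_sound oke (by decide) lge cs_nil ke_114
theorem ce_115 : CutGood Pe Se G1_48 (fv1 G1_48) 0 0x7ffffff080000007800000087fffffe8 0x7fffffff800000017fffffff80000002 :=
  chk1_sound oke (by decide) lge cs_nil ke_115
theorem ce_116 : CutGood Pe Se G1_48 (fv1 G1_48) 0 0x800000277fffffe7800000087fffffe7 0x7fffffff800000017fffffff80000002 :=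
  chk1_sound oke (by decide) lge cs_nil ke_116
theorem ce_117 : CutGood Pe Se G1_48 (fv1 G1_48) 0 0x800000027ffffff3800000187ffffff2 0x7fffffff800000017fffffff80000002 :=
  chk1_sound oke (by decide) lge (cs_cons ce_116 cs_nil) ke_117
theorem ce_118 : CutGood Pe Se G1_48 (fv1 G1_48) 0 0x800000137fffffea7fffffef80000009 0x7ffffffe800000048000000280000005 :=
  chk1_sound oke (by decide) lge cs_nil ke_118
theorem ce_119 : CutGood Pe Se G1_48 (fv1 G1_48) 0 0x7ffffff6800000037ffffffb7fffffff 0x7ffffffe800000048000000280000005 :=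
  chk1_sound oke (by decide) lge cs_nil ke_119
theorem ce_120 : CutGood Pe Se G1_48 (fv1 G1_48) 0 0x7ffffffc80000004800000027ffffffd 0x7ffffffe800000048000000280000005 :=
  chk1_sound oke (by decide) lge (cs_cons ce_118 (cs_cons ce_119 cs_nil)) ke_120
theorem ce_121 : CutGood Pe Se G1_48 (fv1 G1_48) 0 0x800000027ffffff87ffffff07ffffff7 0x7ffffff9800000048000000180000009 :=
  chk1_sound oke (by decide) lge cs_nil ke_121
theorem ce_122 : CutGood Pe Se G1_48 (fv1 G1_48) 0 0x7ffffffc80000004800000027ffffffd 0x7ffffff9800000048000000180000009 :=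
  chk1_sound oke (by decide) lge (cs_cons ce_121 cs_nil) ke_122
theorem ce_123 : CutGood Pe Se G1_48 (fv1 G1_48) 0 0x7ffffffc80000004800000027ffffffd 0x7ffffff77ffffffc7ffffff980000001 :=
  chk1_sound oke (by decide) lge cs_nil ke_123
theorem ce_124 : CutGood Pe Se G1_48 (fv1 G1_48) 0 0x7ffffffc80000004800000027ffffffd 0x7ffffffc800000097fffffff80000007 :=
  chk1_sound oke (by decide) lge cs_nil ke_124
theorem ce_125 : CutGood Pe Se G1_48 (fv1 G1_48) 0 0x7ffffffc80000004800000027ffffffd 0x7fffffff800000017fffffff80000002 :=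
  chk1_sound oke (by decide) lge (cs_cons ce_120 (cs_cons ce_122 (cs_cons ce_123 (cs_cons ce_124 cs_nil)))) ke_125
theorem ce_126 : CutGood Pe Se G1_48 (fv1 G1_48) 0 0x7fffffff800000077ffffff97ffffffa 0x7ffffffe800000048000000280000005 :=
  chk1_sound oke (by decide) lge cs_nil ke_126
theorem ce_127 : CutGood Pe Se G1_48 (fv1 G1_48) 0 0x7fffffff800000077ffffff97ffffffa 0x7fffffff800000017fffffff80000002 :=
  chk1_sound oke (by decide) lge (cs_cons ce_126 cs_nil) ke_127
theorem ce_128 : CutGood Pe Se G1_48 (fv1 G1_48) 0 0x7fffffe68000000c8000000b7ffffffe 0x7fffffff800000017fffffff80000002 :=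
  chk1_sound oke (by decide) lge cs_nil ke_128
theorem ce_129 : CutGood Pe Se G1_48 (fv1 G1_48) 0 0x7ffffffe800000187fffffed7ffffffe 0x7fffffff800000017fffffff80000002 :=
  chk1_sound oke (by decide) lge cs_nil ke_129
theorem ce_130 : CutGood Pe Se G1_48 (fv1 G1_48) 0 0x7ffffff9800000097ffffffe7fffffff 0x7fffffff800000017fffffff80000002 :=
  chk1_sound oke (by decide) lge (cs_cons ce_128 (cs_cons ce_129 cs_nil)) ke_130
theorem ce_131 : CutGood Pe Se G1_48 (fv1 G1_48) 0 0x7fffffff80000002800000067ffffffe 0x7ffffffe800000048000000280000005 :=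
  chk1_sound oke (by decide) lge cs_nil ke_131
theorem ce_132 : CutGood Pe Se G1_48 (fv1 G1_48) 0 0x7fffffff80000002800000067ffffffe 0x7ffffffc800000047ffffffc80000001 :=
  chk1_sound oke (by decide) lge cs_nil ke_132
theorem ce_133 : CutGood Pe Se G1_48 (fv1 G1_48) 0 0x8000000380000004800000047ffffffe 0x7fffffff800000008000000b80000005 :=
  chk1_sound oke (by decide) lge cs_nil ke_133
theorem ce_134 : CutGood Pe Se G1_48 (fv1 G1_48) 0 0x8000000380000004800000047ffffffe 0x7ffffff5800000048000000380000001 :=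
  chk1_sound oke (by decide) lge cs_nil ke_134
theorem ce_135 : CutGood Pe Se G1_48 (fv1 G1_48) 0 0x8000000380000004800000047ffffffe 0x7fffffff800000017fffffff80000002 :=
  chk1_sound oke (by decide) lge (cs_cons ce_133 (cs_cons ce_134 cs_nil)) ke_135
theorem ce_136 : CutGood Pe Se G1_48 (fv1 G1_48) 0 0x7fffffea800000108000000e7ffffffd 0x7fffffff800000017fffffff80000002 :=
  chk1_sound oke (by decide) lge cs_nil ke_136
theorem ce_137 : CutGood Pe Se G1_48 (fv1 G1_48) 0 0x7ffffff97fffffff800000097ffffffe 0x7fffffff800000017fffffff80000002 :=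
  chk1_sound oke (by decide) lge (cs_cons ce_136 cs_nil) ke_137
theorem ce_138 : CutGood Pe Se G1_48 (fv1 G1_48) 0 0x7fffffea7ffffffa8000001380000008 0x7fffffff800000017fffffff80000002 :=
  chk1_sound oke (by decide) lge cs_nil ke_138
theorem ce_139 : CutGood Pe Se G1_48 (fv1 G1_48) 0 0x7fffffe87ffffffe8000000d7ffffff2 0x7fffffff800000017fffffff80000002 :=
  chk1_sound oke (by decide) lge cs_nil ke_139
theorem ce_140 : CutGood Pe Se G1_48 (fv1 G1_48) 0 0x7ffffff5800000038000000280000001 0x7fffffff800000017fffffff80000002 :=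
  chk1_sound oke (by decide) lge (cs_cons ce_138 (cs_cons ce_139 cs_nil)) ke_140
theorem ce_141 : CutGood Pe Se G1_48 (fv1 G1_48) 0 0x7ffffffc8000000d8000000b7ffffffd 0x7fffffff800000017fffffff80000002 :=
  chk1_sound oke (by decide) lge cs_nil ke_141
theorem ce_142 : CutGood Pe Se G1_48 (fv1 G1_48) 0 0x7ffffff480000005800000058000000b 0x7fffffff800000017fffffff80000002 :=
  chk1_sound oke (by decide) lge cs_nil ke_142
theorem ce_143 : CutGood Pe Se G1_48 (fv1 G1_48) 0 0x8000002c7fffffe87fffffbc7fffffdb 0x7ffffff6800000068000001180000004 :=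
  chk1_sound oke (by decide) lge cs_nil ke_143
theorem ce_144 : CutGood Pe Se G1_48 (fv1 G1_48) 0 0x7ffffff48000000d8000000180000001 0x7fffffff800000017fffffff80000002 :=
  chk1_sound oke (by decide) lge (cs_cons ce_143 cs_nil) ke_144
theorem ce_145 : CutGood Pe Se G1_48 (fv1 G1_48) 0 0x800000037ffffffb8000000a80000001 0x80000002800000027ffffffc80000005 :=
  chk1_sound oke (by decide) lge cs_nil ke_145
theorem ce_146 : CutGood Pe Se G1_48 (fv1 G1_48) 0 0x800000037ffffffb8000000a80000001 0x7fffffff800000017fffffff80000002 :=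
  chk1_sound oke (by decide) lge (cs_cons ce_145 cs_nil) ke_146
theorem ce_147 : CutGood Pe Se G1_48 (fv1 G1_48) 0 0x800000017ffffff58000000380000002 0x7fffffff800000017fffffff80000002 :=
  chk1_sound oke (by decide) lge cs_nil ke_147
theorem ce_148 : CutGood Pe Se G1_48 (fv1 G1_48) 0 0x80000000800000018000000180000001 0x7fffffff800000017fffffff80000002 :=
  chk1_sound oke (by decide) lge (cs_cons ce_114 (cs_cons ce_115 (cs_cons ce_117 (cs_cons ce_125 (cs_cons ce_127 (cs_cons ce_130 (cs_cons ce_131 (cs_cons ce_132 (cs_cons ce_135 (cs_cons ce_137 (cs_cons ce_140 (cs_cons ce_141 (cs_cons ce_142 (cs_cons ce_144 (cs_cons ce_146 (cs_cons ce_147 cs_nil)))))))))))))))) ke_148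
theorem ce_149 : CutGood Pe Se G1_48 (fv1 G1_48) 0 0x8000000080000002800000057ffffffc 0x80000001800000028000000080000004 :=
  chk1_sound oke (by decide) lge cs_nil ke_149
theorem ce_150 : CutGood Pe Se G1_48 (fv1 G1_48) 0 0x800000057ffffffa8000000a7fffffe4 0x80000001800000028000000080000004 :=
  chk1_sound oke (by decide) lge cs_nil ke_150
theorem ce_151 : CutGood Pe Se G1_48 (fv1 G1_48) 0 0x800000067ffffffb800000077ffffffb 0x800000017fffffff7fffffff80000002 :=
  chk1_sound oke (by decide) lge (cs_cons ce_150 cs_nil) ke_151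
theorem ce_152 : CutGood Pe Se G1_48 (fv1 G1_48) 0 0x7fffffff800000028000000380000001 0x800000017fffffff7fffffff80000002 :=
  chk1_sound oke (by decide) lge (cs_cons ce_149 (cs_cons ce_151 cs_nil)) ke_152
theorem ce_153 : CutGood Pe Se G1_48 (fv1 G1_48) 0 0x80000001800000038000000280000001 0x800000057ffffffd8000000580000002 :=
  chk1_sound oke (by decide) lge cs_nil ke_153
theorem ce_154 : CutGood Pe Se G1_48 (fv1 G1_48) 0 0x80000001800000038000000280000001 0x7ffffffd800000018000000780000002 :=
  chk1_sound oke (by decide) lge cs_nil ke_154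
theorem ce_155 : CutGood Pe Se G1_48 (fv1 G1_48) 0 0x80000001800000038000000280000001 0x800000017fffffff7fffffff80000002 :=
  chk1_sound oke (by decide) lge (cs_cons ce_153 (cs_cons ce_154 cs_nil)) ke_155
theorem ce_156 : CutGood Pe Se G1_48 (fv1 G1_48) 0 0x7ffffffe800000058000000480000000 0x80000004800000098000000580000005 :=
  chk1_sound oke (by decide) lge cs_nil ke_156
theorem ce_157 : CutGood Pe Se G1_48 (fv1 G1_48) 0 0x80000001800000018000000380000002 0x8000000880000010800000008000000b :=
  chk1_sound oke (by decide) lge cs_nil ke_157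
theorem ce_158 : CutGood Pe Se G1_48 (fv1 G1_48) 0 0x80000001800000018000000380000002 0x800000007fffffff7ffffffb8000000b :=
  chk1_sound oke (by decide) lge cs_nil ke_158
theorem ce_159 : CutGood Pe Se G1_48 (fv1 G1_48) 0 0x80000001800000018000000380000002 0x80000001800000028000000080000004 :=
  chk1_sound oke (by decide) lge (cs_cons ce_156 (cs_cons ce_157 (cs_cons ce_158 cs_nil))) ke_159
theorem ce_160 : CutGood Pe Se G1_48 (fv1 G1_48) 0 0x80000001800000018000000380000002 0x800000047fffffee8000000a80000001 :=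
  chk1_sound oke (by decide) lge cs_nil ke_160
theorem ce_161 : CutGood Pe Se G1_48 (fv1 G1_48) 0 0x80000001800000018000000380000002 0x800000057ffffffd8000000580000002 :=
  chk1_sound oke (by decide) lge (cs_cons ce_160 cs_nil) ke_161
theorem ce_162 : CutGood Pe Se G1_48 (fv1 G1_48) 0 0x80000001800000018000000380000002 0x7ffffff67ffffffc8000000a8000000f :=
  chk1_sound oke (by decide) lge cs_nil ke_162
theorem ce_163 : CutGood Pe Se G1_48 (fv1 G1_48) 0 0x7fffffff800000038000000180000002 0x80000008800000077ffffffd80000005 :=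
  chk1_sound oke (by decide) lge cs_nil ke_163
theorem ce_164 : CutGood Pe Se G1_48 (fv1 G1_48) 0 0x7fffffff800000038000000180000002 0x800000087fffffff7fffffff80000009 :=
  chk1_sound oke (by decide) lge cs_nil ke_164
theorem ce_165 : CutGood Pe Se G1_48 (fv1 G1_48) 0 0x7fffffff800000038000000180000002 0x800000057ffffffd8000000580000002 :=
  chk1_sound oke (by decide) lge cs_nil ke_165
theorem ce_166 : CutGood Pe Se G1_48 (fv1 G1_48) 0 0x7fffffff800000038000000180000002 0x800000047fffffff8000000b80000003 :=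
  chk1_sound oke (by decide) lge cs_nil ke_166
theorem ce_167 : CutGood Pe Se G1_48 (fv1 G1_48) 0 0x7fffffff800000038000000180000002 0x800000017fffffff7fffffff80000002 :=
  chk1_sound oke (by decide) lge (cs_cons ce_163 (cs_cons ce_164 (cs_cons ce_165 (cs_cons ce_166 cs_nil)))) ke_167
theorem ce_168 : CutGood Pe Se G1_48 (fv1 G1_48) 0 0x7fffffff800000018000000280000003 0x800000007fffffff8000000280000004 :=
  chk1_sound oke (by decide) lge cs_nil ke_168
theorem ce_169 : CutGood Pe Se G1_48 (fv1 G1_48) 0 0x7fffffff800000018000000280000003 0x800000037ffffffe8000000280000002 :=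
  chk1_sound oke (by decide) lge cs_nil ke_169
theorem ce_170 : CutGood Pe Se G1_48 (fv1 G1_48) 0 0x80000001800000028000000180000003 0x80000001800000028000000080000004 :=
  chk1_sound oke (by decide) lge cs_nil ke_170
theorem ce_171 : CutGood Pe Se G1_48 (fv1 G1_48) 0 0x80000001800000028000000180000003 0x800000007fffffff8000000280000004 :=
  chk1_sound oke (by decide) lge cs_nil ke_171
theorem ce_172 : CutGood Pe Se G1_48 (fv1 G1_48) 0 0x80000001800000028000000180000003 0x800000047fffffff8000000b80000003 :=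
  chk1_sound oke (by decide) lge cs_nil ke_172
theorem ce_173 : CutGood Pe Se G1_48 (fv1 G1_48) 0 0x80000000800000018000000180000001 0x800000017fffffff7fffffff80000002 :=
  chk1_sound oke (by decide) lge (cs_cons ce_152 (cs_cons ce_155 (cs_cons ce_159 (cs_cons ce_161 (cs_cons ce_162 (cs_cons ce_167 (cs_cons ce_168 (cs_cons ce_169 (cs_cons ce_170 (cs_cons ce_171 (cs_cons ce_172 cs_nil))))))))))) ke_173
theorem ce_174 : CutGood Pe Se G1_48 (fv1 G1_48) 0 0x8000000080000002800000057ffffffc 0x800000027ffffffc7ffffffe80000005 :=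
  chk1_sound oke (by decide) lge cs_nil ke_174
theorem ce_175 : CutGood Pe Se G1_48 (fv1 G1_48) 0 0x7ffffff980000006800000017ffffff9 0x7ffffffe800000027ffffffc80000005 :=
  chk1_sound oke (by decide) lge cs_nil ke_175
theorem ce_176 : CutGood Pe Se G1_48 (fv1 G1_48) 0 0x8000000080000002800000057ffffffc 0x7ffffffa800000007ffffffe80000003 :=
  chk1_sound oke (by decide) lge cs_nil ke_176
theorem ce_177 : CutGood Pe Se G1_48 (fv1 G1_48) 0 0x800000037ffffff38000000b7ffffffc 0x7fffffff7fffffff7fffffff80000002 :=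
  chk1_sound oke (by decide) lge cs_nil ke_177
theorem ce_178 : CutGood Pe Se G1_48 (fv1 G1_48) 0 0x800000517fffffec7fffffda8000000a 0x7ffffffe800000027ffffffc80000005 :=
  chk1_sound oke (by decide) lge cs_nil ke_178
theorem ce_179 : CutGood Pe Se G1_48 (fv1 G1_48) 0 0x7fffffff7ffffff78000000d80000008 0x7fffffff7fffffff7fffffff80000002 :=
  chk1_sound oke (by decide) lge (cs_cons ce_178 cs_nil) ke_179
theorem ce_180 : CutGood Pe Se G1_48 (fv1 G1_48) 0 0x80000001800000038000001180000004 0x7fffffff7fffffff7fffffff80000002 :=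
  chk1_sound oke (by decide) lge cs_nil ke_180
theorem ce_181 : CutGood Pe Se G1_48 (fv1 G1_48) 0 0x7ffffff6800000037ffffffb7fffffff 0x800000027ffffffc7ffffffe80000005 :=
  chk1_sound oke (by decide) lge cs_nil ke_181
theorem ce_182 : CutGood Pe Se G1_48 (fv1 G1_48) 0 0x7ffffffc80000004800000027ffffffd 0x800000007ffffffe7ffffffa80000003 :=
  chk1_sound oke (by decide) lge cs_nil ke_182
theorem ce_183 : CutGood Pe Se G1_48 (fv1 G1_48) 0 0x7ffffffc80000004800000027ffffffd 0x7ffffffc7ffffffc7ffffffc80000001 :=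
  chk1_sound oke (by decide) lge cs_nil ke_183
theorem ce_184 : CutGood Pe Se G1_48 (fv1 G1_48) 0 0x7ffffffc80000004800000027ffffffd 0x7fffffff7fffffff7fffffff80000002 :=
  chk1_sound oke (by decide) lge (cs_cons ce_181 (cs_cons ce_182 (cs_cons ce_183 cs_nil))) ke_184
theorem ce_185 : CutGood Pe Se G1_48 (fv1 G1_48) 0 0x7fffffff800000028000000380000001 0x7fffffff7fffffff7fffffff80000002 :=
  chk1_sound oke (by decide) lge (cs_cons ce_174 (cs_cons ce_175 (cs_cons ce_176 (cs_cons ce_177 (cs_cons ce_179 (cs_cons ce_180 (cs_cons ce_184 cs_nil))))))) ke_185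
theorem ce_186 : CutGood Pe Se G1_48 (fv1 G1_48) 0 0x800000027fffffff800000067ffffffe 0x800000027ffffffc7ffffffe80000005 :=
  chk1_sound oke (by decide) lge cs_nil ke_186
theorem ce_187 : CutGood Pe Se G1_48 (fv1 G1_48) 0 0x800000027fffffff800000067ffffffe 0x800000007ffffffb7fffffff8000000b :=
  chk1_sound oke (by decide) lge cs_nil ke_187
theorem ce_188 : CutGood Pe Se G1_48 (fv1 G1_48) 0 0x800000027fffffff800000067ffffffe 0x800000007ffffffe7ffffffa80000003 :=
  chk1_sound oke (by decide) lge cs_nil ke_188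
theorem ce_189 : CutGood Pe Se G1_48 (fv1 G1_48) 0 0x7ffffffe800000058000000480000000 0x800000027ffffffc7ffffffe80000005 :=
  chk1_sound oke (by decide) lge cs_nil ke_189
theorem ce_190 : CutGood Pe Se G1_48 (fv1 G1_48) 0 0x7ffffff97fffffff800000097ffffffe 0x7ffffffe800000027ffffffc80000005 :=
  chk1_sound oke (by decide) lge cs_nil ke_190
theorem ce_191 : CutGood Pe Se G1_48 (fv1 G1_48) 0 0x7fffffe97fffffed800000017fffffee 0x7ffffffe800000027ffffffc80000005 :=
  chk1_sound oke (by decide) lge cs_nil ke_191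
theorem ce_192 : CutGood Pe Se G1_48 (fv1 G1_48) 0 0x7ffffffe800000058000000480000000 0x800000097fffffe4800000118000000d :=
  chk1_sound oke (by decide) lge cs_nil ke_192
theorem ce_193 : CutGood Pe Se G1_48 (fv1 G1_48) 0 0x7ffffffe800000058000000480000000 0x7fffffff7fffffff7fffffff80000002 :=
  chk1_sound oke (by decide) lge (cs_cons ce_189 (cs_cons ce_190 (cs_cons ce_191 (cs_cons ce_192 cs_nil)))) ke_193
theorem ce_194 : CutGood Pe Se G1_48 (fv1 G1_48) 0 0x7ffffffd80000004800000047ffffffe 0x7fffffff7fffffff7fffffff80000002 :=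
  chk1_sound oke (by decide) lge cs_nil ke_194
theorem ce_195 : CutGood Pe Se G1_48 (fv1 G1_48) 0 0x7ffffffe800000018000000680000002 0x7ffffffe800000027ffffffc80000005 :=
  chk1_sound oke (by decide) lge cs_nil ke_195
theorem ce_196 : CutGood Pe Se G1_48 (fv1 G1_48) 0 0x7ffffffe800000018000000680000002 0x7fffffff7fffffff7fffffff80000002 :=
  chk1_sound oke (by decide) lge (cs_cons ce_195 cs_nil) ke_196
theorem ce_197 : CutGood Pe Se G1_48 (fv1 G1_48) 0 0x7fffffff7ffffffe8000001480000000 0x7fffffff7fffffff7fffffff80000002 :=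
  chk1_sound oke (by decide) lge cs_nil ke_197
theorem ce_198 : CutGood Pe Se G1_48 (fv1 G1_48) 0 0x7ffffffb800000008000000280000004 0x7fffffff7fffffff7fffffff80000002 :=
  chk1_sound oke (by decide) lge (cs_cons ce_197 cs_nil) ke_198
theorem ce_199 : CutGood Pe Se G1_48 (fv1 G1_48) 0 0x80000002800000028000000680000001 0x800000027ffffffc7ffffffe80000005 :=
  chk1_sound oke (by decide) lge cs_nil ke_199
theorem ce_200 : CutGood Pe Se G1_48 (fv1 G1_48) 0 0x800000017ffffffe800000097ffffff9 0x7ffffffe800000027ffffffc80000005 :=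
  chk1_sound oke (by decide) lge cs_nil ke_200
theorem ce_201 : CutGood Pe Se G1_48 (fv1 G1_48) 0 0x80000002800000028000000680000001 0x7fffffff7fffffff7fffffff80000002 :=
  chk1_sound oke (by decide) lge (cs_cons ce_199 (cs_cons ce_200 cs_nil)) ke_201
theorem ce_202 : CutGood Pe Se G1_48 (fv1 G1_48) 0 0x80000000800000018000000180000001 0x7fffffff7fffffff7fffffff80000002 :=
  chk1_sound oke (by decide) lge (cs_cons ce_185 (cs_cons ce_186 (cs_cons ce_187 (cs_cons ce_188 (cs_cons ce_193 (cs_cons ce_194 (cs_cons ce_196 (cs_cons ce_198 (cs_cons ce_201 cs_nil))))))))) ke_202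
theorem ce_203 : CutGood Pe Se G1_48 (fv1 G1_48) 0 0x80000000800000018000000180000001 0x80000000800000008000000080000001 :=
  chk1_sound oke (by decide) lge (cs_cons ce_12 (cs_cons ce_15 (cs_cons ce_16 (cs_cons ce_17 (cs_cons ce_18 (cs_cons ce_19 (cs_cons ce_20 (cs_cons ce_23 (cs_cons ce_37 (cs_cons ce_66 (cs_cons ce_67 (cs_cons ce_68 (cs_cons ce_69 (cs_cons ce_70 (cs_cons ce_83 (cs_cons ce_91 (cs_cons ce_92 (cs_cons ce_94 (cs_cons ce_96 (cs_cons ce_97 (cs_cons ce_100 (cs_cons ce_101 (cs_cons ce_103 (cs_cons ce_107 (cs_cons ce_113 (cs_cons ce_148 (cs_cons ce_173 (cs_cons ce_202 cs_nil)))))))))))))))))))))))))))) ke_203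
theorem ce_204 : CutGood Pe Se G1_48 (fv1 G1_48) 0 0x80000002800000018000000380000001 0x800000007fffffff8000000480000002 :=
  chk1_sound oke (by decide) lge cs_nil ke_204
theorem ce_205 : CutGood Pe Se G1_48 (fv1 G1_48) 0 0x8000000480000004800000027ffffffd 0x7ffffffd7ffffffe8000000280000002 :=
  chk1_sound oke (by decide) lge cs_nil ke_205
theorem ce_206 : CutGood Pe Se G1_48 (fv1 G1_48) 0 0x8000000280000000800000057ffffffc 0x7ffffffd7ffffffe8000000280000002 :=
  chk1_sound oke (by decide) lge cs_nil ke_206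
theorem ce_207 : CutGood Pe Se G1_48 (fv1 G1_48) 0 0x80000003800000018000000180000002 0x7ffffffc800000018000000280000000 :=
  chk1_sound oke (by decide) lge cs_nil ke_207
theorem ce_208 : CutGood Pe Se G1_48 (fv1 G1_48) 0 0x80000003800000018000000180000002 0x800000017ffffffd8000000780000002 :=
  chk1_sound oke (by decide) lge cs_nil ke_208
theorem ce_209 : CutGood Pe Se G1_48 (fv1 G1_48) 0 0x80000003800000018000000180000002 0x800000017ffffff98000000280000003 :=
  chk1_sound oke (by decide) lge cs_nil ke_209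
theorem ce_210 : CutGood Pe Se G1_48 (fv1 G1_48) 0 0x7fffffff800000027fffffec80000000 0x7fffffff800000018000000180000002 :=
  chk1_sound oke (by decide) lge cs_nil ke_210
theorem ce_211 : CutGood Pe Se G1_48 (fv1 G1_48) 0 0x8000000580000000800000027ffffffc 0x7fffffff800000018000000180000002 :=
  chk1_sound oke (by decide) lge (cs_cons ce_210 cs_nil) ke_211
theorem ce_212 : CutGood Pe Se G1_48 (fv1 G1_48) 0 0x80000003800000048000000480000002 0x7fffffff800000018000000180000002 :=
  chk1_sound oke (by decide) lge cs_nil ke_212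
theorem ce_213 : CutGood Pe Se G1_48 (fv1 G1_48) 0 0x80000001800000018000000280000003 0x7ffffffc800000018000000280000000 :=
  chk1_sound oke (by decide) lge cs_nil ke_213
theorem ce_214 : CutGood Pe Se G1_48 (fv1 G1_48) 0 0x80000001800000018000000280000003 0x800000017ffffff98000000280000003 :=
  chk1_sound oke (by decide) lge cs_nil ke_214
theorem ce_215 : CutGood Pe Se G1_48 (fv1 G1_48) 0 0x800000017fffffff8000000380000002 0x7fffffff80000003800000077ffffffe :=
  chk1_sound oke (by decide) lge cs_nil ke_215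
theorem ce_216 : CutGood Pe Se G1_48 (fv1 G1_48) 0 0x800000017fffffff8000000380000002 0x7ffffffb7ffffffb8000000380000002 :=
  chk1_sound oke (by decide) lge cs_nil ke_216
theorem ce_217 : CutGood Pe Se G1_48 (fv1 G1_48) 0 0x800000017fffffff8000000380000002 0x7ffffff07ffffffe7ffffff67ffffff7 :=
  chk1_sound oke (by decide) lge cs_nil ke_217
theorem ce_218 : CutGood Pe Se G1_48 (fv1 G1_48) 0 0x800000017fffffff8000000380000002 0x7ffffffb7fffffff800000017ffffffa :=
  chk1_sound oke (by decide) lge (cs_cons ce_217 cs_nil) ke_218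
theorem ce_219 : CutGood Pe Se G1_48 (fv1 G1_48) 0 0x800000017fffffff8000000380000002 0x8000004d80000032800000187ffffff0 :=
  chk1_sound oke (by decide) lge cs_nil ke_219
theorem ce_220 : CutGood Pe Se G1_48 (fv1 G1_48) 0 0x800000017fffffff8000000380000002 0x8000000c7fffffef8000001d7ffffff9 :=
  chk1_sound oke (by decide) lge cs_nil ke_220
theorem ce_221 : CutGood Pe Se G1_48 (fv1 G1_48) 0 0x800000017fffffff8000000380000002 0x800000017ffffffd8000000780000002 :=
  chk1_sound oke (by decide) lge (cs_cons ce_219 (cs_cons ce_220 cs_nil)) ke_221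
theorem ce_222 : CutGood Pe Se G1_48 (fv1 G1_48) 0 0x800000017fffffff8000000380000002 0x800000017ffffff98000000280000003 :=
  chk1_sound oke (by decide) lge cs_nil ke_222
theorem ce_223 : CutGood Pe Se G1_48 (fv1 G1_48) 0 0x800000027fffffff8000000180000003 0x7ffffffc800000018000000280000000 :=
  chk1_sound oke (by decide) lge cs_nil ke_223
theorem ce_224 : CutGood Pe Se G1_48 (fv1 G1_48) 0 0x800000027fffffff8000000180000003 0x7ffffffd7ffffffe8000000280000002 :=
  chk1_sound oke (by decide) lge cs_nil ke_224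
theorem ce_225 : CutGood Pe Se G1_48 (fv1 G1_48) 0 0x80000001800000008000000180000001 0x7fffffff800000018000000180000002 :=
  chk1_sound oke (by decide) lge (cs_cons ce_204 (cs_cons ce_205 (cs_cons ce_206 (cs_cons ce_207 (cs_cons ce_208 (cs_cons ce_209 (cs_cons ce_211 (cs_cons ce_212 (cs_cons ce_213 (cs_cons ce_214 (cs_cons ce_215 (cs_cons ce_216 (cs_cons ce_218 (cs_cons ce_221 (cs_cons ce_222 (cs_cons ce_223 (cs_cons ce_224 cs_nil))))))))))))))))) ke_225
theorem ce_226 : CutGood Pe Se G1_48 (fv1 G1_48) 0 0x8000000780000002800000067ffffffc 0x7ffffff6800000038000000480000008 :=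
  chk1_sound oke (by decide) lge cs_nil ke_226
theorem ce_227 : CutGood Pe Se G1_48 (fv1 G1_48) 0 0x80000002800000018000000380000001 0x7fffffff800000078000000280000003 :=
  chk1_sound oke (by decide) lge (cs_cons ce_226 cs_nil) ke_227
theorem ce_228 : CutGood Pe Se G1_48 (fv1 G1_48) 0 0x80000005800000118000000180000000 0x7fffffff800000038000000780000002 :=
  chk1_sound oke (by decide) lge cs_nil ke_228
theorem ce_229 : CutGood Pe Se G1_48 (fv1 G1_48) 0 0x80000002800000018000000380000001 0x7fffffff800000038000000780000002 :=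
  chk1_sound oke (by decide) lge (cs_cons ce_228 cs_nil) ke_229
theorem ce_230 : CutGood Pe Se G1_48 (fv1 G1_48) 0 0x80000003800000018000000180000002 0x7fffffe47fffffff800000037fffffe9 :=
  chk1_sound oke (by decide) lge cs_nil ke_230
theorem ce_231 : CutGood Pe Se G1_48 (fv1 G1_48) 0 0x80000000800000058000000280000004 0x800000087ffffffd8000000780000005 :=
  chk1_sound oke (by decide) lge cs_nil ke_231
theorem ce_232 : CutGood Pe Se G1_48 (fv1 G1_48) 0 0x8000000580000000800000027ffffffc 0x800000038000001c800000017fffffe9 :=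
  chk1_sound oke (by decide) lge cs_nil ke_232
theorem ce_233 : CutGood Pe Se G1_48 (fv1 G1_48) 0 0x800000037fffffff8000000280000001 0x7fffffff800000078000000280000003 :=
  chk1_sound oke (by decide) lge (cs_cons ce_232 cs_nil) ke_233
theorem ce_234 : CutGood Pe Se G1_48 (fv1 G1_48) 0 0x80000002800000058000000480000000 0x80000003800000028000000280000002 :=
  chk1_sound oke (by decide) lge cs_nil ke_234
theorem ce_235 : CutGood Pe Se G1_48 (fv1 G1_48) 0 0x7ffffffd800000048000000480000002 0x80000003800000028000000280000002 :=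
  chk1_sound oke (by decide) lge cs_nil ke_235
theorem ce_236 : CutGood Pe Se G1_48 (fv1 G1_48) 0 0x800000047ffffffd800000047ffffffe 0x80000008800000057ffffffd80000007 :=
  chk1_sound oke (by decide) lge cs_nil ke_236
theorem ce_237 : CutGood Pe Se G1_48 (fv1 G1_48) 0 0x7fffffff7ffffffe800000067ffffffe 0x80000003800000028000000280000002 :=
  chk1_sound oke (by decide) lge cs_nil ke_237
theorem ce_238 : CutGood Pe Se G1_48 (fv1 G1_48) 0 0x7fffffff7ffffffa8000000280000008 0x7fffffff800000078000000280000003 :=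
  chk1_sound oke (by decide) lge cs_nil ke_238
theorem ce_239 : CutGood Pe Se G1_48 (fv1 G1_48) 0 0x800000027fffffff8000000180000003 0x7fffffff800000038000000780000002 :=
  chk1_sound oke (by decide) lge cs_nil ke_239
theorem ce_240 : CutGood Pe Se G1_48 (fv1 G1_48) 0 0x80000001800000008000000180000001 0x80000003800000028000000280000002 :=
  chk1_sound oke (by decide) lge (cs_cons ce_227 (cs_cons ce_229 (cs_cons ce_230 (cs_cons ce_231 (cs_cons ce_233 (cs_cons ce_234 (cs_cons ce_235 (cs_cons ce_236 (cs_cons ce_237 (cs_cons ce_238 (cs_cons ce_239 cs_nil))))))))))) ke_240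
theorem ce_241 : CutGood Pe Se G1_48 (fv1 G1_48) 0 0x80000002800000018000000380000001 0x80000008800000127ffffff97ffffffe :=
  chk1_sound oke (by decide) lge cs_nil ke_241
theorem ce_242 : CutGood Pe Se G1_48 (fv1 G1_48) 0 0x80000002800000018000000380000001 0x8000000a8000000e800000087ffffff7 :=
  chk1_sound oke (by decide) lge cs_nil ke_242
theorem ce_243 : CutGood Pe Se G1_48 (fv1 G1_48) 0 0x800000088000000b7ffffff580000003 0x800000047fffffff8000000280000000 :=
  chk1_sound oke (by decide) lge cs_nil ke_243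
theorem ce_244 : CutGood Pe Se G1_48 (fv1 G1_48) 0 0x800000047ffffffe8000000280000009 0x800000047fffffff8000000280000000 :=
  chk1_sound oke (by decide) lge cs_nil ke_244
theorem ce_245 : CutGood Pe Se G1_48 (fv1 G1_48) 0 0x80000003800000018000000180000002 0x800000047fffffff8000000280000000 :=
  chk1_sound oke (by decide) lge (cs_cons ce_243 (cs_cons ce_244 cs_nil)) ke_245
theorem ce_246 : CutGood Pe Se G1_48 (fv1 G1_48) 0 0x800000027ffffffc8000000780000006 0x7ffffffd800000088000000a80000004 :=
  chk1_sound oke (by decide) lge cs_nil ke_246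
theorem ce_247 : CutGood Pe Se G1_48 (fv1 G1_48) 0 0x800000037fffffff8000000280000001 0x7ffffffd800000088000000a80000004 :=
  chk1_sound oke (by decide) lge (cs_cons ce_246 cs_nil) ke_247
theorem ce_248 : CutGood Pe Se G1_48 (fv1 G1_48) 0 0x80000001800000018000000280000003 0x80000007800000037ffffffe7fffffff :=
  chk1_sound oke (by decide) lge cs_nil ke_248
theorem ce_249 : CutGood Pe Se G1_48 (fv1 G1_48) 0 0x80000001800000018000000280000003 0x8000000580000001800000017ffffffa :=
  chk1_sound oke (by decide) lge cs_nil ke_249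
theorem ce_250 : CutGood Pe Se G1_48 (fv1 G1_48) 0 0x800000027fffffff8000000180000003 0x8000000b800000048000000180000003 :=
  chk1_sound oke (by decide) lge cs_nil ke_250
theorem ce_251 : CutGood Pe Se G1_48 (fv1 G1_48) 0 0x8000000b80000003800000088000000b 0x80000000800000018000002080000002 :=
  chk1_sound oke (by decide) lge cs_nil ke_251
theorem ce_252 : CutGood Pe Se G1_48 (fv1 G1_48) 0 0x800000027fffffff8000000180000003 0x800000057ffffffc8000000980000005 :=
  chk1_sound oke (by decide) lge (cs_cons ce_251 cs_nil) ke_252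
theorem ce_253 : CutGood Pe Se G1_48 (fv1 G1_48) 0 0x80000001800000008000000180000001 0x800000047fffffff8000000280000000 :=
  chk1_sound oke (by decide) lge (cs_cons ce_241 (cs_cons ce_242 (cs_cons ce_245 (cs_cons ce_247 (cs_cons ce_248 (cs_cons ce_249 (cs_cons ce_250 (cs_cons ce_252 cs_nil)))))))) ke_253
theorem ce_254 : CutGood Pe Se G1_48 (fv1 G1_48) 0 0x80000003800000018000000180000002 0x800000077fffffff800000037ffffffe :=
  chk1_sound oke (by decide) lge cs_nil ke_254
theorem ce_255 : CutGood Pe Se G1_48 (fv1 G1_48) 0 0x80000003800000018000000180000002 0x7ffffff47ffffffe800000027fffffef :=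
  chk1_sound oke (by decide) lge cs_nil ke_255
theorem ce_256 : CutGood Pe Se G1_48 (fv1 G1_48) 0 0x8000000c800000018000000d7fffffff 0x800000017ffffffe8000000480000000 :=
  chk1_sound oke (by decide) lge cs_nil ke_256
theorem ce_257 : CutGood Pe Se G1_48 (fv1 G1_48) 0 0x8000000580000000800000027ffffffc 0x800000017ffffffe8000000480000000 :=
  chk1_sound oke (by decide) lge (cs_cons ce_256 cs_nil) ke_257
theorem ce_258 : CutGood Pe Se G1_48 (fv1 G1_48) 0 0x7ffffff87ffffff7800000107ffffffe 0x800000087ffffff68000000e7ffffff7 :=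
  chk1_sound oke (by decide) lge cs_nil ke_258
theorem ce_259 : CutGood Pe Se G1_48 (fv1 G1_48) 0 0x80000003800000048000000480000002 0x800000017ffffffe8000000480000000 :=
  chk1_sound oke (by decide) lge (cs_cons ce_258 cs_nil) ke_259
theorem ce_260 : CutGood Pe Se G1_48 (fv1 G1_48) 0 0x80000002800000058000000480000000 0x800000017ffffffe8000000480000000 :=
  chk1_sound oke (by decide) lge cs_nil ke_260
theorem ce_261 : CutGood Pe Se G1_48 (fv1 G1_48) 0 0x7ffffffd800000048000000480000002 0x800000017ffffffe8000000480000000 :=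
  chk1_sound oke (by decide) lge cs_nil ke_261
theorem ce_262 : CutGood Pe Se G1_48 (fv1 G1_48) 0 0x800000108000000c800000047fffffe9 0x800000017ffffffe8000000480000000 :=
  chk1_sound oke (by decide) lge cs_nil ke_262
theorem ce_263 : CutGood Pe Se G1_48 (fv1 G1_48) 0 0x7fffffff7ffffff48000000b7ffffff9 0x800000037ffffffb800000027ffffffb :=
  chk1_sound oke (by decide) lge cs_nil ke_263
theorem ce_264 : CutGood Pe Se G1_48 (fv1 G1_48) 0 0x7ffffffb7fffffff800000037ffffff6 0x800000017ffffffe8000000480000000 :=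
  chk1_sound oke (by decide) lge cs_nil ke_264
theorem ce_265 : CutGood Pe Se G1_48 (fv1 G1_48) 0 0x800000017fffffff8000000380000002 0x800000017ffffffe8000000480000000 :=
  chk1_sound oke (by decide) lge (cs_cons ce_262 (cs_cons ce_263 (cs_cons ce_264 cs_nil))) ke_265
theorem ce_266 : CutGood Pe Se G1_48 (fv1 G1_48) 0 0x800000027fffffff8000000180000003 0x80000000800000018000000b7ffffffb :=
  chk1_sound oke (by decide) lge cs_nil ke_266
theorem ce_267 : CutGood Pe Se G1_48 (fv1 G1_48) 0 0x80000000800000028000000580000004 0x7ffffffc7fffffff8000000b80000003 :=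
  chk1_sound oke (by decide) lge cs_nil ke_267
theorem ce_268 : CutGood Pe Se G1_48 (fv1 G1_48) 0 0x800000027ffffffe8000000680000001 0x8000000c7fffffe37ffffff97fffffef :=
  chk1_sound oke (by decide) lge cs_nil ke_268
theorem ce_269 : CutGood Pe Se G1_48 (fv1 G1_48) 0 0x800000027ffffffe8000000680000001 0x7ffffffc7fffffff8000000b80000003 :=
  chk1_sound oke (by decide) lge (cs_cons ce_268 cs_nil) ke_269
theorem ce_270 : CutGood Pe Se G1_48 (fv1 G1_48) 0 0x80000001800000008000000180000001 0x800000017ffffffe8000000480000000 :=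
  chk1_sound oke (by decide) lge (cs_cons ce_254 (cs_cons ce_255 (cs_cons ce_257 (cs_cons ce_259 (cs_cons ce_260 (cs_cons ce_261 (cs_cons ce_265 (cs_cons ce_266 (cs_cons ce_267 (cs_cons ce_269 cs_nil)))))))))) ke_270
theorem ce_271 : CutGood Pe Se G1_48 (fv1 G1_48) 0 0x800000037fffffff8000000280000001 0x80000001800000008000000480000002 :=
  chk1_sound oke (by decide) lge cs_nil ke_271
theorem ce_272 : CutGood Pe Se G1_48 (fv1 G1_48) 0 0x8000000280000000800000057ffffffc 0x800000017ffffff8800000097fffffff :=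
  chk1_sound oke (by decide) lge cs_nil ke_272
theorem ce_273 : CutGood Pe Se G1_48 (fv1 G1_48) 0 0x80000002800000018000000380000001 0x7ffffff67fffffee800000017ffffffc :=
  chk1_sound oke (by decide) lge cs_nil ke_273
theorem ce_274 : CutGood Pe Se G1_48 (fv1 G1_48) 0 0x80000002800000018000000380000001 0x7ffffffe7fffffff8000000480000000 :=
  chk1_sound oke (by decide) lge (cs_cons ce_272 (cs_cons ce_273 cs_nil)) ke_274
theorem ce_275 : CutGood Pe Se G1_48 (fv1 G1_48) 0 0x80000003800000018000000180000002 0x7ffffffe7fffffff8000000480000000 :=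
  chk1_sound oke (by decide) lge cs_nil ke_275
theorem ce_276 : CutGood Pe Se G1_48 (fv1 G1_48) 0 0x800000037fffffff8000000280000001 0x800000127ffffff8800000077ffffffe :=
  chk1_sound oke (by decide) lge cs_nil ke_276
theorem ce_277 : CutGood Pe Se G1_48 (fv1 G1_48) 0 0x800000037fffffff8000000280000001 0x800000187fffffed7fffffed80000005 :=
  chk1_sound oke (by decide) lge cs_nil ke_277
theorem ce_278 : CutGood Pe Se G1_48 (fv1 G1_48) 0 0x800000037fffffff8000000280000001 0x7ffffff680000006800000077ffffff0 :=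
  chk1_sound oke (by decide) lge cs_nil ke_278
theorem ce_279 : CutGood Pe Se G1_48 (fv1 G1_48) 0 0x800000037fffffff8000000280000001 0x7ffffffe7fffffff8000000480000000 :=
  chk1_sound oke (by decide) lge (cs_cons ce_276 (cs_cons ce_277 (cs_cons ce_278 cs_nil))) ke_279
theorem ce_280 : CutGood Pe Se G1_48 (fv1 G1_48) 0 0x7fffffff80000007800000097ffffffe 0x7ffffffe7fffffff8000000480000000 :=
  chk1_sound oke (by decide) lge cs_nil ke_280
theorem ce_281 : CutGood Pe Se G1_48 (fv1 G1_48) 0 0x7fffffff7ffffffe800000067ffffffe 0x7fffffff800000048000000b80000003 :=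
  chk1_sound oke (by decide) lge cs_nil ke_281
theorem ce_282 : CutGood Pe Se G1_48 (fv1 G1_48) 0 0x7fffffff7ffffffe800000067ffffffe 0x7ffffffe7fffffff8000000480000000 :=
  chk1_sound oke (by decide) lge (cs_cons ce_281 cs_nil) ke_282
theorem ce_283 : CutGood Pe Se G1_48 (fv1 G1_48) 0 0x800000017fffffff8000000380000002 0x7ffffffe7fffffff8000000480000000 :=
  chk1_sound oke (by decide) lge (cs_cons ce_280 (cs_cons ce_282 cs_nil)) ke_283
theorem ce_284 : CutGood Pe Se G1_48 (fv1 G1_48) 0 0x80000002800000018000000380000001 0x7ffffff67ffffff67ffffffc7ffffff1 :=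
  chk1_sound oke (by decide) lge cs_nil ke_284
theorem ce_285 : CutGood Pe Se G1_48 (fv1 G1_48) 0 0x8000000480000003800000047ffffffe 0x7fffffff7ffffffc8000000280000000 :=
  chk1_sound oke (by decide) lge cs_nil ke_285
theorem ce_286 : CutGood Pe Se G1_48 (fv1 G1_48) 0 0x7ffffff9800000018000000680000007 0x7fffffff7ffffffc8000000280000000 :=
  chk1_sound oke (by decide) lge cs_nil ke_286
theorem ce_287 : CutGood Pe Se G1_48 (fv1 G1_48) 0 0x800000037fffffff8000000280000001 0x800000047ffffff58000000180000003 :=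
  chk1_sound oke (by decide) lge cs_nil ke_287
theorem ce_288 : CutGood Pe Se G1_48 (fv1 G1_48) 0 0x800000037fffffff8000000280000001 0x7fffffff7ffffffc8000000280000000 :=
  chk1_sound oke (by decide) lge (cs_cons ce_287 cs_nil) ke_288
theorem ce_289 : CutGood Pe Se G1_48 (fv1 G1_48) 0 0x800000017fffffff8000000380000002 0x800000107ffffffc800000008000000d :=
  chk1_sound oke (by decide) lge cs_nil ke_289
theorem ce_290 : CutGood Pe Se G1_48 (fv1 G1_48) 0 0x800000017fffffff8000000380000002 0x7ffffff87ffffffb800000077ffffffd :=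
  chk1_sound oke (by decide) lge cs_nil ke_290
theorem ce_291 : CutGood Pe Se G1_48 (fv1 G1_48) 0 0x800000017fffffff8000000380000002 0x7fffffff7ffffffc8000000280000000 :=
  chk1_sound oke (by decide) lge (cs_cons ce_289 (cs_cons ce_290 cs_nil)) ke_291
theorem ce_292 : CutGood Pe Se G1_48 (fv1 G1_48) 0 0x80000001800000008000000180000001 0x7fffffff7ffffffc8000000280000000 :=
  chk1_sound oke (by decide) lge (cs_cons ce_284 (cs_cons ce_285 (cs_cons ce_286 (cs_cons ce_288 (cs_cons ce_291 cs_nil))))) ke_292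
theorem ce_293 : CutGood Pe Se G1_48 (fv1 G1_48) 0 0x7fffffcf7fffffed7ffffff880000003 0x80000004800000028000000280000005 :=
  chk1_sound oke (by decide) lge cs_nil ke_293
theorem ce_294 : CutGood Pe Se G1_48 (fv1 G1_48) 0 0x7ffffffe80000003800000017ffffff5 0x80000001800000017fffffff80000002 :=
  chk1_sound oke (by decide) lge (cs_cons ce_293 cs_nil) ke_294
theorem ce_295 : CutGood Pe Se G1_48 (fv1 G1_48) 0 0x7fffffff8000000a800000037ffffffb 0x80000001800000017fffffff80000002 :=
  chk1_sound oke (by decide) lge cs_nil ke_295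
theorem ce_296 : CutGood Pe Se G1_48 (fv1 G1_48) 0 0x8000000e80000018800000027ffffff3 0x7ffffffe800000018000000080000004 :=
  chk1_sound oke (by decide) lge cs_nil ke_296
theorem ce_297 : CutGood Pe Se G1_48 (fv1 G1_48) 0 0x80000018800000087ffffff080000007 0x80000001800000017fffffff80000002 :=
  chk1_sound oke (by decide) lge cs_nil ke_297
theorem ce_298 : CutGood Pe Se G1_48 (fv1 G1_48) 0 0x80000009800000078000000180000002 0x80000001800000017fffffff80000002 :=
  chk1_sound oke (by decide) lge (cs_cons ce_296 (cs_cons ce_297 cs_nil)) ke_298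
theorem ce_299 : CutGood Pe Se G1_48 (fv1 G1_48) 0 0x7ffffff68000000d800000068000000a 0x7ffffff1800000088000001080000016 :=
  chk1_sound oke (by decide) lge cs_nil ke_299
theorem ce_300 : CutGood Pe Se G1_48 (fv1 G1_48) 0 0x800000038000000b8000000280000001 0x80000000800000027ffffffa80000003 :=
  chk1_sound oke (by decide) lge cs_nil ke_300
theorem ce_301 : CutGood Pe Se G1_48 (fv1 G1_48) 0 0x800000038000000b8000000280000001 0x80000001800000017fffffff80000002 :=
  chk1_sound oke (by decide) lge (cs_cons ce_299 (cs_cons ce_300 cs_nil)) ke_301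
theorem ce_302 : CutGood Pe Se G1_48 (fv1 G1_48) 0 0x7ffffff67ffffffd8000000e7ffffff6 0x80000001800000017fffffff80000002 :=
  chk1_sound oke (by decide) lge cs_nil ke_302
theorem ce_303 : CutGood Pe Se G1_48 (fv1 G1_48) 0 0x8000000280000001800000067ffffffe 0x80000001800000017fffffff80000002 :=
  chk1_sound oke (by decide) lge cs_nil ke_303
theorem ce_304 : CutGood Pe Se G1_48 (fv1 G1_48) 0 0x7fffffff80000002800000077ffffff7 0x80000002800000068000000080000003 :=
  chk1_sound oke (by decide) lge cs_nil ke_304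
theorem ce_305 : CutGood Pe Se G1_48 (fv1 G1_48) 0 0x7fffffff80000002800000077ffffff7 0x7ffffffe800000047ffffffe80000005 :=
  chk1_sound oke (by decide) lge cs_nil ke_305
theorem ce_306 : CutGood Pe Se G1_48 (fv1 G1_48) 0 0x7ffffffa80000007800000017ffffff9 0x7ffffffe800000018000000080000004 :=
  chk1_sound oke (by decide) lge cs_nil ke_306
theorem ce_307 : CutGood Pe Se G1_48 (fv1 G1_48) 0 0x7ffffffa80000007800000017ffffff9 0x80000001800000008000000280000004 :=
  chk1_sound oke (by decide) lge cs_nil ke_307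
theorem ce_308 : CutGood Pe Se G1_48 (fv1 G1_48) 0 0x7ffffffe800000048000000580000000 0x80000001800000017fffffff80000002 :=
  chk1_sound oke (by decide) lge (cs_cons ce_304 (cs_cons ce_305 (cs_cons ce_306 (cs_cons ce_307 cs_nil)))) ke_308
theorem ce_309 : CutGood Pe Se G1_48 (fv1 G1_48) 0 0x80000002800000058000000480000000 0x80000004800000078000000180000009 :=
  chk1_sound oke (by decide) lge cs_nil ke_309
theorem ce_310 : CutGood Pe Se G1_48 (fv1 G1_48) 0 0x80000002800000058000000480000000 0x7ffffffe800000018000000080000004 :=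
  chk1_sound oke (by decide) lge cs_nil ke_310
theorem ce_311 : CutGood Pe Se G1_48 (fv1 G1_48) 0 0x80000002800000058000000480000000 0x80000001800000017fffffff80000002 :=
  chk1_sound oke (by decide) lge (cs_cons ce_309 (cs_cons ce_310 cs_nil)) ke_311
theorem ce_312 : CutGood Pe Se G1_48 (fv1 G1_48) 0 0x7ffffffe800000038000000480000004 0x7ffffff97ffffffe800000067ffffff6 :=
  chk1_sound oke (by decide) lge cs_nil ke_312
theorem ce_313 : CutGood Pe Se G1_48 (fv1 G1_48) 0 0x7ffffff07fffffec8000000f7ffffff8 0x7ffffffe800000018000000080000004 :=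
  chk1_sound oke (by decide) lge cs_nil ke_313
theorem ce_314 : CutGood Pe Se G1_48 (fv1 G1_48) 0 0x7ffffff7800000087fffffff8000000d 0x7ffffffe800000018000000080000004 :=
  chk1_sound oke (by decide) lge cs_nil ke_314
theorem ce_315 : CutGood Pe Se G1_48 (fv1 G1_48) 0 0x7ffffffe800000038000000480000004 0x7ffffffe800000018000000080000004 :=
  chk1_sound oke (by decide) lge (cs_cons ce_313 (cs_cons ce_314 cs_nil)) ke_315
theorem ce_316 : CutGood Pe Se G1_48 (fv1 G1_48) 0 0x7ffffffe800000038000000480000004 0x80000001800000008000000280000004 :=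
  chk1_sound oke (by decide) lge cs_nil ke_316
theorem ce_317 : CutGood Pe Se G1_48 (fv1 G1_48) 0 0x80000002800000048000000380000004 0x7ffffffc7ffffffd800000018000000b :=
  chk1_sound oke (by decide) lge cs_nil ke_317
theorem ce_318 : CutGood Pe Se G1_48 (fv1 G1_48) 0 0x80000002800000048000000380000004 0x80000000800000018000000b80000005 :=
  chk1_sound oke (by decide) lge cs_nil ke_318
theorem ce_319 : CutGood Pe Se G1_48 (fv1 G1_48) 0 0x80000002800000048000000380000004 0x80000001800000017fffffff80000002 :=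
  chk1_sound oke (by decide) lge (cs_cons ce_317 (cs_cons ce_318 cs_nil)) ke_319
theorem ce_320 : CutGood Pe Se G1_48 (fv1 G1_48) 0 0x80000001800000008000000180000001 0x80000001800000017fffffff80000002 :=
  chk1_sound oke (by decide) lge (cs_cons ce_294 (cs_cons ce_295 (cs_cons ce_298 (cs_cons ce_301 (cs_cons ce_302 (cs_cons ce_303 (cs_cons ce_308 (cs_cons ce_311 (cs_cons ce_312 (cs_cons ce_315 (cs_cons ce_316 (cs_cons ce_319 cs_nil)))))))))))) ke_320
theorem ce_321 : CutGood Pe Se G1_48 (fv1 G1_48) 0 0x8000000480000004800000027ffffffd 0x7ffffffc7ffffffe7ffffffe80000005 :=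
  chk1_sound oke (by decide) lge cs_nil ke_321
theorem ce_322 : CutGood Pe Se G1_48 (fv1 G1_48) 0 0x8000000480000004800000027ffffffd 0x7ffffffc800000047ffffffc80000001 :=
  chk1_sound oke (by decide) lge cs_nil ke_322
theorem ce_323 : CutGood Pe Se G1_48 (fv1 G1_48) 0 0x80000002800000057ffffffb7ffffff7 0x7ffffffe800000007ffffffa80000003 :=
  chk1_sound oke (by decide) lge cs_nil ke_323
theorem ce_324 : CutGood Pe Se G1_48 (fv1 G1_48) 0 0x8000000280000000800000057ffffffc 0x7ffffffc7ffffffe7ffffffe80000005 :=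
  chk1_sound oke (by decide) lge cs_nil ke_324
theorem ce_325 : CutGood Pe Se G1_48 (fv1 G1_48) 0 0x8000000280000000800000057ffffffc 0x7ffffffc800000097fffffff80000007 :=
  chk1_sound oke (by decide) lge cs_nil ke_325
theorem ce_326 : CutGood Pe Se G1_48 (fv1 G1_48) 0 0x7ffffff37ffffffd8000000b7ffffffc 0x7fffffff800000017fffffff80000002 :=
  chk1_sound oke (by decide) lge cs_nil ke_326
theorem ce_327 : CutGood Pe Se G1_48 (fv1 G1_48) 0 0x800000037fffffff8000001180000004 0x7fffffff800000017fffffff80000002 :=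
  chk1_sound oke (by decide) lge cs_nil ke_327
theorem ce_328 : CutGood Pe Se G1_48 (fv1 G1_48) 0 0x800000058000000b8000000d80000000 0x7fffffff800000017fffffff80000002 :=
  chk1_sound oke (by decide) lge cs_nil ke_328
theorem ce_329 : CutGood Pe Se G1_48 (fv1 G1_48) 0 0x7ffffff7800000018000000d80000008 0x80000000800000018000000280000004 :=
  chk1_sound oke (by decide) lge cs_nil ke_329
theorem ce_330 : CutGood Pe Se G1_48 (fv1 G1_48) 0 0x80000002800000018000000380000001 0x7fffffff800000017fffffff80000002 :=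
  chk1_sound oke (by decide) lge (cs_cons ce_321 (cs_cons ce_322 (cs_cons ce_323 (cs_cons ce_324 (cs_cons ce_325 (cs_cons ce_326 (cs_cons ce_327 (cs_cons ce_328 (cs_cons ce_329 cs_nil))))))))) ke_330
theorem ce_331 : CutGood Pe Se G1_48 (fv1 G1_48) 0 0x8000000480000003800000047ffffffe 0x7fffffff800000017fffffff80000002 :=
  chk1_sound oke (by decide) lge cs_nil ke_331
theorem ce_332 : CutGood Pe Se G1_48 (fv1 G1_48) 0 0x7fffffee7fffffff7ffffffc7ffffff8 0x7fffffff800000017fffffff80000002 :=
  chk1_sound oke (by decide) lge cs_nil ke_332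
theorem ce_333 : CutGood Pe Se G1_48 (fv1 G1_48) 0 0x80000011800000188000002980000011 0x7fffffff800000017fffffff80000002 :=
  chk1_sound oke (by decide) lge cs_nil ke_333
theorem ce_334 : CutGood Pe Se G1_48 (fv1 G1_48) 0 0x7ffffffe800000018000001480000000 0x7fffffff800000017fffffff80000002 :=
  chk1_sound oke (by decide) lge (cs_cons ce_333 cs_nil) ke_334
theorem ce_335 : CutGood Pe Se G1_48 (fv1 G1_48) 0 0x80000000800000058000000280000004 0x7fffffff800000017fffffff80000002 :=
  chk1_sound oke (by decide) lge (cs_cons ce_332 (cs_cons ce_334 cs_nil)) ke_335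
theorem ce_336 : CutGood Pe Se G1_48 (fv1 G1_48) 0 0x80000001800000028000000680000002 0x80000002800000027ffffffc80000005 :=
  chk1_sound oke (by decide) lge cs_nil ke_336
theorem ce_337 : CutGood Pe Se G1_48 (fv1 G1_48) 0 0x80000001800000028000000680000002 0x7fffffff800000017fffffff80000002 :=
  chk1_sound oke (by decide) lge (cs_cons ce_336 cs_nil) ke_337
theorem ce_338 : CutGood Pe Se G1_48 (fv1 G1_48) 0 0x80000005800000028000000480000000 0x7ffffffc7ffffffe7ffffffe80000005 :=
  chk1_sound oke (by decide) lge cs_nil ke_338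
theorem ce_339 : CutGood Pe Se G1_48 (fv1 G1_48) 0 0x80000005800000028000000480000000 0x80000000800000067ffffffe80000003 :=
  chk1_sound oke (by decide) lge cs_nil ke_339
theorem ce_340 : CutGood Pe Se G1_48 (fv1 G1_48) 0 0x80000005800000028000000480000000 0x80000002800000027ffffffc80000005 :=
  chk1_sound oke (by decide) lge cs_nil ke_340
theorem ce_341 : CutGood Pe Se G1_48 (fv1 G1_48) 0 0x7fffffff7ffffffe800000067ffffffe 0x7ffffffc7ffffffe7ffffffe80000005 :=
  chk1_sound oke (by decide) lge cs_nil ke_341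
theorem ce_342 : CutGood Pe Se G1_48 (fv1 G1_48) 0 0x7fffffff7ffffffe800000067ffffffe 0x7ffffffb7ffffff87ffffffd80000007 :=
  chk1_sound oke (by decide) lge cs_nil ke_342
theorem ce_343 : CutGood Pe Se G1_48 (fv1 G1_48) 0 0x7fffffff7ffffffe800000067ffffffe 0x7fffffff800000017fffffff80000002 :=
  chk1_sound oke (by decide) lge (cs_cons ce_341 (cs_cons ce_342 cs_nil)) ke_343
theorem ce_344 : CutGood Pe Se G1_48 (fv1 G1_48) 0 0x8000000b80000003800000088000000b 0x7fffffff800000017fffffff80000002 :=
  chk1_sound oke (by decide) lge cs_nil ke_344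
theorem ce_345 : CutGood Pe Se G1_48 (fv1 G1_48) 0 0x800000027ffffffe8000000680000001 0x7ffffffb800000007fffffff8000000b :=
  chk1_sound oke (by decide) lge cs_nil ke_345
theorem ce_346 : CutGood Pe Se G1_48 (fv1 G1_48) 0 0x800000027ffffffe8000000680000001 0x80000000800000018000000280000004 :=
  chk1_sound oke (by decide) lge (cs_cons ce_345 cs_nil) ke_346
theorem ce_347 : CutGood Pe Se G1_48 (fv1 G1_48) 0 0x800000027fffffff8000000180000003 0x7fffffff800000017fffffff80000002 :=
  chk1_sound oke (by decide) lge (cs_cons ce_344 (cs_cons ce_346 cs_nil)) ke_347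
theorem ce_348 : CutGood Pe Se G1_48 (fv1 G1_48) 0 0x800000047ffffff1800000077ffffffb 0x80000001800000028000000080000004 :=
  chk1_sound oke (by decide) lge cs_nil ke_348
theorem ce_349 : CutGood Pe Se G1_48 (fv1 G1_48) 0 0x8000000c7ffffff98000000b80000001 0x80000001800000028000000080000004 :=
  chk1_sound oke (by decide) lge cs_nil ke_349
theorem ce_350 : CutGood Pe Se G1_48 (fv1 G1_48) 0 0x800000037ffffffe800000047ffffffc 0x80000004800000018000000080000002 :=
  chk1_sound oke (by decide) lge cs_nil ke_350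
theorem ce_351 : CutGood Pe Se G1_48 (fv1 G1_48) 0 0x80000005800000028000000480000000 0x800000077ffffffc8000000180000009 :=
  chk1_sound oke (by decide) lge cs_nil ke_351
theorem ce_352 : CutGood Pe Se G1_48 (fv1 G1_48) 0 0x80000005800000028000000480000000 0x8000000e8000000c7ffffff680000001 :=
  chk1_sound oke (by decide) lge cs_nil ke_352
theorem ce_353 : CutGood Pe Se G1_48 (fv1 G1_48) 0 0x80000005800000028000000480000000 0x800000037ffffffe8000000280000002 :=
  chk1_sound oke (by decide) lge (cs_cons ce_352 cs_nil) ke_353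
theorem ce_354 : CutGood Pe Se G1_48 (fv1 G1_48) 0 0x8000000280000001800000067ffffffe 0x800000017fffffff7fffffff80000002 :=
  chk1_sound oke (by decide) lge cs_nil ke_354
theorem ce_355 : CutGood Pe Se G1_48 (fv1 G1_48) 0 0x8000000b7ffffff38000000480000003 0x80000001800000028000000080000004 :=
  chk1_sound oke (by decide) lge cs_nil ke_355
theorem ce_356 : CutGood Pe Se G1_48 (fv1 G1_48) 0 0x800000017ffffff38000000c7fffffff 0x80000001800000028000000080000004 :=
  chk1_sound oke (by decide) lge cs_nil ke_356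
theorem ce_357 : CutGood Pe Se G1_48 (fv1 G1_48) 0 0x800000017ffffffd8000001080000007 0x80000001800000028000000080000004 :=
  chk1_sound oke (by decide) lge cs_nil ke_357
theorem ce_358 : CutGood Pe Se G1_48 (fv1 G1_48) 0 0x800000047ffffffe8000000580000000 0x8000000580000005800000037ffffffe :=
  chk1_sound oke (by decide) lge cs_nil ke_358
theorem ce_359 : CutGood Pe Se G1_48 (fv1 G1_48) 0 0x800000047ffffffe8000000580000000 0x800000037ffffffe8000000280000002 :=
  chk1_sound oke (by decide) lge cs_nil ke_359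
theorem ce_360 : CutGood Pe Se G1_48 (fv1 G1_48) 0 0x7ffffffe800000048000000580000000 0x80000001800000028000000080000004 :=
  chk1_sound oke (by decide) lge cs_nil ke_360
theorem ce_361 : CutGood Pe Se G1_48 (fv1 G1_48) 0 0x8000000d8000000c8000000180000001 0x80000001800000028000000080000004 :=
  chk1_sound oke (by decide) lge cs_nil ke_361
theorem ce_362 : CutGood Pe Se G1_48 (fv1 G1_48) 0 0x800000058000000c800000058000000b 0x80000001800000028000000080000004 :=
  chk1_sound oke (by decide) lge cs_nil ke_362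
theorem ce_363 : CutGood Pe Se G1_48 (fv1 G1_48) 0 0x80000001800000028000000680000002 0x80000001800000028000000080000004 :=
  chk1_sound oke (by decide) lge cs_nil ke_363
theorem ce_364 : CutGood Pe Se G1_48 (fv1 G1_48) 0 0x80000001800000028000000680000002 0x800000037ffffffe8000000280000002 :=
  chk1_sound oke (by decide) lge cs_nil ke_364
theorem ce_365 : CutGood Pe Se G1_48 (fv1 G1_48) 0 0x7fffffff800000068000000280000002 0x80000001800000028000000080000004 :=
  chk1_sound oke (by decide) lge cs_nil ke_365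
theorem ce_366 : CutGood Pe Se G1_48 (fv1 G1_48) 0 0x80000002800000048000000380000004 0x800000037ffffffe8000000280000002 :=
  chk1_sound oke (by decide) lge cs_nil ke_366
theorem ce_367 : CutGood Pe Se G1_48 (fv1 G1_48) 0 0x80000000800000028000000280000001 0x800000017fffffff7fffffff80000002 :=
  chk1_sound oke (by decide) lge (cs_cons ce_360 (cs_cons ce_361 (cs_cons ce_362 (cs_cons ce_363 (cs_cons ce_364 (cs_cons ce_365 (cs_cons ce_366 cs_nil))))))) ke_367
theorem ce_368 : CutGood Pe Se G1_48 (fv1 G1_48) 0 0x7ffffffe7ffffffd800000017ffffff5 0x7fffffff7fffffff7fffffff80000002 :=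
  chk1_sound oke (by decide) lge cs_nil ke_368
theorem ce_369 : CutGood Pe Se G1_48 (fv1 G1_48) 0 0x8000000680000007800000017ffffff9 0x800000007ffffffe7ffffffa80000003 :=
  chk1_sound oke (by decide) lge cs_nil ke_369
theorem ce_370 : CutGood Pe Se G1_48 (fv1 G1_48) 0 0x7ffffffa7ffffffb8000000a7fffffe4 0x800000027fffffff8000000080000004 :=
  chk1_sound oke (by decide) lge cs_nil ke_370
theorem ce_371 : CutGood Pe Se G1_48 (fv1 G1_48) 0 0x7ffffffb7ffffffa800000077ffffffb 0x7fffffff7fffffff7fffffff80000002 :=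
  chk1_sound oke (by decide) lge (cs_cons ce_370 cs_nil) ke_371
theorem ce_372 : CutGood Pe Se G1_48 (fv1 G1_48) 0 0x80000002800000018000000380000001 0x7fffffff7fffffff7fffffff80000002 :=
  chk1_sound oke (by decide) lge (cs_cons ce_368 (cs_cons ce_369 (cs_cons ce_371 cs_nil))) ke_372
theorem ce_373 : CutGood Pe Se G1_48 (fv1 G1_48) 0 0x7fffffff80000003800000057ffffff6 0x7fffffff7fffffff7fffffff80000002 :=
  chk1_sound oke (by decide) lge cs_nil ke_373
theorem ce_374 : CutGood Pe Se G1_48 (fv1 G1_48) 0 0x80000007800000048000000e7ffffff4 0x800000057ffffff37ffffff98000000a :=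
  chk1_sound oke (by decide) lge cs_nil ke_374
theorem ce_375 : CutGood Pe Se G1_48 (fv1 G1_48) 0 0x7fffffff800000038000000b80000002 0x7fffffff7fffffff7fffffff80000002 :=
  chk1_sound oke (by decide) lge (cs_cons ce_374 cs_nil) ke_375
theorem ce_376 : CutGood Pe Se G1_48 (fv1 G1_48) 0 0x7ffffff980000001800000097ffffffe 0x800000027ffffffc7ffffffe80000005 :=
  chk1_sound oke (by decide) lge cs_nil ke_376
theorem ce_377 : CutGood Pe Se G1_48 (fv1 G1_48) 0 0x7ffffffb80000005800000037fffffde 0x800000007ffffffe7ffffffa80000003 :=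
  chk1_sound oke (by decide) lge cs_nil ke_377
theorem ce_378 : CutGood Pe Se G1_48 (fv1 G1_48) 0 0x7ffffff980000001800000097ffffffe 0x7fffffff7fffffff7fffffff80000002 :=
  chk1_sound oke (by decide) lge (cs_cons ce_376 (cs_cons ce_377 cs_nil)) ke_378
theorem ce_379 : CutGood Pe Se G1_48 (fv1 G1_48) 0 0x80000003800000018000000180000002 0x7fffffff7fffffff7fffffff80000002 :=
  chk1_sound oke (by decide) lge (cs_cons ce_373 (cs_cons ce_375 (cs_cons ce_378 cs_nil))) ke_379
theorem ce_380 : CutGood Pe Se G1_48 (fv1 G1_48) 0 0x80000007800000017ffffff97ffffffa 0x7fffffff7fffffff7fffffff80000002 :=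
  chk1_sound oke (by decide) lge cs_nil ke_380
theorem ce_381 : CutGood Pe Se G1_48 (fv1 G1_48) 0 0x80000000800000058000001180000001 0x7fffffff7fffffff7fffffff80000002 :=
  chk1_sound oke (by decide) lge cs_nil ke_381
theorem ce_382 : CutGood Pe Se G1_48 (fv1 G1_48) 0 0x80000003800000048000000480000002 0x7fffffff7fffffff7fffffff80000002 :=
  chk1_sound oke (by decide) lge (cs_cons ce_381 cs_nil) ke_382
theorem ce_383 : CutGood Pe Se G1_48 (fv1 G1_48) 0 0x8000000780000001800000027ffffff7 0x800000027ffffffc7ffffffe80000005 :=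
  chk1_sound oke (by decide) lge cs_nil ke_383
theorem ce_384 : CutGood Pe Se G1_48 (fv1 G1_48) 0 0x7fffffff7ffffffd800000057ffffff6 0x7fffffff7fffffff7fffffff80000002 :=
  chk1_sound oke (by decide) lge cs_nil ke_384
theorem ce_385 : CutGood Pe Se G1_48 (fv1 G1_48) 0 0x800000037fffffff8000000280000001 0x7fffffff7fffffff7fffffff80000002 :=
  chk1_sound oke (by decide) lge (cs_cons ce_380 (cs_cons ce_382 (cs_cons ce_383 (cs_cons ce_384 cs_nil)))) ke_385
theorem ce_386 : CutGood Pe Se G1_48 (fv1 G1_48) 0 0x8000000180000007800000027ffffff7 0x7fffffff7fffffff7fffffff80000002 :=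
  chk1_sound oke (by decide) lge cs_nil ke_386
theorem ce_387 : CutGood Pe Se G1_48 (fv1 G1_48) 0 0x7ffffffd8000000b7fffffff7ffffffe 0x7fffffff7fffffff7fffffff80000002 :=
  chk1_sound oke (by decide) lge cs_nil ke_387
theorem ce_388 : CutGood Pe Se G1_48 (fv1 G1_48) 0 0x7ffffff5800000008000000d7ffffffb 0x7fffffff800000008000000280000004 :=
  chk1_sound oke (by decide) lge cs_nil ke_388
theorem ce_389 : CutGood Pe Se G1_48 (fv1 G1_48) 0 0x800000028000001c800000067ffffff5 0x800000007ffffff88000000480000013 :=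
  chk1_sound oke (by decide) lge cs_nil ke_389
theorem ce_390 : CutGood Pe Se G1_48 (fv1 G1_48) 0 0x80000007800000077fffffff7ffffffa 0x7ffffffa800000007ffffffe80000003 :=
  chk1_sound oke (by decide) lge (cs_cons ce_389 cs_nil) ke_390
theorem ce_391 : CutGood Pe Se G1_48 (fv1 G1_48) 0 0x80000007800000077fffffff7ffffffa 0x7fffffff7fffffff7fffffff80000002 :=
  chk1_sound oke (by decide) lge (cs_cons ce_390 cs_nil) ke_391
theorem ce_392 : CutGood Pe Se G1_48 (fv1 G1_48) 0 0x800000038000000b8000000280000001 0x7fffffff7fffffff7fffffff80000002 :=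
  chk1_sound oke (by decide) lge cs_nil ke_392
theorem ce_393 : CutGood Pe Se G1_48 (fv1 G1_48) 0 0x800000077ffffffb800000057ffffffa 0x7fffffff7fffffff7fffffff80000002 :=
  chk1_sound oke (by decide) lge cs_nil ke_393
theorem ce_394 : CutGood Pe Se G1_48 (fv1 G1_48) 0 0x7ffffffb7fffffff800000037ffffff6 0x7fffffff7fffffff7fffffff80000002 :=
  chk1_sound oke (by decide) lge cs_nil ke_394
theorem ce_395 : CutGood Pe Se G1_48 (fv1 G1_48) 0 0x800000028000000b800000017ffffffd 0x7fffffff7fffffff7fffffff80000002 :=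
  chk1_sound oke (by decide) lge cs_nil ke_395
theorem ce_396 : CutGood Pe Se G1_48 (fv1 G1_48) 0 0x7ffffffd8000000a8000000180000005 0x7fffffff7fffffff7fffffff80000002 :=
  chk1_sound oke (by decide) lge cs_nil ke_396
theorem ce_397 : CutGood Pe Se G1_48 (fv1 G1_48) 0 0x7ffffff5800000058000000c80000005 0x7fffffff7fffffff7fffffff80000002 :=
  chk1_sound oke (by decide) lge cs_nil ke_397
theorem ce_398 : CutGood Pe Se G1_48 (fv1 G1_48) 0 0x7ffffffe7fffffff800000097ffffff9 0x7fffffff7fffffff7fffffff80000002 :=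
  chk1_sound oke (by decide) lge cs_nil ke_398
theorem ce_399 : CutGood Pe Se G1_48 (fv1 G1_48) 0 0x80000001800000008000000180000001 0x7fffffff7fffffff7fffffff80000002 :=
  chk1_sound oke (by decide) lge (cs_cons ce_372 (cs_cons ce_379 (cs_cons ce_385 (cs_cons ce_386 (cs_cons ce_387 (cs_cons ce_388 (cs_cons ce_391 (cs_cons ce_392 (cs_cons ce_393 (cs_cons ce_394 (cs_cons ce_395 (cs_cons ce_396 (cs_cons ce_397 (cs_cons ce_398 cs_nil)))))))))))))) ke_399
theorem ce_400 : CutGood Pe Se G1_48 (fv1 G1_48) 0 0x80000001800000008000000180000001 0x80000000800000008000000080000001 :=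
  chk1_sound oke (by decide) lge (cs_cons ce_225 (cs_cons ce_240 (cs_cons ce_253 (cs_cons ce_270 (cs_cons ce_271 (cs_cons ce_274 (cs_cons ce_275 (cs_cons ce_279 (cs_cons ce_283 (cs_cons ce_292 (cs_cons ce_320 (cs_cons ce_330 (cs_cons ce_331 (cs_cons ce_335 (cs_cons ce_337 (cs_cons ce_338 (cs_cons ce_339 (cs_cons ce_340 (cs_cons ce_343 (cs_cons ce_347 (cs_cons ce_348 (cs_cons ce_349 (cs_cons ce_350 (cs_cons ce_351 (cs_cons ce_353 (cs_cons ce_354 (cs_cons ce_355 (cs_cons ce_356 (cs_cons ce_357 (cs_cons ce_358 (cs_cons ce_359 (cs_cons ce_367 (cs_cons ce_399 cs_nil))))))))))))))))))))))))))))))))) ke_400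
theorem ce_401 : CutGood Pe Se G1_48 (fv1 G1_48) 0 0x800000017ffffffe800000077ffffff7 0x80000004800000048000000480000001 :=
  chk1_sound oke (by decide) lge cs_nil ke_401
theorem ce_402 : CutGood Pe Se G1_48 (fv1 G1_48) 0 0x800000017ffffffe800000077ffffff7 0x7ffffffb800000018000000b8000000e :=
  chk1_sound oke (by decide) lge cs_nil ke_402
theorem ce_403 : CutGood Pe Se G1_48 (fv1 G1_48) 0 0x800000017ffffffe800000077ffffff7 0x80000001800000018000000180000002 :=
  chk1_sound oke (by decide) lge (cs_cons ce_401 (cs_cons ce_402 cs_nil)) ke_403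
theorem ce_404 : CutGood Pe Se G1_48 (fv1 G1_48) 0 0x800000097ffffffb800000057ffffffe 0x80000001800000018000000180000002 :=
  chk1_sound oke (by decide) lge cs_nil ke_404
theorem ce_405 : CutGood Pe Se G1_48 (fv1 G1_48) 0 0x80000001800000038000000b80000002 0x80000001800000018000000180000002 :=
  chk1_sound oke (by decide) lge cs_nil ke_405
theorem ce_406 : CutGood Pe Se G1_48 (fv1 G1_48) 0 0x800000057ffffffd8000000a80000001 0x7ffffff7800000087fffffff80000001 :=
  chk1_sound oke (by decide) lge cs_nil ke_406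
theorem ce_407 : CutGood Pe Se G1_48 (fv1 G1_48) 0 0x800000057ffffffd8000000a80000001 0x80000001800000018000000180000002 :=
  chk1_sound oke (by decide) lge (cs_cons ce_406 cs_nil) ke_407
theorem ce_408 : CutGood Pe Se G1_48 (fv1 G1_48) 0 0x800000057ffffff9800000057ffffffa 0x80000001800000018000000180000002 :=
  chk1_sound oke (by decide) lge cs_nil ke_408
theorem ce_409 : CutGood Pe Se G1_48 (fv1 G1_48) 0 0x7ffffffe7ffffffb8000000480000000 0x80000000800000068000000280000003 :=
  chk1_sound oke (by decide) lge cs_nil ke_409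
theorem ce_410 : CutGood Pe Se G1_48 (fv1 G1_48) 0 0x7ffffffe7ffffffb8000000480000000 0x80000001800000018000000180000002 :=
  chk1_sound oke (by decide) lge (cs_cons ce_409 cs_nil) ke_410
theorem ce_411 : CutGood Pe Se G1_48 (fv1 G1_48) 0 0x800000057ffffffe8000000980000005 0x80000001800000018000000180000002 :=
  chk1_sound oke (by decide) lge cs_nil ke_411
theorem ce_412 : CutGood Pe Se G1_48 (fv1 G1_48) 0 0x800000107ffffffa800000087ffffff9 0x80000001800000018000000180000002 :=
  chk1_sound oke (by decide) lge cs_nil ke_412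
theorem ce_413 : CutGood Pe Se G1_48 (fv1 G1_48) 0 0x7ffffffb7ffffffe7ffffffb7ffffff7 0x80000001800000018000000180000002 :=
  chk1_sound oke (by decide) lge cs_nil ke_413
theorem ce_414 : CutGood Pe Se G1_48 (fv1 G1_48) 0 0x800000017ffffff48000000b7ffffff9 0x80000001800000018000000180000002 :=
  chk1_sound oke (by decide) lge cs_nil ke_414
theorem ce_415 : CutGood Pe Se G1_48 (fv1 G1_48) 0 0x7ffffff980000004800000097ffffff3 0x80000001800000018000000180000002 :=
  chk1_sound oke (by decide) lge cs_nil ke_415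
theorem ce_416 : CutGood Pe Se G1_48 (fv1 G1_48) 0 0x7fffffff7ffffff88000000f80000005 0x80000001800000018000000180000002 :=
  chk1_sound oke (by decide) lge cs_nil ke_416
theorem ce_417 : CutGood Pe Se G1_48 (fv1 G1_48) 0 0x7fffffff7ffffffb800000037ffffff6 0x80000001800000018000000180000002 :=
  chk1_sound oke (by decide) lge cs_nil ke_417
theorem ce_418 : CutGood Pe Se G1_48 (fv1 G1_48) 0 0x7ffffff07fffffe68000000380000002 0x80000001800000018000000180000002 :=
  chk1_sound oke (by decide) lge cs_nil ke_418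
theorem ce_419 : CutGood Pe Se G1_48 (fv1 G1_48) 0 0x7fffffff800000037ffffffe7ffffff5 0x7ffffff6800000058000001e7ffffffe :=
  chk1_sound oke (by decide) lge cs_nil ke_419
theorem ce_420 : CutGood Pe Se G1_48 (fv1 G1_48) 0 0x7fffffff800000037ffffffe7ffffff5 0x80000001800000018000000180000002 :=
  chk1_sound oke (by decide) lge (cs_cons ce_419 cs_nil) ke_420
theorem ce_421 : CutGood Pe Se G1_48 (fv1 G1_48) 0 0x7ffffffb7ffffff9800000067ffffffb 0x80000001800000018000000180000002 :=
  chk1_sound oke (by decide) lge cs_nil ke_421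
theorem ce_422 : CutGood Pe Se G1_48 (fv1 G1_48) 0 0x800000007fffffef7ffffffc8000000a 0x80000001800000018000000180000002 :=
  chk1_sound oke (by decide) lge cs_nil ke_422
theorem ce_423 : CutGood Pe Se G1_48 (fv1 G1_48) 0 0x7ffffffb7ffffffd7fffffff7ffffff6 0x80000001800000018000000180000002 :=
  chk1_sound oke (by decide) lge cs_nil ke_423
theorem ce_424 : CutGood Pe Se G1_48 (fv1 G1_48) 0 0x7ffffffc800000028000000580000000 0x80000001800000048000000280000000 :=
  chk1_sound oke (by decide) lge cs_nil ke_424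
theorem ce_425 : CutGood Pe Se G1_48 (fv1 G1_48) 0 0x7ffffffe80000000800000027fffffff 0x80000001800000018000000180000002 :=
  chk1_sound oke (by decide) lge (cs_cons ce_412 (cs_cons ce_413 (cs_cons ce_414 (cs_cons ce_415 (cs_cons ce_416 (cs_cons ce_417 (cs_cons ce_418 (cs_cons ce_420 (cs_cons ce_421 (cs_cons ce_422 (cs_cons ce_423 (cs_cons ce_424 cs_nil)))))))))))) ke_425
theorem ce_426 : CutGood Pe Se G1_48 (fv1 G1_48) 0 0x800000037ffffff67ffffffb7fffffff 0x7ffffffc8000000b8000000180000003 :=
  chk1_sound oke (by decide) lge cs_nil ke_426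
theorem ce_427 : CutGood Pe Se G1_48 (fv1 G1_48) 0 0x7ffffffe7ffffffa800000027fffffff 0x80000001800000048000000280000000 :=
  chk1_sound oke (by decide) lge (cs_cons ce_426 cs_nil) ke_427
theorem ce_428 : CutGood Pe Se G1_48 (fv1 G1_48) 0 0x7ffffffe7ffffffa800000027fffffff 0x800000017ffffffc8000000b80000003 :=
  chk1_sound oke (by decide) lge cs_nil ke_428
theorem ce_429 : CutGood Pe Se G1_48 (fv1 G1_48) 0 0x7ffffffe7ffffffa800000027fffffff 0x80000002800000018000000480000000 :=
  chk1_sound oke (by decide) lge (cs_cons ce_428 cs_nil) ke_429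
theorem ce_430 : CutGood Pe Se G1_48 (fv1 G1_48) 0 0x800000057ffffffb8000000980000002 0x80000001800000097ffffff180000006 :=
  chk1_sound oke (by decide) lge cs_nil ke_430
theorem ce_431 : CutGood Pe Se G1_48 (fv1 G1_48) 0 0x8000000d7ffffffa8000000e80000002 0x80000002800000008000000680000003 :=
  chk1_sound oke (by decide) lge cs_nil ke_431
theorem ce_432 : CutGood Pe Se G1_48 (fv1 G1_48) 0 0x800000037ffffff58000000280000001 0x7ffffffe800000028000000480000005 :=
  chk1_sound oke (by decide) lge cs_nil ke_432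
theorem ce_433 : CutGood Pe Se G1_48 (fv1 G1_48) 0 0x7ffffffd7ffffffc8000000480000002 0x80000001800000018000000180000002 :=
  chk1_sound oke (by decide) lge (cs_cons ce_430 (cs_cons ce_431 (cs_cons ce_432 cs_nil))) ke_433
theorem ce_434 : CutGood Pe Se G1_48 (fv1 G1_48) 0 0x8000000a7ffffff37ffffffa8000000a 0x80000002800000008000000680000003 :=
  chk1_sound oke (by decide) lge cs_nil ke_434
theorem ce_435 : CutGood Pe Se G1_48 (fv1 G1_48) 0 0x8000000a7ffffff37ffffffa8000000a 0x80000001800000018000000180000002 :=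
  chk1_sound oke (by decide) lge (cs_cons ce_434 cs_nil) ke_435
theorem ce_436 : CutGood Pe Se G1_48 (fv1 G1_48) 0 0x7ffffffc7ffffffb8000000080000002 0x80000001800000018000000180000002 :=
  chk1_sound oke (by decide) lge (cs_cons ce_435 cs_nil) ke_436
theorem ce_437 : CutGood Pe Se G1_48 (fv1 G1_48) 0 0x7ffffffc7ffffffd800000047ffffffe 0x80000006800000028000000080000003 :=
  chk1_sound oke (by decide) lge cs_nil ke_437
theorem ce_438 : CutGood Pe Se G1_48 (fv1 G1_48) 0 0x7ffffffc7ffffffd800000047ffffffe 0x80000001800000018000000180000002 :=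
  chk1_sound oke (by decide) lge (cs_cons ce_437 cs_nil) ke_438
theorem ce_439 : CutGood Pe Se G1_48 (fv1 G1_48) 0 0x7ffffffa7ffffffe8000000280000001 0x7fffffff800000008000000480000002 :=
  chk1_sound oke (by decide) lge cs_nil ke_439
theorem ce_440 : CutGood Pe Se G1_48 (fv1 G1_48) 0 0x7fffffff800000008000000180000001 0x80000001800000018000000180000002 :=
  chk1_sound oke (by decide) lge (cs_cons ce_403 (cs_cons ce_404 (cs_cons ce_405 (cs_cons ce_407 (cs_cons ce_408 (cs_cons ce_410 (cs_cons ce_411 (cs_cons ce_425 (cs_cons ce_427 (cs_cons ce_429 (cs_cons ce_433 (cs_cons ce_436 (cs_cons ce_438 (cs_cons ce_439 cs_nil)))))))))))))) ke_440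
theorem ce_441 : CutGood Pe Se G1_48 (fv1 G1_48) 0 0x7ffffffe7fffffff8000000380000001 0x8000000c7fffffe78000000580000017 :=
  chk1_sound oke (by decide) lge cs_nil ke_441
theorem ce_442 : CutGood Pe Se G1_48 (fv1 G1_48) 0 0x7ffffffe7fffffff8000000380000001 0x7ffffff67ffffff2800000087ffffff7 :=
  chk1_sound oke (by decide) lge cs_nil ke_442
theorem ce_443 : CutGood Pe Se G1_48 (fv1 G1_48) 0 0x7ffffff97ffffffc8000000280000006 0x7ffffffb7fffffff800000017ffffffa :=
  chk1_sound oke (by decide) lge cs_nil ke_443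
theorem ce_444 : CutGood Pe Se G1_48 (fv1 G1_48) 0 0x7ffffff97ffffffc8000000280000006 0x80000002800000058000000c7ffffffc :=
  chk1_sound oke (by decide) lge cs_nil ke_444
theorem ce_445 : CutGood Pe Se G1_48 (fv1 G1_48) 0 0x7ffffffe7fffffff8000000380000001 0x800000017ffffffd8000000780000002 :=
  chk1_sound oke (by decide) lge (cs_cons ce_444 cs_nil) ke_445
theorem ce_446 : CutGood Pe Se G1_48 (fv1 G1_48) 0 0x7ffffff97ffffffe800000067ffffffc 0x8000000a7ffffffd8000000480000008 :=
  chk1_sound oke (by decide) lge cs_nil ke_446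
theorem ce_447 : CutGood Pe Se G1_48 (fv1 G1_48) 0 0x7ffffffe7fffffff8000000380000001 0x8000001c7ffffff3800000117ffffff7 :=
  chk1_sound oke (by decide) lge cs_nil ke_447
theorem ce_448 : CutGood Pe Se G1_48 (fv1 G1_48) 0 0x7ffffffe7fffffff8000000380000001 0x800000057ffffffc8000000c80000002 :=
  chk1_sound oke (by decide) lge (cs_cons ce_447 cs_nil) ke_448
theorem ce_449 : CutGood Pe Se G1_48 (fv1 G1_48) 0 0x7ffffffe7fffffff8000000380000001 0x7fffffff800000018000000180000002 :=
  chk1_sound oke (by decide) lge (cs_cons ce_441 (cs_cons ce_442 (cs_cons ce_443 (cs_cons ce_445 (cs_cons ce_446 (cs_cons ce_448 cs_nil)))))) ke_449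
theorem ce_450 : CutGood Pe Se G1_48 (fv1 G1_48) 0 0x8000000580000001800000037ffffff6 0x7fffffff800000018000000180000002 :=
  chk1_sound oke (by decide) lge cs_nil ke_450
theorem ce_451 : CutGood Pe Se G1_48 (fv1 G1_48) 0 0x8000000180000009800000027ffffff9 0x7ffffffe7ffffffe8000000480000005 :=
  chk1_sound oke (by decide) lge cs_nil ke_451
theorem ce_452 : CutGood Pe Se G1_48 (fv1 G1_48) 0 0x8000000180000002800000067ffffffe 0x7fffffff800000018000000180000002 :=
  chk1_sound oke (by decide) lge (cs_cons ce_450 (cs_cons ce_451 cs_nil)) ke_452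
theorem ce_453 : CutGood Pe Se G1_48 (fv1 G1_48) 0 0x7ffffffc80000003800000047ffffffe 0x800000057ffffff88000000780000003 :=
  chk1_sound oke (by decide) lge cs_nil ke_453
theorem ce_454 : CutGood Pe Se G1_48 (fv1 G1_48) 0 0x7ffffffc80000003800000047ffffffe 0x7fffffff800000018000000180000002 :=
  chk1_sound oke (by decide) lge (cs_cons ce_453 cs_nil) ke_454
theorem ce_455 : CutGood Pe Se G1_48 (fv1 G1_48) 0 0x800000088000000f800000048000000a 0x7ffffffc800000027ffffffe80000005 :=
  chk1_sound oke (by decide) lge cs_nil ke_455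
theorem ce_456 : CutGood Pe Se G1_48 (fv1 G1_48) 0 0x8000000b800000018000000380000002 0x7fffffff800000018000000180000002 :=
  chk1_sound oke (by decide) lge (cs_cons ce_455 cs_nil) ke_456
theorem ce_457 : CutGood Pe Se G1_48 (fv1 G1_48) 0 0x80000005800000038000000a80000001 0x7ffffffc800000027ffffffe80000005 :=
  chk1_sound oke (by decide) lge cs_nil ke_457
theorem ce_458 : CutGood Pe Se G1_48 (fv1 G1_48) 0 0x7fffffff7ffffff9800000027ffffff7 0x80000000800000028000000680000003 :=
  chk1_sound oke (by decide) lge cs_nil ke_458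
theorem ce_459 : CutGood Pe Se G1_48 (fv1 G1_48) 0 0x7ffffffe7ffffffb8000000480000000 0x7ffffffc800000027ffffffe80000005 :=
  chk1_sound oke (by decide) lge cs_nil ke_459
theorem ce_460 : CutGood Pe Se G1_48 (fv1 G1_48) 0 0x7ffffffe7ffffffb8000000480000000 0x7fffffff800000018000000180000002 :=
  chk1_sound oke (by decide) lge (cs_cons ce_458 (cs_cons ce_459 cs_nil)) ke_460
theorem ce_461 : CutGood Pe Se G1_48 (fv1 G1_48) 0 0x7fffffff7fffffff8000000280000003 0x7fffffff800000018000000180000002 :=
  chk1_sound oke (by decide) lge (cs_cons ce_456 (cs_cons ce_457 (cs_cons ce_460 cs_nil))) ke_461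
theorem ce_462 : CutGood Pe Se G1_48 (fv1 G1_48) 0 0x800000007ffffffb8000001180000001 0x7fffffff800000018000000180000002 :=
  chk1_sound oke (by decide) lge cs_nil ke_462
theorem ce_463 : CutGood Pe Se G1_48 (fv1 G1_48) 0 0x7ffffffc7fffffef800000037fffffff 0x7fffffff800000018000000180000002 :=
  chk1_sound oke (by decide) lge cs_nil ke_463
theorem ce_464 : CutGood Pe Se G1_48 (fv1 G1_48) 0 0x7ffffffd7ffffffc8000000480000002 0x7fffffff800000018000000180000002 :=
  chk1_sound oke (by decide) lge (cs_cons ce_462 (cs_cons ce_463 cs_nil)) ke_464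
theorem ce_465 : CutGood Pe Se G1_48 (fv1 G1_48) 0 0x7ffffff47fffffff8000000d7fffffff 0x7ffffffd80000005800000027ffffffb :=
  chk1_sound oke (by decide) lge cs_nil ke_465
theorem ce_466 : CutGood Pe Se G1_48 (fv1 G1_48) 0 0x7ffffffb80000000800000027ffffffc 0x7fffffff800000028000000480000000 :=
  chk1_sound oke (by decide) lge (cs_cons ce_465 cs_nil) ke_466
theorem ce_467 : CutGood Pe Se G1_48 (fv1 G1_48) 0 0x7ffffffb80000000800000027ffffffc 0x7ffffffc800000018000000280000000 :=
  chk1_sound oke (by decide) lge cs_nil ke_467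
theorem ce_468 : CutGood Pe Se G1_48 (fv1 G1_48) 0 0x7ffffffb80000000800000027ffffffc 0x800000017ffffff98000000280000003 :=
  chk1_sound oke (by decide) lge cs_nil ke_468
theorem ce_469 : CutGood Pe Se G1_48 (fv1 G1_48) 0 0x800000077fffffff8000000680000007 0x80000002800000048000000280000005 :=
  chk1_sound oke (by decide) lge cs_nil ke_469
theorem ce_470 : CutGood Pe Se G1_48 (fv1 G1_48) 0 0x800000077fffffff8000000680000007 0x7fffffff800000018000000180000002 :=
  chk1_sound oke (by decide) lge (cs_cons ce_469 cs_nil) ke_470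
theorem ce_471 : CutGood Pe Se G1_48 (fv1 G1_48) 0 0x800000017ffffffd8000000b80000002 0x80000002800000048000000280000005 :=
  chk1_sound oke (by decide) lge cs_nil ke_471
theorem ce_472 : CutGood Pe Se G1_48 (fv1 G1_48) 0 0x800000067ffffff38000000a7ffffff6 0x7ffffffc800000027ffffffe80000005 :=
  chk1_sound oke (by decide) lge cs_nil ke_472
theorem ce_473 : CutGood Pe Se G1_48 (fv1 G1_48) 0 0x800000017ffffffd8000000b80000002 0x7fffffff800000018000000180000002 :=
  chk1_sound oke (by decide) lge (cs_cons ce_471 (cs_cons ce_472 cs_nil)) ke_473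
theorem ce_474 : CutGood Pe Se G1_48 (fv1 G1_48) 0 0x7ffffffd7ffffff57fffffff7ffffffe 0x7fffffff800000018000000180000002 :=
  chk1_sound oke (by decide) lge cs_nil ke_474
theorem ce_475 : CutGood Pe Se G1_48 (fv1 G1_48) 0 0x8000000280000001800000097ffffff9 0x7ffffffe7ffffffe8000000480000005 :=
  chk1_sound oke (by decide) lge cs_nil ke_475
theorem ce_476 : CutGood Pe Se G1_48 (fv1 G1_48) 0 0x7ffffff67fffffff800000057ffffffd 0x7ffffffe7ffffffe8000000480000005 :=
  chk1_sound oke (by decide) lge cs_nil ke_476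
theorem ce_477 : CutGood Pe Se G1_48 (fv1 G1_48) 0 0x7ffffffe800000038000000b7fffffff 0x7ffffffe7ffffffe8000000480000005 :=
  chk1_sound oke (by decide) lge cs_nil ke_477
theorem ce_478 : CutGood Pe Se G1_48 (fv1 G1_48) 0 0x800000007ffffffe8000000580000004 0x7ffffffe800000068000000080000003 :=
  chk1_sound oke (by decide) lge cs_nil ke_478
theorem ce_479 : CutGood Pe Se G1_48 (fv1 G1_48) 0 0x7ffffffe800000018000000180000003 0x7ffffffe800000068000000080000003 :=
  chk1_sound oke (by decide) lge (cs_cons ce_478 cs_nil) ke_479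
theorem ce_480 : CutGood Pe Se G1_48 (fv1 G1_48) 0 0x7ffffffe800000028000000680000001 0x7ffffffc800000027ffffffe80000005 :=
  chk1_sound oke (by decide) lge cs_nil ke_480
theorem ce_481 : CutGood Pe Se G1_48 (fv1 G1_48) 0 0x800000027ffffffb8000000980000005 0x7ffffffc800000027ffffffe80000005 :=
  chk1_sound oke (by decide) lge cs_nil ke_481
theorem ce_482 : CutGood Pe Se G1_48 (fv1 G1_48) 0 0x7fffffff800000008000000180000001 0x7fffffff800000018000000180000002 :=
  chk1_sound oke (by decide) lge (cs_cons ce_449 (cs_cons ce_452 (cs_cons ce_454 (cs_cons ce_461 (cs_cons ce_464 (cs_cons ce_466 (cs_cons ce_467 (cs_cons ce_468 (cs_cons ce_470 (cs_cons ce_473 (cs_cons ce_474 (cs_cons ce_475 (cs_cons ce_476 (cs_cons ce_477 (cs_cons ce_479 (cs_cons ce_480 (cs_cons ce_481 cs_nil))))))))))))))))) ke_482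
theorem ce_483 : CutGood Pe Se G1_48 (fv1 G1_48) 0 0x7ffffffe80000000800000057ffffffc 0x80000003800000028000000280000002 :=
  chk1_sound oke (by decide) lge cs_nil ke_483
theorem ce_484 : CutGood Pe Se G1_48 (fv1 G1_48) 0 0x800000027ffffff5800000037fffffff 0x8000000880000007800000057ffffffd :=
  chk1_sound oke (by decide) lge cs_nil ke_484
theorem ce_485 : CutGood Pe Se G1_48 (fv1 G1_48) 0 0x7ffffffe7ffffffb7ffffffb7ffffff7 0x8000000880000007800000057ffffffd :=
  chk1_sound oke (by decide) lge cs_nil ke_485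
theorem ce_486 : CutGood Pe Se G1_48 (fv1 G1_48) 0 0x7ffffffe7fffffff8000000380000001 0x800000017ffffffd800000077ffffffe :=
  chk1_sound oke (by decide) lge cs_nil ke_486
theorem ce_487 : CutGood Pe Se G1_48 (fv1 G1_48) 0 0x7ffffffe7fffffff8000000380000001 0x7ffffffb7fffffff800000067fffffff :=
  chk1_sound oke (by decide) lge cs_nil ke_487
theorem ce_488 : CutGood Pe Se G1_48 (fv1 G1_48) 0 0x7fffffff800000018000000380000002 0x7fffffff800000078000000280000003 :=
  chk1_sound oke (by decide) lge cs_nil ke_488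
theorem ce_489 : CutGood Pe Se G1_48 (fv1 G1_48) 0 0x7ffffffb7ffffffe8000000480000000 0x7ffffff88000000c800000088000000d :=
  chk1_sound oke (by decide) lge cs_nil ke_489
theorem ce_490 : CutGood Pe Se G1_48 (fv1 G1_48) 0 0x7fffffff800000018000000380000002 0x8000000b800000048000000180000003 :=
  chk1_sound oke (by decide) lge cs_nil ke_490
theorem ce_491 : CutGood Pe Se G1_48 (fv1 G1_48) 0 0x7fffffff800000018000000380000002 0x800000097ffffff87fffffff7fffffff :=
  chk1_sound oke (by decide) lge cs_nil ke_491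
theorem ce_492 : CutGood Pe Se G1_48 (fv1 G1_48) 0 0x7fffffff800000018000000380000002 0x800000017ffffffd800000077ffffffe :=
  chk1_sound oke (by decide) lge cs_nil ke_492
theorem ce_493 : CutGood Pe Se G1_48 (fv1 G1_48) 0 0x7fffffff800000018000000380000002 0x7ffffffb7fffffff800000067fffffff :=
  chk1_sound oke (by decide) lge cs_nil ke_493
theorem ce_494 : CutGood Pe Se G1_48 (fv1 G1_48) 0 0x80000002800000018000000680000002 0x80000003800000028000000280000002 :=
  chk1_sound oke (by decide) lge cs_nil ke_494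
theorem ce_495 : CutGood Pe Se G1_48 (fv1 G1_48) 0 0x7fffffff7fffffff8000000280000003 0x800000047fffffff8000000280000000 :=
  chk1_sound oke (by decide) lge cs_nil ke_495
theorem ce_496 : CutGood Pe Se G1_48 (fv1 G1_48) 0 0x7ffffffd800000018000000280000001 0x7fffffff800000078000000280000003 :=
  chk1_sound oke (by decide) lge cs_nil ke_496
theorem ce_497 : CutGood Pe Se G1_48 (fv1 G1_48) 0 0x7ffffffd800000018000000280000001 0x80000007800000037ffffffe7fffffff :=
  chk1_sound oke (by decide) lge cs_nil ke_497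
theorem ce_498 : CutGood Pe Se G1_48 (fv1 G1_48) 0 0x7ffffffd800000018000000280000001 0x7ffffffd800000088000000a80000004 :=
  chk1_sound oke (by decide) lge cs_nil ke_498
theorem ce_499 : CutGood Pe Se G1_48 (fv1 G1_48) 0 0x7ffffffd800000018000000280000001 0x800000017ffffffd800000077ffffffe :=
  chk1_sound oke (by decide) lge cs_nil ke_499
theorem ce_500 : CutGood Pe Se G1_48 (fv1 G1_48) 0 0x7ffffffd800000018000000280000001 0x7ffffffc800000088000001380000000 :=
  chk1_sound oke (by decide) lge cs_nil ke_500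
theorem ce_501 : CutGood Pe Se G1_48 (fv1 G1_48) 0 0x7ffffffd800000018000000280000001 0x7fffffee7ffffffe8000000780000008 :=
  chk1_sound oke (by decide) lge cs_nil ke_501
theorem ce_502 : CutGood Pe Se G1_48 (fv1 G1_48) 0 0x7ffffffd7fffffff8000000180000002 0x7fffffff800000078000000280000003 :=
  chk1_sound oke (by decide) lge cs_nil ke_502
theorem ce_503 : CutGood Pe Se G1_48 (fv1 G1_48) 0 0x7ffffffd7fffffff8000000180000002 0x7fffffff800000038000000780000002 :=
  chk1_sound oke (by decide) lge cs_nil ke_503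
theorem ce_504 : CutGood Pe Se G1_48 (fv1 G1_48) 0 0x7ffffffd7fffffff8000000180000002 0x800000057ffffffc8000000980000005 :=
  chk1_sound oke (by decide) lge cs_nil ke_504
theorem ce_505 : CutGood Pe Se G1_48 (fv1 G1_48) 0 0x7ffffffd7fffffff8000000180000002 0x800000017fffffff8000000180000002 :=
  chk1_sound oke (by decide) lge (cs_cons ce_502 (cs_cons ce_503 (cs_cons ce_504 cs_nil))) ke_505
theorem ce_506 : CutGood Pe Se G1_48 (fv1 G1_48) 0 0x7ffffffe800000018000000180000003 0x7fffffff800000038000000780000002 :=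
  chk1_sound oke (by decide) lge cs_nil ke_506
theorem ce_507 : CutGood Pe Se G1_48 (fv1 G1_48) 0 0x7ffffffe800000018000000180000003 0x80000007800000037ffffffe7fffffff :=
  chk1_sound oke (by decide) lge cs_nil ke_507
theorem ce_508 : CutGood Pe Se G1_48 (fv1 G1_48) 0 0x7ffffffe800000018000000180000003 0x7ffffffb7fffffff800000067fffffff :=
  chk1_sound oke (by decide) lge cs_nil ke_508
theorem ce_509 : CutGood Pe Se G1_48 (fv1 G1_48) 0 0x7fffffff800000008000000180000001 0x800000017fffffff8000000180000002 :=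
  chk1_sound oke (by decide) lge (cs_cons ce_483 (cs_cons ce_484 (cs_cons ce_485 (cs_cons ce_486 (cs_cons ce_487 (cs_cons ce_488 (cs_cons ce_489 (cs_cons ce_490 (cs_cons ce_491 (cs_cons ce_492 (cs_cons ce_493 (cs_cons ce_494 (cs_cons ce_495 (cs_cons ce_496 (cs_cons ce_497 (cs_cons ce_498 (cs_cons ce_499 (cs_cons ce_500 (cs_cons ce_501 (cs_cons ce_505 (cs_cons ce_506 (cs_cons ce_507 (cs_cons ce_508 cs_nil))))))))))))))))))))))) ke_509
theorem ce_510 : CutGood Pe Se G1_48 (fv1 G1_48) 0 0x800000027ffffffc8000000580000000 0x80000002800000068000000080000003 :=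
  chk1_sound oke (by decide) lge cs_nil ke_510
theorem ce_511 : CutGood Pe Se G1_48 (fv1 G1_48) 0 0x800000027ffffffc8000000580000000 0x80000001800000017fffffff80000002 :=
  chk1_sound oke (by decide) lge (cs_cons ce_510 cs_nil) ke_511
theorem ce_512 : CutGood Pe Se G1_48 (fv1 G1_48) 0 0x7ffffffa7fffffef7ffffffc7ffffff8 0x8000000d8000000d800000017ffffffe :=
  chk1_sound oke (by decide) lge cs_nil ke_512
theorem ce_513 : CutGood Pe Se G1_48 (fv1 G1_48) 0 0x7fffffff7ffffffe8000000680000002 0x80000002800000068000000080000003 :=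
  chk1_sound oke (by decide) lge (cs_cons ce_512 cs_nil) ke_513
theorem ce_514 : CutGood Pe Se G1_48 (fv1 G1_48) 0 0x7fffffff7ffffffe8000000680000002 0x80000000800000027ffffffa80000003 :=
  chk1_sound oke (by decide) lge cs_nil ke_514
theorem ce_515 : CutGood Pe Se G1_48 (fv1 G1_48) 0 0x7ffffffe7ffffffb8000000480000000 0x80000001800000017fffffff80000002 :=
  chk1_sound oke (by decide) lge cs_nil ke_515
theorem ce_516 : CutGood Pe Se G1_48 (fv1 G1_48) 0 0x7fffffff7ffffff6800000057ffffffd 0x80000001800000017fffffff80000002 :=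
  chk1_sound oke (by decide) lge cs_nil ke_516
theorem ce_517 : CutGood Pe Se G1_48 (fv1 G1_48) 0 0x800000007ffffffe8000000280000001 0x80000001800000017fffffff80000002 :=
  chk1_sound oke (by decide) lge (cs_cons ce_511 (cs_cons ce_513 (cs_cons ce_514 (cs_cons ce_515 (cs_cons ce_516 cs_nil))))) ke_517
theorem ce_518 : CutGood Pe Se G1_48 (fv1 G1_48) 0 0x7ffffffb7ffffffe8000000480000000 0x7ffffffe800000018000000080000004 :=
  chk1_sound oke (by decide) lge cs_nil ke_518
theorem ce_519 : CutGood Pe Se G1_48 (fv1 G1_48) 0 0x7ffffffb7ffffffe8000000480000000 0x80000001800000008000000280000004 :=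
  chk1_sound oke (by decide) lge cs_nil ke_519
theorem ce_520 : CutGood Pe Se G1_48 (fv1 G1_48) 0 0x7fffffff7ffffffb800000037ffffff6 0x80000001800000017fffffff80000002 :=
  chk1_sound oke (by decide) lge cs_nil ke_520
theorem ce_521 : CutGood Pe Se G1_48 (fv1 G1_48) 0 0x7fffffff800000037ffffffe7ffffff5 0x80000001800000017fffffff80000002 :=
  chk1_sound oke (by decide) lge cs_nil ke_521
theorem ce_522 : CutGood Pe Se G1_48 (fv1 G1_48) 0 0x7fffffe87fffffd57ffffff580000011 0x80000001800000017fffffff80000002 :=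
  chk1_sound oke (by decide) lge cs_nil ke_522
theorem ce_523 : CutGood Pe Se G1_48 (fv1 G1_48) 0 0x7ffffffb7ffffff9800000067ffffffb 0x80000001800000017fffffff80000002 :=
  chk1_sound oke (by decide) lge (cs_cons ce_522 cs_nil) ke_523
theorem ce_524 : CutGood Pe Se G1_48 (fv1 G1_48) 0 0x7ffffff47ffffff27ffffffc80000007 0x80000000800000027ffffffa80000003 :=
  chk1_sound oke (by decide) lge cs_nil ke_524
theorem ce_525 : CutGood Pe Se G1_48 (fv1 G1_48) 0 0x7ffffff57ffffffe800000017ffffffd 0x80000001800000017fffffff80000002 :=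
  chk1_sound oke (by decide) lge (cs_cons ce_524 cs_nil) ke_525
theorem ce_526 : CutGood Pe Se G1_48 (fv1 G1_48) 0 0x7ffffffe80000000800000027fffffff 0x80000001800000017fffffff80000002 :=
  chk1_sound oke (by decide) lge (cs_cons ce_518 (cs_cons ce_519 (cs_cons ce_520 (cs_cons ce_521 (cs_cons ce_523 (cs_cons ce_525 cs_nil)))))) ke_526
theorem ce_527 : CutGood Pe Se G1_48 (fv1 G1_48) 0 0x800000037ffffff67ffffffb7fffffff 0x80000004800000028000000280000005 :=
  chk1_sound oke (by decide) lge cs_nil ke_527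
theorem ce_528 : CutGood Pe Se G1_48 (fv1 G1_48) 0 0x7ffffffd7ffffffc8000000480000002 0x80000001800000017fffffff80000002 :=
  chk1_sound oke (by decide) lge cs_nil ke_528
theorem ce_529 : CutGood Pe Se G1_48 (fv1 G1_48) 0 0x7ffffffc7ffffffb8000000080000002 0x7ffffffe800000018000000080000004 :=
  chk1_sound oke (by decide) lge cs_nil ke_529
theorem ce_530 : CutGood Pe Se G1_48 (fv1 G1_48) 0 0x800000017ffffffd800000057ffffff6 0x80000001800000017fffffff80000002 :=
  chk1_sound oke (by decide) lge cs_nil ke_530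
theorem ce_531 : CutGood Pe Se G1_48 (fv1 G1_48) 0 0x7ffffffb7ffffffc800000007ffffffe 0x80000001800000017fffffff80000002 :=
  chk1_sound oke (by decide) lge cs_nil ke_531
theorem ce_532 : CutGood Pe Se G1_48 (fv1 G1_48) 0 0x7ffffff3800000058000000b80000000 0x80000001800000008000000280000004 :=
  chk1_sound oke (by decide) lge cs_nil ke_532
theorem ce_533 : CutGood Pe Se G1_48 (fv1 G1_48) 0 0x7ffffffe7ffffffe8000000180000000 0x80000001800000017fffffff80000002 :=
  chk1_sound oke (by decide) lge (cs_cons ce_527 (cs_cons ce_528 (cs_cons ce_529 (cs_cons ce_530 (cs_cons ce_531 (cs_cons ce_532 cs_nil)))))) ke_533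
theorem ce_534 : CutGood Pe Se G1_48 (fv1 G1_48) 0 0x7ffffff97ffffff97fffffff7ffffffa 0x7ffffff4800000018000000180000001 :=
  chk1_sound oke (by decide) lge cs_nil ke_534
theorem ce_535 : CutGood Pe Se G1_48 (fv1 G1_48) 0 0x7fffffff800000018000000380000002 0x7ffffff2800000048000000f80000002 :=
  chk1_sound oke (by decide) lge cs_nil ke_535
theorem ce_536 : CutGood Pe Se G1_48 (fv1 G1_48) 0 0x7fffffff800000018000000380000002 0x7ffffffd800000028000000280000002 :=
  chk1_sound oke (by decide) lge (cs_cons ce_534 (cs_cons ce_535 cs_nil)) ke_536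
theorem ce_537 : CutGood Pe Se G1_48 (fv1 G1_48) 0 0x7fffffff800000018000000380000002 0x7ffffffb7ffffffb800000037ffffffe :=
  chk1_sound oke (by decide) lge cs_nil ke_537
theorem ce_538 : CutGood Pe Se G1_48 (fv1 G1_48) 0 0x7fffffff800000018000000380000002 0x800000027ffffff7800000028000000a :=
  chk1_sound oke (by decide) lge cs_nil ke_538
theorem ce_539 : CutGood Pe Se G1_48 (fv1 G1_48) 0 0x7fffffff800000018000000380000002 0x800000067ffffff57ffffffc7ffffffc :=
  chk1_sound oke (by decide) lge cs_nil ke_539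
theorem ce_540 : CutGood Pe Se G1_48 (fv1 G1_48) 0 0x7fffffff7ffffff9800000027ffffff7 0x7fffffff800000017fffffff80000002 :=
  chk1_sound oke (by decide) lge cs_nil ke_540
theorem ce_541 : CutGood Pe Se G1_48 (fv1 G1_48) 0 0x7fffffff7fffffff8000000280000003 0x7fffffff800000017fffffff80000002 :=
  chk1_sound oke (by decide) lge (cs_cons ce_540 cs_nil) ke_541
theorem ce_542 : CutGood Pe Se G1_48 (fv1 G1_48) 0 0x8000000180000003800000057ffffff6 0x7ffffffc800000047ffffffc80000001 :=
  chk1_sound oke (by decide) lge cs_nil ke_542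
theorem ce_543 : CutGood Pe Se G1_48 (fv1 G1_48) 0 0x7ffffffe7fffffff800000067ffffffe 0x7fffffff800000017fffffff80000002 :=
  chk1_sound oke (by decide) lge (cs_cons ce_542 cs_nil) ke_543
theorem ce_544 : CutGood Pe Se G1_48 (fv1 G1_48) 0 0x7ffffffb80000000800000027ffffffc 0x7fffffff800000017fffffff80000002 :=
  chk1_sound oke (by decide) lge cs_nil ke_544
theorem ce_545 : CutGood Pe Se G1_48 (fv1 G1_48) 0 0x7fffffff800000038000000a7ffffffb 0x7fffffff800000017fffffff80000002 :=
  chk1_sound oke (by decide) lge cs_nil ke_545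
theorem ce_546 : CutGood Pe Se G1_48 (fv1 G1_48) 0 0x7ffffffa7fffffef7ffffffc7ffffff8 0x7ffffffc800000047ffffffc80000001 :=
  chk1_sound oke (by decide) lge cs_nil ke_546
theorem ce_547 : CutGood Pe Se G1_48 (fv1 G1_48) 0 0x800000007ffffffb8000000280000004 0x7fffffff800000008000000b80000005 :=
  chk1_sound oke (by decide) lge cs_nil ke_547
theorem ce_548 : CutGood Pe Se G1_48 (fv1 G1_48) 0 0x7ffffff97ffffffc8000000e7ffffff4 0x7ffffffa800000028000000080000003 :=
  chk1_sound oke (by decide) lge cs_nil ke_548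
theorem ce_549 : CutGood Pe Se G1_48 (fv1 G1_48) 0 0x800000007ffffffb8000000280000004 0x7ffffffc7fffffff8000000780000009 :=
  chk1_sound oke (by decide) lge cs_nil ke_549
theorem ce_550 : CutGood Pe Se G1_48 (fv1 G1_48) 0 0x800000007ffffffb8000000280000004 0x800000027ffffff27ffffff180000004 :=
  chk1_sound oke (by decide) lge cs_nil ke_550
theorem ce_551 : CutGood Pe Se G1_48 (fv1 G1_48) 0 0x800000007ffffffb8000000280000004 0x7ffffffe800000007ffffffa80000003 :=
  chk1_sound oke (by decide) lge cs_nil ke_551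
theorem ce_552 : CutGood Pe Se G1_48 (fv1 G1_48) 0 0x800000007ffffffb8000000280000004 0x7fffffff800000017fffffff80000002 :=
  chk1_sound oke (by decide) lge (cs_cons ce_547 (cs_cons ce_548 (cs_cons ce_549 (cs_cons ce_550 (cs_cons ce_551 cs_nil))))) ke_552
theorem ce_553 : CutGood Pe Se G1_48 (fv1 G1_48) 0 0x7ffffffd7fffffff8000000180000002 0x7fffffff800000017fffffff80000002 :=
  chk1_sound oke (by decide) lge (cs_cons ce_545 (cs_cons ce_546 (cs_cons ce_552 cs_nil))) ke_553
theorem ce_554 : CutGood Pe Se G1_48 (fv1 G1_48) 0 0x7ffffffc7ffffffc8000000280000003 0x7fffffff800000008000000b80000005 :=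
  chk1_sound oke (by decide) lge cs_nil ke_554
theorem ce_555 : CutGood Pe Se G1_48 (fv1 G1_48) 0 0x7ffffffc7ffffffc8000000280000003 0x7ffffffc7ffffffe7ffffffe80000005 :=
  chk1_sound oke (by decide) lge cs_nil ke_555
theorem ce_556 : CutGood Pe Se G1_48 (fv1 G1_48) 0 0x7ffffffc7ffffffc8000000280000003 0x7ffffffc800000047ffffffc80000001 :=
  chk1_sound oke (by decide) lge cs_nil ke_556
theorem ce_557 : CutGood Pe Se G1_48 (fv1 G1_48) 0 0x7fffffff800000008000000180000001 0x7fffffff800000017fffffff80000002 :=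
  chk1_sound oke (by decide) lge (cs_cons ce_536 (cs_cons ce_537 (cs_cons ce_538 (cs_cons ce_539 (cs_cons ce_541 (cs_cons ce_543 (cs_cons ce_544 (cs_cons ce_553 (cs_cons ce_554 (cs_cons ce_555 (cs_cons ce_556 cs_nil))))))))))) ke_557
theorem ce_558 : CutGood Pe Se G1_48 (fv1 G1_48) 0 0x800000097fffffff8000000d80000008 0x800000017fffffff7fffffff80000002 :=
  chk1_sound oke (by decide) lge cs_nil ke_558
theorem ce_559 : CutGood Pe Se G1_48 (fv1 G1_48) 0 0x800000027ffffffe800000067fffffff 0x800000017fffffff7fffffff80000002 :=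
  chk1_sound oke (by decide) lge (cs_cons ce_558 cs_nil) ke_559
theorem ce_560 : CutGood Pe Se G1_48 (fv1 G1_48) 0 0x8000000580000003800000107ffffffb 0x800000017fffffff7fffffff80000002 :=
  chk1_sound oke (by decide) lge cs_nil ke_560
theorem ce_561 : CutGood Pe Se G1_48 (fv1 G1_48) 0 0x7ffffffc7ffffffc800000027ffffffd 0x800000047ffffffc7ffffffc80000001 :=
  chk1_sound oke (by decide) lge cs_nil ke_561
theorem ce_562 : CutGood Pe Se G1_48 (fv1 G1_48) 0 0x7ffffffc7ffffffc800000027ffffffd 0x800000017fffffff7fffffff80000002 :=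
  chk1_sound oke (by decide) lge (cs_cons ce_561 cs_nil) ke_562
theorem ce_563 : CutGood Pe Se G1_48 (fv1 G1_48) 0 0x8000000180000002800000067ffffffe 0x800000017fffffff7fffffff80000002 :=
  chk1_sound oke (by decide) lge cs_nil ke_563
theorem ce_564 : CutGood Pe Se G1_48 (fv1 G1_48) 0 0x7ffffffb7ffffffe8000000480000000 0x800000017fffffff7fffffff80000002 :=
  chk1_sound oke (by decide) lge cs_nil ke_564
theorem ce_565 : CutGood Pe Se G1_48 (fv1 G1_48) 0 0x7fffffff7ffffffe8000000680000002 0x800000017fffffff7fffffff80000002 :=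
  chk1_sound oke (by decide) lge cs_nil ke_565
theorem ce_566 : CutGood Pe Se G1_48 (fv1 G1_48) 0 0x800000027fffffff8000001480000000 0x800000017fffffff7fffffff80000002 :=
  chk1_sound oke (by decide) lge cs_nil ke_566
theorem ce_567 : CutGood Pe Se G1_48 (fv1 G1_48) 0 0x800000007ffffffb8000000280000004 0x800000017fffffff7fffffff80000002 :=
  chk1_sound oke (by decide) lge (cs_cons ce_566 cs_nil) ke_567
theorem ce_568 : CutGood Pe Se G1_48 (fv1 G1_48) 0 0x7ffffffe800000028000000680000001 0x800000007fffffff8000000280000004 :=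
  chk1_sound oke (by decide) lge cs_nil ke_568
theorem ce_569 : CutGood Pe Se G1_48 (fv1 G1_48) 0 0x7fffffff800000008000000180000001 0x800000017fffffff7fffffff80000002 :=
  chk1_sound oke (by decide) lge (cs_cons ce_559 (cs_cons ce_560 (cs_cons ce_562 (cs_cons ce_563 (cs_cons ce_564 (cs_cons ce_565 (cs_cons ce_567 (cs_cons ce_568 cs_nil)))))))) ke_569
theorem ce_570 : CutGood Pe Se G1_48 (fv1 G1_48) 0 0x800000067ffffff9800000017ffffff9 0x7ffffffc7ffffffe8000000280000005 :=
  chk1_sound oke (by decide) lge cs_nil ke_570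
theorem ce_571 : CutGood Pe Se G1_48 (fv1 G1_48) 0 0x800000067ffffff9800000017ffffff9 0x800000027ffffffc7ffffffe80000005 :=
  chk1_sound oke (by decide) lge cs_nil ke_571
theorem ce_572 : CutGood Pe Se G1_48 (fv1 G1_48) 0 0x800000067ffffff9800000017ffffff9 0x7ffffffe800000027ffffffc80000005 :=
  chk1_sound oke (by decide) lge cs_nil ke_572
theorem ce_573 : CutGood Pe Se G1_48 (fv1 G1_48) 0 0x7ffffffa7ffffff87ffffffc7fffffef 0x7ffffffc7ffffffe8000000280000005 :=
  chk1_sound oke (by decide) lge cs_nil ke_573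
theorem ce_574 : CutGood Pe Se G1_48 (fv1 G1_48) 0 0x800000017ffffffe800000077ffffff7 0x800000027ffffffc7ffffffe80000005 :=
  chk1_sound oke (by decide) lge cs_nil ke_574
theorem ce_575 : CutGood Pe Se G1_48 (fv1 G1_48) 0 0x800000017ffffffe800000077ffffff7 0x7ffffffe7ffffffa8000000080000003 :=
  chk1_sound oke (by decide) lge cs_nil ke_575
theorem ce_576 : CutGood Pe Se G1_48 (fv1 G1_48) 0 0x800000017ffffffe800000077ffffff7 0x7ffffffe800000027ffffffc80000005 :=
  chk1_sound oke (by decide) lge cs_nil ke_576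
theorem ce_577 : CutGood Pe Se G1_48 (fv1 G1_48) 0 0x800000027ffffffc8000000580000000 0x7fffffff7fffffff7fffffff80000002 :=
  chk1_sound oke (by decide) lge (cs_cons ce_570 (cs_cons ce_571 (cs_cons ce_572 (cs_cons ce_573 (cs_cons ce_574 (cs_cons ce_575 (cs_cons ce_576 cs_nil))))))) ke_577
theorem ce_578 : CutGood Pe Se G1_48 (fv1 G1_48) 0 0x80000010800000098000000880000002 0x7ffffffc7ffffffc7ffffffc80000001 :=
  chk1_sound oke (by decide) lge cs_nil ke_578
theorem ce_579 : CutGood Pe Se G1_48 (fv1 G1_48) 0 0x80000010800000098000000880000002 0x7fffffff7fffffff7fffffff80000002 :=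
  chk1_sound oke (by decide) lge (cs_cons ce_578 cs_nil) ke_579
theorem ce_580 : CutGood Pe Se G1_48 (fv1 G1_48) 0 0x80000001800000038000000b80000002 0x7fffffff7fffffff7fffffff80000002 :=
  chk1_sound oke (by decide) lge cs_nil ke_580
theorem ce_581 : CutGood Pe Se G1_48 (fv1 G1_48) 0 0x7fffffef7fffffe0800000017fffffd9 0x7fffffff7fffffff7fffffff80000002 :=
  chk1_sound oke (by decide) lge cs_nil ke_581
theorem ce_582 : CutGood Pe Se G1_48 (fv1 G1_48) 0 0x800000017ffffffb8000000a7ffffffd 0x7fffffff7fffffff7fffffff80000002 :=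
  chk1_sound oke (by decide) lge (cs_cons ce_581 cs_nil) ke_582
theorem ce_583 : CutGood Pe Se G1_48 (fv1 G1_48) 0 0x7ffffffb7ffffff4800000058000000b 0x7fffffff7fffffff7fffffff80000002 :=
  chk1_sound oke (by decide) lge cs_nil ke_583
theorem ce_584 : CutGood Pe Se G1_48 (fv1 G1_48) 0 0x7ffffff37ffffff48000000180000001 0x80000000800000018000001f7fffffed :=
  chk1_sound oke (by decide) lge cs_nil ke_584
theorem ce_585 : CutGood Pe Se G1_48 (fv1 G1_48) 0 0x7ffffff37ffffff48000000180000001 0x7fffffff7fffffff7fffffff80000002 :=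
  chk1_sound oke (by decide) lge (cs_cons ce_584 cs_nil) ke_585
theorem ce_586 : CutGood Pe Se G1_48 (fv1 G1_48) 0 0x7ffffff37ffffffc8000000b7ffffffd 0x7fffffff7fffffff7fffffff80000002 :=
  chk1_sound oke (by decide) lge cs_nil ke_586
theorem ce_587 : CutGood Pe Se G1_48 (fv1 G1_48) 0 0x7ffffffe7ffffffc8000000380000004 0x800000007fffffff8000000b80000005 :=
  chk1_sound oke (by decide) lge cs_nil ke_587
theorem ce_588 : CutGood Pe Se G1_48 (fv1 G1_48) 0 0x7ffffffe7ffffffc8000000380000004 0x800000047ffffff0800000007ffffff3 :=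
  chk1_sound oke (by decide) lge cs_nil ke_588
theorem ce_589 : CutGood Pe Se G1_48 (fv1 G1_48) 0 0x800000057ffffffe8000000980000005 0x7ffffffe800000027ffffffc80000005 :=
  chk1_sound oke (by decide) lge cs_nil ke_589
theorem ce_590 : CutGood Pe Se G1_48 (fv1 G1_48) 0 0x7ffffffe7ffffffc8000000380000004 0x7ffffffc7ffffffc7ffffffc80000001 :=
  chk1_sound oke (by decide) lge cs_nil ke_590
theorem ce_591 : CutGood Pe Se G1_48 (fv1 G1_48) 0 0x800000007ffffffe8000000280000001 0x7fffffff7fffffff7fffffff80000002 :=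
  chk1_sound oke (by decide) lge (cs_cons ce_577 (cs_cons ce_579 (cs_cons ce_580 (cs_cons ce_582 (cs_cons ce_583 (cs_cons ce_585 (cs_cons ce_586 (cs_cons ce_587 (cs_cons ce_588 (cs_cons ce_589 (cs_cons ce_590 cs_nil))))))))))) ke_591
theorem ce_592 : CutGood Pe Se G1_48 (fv1 G1_48) 0 0x800000017ffffff6800000037ffffffb 0x7fffffff7fffffff7fffffff80000002 :=
  chk1_sound oke (by decide) lge cs_nil ke_592
theorem ce_593 : CutGood Pe Se G1_48 (fv1 G1_48) 0 0x800000027ffffffd800000017ffffff5 0x7fffffff7fffffff7fffffff80000002 :=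
  chk1_sound oke (by decide) lge cs_nil ke_593
theorem ce_594 : CutGood Pe Se G1_48 (fv1 G1_48) 0 0x7ffffff980000004800000097ffffff3 0x7fffffff7fffffff7fffffff80000002 :=
  chk1_sound oke (by decide) lge cs_nil ke_594
theorem ce_595 : CutGood Pe Se G1_48 (fv1 G1_48) 0 0x800000017ffffff9800000097ffffffe 0x7fffffff7fffffff7fffffff80000002 :=
  chk1_sound oke (by decide) lge cs_nil ke_595
theorem ce_596 : CutGood Pe Se G1_48 (fv1 G1_48) 0 0x800000067fffffea8000001380000008 0x7fffffff7fffffff7fffffff80000002 :=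
  chk1_sound oke (by decide) lge cs_nil ke_596
theorem ce_597 : CutGood Pe Se G1_48 (fv1 G1_48) 0 0x7ffffff07ffffff0800000118000000c 0x7fffffff7fffffff7fffffff80000002 :=
  chk1_sound oke (by decide) lge cs_nil ke_597
theorem ce_598 : CutGood Pe Se G1_48 (fv1 G1_48) 0 0x7ffffffb7ffffffe8000000480000000 0x7fffffff7fffffff7fffffff80000002 :=
  chk1_sound oke (by decide) lge (cs_cons ce_595 (cs_cons ce_596 (cs_cons ce_597 cs_nil))) ke_598
theorem ce_599 : CutGood Pe Se G1_48 (fv1 G1_48) 0 0x7ffffff27fffffe8800000027ffffff3 0x800000027fffffff8000000080000004 :=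
  chk1_sound oke (by decide) lge cs_nil ke_599
theorem ce_600 : CutGood Pe Se G1_48 (fv1 G1_48) 0 0x7ffffff27fffffe8800000027ffffff3 0x7fffffff7fffffff7fffffff80000002 :=
  chk1_sound oke (by decide) lge (cs_cons ce_599 cs_nil) ke_600
theorem ce_601 : CutGood Pe Se G1_48 (fv1 G1_48) 0 0x7fffffe07fffffe78000000f8000001f 0x7fffffff7fffffff7fffffff80000002 :=
  chk1_sound oke (by decide) lge cs_nil ke_601
theorem ce_602 : CutGood Pe Se G1_48 (fv1 G1_48) 0 0x7fffffe47ffffffa7ffffffe7ffffff5 0x800000017ffffffc8000000080000002 :=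
  chk1_sound oke (by decide) lge cs_nil ke_602
theorem ce_603 : CutGood Pe Se G1_48 (fv1 G1_48) 0 0x7ffffff77ffffff98000000180000002 0x7fffffff7fffffff7fffffff80000002 :=
  chk1_sound oke (by decide) lge (cs_cons ce_600 (cs_cons ce_601 (cs_cons ce_602 cs_nil))) ke_603
theorem ce_604 : CutGood Pe Se G1_48 (fv1 G1_48) 0 0x800000097ffffff38000000780000004 0x7ffffffe800000038000000280000002 :=
  chk1_sound oke (by decide) lge cs_nil ke_604
theorem ce_605 : CutGood Pe Se G1_48 (fv1 G1_48) 0 0x800000047ffffffc800000027ffffffd 0x7ffffffe800000038000000280000002 :=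
  chk1_sound oke (by decide) lge (cs_cons ce_604 cs_nil) ke_605
theorem ce_606 : CutGood Pe Se G1_48 (fv1 G1_48) 0 0x800000047ffffffc800000027ffffffd 0x7fffffff800000008000000480000002 :=
  chk1_sound oke (by decide) lge cs_nil ke_606
theorem ce_607 : CutGood Pe Se G1_48 (fv1 G1_48) 0 0x800000007ffffffe800000057ffffffc 0x7ffffffe800000038000000280000002 :=
  chk1_sound oke (by decide) lge cs_nil ke_607
theorem ce_608 : CutGood Pe Se G1_48 (fv1 G1_48) 0 0x800000077ffffffd800000107fffffff 0x7fffffff800000008000000480000002 :=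
  chk1_sound oke (by decide) lge cs_nil ke_608
theorem ce_609 : CutGood Pe Se G1_48 (fv1 G1_48) 0 0x800000017fffffff8000000280000003 0x80000001800000048000000280000000 :=
  chk1_sound oke (by decide) lge cs_nil ke_609
theorem ce_610 : CutGood Pe Se G1_48 (fv1 G1_48) 0 0x800000017fffffff8000000280000003 0x7ffffffd7fffffff8000000780000002 :=
  chk1_sound oke (by decide) lge cs_nil ke_610
theorem ce_611 : CutGood Pe Se G1_48 (fv1 G1_48) 0 0x800000047fffffff800000117ffffffd 0x7ffffff97fffffff8000000280000003 :=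
  chk1_sound oke (by decide) lge cs_nil ke_611
theorem ce_612 : CutGood Pe Se G1_48 (fv1 G1_48) 0 0x7ffffff4800000018000000e80000008 0x80000001800000018000000180000002 :=
  chk1_sound oke (by decide) lge cs_nil ke_612
theorem ce_613 : CutGood Pe Se G1_48 (fv1 G1_48) 0 0x80000005800000008000000280000004 0x80000001800000018000000180000002 :=
  chk1_sound oke (by decide) lge (cs_cons ce_612 cs_nil) ke_613
theorem ce_614 : CutGood Pe Se G1_48 (fv1 G1_48) 0 0x800000027fffffff8000000680000002 0x80000001800000018000000180000002 :=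
  chk1_sound oke (by decide) lge cs_nil ke_614
theorem ce_615 : CutGood Pe Se G1_48 (fv1 G1_48) 0 0x800000037ffffffc800000047ffffffe 0x80000001800000018000000180000002 :=
  chk1_sound oke (by decide) lge cs_nil ke_615
theorem ce_616 : CutGood Pe Se G1_48 (fv1 G1_48) 0 0x800000007fffffe67ffffff67ffffff3 0x80000001800000018000000180000002 :=
  chk1_sound oke (by decide) lge cs_nil ke_616
theorem ce_617 : CutGood Pe Se G1_48 (fv1 G1_48) 0 0x800000077ffffff97fffffff7ffffffa 0x80000001800000018000000180000002 :=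
  chk1_sound oke (by decide) lge (cs_cons ce_616 cs_nil) ke_617
theorem ce_618 : CutGood Pe Se G1_48 (fv1 G1_48) 0 0x8000000780000001800000097ffffffe 0x80000001800000018000000180000002 :=
  chk1_sound oke (by decide) lge cs_nil ke_618
theorem ce_619 : CutGood Pe Se G1_48 (fv1 G1_48) 0 0x7ffffffe80000001800000067ffffffe 0x80000004800000048000000480000001 :=
  chk1_sound oke (by decide) lge cs_nil ke_619
theorem ce_620 : CutGood Pe Se G1_48 (fv1 G1_48) 0 0x7fffffff80000005800000037ffffff6 0x80000006800000028000000080000003 :=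
  chk1_sound oke (by decide) lge cs_nil ke_620
theorem ce_621 : CutGood Pe Se G1_48 (fv1 G1_48) 0 0x7fffffff80000005800000037ffffff6 0x800000047ffffffe8000000280000005 :=
  chk1_sound oke (by decide) lge cs_nil ke_621
theorem ce_622 : CutGood Pe Se G1_48 (fv1 G1_48) 0 0x7ffffffe80000001800000067ffffffe 0x80000001800000018000000180000002 :=
  chk1_sound oke (by decide) lge (cs_cons ce_619 (cs_cons ce_620 (cs_cons ce_621 cs_nil))) ke_622
theorem ce_623 : CutGood Pe Se G1_48 (fv1 G1_48) 0 0x7fffffff7ffffff57ffffffe7ffffffd 0x80000001800000018000000180000002 :=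
  chk1_sound oke (by decide) lge cs_nil ke_623
theorem ce_624 : CutGood Pe Se G1_48 (fv1 G1_48) 0 0x7ffffffd7ffffffb7fffffff7ffffff6 0x80000000800000068000000280000003 :=
  chk1_sound oke (by decide) lge cs_nil ke_624
theorem ce_625 : CutGood Pe Se G1_48 (fv1 G1_48) 0 0x800000047ffffffd8000000480000002 0x80000004800000048000000480000001 :=
  chk1_sound oke (by decide) lge cs_nil ke_625
theorem ce_626 : CutGood Pe Se G1_48 (fv1 G1_48) 0 0x800000047ffffffd8000000480000002 0x800000047ffffffe8000000280000005 :=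
  chk1_sound oke (by decide) lge cs_nil ke_626
theorem ce_627 : CutGood Pe Se G1_48 (fv1 G1_48) 0 0x800000017ffffffe800000067ffffffe 0x80000001800000018000000180000002 :=
  chk1_sound oke (by decide) lge cs_nil ke_627
theorem ce_628 : CutGood Pe Se G1_48 (fv1 G1_48) 0 0x800000077ffffff77ffffffe7fffffff 0x80000001800000018000000180000002 :=
  chk1_sound oke (by decide) lge cs_nil ke_628
theorem ce_629 : CutGood Pe Se G1_48 (fv1 G1_48) 0 0x80000002800000017fffffec80000000 0x80000001800000018000000180000002 :=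
  chk1_sound oke (by decide) lge cs_nil ke_629
theorem ce_630 : CutGood Pe Se G1_48 (fv1 G1_48) 0 0x800000007ffffffb800000027ffffffc 0x80000001800000018000000180000002 :=
  chk1_sound oke (by decide) lge (cs_cons ce_628 (cs_cons ce_629 cs_nil)) ke_630
theorem ce_631 : CutGood Pe Se G1_48 (fv1 G1_48) 0 0x800000007fffffff8000000180000001 0x80000001800000018000000180000002 :=
  chk1_sound oke (by decide) lge (cs_cons ce_605 (cs_cons ce_606 (cs_cons ce_607 (cs_cons ce_608 (cs_cons ce_609 (cs_cons ce_610 (cs_cons ce_611 (cs_cons ce_613 (cs_cons ce_614 (cs_cons ce_615 (cs_cons ce_617 (cs_cons ce_618 (cs_cons ce_622 (cs_cons ce_623 (cs_cons ce_624 (cs_cons ce_625 (cs_cons ce_626 (cs_cons ce_627 (cs_cons ce_630 cs_nil))))))))))))))))))) ke_631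
theorem ce_632 : CutGood Pe Se G1_48 (fv1 G1_48) 0 0x7ffffff87ffffffc7fffffff7fffffee 0x80000000800000028000000680000003 :=
  chk1_sound oke (by decide) lge cs_nil ke_632
theorem ce_633 : CutGood Pe Se G1_48 (fv1 G1_48) 0 0x8000000580000009800000057ffffffe 0x7fffffff800000018000000180000002 :=
  chk1_sound oke (by decide) lge cs_nil ke_633
theorem ce_634 : CutGood Pe Se G1_48 (fv1 G1_48) 0 0x80000002800000058000000980000005 0x7fffffff800000018000000180000002 :=
  chk1_sound oke (by decide) lge cs_nil ke_634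
theorem ce_635 : CutGood Pe Se G1_48 (fv1 G1_48) 0 0x80000002800000008000000280000001 0x7fffffff800000018000000180000002 :=
  chk1_sound oke (by decide) lge (cs_cons ce_632 (cs_cons ce_633 (cs_cons ce_634 cs_nil))) ke_635
theorem ce_636 : CutGood Pe Se G1_48 (fv1 G1_48) 0 0x80000007800000027fffffff7ffffff7 0x80000000800000028000000680000003 :=
  chk1_sound oke (by decide) lge cs_nil ke_636
theorem ce_637 : CutGood Pe Se G1_48 (fv1 G1_48) 0 0x8000000680000005800000077ffffffb 0x80000000800000028000000680000003 :=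
  chk1_sound oke (by decide) lge cs_nil ke_637
theorem ce_638 : CutGood Pe Se G1_48 (fv1 G1_48) 0 0x800000067ffffffe800000027fffffff 0x7ffffffe7ffffffe8000000480000005 :=
  chk1_sound oke (by decide) lge cs_nil ke_638
theorem ce_639 : CutGood Pe Se G1_48 (fv1 G1_48) 0 0x800000067ffffffe800000027fffffff 0x7fffffff800000018000000180000002 :=
  chk1_sound oke (by decide) lge (cs_cons ce_636 (cs_cons ce_637 (cs_cons ce_638 cs_nil))) ke_639
theorem ce_640 : CutGood Pe Se G1_48 (fv1 G1_48) 0 0x800000057ffffffc8000000080000002 0x80000000800000028000000680000003 :=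
  chk1_sound oke (by decide) lge cs_nil ke_640
theorem ce_641 : CutGood Pe Se G1_48 (fv1 G1_48) 0 0x800000057ffffffc8000000080000002 0x7fffffff800000018000000180000002 :=
  chk1_sound oke (by decide) lge (cs_cons ce_640 cs_nil) ke_641
theorem ce_642 : CutGood Pe Se G1_48 (fv1 G1_48) 0 0x8000000b800000038000000280000001 0x80000000800000028000000680000003 :=
  chk1_sound oke (by decide) lge cs_nil ke_642
theorem ce_643 : CutGood Pe Se G1_48 (fv1 G1_48) 0 0x80000005800000058000000980000002 0x7ffffffc800000027ffffffe80000005 :=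
  chk1_sound oke (by decide) lge cs_nil ke_643
theorem ce_644 : CutGood Pe Se G1_48 (fv1 G1_48) 0 0x800000037ffffffc800000047ffffffe 0x80000000800000028000000680000003 :=
  chk1_sound oke (by decide) lge cs_nil ke_644
theorem ce_645 : CutGood Pe Se G1_48 (fv1 G1_48) 0 0x800000037ffffffc800000047ffffffe 0x7fffffff800000018000000180000002 :=
  chk1_sound oke (by decide) lge (cs_cons ce_644 cs_nil) ke_645
theorem ce_646 : CutGood Pe Se G1_48 (fv1 G1_48) 0 0x800000027ffffffa8000000280000001 0x7fffffff800000018000000180000002 :=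
  chk1_sound oke (by decide) lge cs_nil ke_646
theorem ce_647 : CutGood Pe Se G1_48 (fv1 G1_48) 0 0x7fffffff7ffffffa800000027ffffffe 0x7fffffff800000018000000180000002 :=
  chk1_sound oke (by decide) lge cs_nil ke_647
theorem ce_648 : CutGood Pe Se G1_48 (fv1 G1_48) 0 0x7ffffffd80000001800000057ffffff6 0x7fffffff800000018000000180000002 :=
  chk1_sound oke (by decide) lge cs_nil ke_648
theorem ce_649 : CutGood Pe Se G1_48 (fv1 G1_48) 0 0x800000007ffffffe800000027fffffff 0x7fffffff800000018000000180000002 :=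
  chk1_sound oke (by decide) lge (cs_cons ce_647 (cs_cons ce_648 cs_nil)) ke_649
theorem ce_650 : CutGood Pe Se G1_48 (fv1 G1_48) 0 0x800000027ffffff9800000067ffffffc 0x800000038000000a8000000480000008 :=
  chk1_sound oke (by decide) lge cs_nil ke_650
theorem ce_651 : CutGood Pe Se G1_48 (fv1 G1_48) 0 0x800000017ffffffe8000000380000001 0x80000004800000058000000c80000002 :=
  chk1_sound oke (by decide) lge cs_nil ke_651
theorem ce_652 : CutGood Pe Se G1_48 (fv1 G1_48) 0 0x800000047ffffff98000000280000006 0x80000003800000018000000780000002 :=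
  chk1_sound oke (by decide) lge cs_nil ke_652
theorem ce_653 : CutGood Pe Se G1_48 (fv1 G1_48) 0 0x800000017ffffffe8000000380000001 0x80000003800000018000000780000002 :=
  chk1_sound oke (by decide) lge (cs_cons ce_652 cs_nil) ke_653
theorem ce_654 : CutGood Pe Se G1_48 (fv1 G1_48) 0 0x800000017ffffffe8000000380000001 0x800000198000000c8000000580000017 :=
  chk1_sound oke (by decide) lge cs_nil ke_654
theorem ce_655 : CutGood Pe Se G1_48 (fv1 G1_48) 0 0x800000017ffffffe8000000380000001 0x8000000e7ffffff6800000087ffffff7 :=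
  chk1_sound oke (by decide) lge cs_nil ke_655
theorem ce_656 : CutGood Pe Se G1_48 (fv1 G1_48) 0 0x800000017ffffffe8000000380000001 0x7ffffff87fffffee800000027ffffff9 :=
  chk1_sound oke (by decide) lge cs_nil ke_656
theorem ce_657 : CutGood Pe Se G1_48 (fv1 G1_48) 0 0x800000017ffffffe8000000380000001 0x7fffffff7fffffff8000000180000002 :=
  chk1_sound oke (by decide) lge (cs_cons ce_650 (cs_cons ce_651 (cs_cons ce_653 (cs_cons ce_654 (cs_cons ce_655 (cs_cons ce_656 cs_nil)))))) ke_657
theorem ce_658 : CutGood Pe Se G1_48 (fv1 G1_48) 0 0x7fffffd48000000f800000197ffffff9 0x7fffffff7fffffff8000000180000002 :=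
  chk1_sound oke (by decide) lge cs_nil ke_658
theorem ce_659 : CutGood Pe Se G1_48 (fv1 G1_48) 0 0x7fffffff8000000b8000000380000002 0x7fffffff7fffffff8000000180000002 :=
  chk1_sound oke (by decide) lge (cs_cons ce_658 cs_nil) ke_659
theorem ce_660 : CutGood Pe Se G1_48 (fv1 G1_48) 0 0x7ffffff4800000168000000b8000000e 0x7fffffff7fffffff8000000180000002 :=
  chk1_sound oke (by decide) lge cs_nil ke_660
theorem ce_661 : CutGood Pe Se G1_48 (fv1 G1_48) 0 0x800000057ffffffe8000000480000000 0x7ffffffe7ffffffc7ffffffe80000005 :=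
  chk1_sound oke (by decide) lge cs_nil ke_661
theorem ce_662 : CutGood Pe Se G1_48 (fv1 G1_48) 0 0x800000057ffffffe8000000480000000 0x7fffffff7fffffff8000000180000002 :=
  chk1_sound oke (by decide) lge (cs_cons ce_661 cs_nil) ke_662
theorem ce_663 : CutGood Pe Se G1_48 (fv1 G1_48) 0 0x800000017fffffff8000000280000003 0x7fffffff7fffffff8000000180000002 :=
  chk1_sound oke (by decide) lge (cs_cons ce_659 (cs_cons ce_660 (cs_cons ce_662 cs_nil))) ke_663
theorem ce_664 : CutGood Pe Se G1_48 (fv1 G1_48) 0 0x80000001800000078000000680000007 0x7ffffffc800000028000000280000005 :=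
  chk1_sound oke (by decide) lge cs_nil ke_664
theorem ce_665 : CutGood Pe Se G1_48 (fv1 G1_48) 0 0x80000001800000078000000680000007 0x7fffffff7fffffff8000000180000002 :=
  chk1_sound oke (by decide) lge (cs_cons ce_664 cs_nil) ke_665
theorem ce_666 : CutGood Pe Se G1_48 (fv1 G1_48) 0 0x80000003800000018000000b80000002 0x800000007ffffffa8000000280000003 :=
  chk1_sound oke (by decide) lge cs_nil ke_666
theorem ce_667 : CutGood Pe Se G1_48 (fv1 G1_48) 0 0x7ffffff780000002800000107ffffff8 0x7ffffffc800000028000000280000005 :=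
  chk1_sound oke (by decide) lge cs_nil ke_667
theorem ce_668 : CutGood Pe Se G1_48 (fv1 G1_48) 0 0x8000000d800000068000000a7ffffff6 0x7ffffffe7ffffffc7ffffffe80000005 :=
  chk1_sound oke (by decide) lge cs_nil ke_668
theorem ce_669 : CutGood Pe Se G1_48 (fv1 G1_48) 0 0x80000003800000018000000b80000002 0x7ffffffa7ffffffe8000000080000003 :=
  chk1_sound oke (by decide) lge cs_nil ke_669
theorem ce_670 : CutGood Pe Se G1_48 (fv1 G1_48) 0 0x8000000b7ffffffd7fffffff7ffffffe 0x7fffffff7fffffff8000000180000002 :=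
  chk1_sound oke (by decide) lge cs_nil ke_670
theorem ce_671 : CutGood Pe Se G1_48 (fv1 G1_48) 0 0x800000017ffffffd8000000180000002 0x7fffffff7fffffff8000000180000002 :=
  chk1_sound oke (by decide) lge (cs_cons ce_665 (cs_cons ce_666 (cs_cons ce_667 (cs_cons ce_668 (cs_cons ce_669 (cs_cons ce_670 cs_nil)))))) ke_671
theorem ce_672 : CutGood Pe Se G1_48 (fv1 G1_48) 0 0x7fffffff80000005800000037ffffff6 0x7ffffffc800000028000000280000005 :=
  chk1_sound oke (by decide) lge cs_nil ke_672
theorem ce_673 : CutGood Pe Se G1_48 (fv1 G1_48) 0 0x7fffffff80000005800000037ffffff6 0x7fffffff7fffffff8000000180000002 :=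
  chk1_sound oke (by decide) lge (cs_cons ce_672 cs_nil) ke_673
theorem ce_674 : CutGood Pe Se G1_48 (fv1 G1_48) 0 0x7ffffff780000001800000027ffffff9 0x7fffffff7fffffff8000000180000002 :=
  chk1_sound oke (by decide) lge cs_nil ke_674
theorem ce_675 : CutGood Pe Se G1_48 (fv1 G1_48) 0 0x7ffffffd7ffffffc800000047ffffffe 0x800000027ffffffe8000000480000005 :=
  chk1_sound oke (by decide) lge cs_nil ke_675
theorem ce_676 : CutGood Pe Se G1_48 (fv1 G1_48) 0 0x7ffffffd7ffffffc800000047ffffffe 0x7fffffff7fffffff8000000180000002 :=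
  chk1_sound oke (by decide) lge (cs_cons ce_675 cs_nil) ke_676
theorem ce_677 : CutGood Pe Se G1_48 (fv1 G1_48) 0 0x800000047ffffffd8000000480000002 0x7ffffffe7fffffff8000000480000000 :=
  chk1_sound oke (by decide) lge cs_nil ke_677
theorem ce_678 : CutGood Pe Se G1_48 (fv1 G1_48) 0 0x800000047ffffffd8000000480000002 0x7fffffff7ffffffc8000000280000000 :=
  chk1_sound oke (by decide) lge cs_nil ke_678
theorem ce_679 : CutGood Pe Se G1_48 (fv1 G1_48) 0 0x800000007ffffffb800000027ffffffc 0x80000007800000018000000280000003 :=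
  chk1_sound oke (by decide) lge cs_nil ke_679
theorem ce_680 : CutGood Pe Se G1_48 (fv1 G1_48) 0 0x800000017ffffff48000000d7fffffff 0x7fffffff80000001800000057ffffffa :=
  chk1_sound oke (by decide) lge cs_nil ke_680
theorem ce_681 : CutGood Pe Se G1_48 (fv1 G1_48) 0 0x7ffffffd7ffffffc8000000d7ffffff5 0x7ffffffe7fffffff8000000480000000 :=
  chk1_sound oke (by decide) lge cs_nil ke_681
theorem ce_682 : CutGood Pe Se G1_48 (fv1 G1_48) 0 0x800000007ffffffb800000027ffffffc 0x7ffffffe7fffffff8000000480000000 :=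
  chk1_sound oke (by decide) lge (cs_cons ce_680 (cs_cons ce_681 cs_nil)) ke_682
theorem ce_683 : CutGood Pe Se G1_48 (fv1 G1_48) 0 0x800000007ffffffb800000027ffffffc 0x7fffffff7ffffffc8000000280000000 :=
  chk1_sound oke (by decide) lge cs_nil ke_683
theorem ce_684 : CutGood Pe Se G1_48 (fv1 G1_48) 0 0x7ffffffe7ffffffe8000000680000001 0x7fffffe37ffffff47ffffff97fffffef :=
  chk1_sound oke (by decide) lge cs_nil ke_684
theorem ce_685 : CutGood Pe Se G1_48 (fv1 G1_48) 0 0x7fffffff7ffffffe8000000180000003 0x7ffffff0800000008000000d7ffffffc :=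
  chk1_sound oke (by decide) lge (cs_cons ce_684 cs_nil) ke_685
theorem ce_686 : CutGood Pe Se G1_48 (fv1 G1_48) 0 0x7fffffff7ffffffe8000000180000003 0x800000027ffffffe8000000480000005 :=
  chk1_sound oke (by decide) lge (cs_cons ce_685 cs_nil) ke_686
theorem ce_687 : CutGood Pe Se G1_48 (fv1 G1_48) 0 0x7ffffffe7ffffffe8000000680000001 0x7ffffffe7ffffffc7ffffffe80000005 :=
  chk1_sound oke (by decide) lge cs_nil ke_687
theorem ce_688 : CutGood Pe Se G1_48 (fv1 G1_48) 0 0x80000002800000008000000580000004 0x7ffffff57fffffff7ffffff58000000a :=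
  chk1_sound oke (by decide) lge cs_nil ke_688
theorem ce_689 : CutGood Pe Se G1_48 (fv1 G1_48) 0 0x7fffffff7ffffffe8000000180000003 0x7ffffffa7ffffffe8000000080000003 :=
  chk1_sound oke (by decide) lge (cs_cons ce_688 cs_nil) ke_689
theorem ce_690 : CutGood Pe Se G1_48 (fv1 G1_48) 0 0x800000007fffffff8000000180000001 0x7fffffff7fffffff8000000180000002 :=
  chk1_sound oke (by decide) lge (cs_cons ce_657 (cs_cons ce_663 (cs_cons ce_671 (cs_cons ce_673 (cs_cons ce_674 (cs_cons ce_676 (cs_cons ce_677 (cs_cons ce_678 (cs_cons ce_679 (cs_cons ce_682 (cs_cons ce_683 (cs_cons ce_686 (cs_cons ce_687 (cs_cons ce_689 cs_nil)))))))))))))) ke_690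
theorem ce_691 : CutGood Pe Se G1_48 (fv1 G1_48) 0 0x800000017ffffffe8000000380000001 0x7ffffff9800000037ffffffe80000001 :=
  chk1_sound oke (by decide) lge cs_nil ke_691
theorem ce_692 : CutGood Pe Se G1_48 (fv1 G1_48) 0 0x800000017ffffffe8000000380000001 0x8000000180000007800000027ffffffd :=
  chk1_sound oke (by decide) lge cs_nil ke_692
theorem ce_693 : CutGood Pe Se G1_48 (fv1 G1_48) 0 0x800000017ffffffe8000000380000001 0x7ffffffd800000078000000180000002 :=
  chk1_sound oke (by decide) lge cs_nil ke_693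
theorem ce_694 : CutGood Pe Se G1_48 (fv1 G1_48) 0 0x800000007fffffff8000000a7ffffffe 0x80000001800000008000000280000004 :=
  chk1_sound oke (by decide) lge cs_nil ke_694
theorem ce_695 : CutGood Pe Se G1_48 (fv1 G1_48) 0 0x800000017ffffffe8000000380000001 0x80000001800000008000000280000004 :=
  chk1_sound oke (by decide) lge (cs_cons ce_694 cs_nil) ke_695
theorem ce_696 : CutGood Pe Se G1_48 (fv1 G1_48) 0 0x800000017ffffffd8000000180000002 0x7ffffffd8000000a7ffffff87ffffffc :=
  chk1_sound oke (by decide) lge cs_nil ke_696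
theorem ce_697 : CutGood Pe Se G1_48 (fv1 G1_48) 0 0x800000017ffffffd8000000180000002 0x7ffffffd800000078000000180000002 :=
  chk1_sound oke (by decide) lge cs_nil ke_697
theorem ce_698 : CutGood Pe Se G1_48 (fv1 G1_48) 0 0x800000017ffffffd8000000180000002 0x80000003800000058000000580000002 :=
  chk1_sound oke (by decide) lge cs_nil ke_698
theorem ce_699 : CutGood Pe Se G1_48 (fv1 G1_48) 0 0x800000017ffffffd8000000180000002 0x800000067ffffffc800000117ffffff6 :=
  chk1_sound oke (by decide) lge cs_nil ke_699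
theorem ce_700 : CutGood Pe Se G1_48 (fv1 G1_48) 0 0x800000017ffffffd8000000180000002 0x80000004800000088000001380000000 :=
  chk1_sound oke (by decide) lge cs_nil ke_700
theorem ce_701 : CutGood Pe Se G1_48 (fv1 G1_48) 0 0x800000027ffffffb8000000480000000 0x7fffffff800000048000000080000002 :=
  chk1_sound oke (by decide) lge cs_nil ke_701
theorem ce_702 : CutGood Pe Se G1_48 (fv1 G1_48) 0 0x7fffffff7fffffff8000000380000002 0x80000004800000128000000a80000001 :=
  chk1_sound oke (by decide) lge cs_nil ke_702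
theorem ce_703 : CutGood Pe Se G1_48 (fv1 G1_48) 0 0x7fffffff7fffffff8000000380000002 0x7ffffffd800000078000000180000002 :=
  chk1_sound oke (by decide) lge (cs_cons ce_702 cs_nil) ke_703
theorem ce_704 : CutGood Pe Se G1_48 (fv1 G1_48) 0 0x7ffffffe80000001800000067ffffffe 0x80000000800000057fffffff8000000b :=
  chk1_sound oke (by decide) lge cs_nil ke_704
theorem ce_705 : CutGood Pe Se G1_48 (fv1 G1_48) 0 0x7fffffff7fffffff8000000380000002 0x80000001800000017fffffff80000002 :=
  chk1_sound oke (by decide) lge (cs_cons ce_701 (cs_cons ce_703 (cs_cons ce_704 cs_nil))) ke_705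
theorem ce_706 : CutGood Pe Se G1_48 (fv1 G1_48) 0 0x7fffffff7ffffffe8000000180000003 0x80000003800000058000000580000002 :=
  chk1_sound oke (by decide) lge cs_nil ke_706
theorem ce_707 : CutGood Pe Se G1_48 (fv1 G1_48) 0 0x7fffffff7ffffffe8000000180000003 0x80000001800000017fffffff80000002 :=
  chk1_sound oke (by decide) lge (cs_cons ce_706 cs_nil) ke_707
theorem ce_708 : CutGood Pe Se G1_48 (fv1 G1_48) 0 0x800000007fffffff8000000180000001 0x80000001800000017fffffff80000002 :=
  chk1_sound oke (by decide) lge (cs_cons ce_691 (cs_cons ce_692 (cs_cons ce_693 (cs_cons ce_695 (cs_cons ce_696 (cs_cons ce_697 (cs_cons ce_698 (cs_cons ce_699 (cs_cons ce_700 (cs_cons ce_705 (cs_cons ce_707 cs_nil))))))))))) ke_708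
theorem ce_709 : CutGood Pe Se G1_48 (fv1 G1_48) 0 0x7fffffff7ffffffe800000077ffffff7 0x7fffffff800000017fffffff80000002 :=
  chk1_sound oke (by decide) lge cs_nil ke_709
theorem ce_710 : CutGood Pe Se G1_48 (fv1 G1_48) 0 0x7ffffffb800000068000000a7fffffe4 0x7fffffff800000017fffffff80000002 :=
  chk1_sound oke (by decide) lge cs_nil ke_710
theorem ce_711 : CutGood Pe Se G1_48 (fv1 G1_48) 0 0x80000003800000227fffffff7ffffff9 0x7ffffffe800000007ffffffa80000003 :=
  chk1_sound oke (by decide) lge cs_nil ke_711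
theorem ce_712 : CutGood Pe Se G1_48 (fv1 G1_48) 0 0x800000007ffffffe800000057ffffffc 0x7ffffffe800000007ffffffa80000003 :=
  chk1_sound oke (by decide) lge (cs_cons ce_711 cs_nil) ke_712
theorem ce_713 : CutGood Pe Se G1_48 (fv1 G1_48) 0 0x800000007ffffffe800000057ffffffc 0x7fffffff800000017fffffff80000002 :=
  chk1_sound oke (by decide) lge (cs_cons ce_712 cs_nil) ke_713
theorem ce_714 : CutGood Pe Se G1_48 (fv1 G1_48) 0 0x8000000b800000037fffffff7ffffffe 0x7fffffff800000017fffffff80000002 :=
  chk1_sound oke (by decide) lge cs_nil ke_714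
theorem ce_715 : CutGood Pe Se G1_48 (fv1 G1_48) 0 0x800000077fffffff800000027ffffff7 0x7fffffff800000017fffffff80000002 :=
  chk1_sound oke (by decide) lge cs_nil ke_715
theorem ce_716 : CutGood Pe Se G1_48 (fv1 G1_48) 0 0x7fffffff800000028000000680000002 0x7fffffff800000017fffffff80000002 :=
  chk1_sound oke (by decide) lge cs_nil ke_716
theorem ce_717 : CutGood Pe Se G1_48 (fv1 G1_48) 0 0x800000127ffffffc800000167ffffff5 0x7fffffff800000017fffffff80000002 :=
  chk1_sound oke (by decide) lge cs_nil ke_717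
theorem ce_718 : CutGood Pe Se G1_48 (fv1 G1_48) 0 0x8000000e80000012800000147ffffffb 0x7fffffff800000017fffffff80000002 :=
  chk1_sound oke (by decide) lge cs_nil ke_718
theorem ce_719 : CutGood Pe Se G1_48 (fv1 G1_48) 0 0x7ffffffe7ffffff2800000188000000d 0x7fffffff800000017fffffff80000002 :=
  chk1_sound oke (by decide) lge cs_nil ke_719
theorem ce_720 : CutGood Pe Se G1_48 (fv1 G1_48) 0 0x800000057ffffffb800000077ffffffa 0x7ffffff38000000d800000017ffffffe :=
  chk1_sound oke (by decide) lge cs_nil ke_720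
theorem ce_721 : CutGood Pe Se G1_48 (fv1 G1_48) 0 0x8000000180000007800000097ffffffe 0x7ffffffe800000007ffffffa80000003 :=
  chk1_sound oke (by decide) lge cs_nil ke_721
theorem ce_722 : CutGood Pe Se G1_48 (fv1 G1_48) 0 0x8000000180000007800000097ffffffe 0x7fffffff800000017fffffff80000002 :=
  chk1_sound oke (by decide) lge (cs_cons ce_721 cs_nil) ke_722
theorem ce_723 : CutGood Pe Se G1_48 (fv1 G1_48) 0 0x800000047ffffff9800000057ffffff1 0x7fffffff800000017fffffff80000002 :=
  chk1_sound oke (by decide) lge cs_nil ke_723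
theorem ce_724 : CutGood Pe Se G1_48 (fv1 G1_48) 0 0x800000047fffffef8000000380000001 0x7fffffff800000017fffffff80000002 :=
  chk1_sound oke (by decide) lge cs_nil ke_724
theorem ce_725 : CutGood Pe Se G1_48 (fv1 G1_48) 0 0x800000037ffffffc800000047ffffffe 0x7fffffff800000017fffffff80000002 :=
  chk1_sound oke (by decide) lge (cs_cons ce_723 (cs_cons ce_724 cs_nil)) ke_725
theorem ce_726 : CutGood Pe Se G1_48 (fv1 G1_48) 0 0x8000000b7ffffffd8000000280000001 0x7fffffff800000017fffffff80000002 :=
  chk1_sound oke (by decide) lge cs_nil ke_726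
theorem ce_727 : CutGood Pe Se G1_48 (fv1 G1_48) 0 0x800000077ffffff97fffffff7ffffffa 0x7fffffff800000017fffffff80000002 :=
  chk1_sound oke (by decide) lge cs_nil ke_727
theorem ce_728 : CutGood Pe Se G1_48 (fv1 G1_48) 0 0x7fffffff80000005800000037ffffff6 0x7fffffff800000017fffffff80000002 :=
  chk1_sound oke (by decide) lge cs_nil ke_728
theorem ce_729 : CutGood Pe Se G1_48 (fv1 G1_48) 0 0x7fffffff7ffffffd8000000280000001 0x800000037fffffff8000000780000002 :=
  chk1_sound oke (by decide) lge cs_nil ke_729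
theorem ce_730 : CutGood Pe Se G1_48 (fv1 G1_48) 0 0x7fffffff7ffffffd8000000280000001 0x7ffffffb800000038000000580000002 :=
  chk1_sound oke (by decide) lge cs_nil ke_730
theorem ce_731 : CutGood Pe Se G1_48 (fv1 G1_48) 0 0x800000017ffffffe800000067ffffffe 0x7ffffffc7fffffff8000000780000009 :=
  chk1_sound oke (by decide) lge cs_nil ke_731
theorem ce_732 : CutGood Pe Se G1_48 (fv1 G1_48) 0 0x7fffffff7ffffffd8000000280000001 0x7fffffff7ffffffe8000000080000004 :=
  chk1_sound oke (by decide) lge (cs_cons ce_731 cs_nil) ke_732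
theorem ce_733 : CutGood Pe Se G1_48 (fv1 G1_48) 0 0x80000002800000008000000580000004 0x7fffffff800000017fffffff80000002 :=
  chk1_sound oke (by decide) lge cs_nil ke_733
theorem ce_734 : CutGood Pe Se G1_48 (fv1 G1_48) 0 0x800000047ffffffc8000000280000003 0x7ffffffe800000048000000280000005 :=
  chk1_sound oke (by decide) lge cs_nil ke_734
theorem ce_735 : CutGood Pe Se G1_48 (fv1 G1_48) 0 0x800000047ffffffc8000000280000003 0x7ffffffe800000007ffffffa80000003 :=
  chk1_sound oke (by decide) lge cs_nil ke_735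
theorem ce_736 : CutGood Pe Se G1_48 (fv1 G1_48) 0 0x7ffffffe7ffffffe8000000680000001 0x7fffffff800000017fffffff80000002 :=
  chk1_sound oke (by decide) lge cs_nil ke_736
theorem ce_737 : CutGood Pe Se G1_48 (fv1 G1_48) 0 0x800000007fffffff8000000180000001 0x7fffffff800000017fffffff80000002 :=
  chk1_sound oke (by decide) lge (cs_cons ce_709 (cs_cons ce_710 (cs_cons ce_713 (cs_cons ce_714 (cs_cons ce_715 (cs_cons ce_716 (cs_cons ce_717 (cs_cons ce_718 (cs_cons ce_719 (cs_cons ce_720 (cs_cons ce_722 (cs_cons ce_725 (cs_cons ce_726 (cs_cons ce_727 (cs_cons ce_728 (cs_cons ce_729 (cs_cons ce_730 (cs_cons ce_732 (cs_cons ce_733 (cs_cons ce_734 (cs_cons ce_735 (cs_cons ce_736 cs_nil)))))))))))))))))))))) ke_737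
theorem ce_738 : CutGood Pe Se G1_48 (fv1 G1_48) 0 0x8000000b7ffffff77ffffff97ffffff8 0x800000017fffffff7fffffff80000002 :=
  chk1_sound oke (by decide) lge cs_nil ke_738
theorem ce_739 : CutGood Pe Se G1_48 (fv1 G1_48) 0 0x8000000d80000001800000097ffffff8 0x800000017fffffff7fffffff80000002 :=
  chk1_sound oke (by decide) lge cs_nil ke_739
theorem ce_740 : CutGood Pe Se G1_48 (fv1 G1_48) 0 0x8000001a7ffffff57ffffffe7ffffff4 0x800000017fffffff7fffffff80000002 :=
  chk1_sound oke (by decide) lge cs_nil ke_740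
theorem ce_741 : CutGood Pe Se G1_48 (fv1 G1_48) 0 0x7fffffff7ffffff5800000077ffffff4 0x800000017fffffff7fffffff80000002 :=
  chk1_sound oke (by decide) lge cs_nil ke_741
theorem ce_742 : CutGood Pe Se G1_48 (fv1 G1_48) 0 0x800000107ffffff9800000087fffffe8 0x800000017fffffff7fffffff80000002 :=
  chk1_sound oke (by decide) lge cs_nil ke_742
theorem ce_743 : CutGood Pe Se G1_48 (fv1 G1_48) 0 0x800000028000000b800000067fffffe4 0x800000017fffffff7fffffff80000002 :=
  chk1_sound oke (by decide) lge cs_nil ke_743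
theorem ce_744 : CutGood Pe Se G1_48 (fv1 G1_48) 0 0x7ffffffe8000000d800000187ffffff2 0x800000017fffffff7fffffff80000002 :=
  chk1_sound oke (by decide) lge cs_nil ke_744
theorem ce_745 : CutGood Pe Se G1_48 (fv1 G1_48) 0 0x7ffffff6800000078000001080000000 0x800000017fffffff7fffffff80000002 :=
  chk1_sound oke (by decide) lge cs_nil ke_745
theorem ce_746 : CutGood Pe Se G1_48 (fv1 G1_48) 0 0x7ffffff4800000168000000b8000000e 0x800000017fffffff7fffffff80000002 :=
  chk1_sound oke (by decide) lge cs_nil ke_746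
theorem ce_747 : CutGood Pe Se G1_48 (fv1 G1_48) 0 0x7ffffffd800000058000000a80000001 0x800000017fffffff7fffffff80000002 :=
  chk1_sound oke (by decide) lge (cs_cons ce_746 cs_nil) ke_747
theorem ce_748 : CutGood Pe Se G1_48 (fv1 G1_48) 0 0x800000057ffffffe8000000480000000 0x80000001800000028000000080000004 :=
  chk1_sound oke (by decide) lge cs_nil ke_748
theorem ce_749 : CutGood Pe Se G1_48 (fv1 G1_48) 0 0x800000057ffffffe8000000480000000 0x800000077ffffffc8000000180000009 :=
  chk1_sound oke (by decide) lge cs_nil ke_749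
theorem ce_750 : CutGood Pe Se G1_48 (fv1 G1_48) 0 0x800000057ffffffe8000000480000000 0x800000017fffffff7fffffff80000002 :=
  chk1_sound oke (by decide) lge (cs_cons ce_748 (cs_cons ce_749 cs_nil)) ke_750
theorem ce_751 : CutGood Pe Se G1_48 (fv1 G1_48) 0 0x8000000d8000000a800000068000000a 0x800000088000000f8000001080000016 :=
  chk1_sound oke (by decide) lge cs_nil ke_751
theorem ce_752 : CutGood Pe Se G1_48 (fv1 G1_48) 0 0x8000000b7ffffffd8000000280000001 0x8000000d800000017ffffff37ffffffe :=
  chk1_sound oke (by decide) lge cs_nil ke_752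
theorem ce_753 : CutGood Pe Se G1_48 (fv1 G1_48) 0 0x8000000b7ffffffd8000000280000001 0x800000017fffffff7fffffff80000002 :=
  chk1_sound oke (by decide) lge (cs_cons ce_751 (cs_cons ce_752 cs_nil)) ke_753
theorem ce_754 : CutGood Pe Se G1_48 (fv1 G1_48) 0 0x8000000780000001800000097ffffffe 0x800000017fffffff7fffffff80000002 :=
  chk1_sound oke (by decide) lge cs_nil ke_754
theorem ce_755 : CutGood Pe Se G1_48 (fv1 G1_48) 0 0x7ffffffd7ffffffc800000047ffffffe 0x80000001800000028000000080000004 :=
  chk1_sound oke (by decide) lge cs_nil ke_755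
theorem ce_756 : CutGood Pe Se G1_48 (fv1 G1_48) 0 0x7ffffffd7ffffffc800000047ffffffe 0x80000003800000077ffffffe80000001 :=
  chk1_sound oke (by decide) lge cs_nil ke_756
theorem ce_757 : CutGood Pe Se G1_48 (fv1 G1_48) 0 0x7ffffffd7ffffffc800000047ffffffe 0x800000007fffffff8000000280000004 :=
  chk1_sound oke (by decide) lge cs_nil ke_757
theorem ce_758 : CutGood Pe Se G1_48 (fv1 G1_48) 0 0x800000017ffffff9800000027ffffff7 0x800000017fffffff7fffffff80000002 :=
  chk1_sound oke (by decide) lge cs_nil ke_758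
theorem ce_759 : CutGood Pe Se G1_48 (fv1 G1_48) 0 0x800000077ffffff77ffffffe7fffffff 0x80000004800000027ffffffe80000005 :=
  chk1_sound oke (by decide) lge cs_nil ke_759
theorem ce_760 : CutGood Pe Se G1_48 (fv1 G1_48) 0 0x800000077ffffff77ffffffe7fffffff 0x800000027ffffffc8000000280000005 :=
  chk1_sound oke (by decide) lge cs_nil ke_760
theorem ce_761 : CutGood Pe Se G1_48 (fv1 G1_48) 0 0x800000077ffffff77ffffffe7fffffff 0x800000017fffffff7fffffff80000002 :=
  chk1_sound oke (by decide) lge (cs_cons ce_759 (cs_cons ce_760 cs_nil)) ke_761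
theorem ce_762 : CutGood Pe Se G1_48 (fv1 G1_48) 0 0x800000017ffffff97ffffff97ffffffa 0x800000047ffffff9800000097fffffff :=
  chk1_sound oke (by decide) lge cs_nil ke_762
theorem ce_763 : CutGood Pe Se G1_48 (fv1 G1_48) 0 0x800000017ffffff97ffffff97ffffffa 0x800000017fffffff7fffffff80000002 :=
  chk1_sound oke (by decide) lge (cs_cons ce_762 cs_nil) ke_763
theorem ce_764 : CutGood Pe Se G1_48 (fv1 G1_48) 0 0x800000007fffffff8000000180000001 0x800000017fffffff7fffffff80000002 :=
  chk1_sound oke (by decide) lge (cs_cons ce_738 (cs_cons ce_739 (cs_cons ce_740 (cs_cons ce_741 (cs_cons ce_742 (cs_cons ce_743 (cs_cons ce_744 (cs_cons ce_745 (cs_cons ce_747 (cs_cons ce_750 (cs_cons ce_753 (cs_cons ce_754 (cs_cons ce_755 (cs_cons ce_756 (cs_cons ce_757 (cs_cons ce_758 (cs_cons ce_761 (cs_cons ce_763 cs_nil)))))))))))))))))) ke_764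
theorem ce_765 : CutGood Pe Se G1_48 (fv1 G1_48) 0 0x800000088000000e7ffffff47fffffff 0x7fffffff7fffffff7fffffff80000002 :=
  chk1_sound oke (by decide) lge cs_nil ke_765
theorem ce_766 : CutGood Pe Se G1_48 (fv1 G1_48) 0 0x8000000080000014800000017ffffffe 0x7fffffff7fffffff7fffffff80000002 :=
  chk1_sound oke (by decide) lge cs_nil ke_766
theorem ce_767 : CutGood Pe Se G1_48 (fv1 G1_48) 0 0x800000028000000b800000037fffffff 0x7fffffff7fffffff7fffffff80000002 :=
  chk1_sound oke (by decide) lge cs_nil ke_767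
theorem ce_768 : CutGood Pe Se G1_48 (fv1 G1_48) 0 0x800000057ffffffe8000000480000000 0x7fffffff7fffffff7fffffff80000002 :=
  chk1_sound oke (by decide) lge cs_nil ke_768
theorem ce_769 : CutGood Pe Se G1_48 (fv1 G1_48) 0 0x800000027fffffff8000000680000002 0x7fffffff7fffffff7fffffff80000002 :=
  chk1_sound oke (by decide) lge cs_nil ke_769
theorem ce_770 : CutGood Pe Se G1_48 (fv1 G1_48) 0 0x80000002800000058000000980000005 0x7fffffff7fffffff7fffffff80000002 :=
  chk1_sound oke (by decide) lge cs_nil ke_770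
theorem ce_771 : CutGood Pe Se G1_48 (fv1 G1_48) 0 0x800000037ffffffe8000000b7fffffff 0x7ffffffe7ffffffd8000000280000002 :=
  chk1_sound oke (by decide) lge cs_nil ke_771
theorem ce_772 : CutGood Pe Se G1_48 (fv1 G1_48) 0 0x800000037ffffffe8000000b7fffffff 0x800000017ffffffc8000000080000002 :=
  chk1_sound oke (by decide) lge cs_nil ke_772
theorem ce_773 : CutGood Pe Se G1_48 (fv1 G1_48) 0 0x800000077ffffff97fffffff7ffffffa 0x8000000c7ffffff27ffffff680000001 :=
  chk1_sound oke (by decide) lge cs_nil ke_773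
theorem ce_774 : CutGood Pe Se G1_48 (fv1 G1_48) 0 0x800000027ffffffb8000000480000000 0x7fffffff7ffffff48000000180000001 :=
  chk1_sound oke (by decide) lge (cs_cons ce_773 cs_nil) ke_774
theorem ce_775 : CutGood Pe Se G1_48 (fv1 G1_48) 0 0x8000000d7ffffff4800000017fffffff 0x800000077ffffffd7ffffffe80000001 :=
  chk1_sound oke (by decide) lge cs_nil ke_775
theorem ce_776 : CutGood Pe Se G1_48 (fv1 G1_48) 0 0x800000037ffffff88000000b8000000b 0x8000000980000002800000028000000a :=
  chk1_sound oke (by decide) lge cs_nil ke_776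
theorem ce_777 : CutGood Pe Se G1_48 (fv1 G1_48) 0 0x800000027ffffffb8000000480000000 0x800000017ffffffc8000000080000002 :=
  chk1_sound oke (by decide) lge (cs_cons ce_775 (cs_cons ce_776 cs_nil)) ke_777
theorem ce_778 : CutGood Pe Se G1_48 (fv1 G1_48) 0 0x7ffffffc7ffffff9800000097ffffff3 0x7fffffff800000018000000580000006 :=
  chk1_sound oke (by decide) lge cs_nil ke_778
theorem ce_779 : CutGood Pe Se G1_48 (fv1 G1_48) 0 0x800000087fffffff8000000f80000005 0x7fffffff7fffffff7fffffff80000002 :=
  chk1_sound oke (by decide) lge cs_nil ke_779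
theorem ce_780 : CutGood Pe Se G1_48 (fv1 G1_48) 0 0x7ffffffe7ffffffd800000047ffffffc 0x800000027fffffff8000000080000004 :=
  chk1_sound oke (by decide) lge cs_nil ke_780
theorem ce_781 : CutGood Pe Se G1_48 (fv1 G1_48) 0 0x7ffffffe7ffffffd800000047ffffffc 0x7ffffff77ffffff88000001680000014 :=
  chk1_sound oke (by decide) lge cs_nil ke_781
theorem ce_782 : CutGood Pe Se G1_48 (fv1 G1_48) 0 0x7ffffffe7ffffffd800000047ffffffc 0x800000017ffffffc8000000080000002 :=
  chk1_sound oke (by decide) lge (cs_cons ce_781 cs_nil) ke_782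
theorem ce_783 : CutGood Pe Se G1_48 (fv1 G1_48) 0 0x8000000e800000088000000c7fffffff 0x800000027ffffffc7ffffffe80000005 :=
  chk1_sound oke (by decide) lge cs_nil ke_783
theorem ce_784 : CutGood Pe Se G1_48 (fv1 G1_48) 0 0x800000077ffffffa800000077fffffff 0x7fffffff7fffffff7fffffff80000002 :=
  chk1_sound oke (by decide) lge (cs_cons ce_783 cs_nil) ke_784
theorem ce_785 : CutGood Pe Se G1_48 (fv1 G1_48) 0 0x8000000e7ffffff47ffffffc80000007 0x7ffffffe7ffffffa8000000080000003 :=
  chk1_sound oke (by decide) lge cs_nil ke_785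
theorem ce_786 : CutGood Pe Se G1_48 (fv1 G1_48) 0 0x800000167fffffff7fffffff7fffffe5 0x7fffffff7fffffff7fffffff80000002 :=
  chk1_sound oke (by decide) lge cs_nil ke_786
theorem ce_787 : CutGood Pe Se G1_48 (fv1 G1_48) 0 0x7ffffffa80000008800000047fffffef 0x7fffffff7fffffff7fffffff80000002 :=
  chk1_sound oke (by decide) lge cs_nil ke_787
theorem ce_788 : CutGood Pe Se G1_48 (fv1 G1_48) 0 0x800000007ffffffe800000027fffffff 0x7fffffff7fffffff7fffffff80000002 :=
  chk1_sound oke (by decide) lge (cs_cons ce_774 (cs_cons ce_777 (cs_cons ce_778 (cs_cons ce_779 (cs_cons ce_780 (cs_cons ce_782 (cs_cons ce_784 (cs_cons ce_785 (cs_cons ce_786 (cs_cons ce_787 cs_nil)))))))))) ke_788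
theorem ce_789 : CutGood Pe Se G1_48 (fv1 G1_48) 0 0x800000007fffffff8000000180000001 0x80000000800000008000000080000001 :=
  chk1_sound oke (by decide) lge (cs_cons ce_631 (cs_cons ce_635 (cs_cons ce_639 (cs_cons ce_641 (cs_cons ce_642 (cs_cons ce_643 (cs_cons ce_645 (cs_cons ce_646 (cs_cons ce_649 (cs_cons ce_690 (cs_cons ce_708 (cs_cons ce_737 (cs_cons ce_764 (cs_cons ce_765 (cs_cons ce_766 (cs_cons ce_767 (cs_cons ce_768 (cs_cons ce_769 (cs_cons ce_770 (cs_cons ce_771 (cs_cons ce_772 (cs_cons ce_788 cs_nil)))))))))))))))))))))) ke_789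
theorem roote_0 : CutGood Pe Se G1_48 (fv1 G1_48) 0 0x80000000800000008000000080000001 0x80000000800000008000000080000001 :=
  chk1_sound oke (by decide) lge (cs_cons ce_203 (cs_cons ce_400 (cs_cons ce_440 (cs_cons ce_482 (cs_cons ce_509 (cs_cons ce_517 (cs_cons ce_526 (cs_cons ce_533 (cs_cons ce_557 (cs_cons ce_569 (cs_cons ce_591 (cs_cons ce_592 (cs_cons ce_593 (cs_cons ce_594 (cs_cons ce_598 (cs_cons ce_603 (cs_cons ce_789 cs_nil))))))))))))))))) re_0
theorem alle : All Pe Se false := core0 roote_0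

def brP421 : BrP := ⟨4, 0, 0, 2, 0, 1, 1, 2, 0, 5, 115⟩

def brC421 : List Nat := [
  0x4012001009501000000c600800001200130000053012001007600600101220120010061012000005500e00100c4010000008001100100560040000116002001011301000000610100010052010000005500c00000b400e0010086000000010000f000004300e001006500a00100b200e001005100e000004400c000007000d001004300c000005500800000a100c001004200c000004400a001007500600100a000b000003300a001005200a001004100a0000034008000006500400000900090010035002001009300800000410080010034006001006200800000350000000083006001004000700000220060010034004000005100600000240020010050005001002300400000310040010022004000002400000000430020010030003000001200200100210020000013000000002000100100110000010012000000001,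
  0x601e001018002500100a402400000d5022001011302400000b102400100a202400000a700c000023700a001023402200100d601c00001700230000095020000010302200100b202200100a10220000097008000022601a00101770060010220021001009402000000c501e001010302000000a10200010097004000021202000000970020010216018000016401e00100c001f0000087000000020501c00000f301e00100a201e0010096016001016101e000008001d001008401c00000b501a00100f301c000009101c001008201c0000086014000015401a00100b001b0000076010000014301800000810180010072018000007600e001014401600100a501400000d0017000006301600100820160010071016000006600c000013501200100d40140000090015001006600a001013301400000710140010062014000006,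
  0x103e0000108000000040702e00102c603800001e003d001010403c000013503a001017303c000011103c001010203c000010603600101e702c00002b403a001013003b00000f303a001011203a0010105038000016702a00102b103a00000f603400001d003900100f403400001170240000295032001015303400000f602e00101c103400100e203400000e70220010294032001011003300000d303200100f5030000014203200100e103200000d602c00001b7020000028701a001027002d00100c402c00000f502a001013602600101a302c00000d102c00100c202c00000c7018000026402a00100f002b00000b302a00100d701600102650280000126024000019202a00100c102a00000b002900100b402800000e602200101970140000255026001012302800000c102800100b7010000024102600000a700e001024,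
  0x5b000017704e001034305a001019205a001018505800001e604e0010244052001019005300001530520010172052001016505000001c1052000015802800004a70440000310051001015604c0000234050000018802600104a3050000016504e00101c1050001015504c00001b8022001049104e00001470400000306048000022004d001014404c000017304c0000158020000048504a00101b104c001014204c000014703e001030801e0010486046001022404a0010170043000011703400002d3042001013204200101250400000181042000011800c000043800a001043603c00001f703200102d00410010114040000014503e00101880080000423040000012800600104210400010112040000011603a00101f403e0010148004000041703000002c8002001041003f000010303e001012203e001011503c000017,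
  0x106400101a206400001a70580000368040000050406200101d605e0010280063000019306200101b7056001036206200101a803e001050506000002010620000190061001019406000001c605c000027803a00104f005f0000187052001035305e00101a205e001019505c00001f105e000018005d001018803800004e405c00001b60580000267050000034305c000019505a00101f105c001018205c000018803600104e6056001026405a00101b]

theorem brK421 : brChk brP421 65536 brC421 775 = true := by decide +kernel

theorem brute_421 : ∀ n : ℕ, 0 < n → n ≤ 600000 → n % 4 ≠ 0 → Rp 4 (-2) (-1) n :=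
  brChk_ok (P := brP421) ⟨by decide, by decide, by decide⟩ brK421 (by norm_num) rfl rfl rfl

def tble : ℕ := 0x64d61868000220958400aa008824002c2a8044003acb03280082561868000220958400aa008824002c2a804400584b03280064d61868000220958400aa008824002c2a8044003acb03280082561868000220958400aa008824002c2a804400584b03280064d61868000220958400aa008824002c2a8044003acb03280082561868000220958400aa008824002c2a804400584b03280064d61868000220958400aa008824002c2a8044003acb03280082561868000220958400aa008824002c2a804400584b03280064d61868000220958400aa008824002c2a8044003acb03280082561868000220958400aa008824002c2a804400584b03280064d61868000220958400aa008824002c2a8044003acb03280082561868000220958400aa008824002c2a804400584b03280064d61868000220958400aa008824002c2a8044003acb03280082561868000220958400aa008824002c2a804400584b03280064d61868000220958400aa008824002c2a8044003acb03280082561868000220958400aa008824002c2a804400584b03280064d61868000220958400aa008824002c2a8044003acb03280082561868000220958400aa008824002c2a804400584b03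280064d61868000220958400aa008824002c2a8044003acb03280082561868000220958400aa008824002c2a804400584b03280064d61868000220958400aa008824002c2a8044003acb03280082561868000220958400aa008824002c2a804400584b03280064d61868000220958400aa008824002c2a8044003acb03280082561868000220958400aa008824002c2a804400584b03280064d61868000220958400aa008824002c2a8044003acb03280082561868000220958400aa008824002c2a804400584b03280064d61868000220958400aa008824002c2a8044003acb03280082561868000220958400aa008824002c2a804400584b03280064d61868000220958400aa008824002c2a8044003acb03280082561868000220958400aa008824002c2a804400584b03280064d61868000220958400aa008824002c2a8044003acb03280082561868000220958400aa008824002c2a804400584b03280064d61868000220958400aa008824002c2a8044003acb03280082561868000220958400aa008824002c2a804400584b03280064d61868000220958400aa008824002c2a8044003acb03280082561868000220958400aa008824002c2a804400584b03280064d61868000220958400aa008824002c2a8044003acb03280082561868000220958400aa008824002c2a804400584b03280064d61868000220958400aa008824002c2a8044003acb03280082561868000220958400aa008824002c2a804400584b03280064d61868000220958400aa008824002c2a8044003acb03280082561868000220958400aa008824002c2a804400584b032800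
theorem picke : ∀ r < 840, r % 4 ≠ 0 →
    tj tble r ≤ 3 ∧ Pk 105 21 21 (21 * r) (tj tble r) (tx tble r) := by decide +kernel
theorem bige (n : ℕ) (hX : 600000 < n) (h4 : n % 4 ≠ 0) :
    Rp 4 (-2) (-1) n := by
  obtain ⟨hj, hp⟩ := picke (n % 840) (Nat.mod_lt _ (by norm_num)) (by omega)
  generalize tj tble (n % 840) = j at hj hp
  generalize tx tble (n % 840) = x at hp
  have h4j := pow4_le hj
  have hg := goal_of_pk oke alle (kp := 1) (Md := 105) (t := 21 * n) (j := j) (x := x)
    (by decide) (by decide) (by decide) rfl (by decide)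
    (hp.mod ((Nat.mod_modEq n 840).mul_left 21))
    (by show (3 * 256 ^ 2 + 1) * 4 ^ j ≤ _; omega) (by show 172205 + 4 ^ j < _; omega) (by simp)
  refine rp_goal (M := 21) (k := j) hg rfl (by norm_num)
    (Or.inl rfl) ?_ ?_ ?_
  · rw [sq_two_pow]; push_cast; ring
  · ring
  · intro v h1 h2
    have h1 : 2 * (2 : ℤ) ^ j ≤ 4 * v.imI + 0 * v.imJ + 1 * v.imK := h1
    have h2 : 1 * (2 : ℤ) ^ j ≤ 0 * v.imI + 4 * v.imJ + (-2) * v.imK := h2
    have h3 : (0 : ℤ) < 2 ^ j := by positivity
    exact ⟨by linarith, by linarith, Or.inr (by linarith)⟩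
theorem form421 (n : ℕ) (hn : 0 < n) : Rp 4 (-2) (-1) n := by
  refine all_of (E := fun _ => True) (fun _ _ => trivial) (fun n hn h4 _ => ?_) n hn trivial
  by_cases hX : n ≤ 600000
  · exact brute_421 n hn hX h4
  exact bige n (by omega) h4

end Pool.Agent.Lib.MP_094079_nt
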