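import Pool.Agent.Lib.MP_094079_nt.Spec

/-! A decidable test for the tables of the checker. -/
namespace Pool.Agent.Lib.MP_094079_nt

open Quaternion

def RP1 : List H := [mkH 1 0 0 0]
def RP3 : List H := [mkH 1 1 1 0, mkH 1 1 0 1, mkH 1 1 0 (-1), mkH 1 1 (-1) 0]
def RP5 : List H := [mkH 2 1 0 0, mkH 2 0 1 0, mkH 2 0 0 1, mkH 2 0 0 (-1), mkH 2 0 (-1) 0, mkH 2 (-1) 0 0]
def RP7 : List H := [mkH 2 1 1 1, mkH 2 1 1 (-1), mkH 2 1 (-1) 1, mkH 2 1 (-1) (-1), mkH 2 (-1) 1 1, mkH 2 (-1) 1 (-1), mkH 2 (-1) (-1) 1, mkH 2 (-1) (-1) (-1)]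

/-- the product, written out -/
def pcM (x y : H) : H :=
  ⟨x.re * y.re - x.imI * y.imI - x.imJ * y.imJ - x.imK * y.imK,
   x.re * y.imI + x.imI * y.re + x.imJ * y.imK - x.imK * y.imJ,
   x.re * y.imJ - x.imI * y.imK + x.imJ * y.re + x.imK * y.imI,
   x.re * y.imK + x.imI * y.imJ - x.imJ * y.imI + x.imK * y.re⟩

theorem pcM_eq (x y : H) : pcM x y = x * y := by
  ext <;> simp [pcM]

def pcS (x : H) : H := ⟨x.re, -x.imI, -x.imJ, -x.imK⟩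

theorem pcS_eq (x : H) : pcS x = star x := by
  ext <;> simp [pcS]

theorem pc_mul_co (x y : H) :
    (x * y).re = x.re * y.re - x.imI * y.imI - x.imJ * y.imJ - x.imK * y.imK ∧
    (x * y).imI = x.re * y.imI + x.imI * y.re + x.imJ * y.imK - x.imK * y.imJ ∧
    (x * y).imJ = x.re * y.imJ - x.imI * y.imK + x.imJ * y.re + x.imK * y.imI ∧
    (x * y).imK = x.re * y.imK + x.imI * y.imJ - x.imJ * y.imI + x.imK * y.re :=
  pcM_eq x y ▸ ⟨rfl, rfl, rfl, rfl⟩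

theorem pc_star_co (x : H) : (star x).re = x.re ∧ (star x).imI = -x.imI ∧
    (star x).imJ = -x.imJ ∧ (star x).imK = -x.imK := pcS_eq x ▸ ⟨rfl, rfl, rfl, rfl⟩

theorem pc_eb : ((eb 0).re = 1 ∧ (eb 0).imI = 0 ∧ (eb 0).imJ = 0 ∧ (eb 0).imK = 0) ∧
    ((eb 1).re = 0 ∧ (eb 1).imI = 1 ∧ (eb 1).imJ = 0 ∧ (eb 1).imK = 0) ∧
    ((eb 2).re = 0 ∧ (eb 2).imI = 0 ∧ (eb 2).imJ = 1 ∧ (eb 2).imK = 0) ∧
    ((eb 3).re = 0 ∧ (eb 3).imI = 0 ∧ (eb 3).imJ = 0 ∧ (eb 3).imK = 1) := by decide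

theorem pc_co (x : H) : co x 1 = x.imI ∧ co x 2 = x.imJ ∧ co x 3 = x.imK := ⟨rfl, rfl, rfl⟩

def pcDv (p : ℕ) (x : H) : Bool :=
  x.re % p == 0 && (x.imI % p == 0 && (x.imJ % p == 0 && x.imK % p == 0))

theorem pcDv_sound {p : ℕ} {x : H} (h : pcDv p x = true) : Dv p x := by
  simp only [pcDv, Bool.and_eq_true, beq_iff_eq, ← Int.dvd_iff_emod_eq_zero] at h
  obtain ⟨⟨a, ha⟩, ⟨b, hb⟩, ⟨c, hc⟩, ⟨d, hd⟩⟩ := h
  exact ⟨⟨a, b, c, d⟩, Quaternion.ext _ _ ha hb hc hd⟩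

def pcExt (p : ℕ) (L : List H) : Bool :=
  L.all (fun a => nrm a == p) && (List.range p).all fun a => (List.range p).all fun b =>
    (List.range p).all fun c => (List.range p).all fun d =>
      (a * a + b * b + c * c + d * d) % p != 0 || L.any fun u => pcDv p (pcM (mkH a b c d) u)

theorem pcExt_sound {p : ℕ} {L : List H} (hp : 0 < p) (h : pcExt p L = true) : ExtOK p L := by
  simp only [pcExt, Bool.and_eq_true, List.all_eq_true, beq_iff_eq, List.mem_range,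
    Bool.or_eq_true, bne_iff_ne, List.any_eq_true] at h
  refine ⟨h.1, fun y hy => ?_⟩
  have hd : ∀ x : ℤ, ∃ (a : ℕ) (e : ℤ), a < p ∧ x = a + p * e := fun x => by
    have h1 := Int.emod_nonneg x (by omega : (p : ℤ) ≠ 0)
    have h2 := Int.emod_lt_of_pos x (by omega : (0 : ℤ) < p)
    exact ⟨(x % p).toNat, x / p, by omega, by
      rw [Int.toNat_of_nonneg h1, Int.emod_add_mul_ediv]⟩
  obtain ⟨a, a', ha, ea⟩ := hd y.re
  obtain ⟨b, b', hb, eb⟩ := hd y.imI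
  obtain ⟨c, c', hc, ec⟩ := hd y.imJ
  obtain ⟨d, d', hd, ed⟩ := hd y.imK
  rcases h.2 a ha b hb c hc d hd with h1 | ⟨u, hu, h1⟩
  · refine absurd (Nat.mod_eq_zero_of_dvd (Int.natCast_dvd_natCast.1 ?_)) h1
    have : ((a * a + b * b + c * c + d * d : ℕ) : ℤ) = nrm y - p * (2 * (a * a' + b * b' + c * c' +
        d * d') + p * (a' ^ 2 + b' ^ 2 + c' ^ 2 + d' ^ 2)) := by
      rw [nrm, ea, eb, ec, ed]
      push_cast
      ring
    rw [this]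
    exact dvd_sub hy (dvd_mul_right _ _)
  · obtain ⟨z, hz⟩ := pcDv_sound h1
    have e : y = mkH a b c d + (p : ℤ) • mkH a' b' c' d' := Quaternion.ext _ _ ea eb ec ed
    refine ⟨u, hu, z + mkH a' b' c' d' * u, ?_⟩
    rw [e, add_mul, ← pcM_eq, hz, smul_mul_assoc, smul_add]

theorem ext_1 : ExtOK 1 RP1 := pcExt_sound (by norm_num) (by decide +kernel)
theorem ext_3 : ExtOK 3 RP3 := pcExt_sound (by norm_num) (by decide +kernel)
theorem ext_5 : ExtOK 5 RP5 := pcExt_sound (by norm_num) (by decide +kernel)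
theorem ext_7 : ExtOK 7 RP7 := pcExt_sound (by norm_num) (by decide +kernel)

section rep

variable {n x x' Md B B' : ℕ} {y y' : ℕ → ℤ}

theorem pc_mul {g A : ℕ} {X : ℤ} (hg : g < A) (hX : (Md : ℤ) ∣ g - X) (h : Rep n x y Md B) :
    Rep n (Nat.mul g x) (fun k => X * y k) Md (A * B) := by
  obtain ⟨z, rfl, hz⟩ := h
  refine ⟨fun k => g * z k, ?_, fun k hk => ⟨Nat.mul_lt_mul'' hg (hz k hk).1, ?_⟩⟩
  · simp only [Nat.mul_eq, pkF, Finset.mul_sum, mul_assoc]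
  · have : ((g * z k : ℕ) : ℤ) - X * y k = (g - X) * z k + X * (z k - y k) := by
      push_cast
      ring
    rw [this]
    exact dvd_add (hX.mul_right _) ((hz k hk).2.mul_left _)

theorem pc_add (h : Rep n x y Md B) (h' : Rep n x' y' Md B') :
    Rep n (Nat.add x x') (fun k => y k + y' k) Md (B + B') := by
  obtain ⟨z, rfl, hz⟩ := h
  obtain ⟨z', rfl, hz'⟩ := h'
  refine ⟨fun k => z k + z' k, ?_, fun k hk => ⟨add_lt_add (hz k hk).1 (hz' k hk).1, ?_⟩⟩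
  · simp only [Nat.add_eq, pkF, add_mul, Finset.sum_add_distrib]
  · have : ((z k + z' k : ℕ) : ℤ) - (y k + y' k) = (z k - y k) + (z' k - y' k) := by
      push_cast
      ring
    rw [this]
    exact dvd_add (hz k hk).2 (hz' k hk).2

theorem pc_mono (h : Rep n x y Md B) (hB : B ≤ B') (hy : ∀ k < n, y k = y' k) :
    Rep n x y' Md B' := by
  obtain ⟨z, rfl, hz⟩ := h
  exact ⟨z, rfl, fun k hk => ⟨(hz k hk).1.trans_le hB, hy k hk ▸ (hz k hk).2⟩⟩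

theorem pc_lt {w : ℕ} {z : ℕ → ℕ} (h : ∀ k < n, z k < 2 ^ w) : pkF w n z < 2 ^ (w * n) := by
  induction n with
  | zero => simp [pkF]
  | succ n ih =>
    have h1 := ih fun k hk => h k (by omega)
    have h2 : (z n + 1) * 2 ^ (w * n) ≤ 2 ^ w * 2 ^ (w * n) :=
      Nat.mul_le_mul_right _ (h n (by omega))
    rw [pkF, Finset.sum_range_succ, Nat.mul_succ, pow_add, mul_comm (2 ^ (w * n))]
    rw [pkF] at h1
    rw [add_mul, one_mul] at h2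
    omega

theorem pc_split {m : ℕ} (h : Rep (m + n) x y Md B) (hB : B ≤ 2 ^ 512) :
    Rep m (x % 2 ^ (512 * m)) y Md B ∧ Rep n (x / 2 ^ (512 * m)) (fun k => y (m + k)) Md B := by
  obtain ⟨z, rfl, hz⟩ := h
  have e : pkF 512 (m + n) z = pkF 512 m z + 2 ^ (512 * m) * pkF 512 n fun k => z (m + k) := by
    simp only [pkF, Finset.sum_range_add, Finset.mul_sum, mul_add, pow_add, mul_left_comm]
  have l : pkF 512 m z < 2 ^ (512 * m) := pc_lt fun k hk => (hz k (by omega)).1.trans_le hB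
  refine ⟨⟨z, ?_, fun k hk => hz k (by omega)⟩, fun k => z (m + k), ?_,
    fun k hk => hz _ (by omega)⟩
  · rw [e, Nat.add_mul_mod_self_left, Nat.mod_eq_of_lt l]
  · rw [e, Nat.add_mul_div_left _ _ (Nat.two_pow_pos _), Nat.div_eq_of_lt l, zero_add]

theorem pc_land (x : ℕ) : Nat.land x m2048 = x % 2 ^ (512 * 4) := by
  rw [← Nat.and_two_pow_sub_one_eq_mod, show m2048 = 2 ^ (512 * 4) - 1 by decide +kernel,
    Nat.land_eq]

set_option exponentiation.threshold 3000 in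
theorem pc_shift (x a : ℕ) :
    Nat.shiftRight x (a + 512 * 4) = Nat.shiftRight x a / 2 ^ (512 * 4) := by
  rw [Nat.shiftRight_eq', Nat.shiftRight_eq', Nat.shiftRight_add, Nat.shiftRight_eq_div_pow]

theorem pc_split4 (h : Rep 16 x y Md B) (hB : B ≤ 2 ^ 512) :
    Rep 4 (Nat.land x m2048) y Md B ∧
    Rep 4 (Nat.land (Nat.shiftRight x 2048) m2048) (fun k => y (4 + k)) Md B ∧
    Rep 4 (Nat.land (Nat.shiftRight x 4096) m2048) (fun k => y (4 + (4 + k))) Md B ∧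
    Rep 4 (Nat.shiftRight x 6144) (fun k => y (4 + (4 + (4 + k)))) Md B := by
  obtain ⟨h1, h⟩ := pc_split (m := 4) (n := 12) h hB
  rw [show x / 2 ^ (512 * 4) = Nat.shiftRight x 2048 from (pc_shift x 0).symm] at h
  obtain ⟨h2, h⟩ := pc_split (m := 4) (n := 8) h hB
  rw [← pc_shift] at h
  obtain ⟨h3, h⟩ := pc_split (m := 4) (n := 4) h hB
  rw [← pc_shift] at h
  rw [pc_land, pc_land, pc_land]
  exact ⟨h1, h2, h3, h⟩

/-- packed residues -/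
def pcP (Md n : ℕ) (y : ℕ → ℤ) : ℕ :=
  ((List.range n).map fun k => (y k % Md).toNat * 2 ^ (512 * k)).sum

theorem pcP_rep (hM : 0 < Md) (h : (x == pcP Md n y) = true) : Rep n x y Md Md := by
  refine ⟨fun k => (y k % Md).toNat, ?_, fun k _ => ?_⟩
  · rw [beq_iff_eq.1 h]
    rfl
  · have h1 := Int.emod_nonneg (y k) (by omega : (Md : ℤ) ≠ 0)
    have h2 := Int.emod_lt_of_pos (y k) (by omega : (0 : ℤ) < Md)
    beta_reduce
    refine ⟨by omega, ?_⟩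
    rw [Int.toNat_of_nonneg h1]
    exact (Int.mod_modEq _ _).symm.dvd

variable {W g0 g1 g2 g3 : ℕ} {G : H}

theorem pc_res (hW : W < 2 ^ 140) (hd : Md ∣ W) {g : ℕ} {X : ℤ} (h : Res W g X) :
    g < 2 ^ 141 ∧ (Md : ℤ) ∣ g - X :=
  ⟨h.1.trans_lt (by omega), (Int.natCast_dvd_natCast.2 hd).trans h.2⟩

theorem pc_lin4 (hW : W < 2 ^ 140) (h : Res4 W g0 g1 g2 g3 G) {t0 t1 t2 t3 : ℕ}
    {y0 y1 y2 y3 : ℕ → ℤ} (h0 : Rep n t0 y0 W B) (h1 : Rep n t1 y1 W B) (h2 : Rep n t2 y2 W B)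
    (h3 : Rep n t3 y3 W B) : Rep n (lin4 g0 g1 g2 g3 t0 t1 t2 t3)
      (fun k => G.re * y0 k + G.imI * y1 k + G.imJ * y2 k + G.imK * y3 k) W (2 ^ 143 * B) := by
  obtain ⟨a0, b0⟩ := pc_res hW dvd_rfl h.1
  obtain ⟨a1, b1⟩ := pc_res hW dvd_rfl h.2.1
  obtain ⟨a2, b2⟩ := pc_res hW dvd_rfl h.2.2.1
  obtain ⟨a3, b3⟩ := pc_res hW dvd_rfl h.2.2.2
  exact pc_mono (pc_add (pc_add (pc_mul a0 b0 h0) (pc_mul a1 b1 h1))
    (pc_add (pc_mul a2 b2 h2) (pc_mul a3 b3 h3))) (by omega) fun k _ => by ring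

theorem pc_coL (X a : H) (k : ℕ) : X.re * co (eb 0 * a) k + X.imI * co (eb 1 * a) k +
    X.imJ * co (eb 2 * a) k + X.imK * co (eb 3 * a) k = co (X * a) k := by
  unfold co
  split <;> simp only [pc_mul_co, pc_eb] <;> ring

theorem pc_coS (X a : H) (k : ℕ) : X.re * co (star (eb 0) * a) k + X.imI * co (star (eb 1) * a) k +
    X.imJ * co (star (eb 2) * a) k + X.imK * co (star (eb 3) * a) k = co (star X * a) k := by
  unfold co
  split <;> simp only [pc_mul_co, pc_star_co, pc_eb] <;> ring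

theorem pc_coR (X G a : H) (k : ℕ) : G.re * co (X * (eb 0 * a)) k + G.imI * co (X * (eb 1 * a)) k +
    G.imJ * co (X * (eb 2 * a)) k + G.imK * co (X * (eb 3 * a)) k = co (X * G * a) k := by
  unfold co
  split <;> simp only [pc_mul_co, pc_eb] <;> ring

def pc4 (W : ℕ) (c : T4) (a : H) : Bool :=
  c.t0 == pcP W 4 (co (pcM (eb 0) a)) && (c.t1 == pcP W 4 (co (pcM (eb 1) a)) &&
    (c.t2 == pcP W 4 (co (pcM (eb 2) a)) && c.t3 == pcP W 4 (co (pcM (eb 3) a))))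

def pcL (W : ℕ) (T : List T4) (L : List H) : Bool :=
  !T.isEmpty && L.all fun a => T.any fun c => pc4 W c a

theorem pcL_sound (h0 : 0 < W) (hW : W < 2 ^ 140) {T : List T4} {L : List H}
    (h : pcL W T L = true) : RepL W T L := by
  simp only [pcL, Bool.and_eq_true, Bool.not_eq_true', List.isEmpty_eq_false_iff, List.all_eq_true,
    List.any_eq_true, pc4, pcM_eq] at h
  refine ⟨h.1, fun a ha => ?_⟩
  obtain ⟨c, hc, a0, a1, a2, a3⟩ := h.2 a ha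
  exact ⟨c, hc, fun x0 x1 x2 x3 X hX => pc_mono (pc_lin4 hW hX (pcP_rep h0 a0) (pcP_rep h0 a1)
    (pcP_rep h0 a2) (pcP_rep h0 a3))
    ((Nat.mul_le_mul_left _ hW.le).trans (by decide +kernel)) fun k _ => pc_coL X a k⟩

def pcKf (b : ℕ) (be : H) (k : ℕ) : ℤ := co (pcM (pcS (eb b)) (pcM (eb (k / 4)) be)) (k % 4)

def pcK (W : ℕ) (c : T4) (be : H) : Bool :=
  c.t0 == pcP W 16 (pcKf 0 be) && (c.t1 == pcP W 16 (pcKf 1 be) &&
    (c.t2 == pcP W 16 (pcKf 2 be) && c.t3 == pcP W 16 (pcKf 3 be)))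

theorem pcK_sound (h0 : 0 < W) (hW : W < 2 ^ 140) {c : T4} {be : H} (h : pcK W c be = true)
    {x0 x1 x2 x3 : ℕ} {X : H} (hX : Res4 W x0 x1 x2 x3 X) (hG : Res4 W g0 g1 g2 g3 G) :
    RepQ W (cmul2 (lin4 x0 x1 x2 x3 c.t0 c.t1 c.t2 c.t3) g0 g1 g2 g3) (star X * G * be) := by
  simp only [pcK, Bool.and_eq_true] at h
  obtain ⟨a0, a1, a2, a3⟩ := h
  have h1 : Rep 16 (lin4 x0 x1 x2 x3 c.t0 c.t1 c.t2 c.t3)
      (fun k => co (star X * (eb (k / 4) * be)) (k % 4)) W (2 ^ 143 * 2 ^ 140) :=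
    pc_mono (pc_lin4 hW hX (pcP_rep h0 a0) (pcP_rep h0 a1) (pcP_rep h0 a2) (pcP_rep h0 a3))
      (Nat.mul_le_mul_left _ hW.le) fun k _ => by simp only [pcKf, pcM_eq, pcS_eq, pc_coS]
  obtain ⟨b0, b1, b2, b3⟩ := pc_split4 h1 (by decide +kernel)
  refine pc_mono (pc_lin4 hW hG b0 b1 b2 b3) (by decide +kernel) fun k hk => ?_
  rw [← pc_coR]
  interval_cases k <;> rfl

/-- a quadratic form with ten coefficients -/
def pcQ (c : ℕ → ℤ) (G : H) : ℤ :=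
  G.re * (G.re * c 0 + G.imI * c 1 + (G.imJ * c 2 + G.imK * c 3)) +
    G.imI * (G.imI * c 4 + G.imJ * c 5 + G.imK * c 6) +
    (G.imJ * (G.imJ * c 7 + G.imK * c 8) + G.imK * (G.imK * c 9))

def pcU (U : UT) (n : ℕ) (c : ℕ → ℕ → ℤ) : Bool :=
  U.u00 == pcP (2 ^ 76) n (c 0) && (U.u01 == pcP (2 ^ 76) n (c 1) &&
  (U.u02 == pcP (2 ^ 76) n (c 2) && (U.u03 == pcP (2 ^ 76) n (c 3) &&
  (U.u11 == pcP (2 ^ 76) n (c 4) && (U.u12 == pcP (2 ^ 76) n (c 5) &&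
  (U.u13 == pcP (2 ^ 76) n (c 6) && (U.u22 == pcP (2 ^ 76) n (c 7) &&
  (U.u23 == pcP (2 ^ 76) n (c 8) && U.u33 == pcP (2 ^ 76) n (c 9)))))))))

theorem pcU_sound (hW : W < 2 ^ 140) (hd : 2 ^ 76 ∣ W) {U : UT} {c : ℕ → ℕ → ℤ}
    {f : ℕ → H → ℤ} (h : pcU U n c = true) (hf : ∀ k < n, ∀ G, pcQ (fun j => c j k) G = f k G) :
    UOK W U n f := by
  intro g0 g1 g2 g3 G hG
  simp only [pcU, Bool.and_eq_true] at h
  obtain ⟨c0, c1, c2, c3, c4, c5, c6, c7, c8, c9⟩ := h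
  obtain ⟨a0, b0⟩ := pc_res hW hd hG.1
  obtain ⟨a1, b1⟩ := pc_res hW hd hG.2.1
  obtain ⟨a2, b2⟩ := pc_res hW hd hG.2.2.1
  obtain ⟨a3, b3⟩ := pc_res hW hd hG.2.2.2
  have h0 := Nat.two_pow_pos 76
  exact pc_mono (pc_add (pc_add
    (pc_mul a0 b0 (pc_add (pc_add (pc_mul a0 b0 (pcP_rep h0 c0)) (pc_mul a1 b1 (pcP_rep h0 c1)))
      (pc_add (pc_mul a2 b2 (pcP_rep h0 c2)) (pc_mul a3 b3 (pcP_rep h0 c3)))))
    (pc_mul a1 b1 (pc_add (pc_add (pc_mul a1 b1 (pcP_rep h0 c4)) (pc_mul a2 b2 (pcP_rep h0 c5)))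
      (pc_mul a3 b3 (pcP_rep h0 c6)))))
    (pc_add (pc_mul a2 b2 (pc_add (pc_mul a2 b2 (pcP_rep h0 c7)) (pc_mul a3 b3 (pcP_rep h0 c8))))
      (pc_mul a3 b3 (pc_mul a3 b3 (pcP_rep h0 c9))))) (by decide +kernel) fun k hk => hf k hk G

end rep

def pcT : List (List ℤ) :=
  [[1, 0, 0, 0, 1, 0, 0, 1, 0, 1], [], [], [],
   [], [1, 0, 0, 0, 1, 0, 0, -1, 0, -1], [0, 0, 0, 2, 0, 2, 0, 0, 0, 0],
   [0, 0, -2, 0, 0, 0, 2, 0, 0, 0],
   [], [0, 0, 0, -2, 0, 2, 0, 0, 0, 0], [1, 0, 0, 0, -1, 0, 0, 1, 0, -1],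
   [0, 2, 0, 0, 0, 0, 0, 0, 2, 0],
   [], [0, 0, 2, 0, 0, 0, 2, 0, 0, 0], [0, -2, 0, 0, 0, 0, 0, 0, 2, 0],
   [1, 0, 0, 0, -1, 0, 0, -1, 0, 1]]

/-- coefficients of the entries of the rotation matrix -/
def pcR (r t j : ℕ) : ℤ := (pcT.getD (4 * r + t) []).getD j 0

theorem pcR_eq {r t : ℕ} (hr : r ≤ 3) (ht : t ≤ 3) (G : H) : pcQ (pcR r t) G = Rm r t G := by
  interval_cases r <;> interval_cases t <;>
    simp only [Rm, pc_co, pc_mul_co, pc_star_co, pc_eb] <;> simp [pcQ, pcR, pcT, nrm] <;> ring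

def pcD (x : H) (t j : ℕ) : ℤ := 4096 * (x.imI * pcR 1 t j + x.imJ * pcR 2 t j + x.imK * pcR 3 t j)

theorem pcD_eq (x : H) {t : ℕ} (h0 : t ≠ 0) (ht : t ≤ 3) (G : H) :
    pcQ (pcD x t) G = 4096 * dot x (star G * eb t * G) := by
  have h1 := pcR_eq (r := 1) (by norm_num) ht G
  have h2 := pcR_eq (r := 2) (by norm_num) ht G
  have h3 := pcR_eq (r := 3) (by norm_num) ht G
  simp only [Rm, h0, and_false, or_false, if_false, one_ne_zero, OfNat.ofNat_ne_zero, pc_co]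
    at h1 h2 h3
  rw [dot, ← h1, ← h2, ← h3]
  simp only [pcQ, pcD]
  ring

def pcCU (S : Sp) (c j k : ℕ) : ℤ :=
  if k = 0 then pcR 0 0 j else if k = 1 then pcR S.c0 c j
  else if k ≤ 4 then pcD S.x1 (k - 1) j else pcD S.x2 (k - 4) j

def pcCX (j k : ℕ) : ℤ :=
  if k = 0 then pcR 0 0 j else if k = 1 then 0 else if k ≤ 4 then pcD (eb 1) (k - 1) j else 0

theorem pc_nrm (G : H) : pcQ (pcR 0 0) G = nrm G := pcR_eq (by norm_num) (by norm_num) G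

theorem pcCU_eq {S : Sp} (h : S.c0 ≤ 3) {c : ℕ} (hc : c ≤ 3) :
    ∀ k < 8, ∀ G, pcQ (fun j => pcCU S c j k) G = phiU S c k G := fun k hk G => by
  unfold pcCU phiU
  split_ifs
  exacts [pc_nrm G, pcR_eq h hc G, pcD_eq _ (by omega) (by omega) G,
    pcD_eq _ (by omega) (by omega) G]

theorem pcCX_eq : ∀ k < 8, ∀ G, pcQ (fun j => pcCX j k) G = phiX k G := fun k _ G => by
  unfold pcCX phiX
  split_ifs
  exacts [pc_nrm G, by simp [pcQ], pcD_eq _ (by omega) (by omega) G, by simp [pcQ]]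

def pcTa (P : Par) (j : ℕ) : ℕ :=
  Nat.land (Nat.shiftRight P.ta (Nat.mul 80 j)) 1208925819614629174706175

/-- the numerical conditions -/
def pcN (P : Par) (S : Sp) : Prop :=
  (P.W = 2 ^ 76 * P.ML ∧ P.ML = P.M0 * P.l ∧ P.M4 = 4 * P.M0 ∧ P.ML4 = 4 * P.ML ∧
    P.ML < 2 ^ 64 ∧ P.ML % 2 = 1 ∧ Nat.Coprime P.l P.M0 ∧ P.M0 = P.p ^ S.r0 * P.q ^ S.s0 ∧
    P.n0 = P.p ^ S.t0 * P.q ^ S.s1 ∧ P.qs = P.q ^ S.s1) ∧
  (1 ≤ S.t0 ∧ S.t0 ≤ S.r0 ∧ S.s1 ≤ S.s0 ∧ Nat.Coprime P.p P.q ∧ 2 ≤ P.p ∧ P.nodd ∣ P.M0 ∧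
    (nrm S.be = P.nodd ∨ nrm S.be = 2 * P.nodd) ∧ ∀ j < 4, pcTa P j ∣ P.ML) ∧
  (S.x1.re = 0 ∧ nrm S.x1 ≤ (P.cx : ℤ) ^ 2) ∧ (S.x2.re = 0 ∧ nrm S.x2 ≤ (P.cx : ℤ) ^ 2) ∧
    2 ≤ P.cx ∧ 0 < P.K ∧ (2 * P.mg1 ≤ P.K ∧ P.mg1 ≤ 1024) ∧ (2 * P.mg2 ≤ P.K ∧ P.mg2 ≤ 1024) ∧
    S.c0 ≤ 3

instance (P : Par) (S : Sp) : Decidable (pcN P S) := by
  unfold pcN
  infer_instance

/-- a Boolean test which the kernel evaluates in a few seconds -/
def parChk (P : Par) (S : Sp) : Bool :=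
  decide (pcN P S) && (pcK P.W P.kf (eb 0) && (pcK P.W P.kb S.be && (pcL P.W P.rp S.RP &&
    (pcL P.W P.rq S.RQ && (pcL P.W P.rl S.RL && (pcU P.U0 8 (pcCU S 0) &&
    (pcU P.U1 8 (pcCU S 1) && (pcU P.U2 8 (pcCU S 2) && (pcU P.U3 8 (pcCU S 3) &&
    (pcU P.X 8 pcCX && pcU P.Y 16 fun j k => pcR (k / 4) (k % 4) j))))))))))

theorem parChk_sound {P : Par} {S : Sp} (h : parChk P S = true) (hl : P.l = 1 ∨ P.l.Prime)
    (hp : ExtOK P.p S.RP) (hq : ExtOK P.q S.RQ) (hl' : ExtOK P.l S.RL) : ParOK P S := by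
  simp only [parChk, Bool.and_eq_true, decide_eq_true_eq] at h
  obtain ⟨⟨⟨a1, a2, a3, a4, a5, a6, a7, a8, a9, a10⟩, ⟨b1, b2, b3, b4, b5, b6, b7, b8⟩,
    c1, c2, c3, c4, c5, c6, c7⟩, kf, kb, rp, rq, rl, u0, u1, u2, u3, ux, uy⟩ := h
  have h0 : 0 < P.W := by omega
  have hW : P.W < 2 ^ 140 := by omega
  have hd : 2 ^ 76 ∣ P.W := a1 ▸ dvd_mul_right _ _
  refine ⟨a1, a2, a3, a4, a5, a6, hl, a7, a8, a9, a10, b1, b2, b3, b4, b5, b6, b7,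
    fun g r => (Nat.gcd_dvd_right _ _).trans (b8 _ (Nat.lt_succ_of_le Nat.and_le_right)),
    c1, c2, c3, c4, c5, c6, c7, fun x0 x1 x2 x3 X g0 g1 g2 g3 G hX hG => ?_,
    fun x0 x1 x2 x3 X g0 g1 g2 g3 G hX hG => pcK_sound h0 hW kb hX hG, pcL_sound h0 hW rp,
    pcL_sound h0 hW rq, pcL_sound h0 hW rl, hp, hq, hl', fun c hc => ?_,
    pcU_sound hW hd ux pcCX_eq, pcU_sound hW hd uy fun k hk G => pcR_eq (by omega) (by omega) G⟩
  · have := pcK_sound h0 hW kf hX hG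
    rwa [show eb 0 = 1 from rfl, mul_one] at this
  · interval_cases c
    exacts [pcU_sound hW hd u0 (pcCU_eq c7 hc), pcU_sound hW hd u1 (pcCU_eq c7 hc),
      pcU_sound hW hd u2 (pcCU_eq c7 hc), pcU_sound hW hd u3 (pcCU_eq c7 hc)]

end Pool.Agent.Lib.MP_094079_nt
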