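import Pool.Agent.Lib.MP_094079_nt.RunD
import Pool.Agent.Lib.MP_094079_nt.ParChk
import Pool.Agent.Lib.MP_094079_nt.Brute

/-! From a checked certificate to representations. -/
namespace Pool.Agent.Lib.MP_094079_nt

open Quaternion

variable {P : Par} {S : Sp}

theorem cs_nil {G : Grid} {fv : FV} {xb : ℕ} :
    ∀ x ∈ ([] : List (ℕ × ℕ)), CutGood P S G fv xb x.1 x.2 := fun _ h => by simp at h

theorem cs_cons {G : Grid} {fv : FV} {xb a b : ℕ} {L : List (ℕ × ℕ)} (h : CutGood P S G fv xb a b)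
    (h' : ∀ x ∈ L, CutGood P S G fv xb x.1 x.2) :
    ∀ x ∈ (a, b) :: L, CutGood P S G fv xb x.1 x.2 := List.forall_mem_cons.2 ⟨h, h'⟩

/-- the exponent `j` and the square root `x` suit the number `t` -/
def Pk (Md pq nd t j x : ℕ) : Prop :=
  (x * x + t) % Md = 4 ^ j % Md ∧ Nat.gcd (2 * x) pq = 1 ∧ x % nd = 2 ^ j % nd ∧
    ((t + 7 * 4 ^ j) % 4 = 1 ∨ (t + 7 * 4 ^ j) % 4 = 2 ∨ (t + 7 * 4 ^ j) % 8 = 3)

instance (Md pq nd t j x : ℕ) : Decidable (Pk Md pq nd t j x) := by unfold Pk; infer_instance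

theorem Pk.mod {Md pq nd t t' j x : ℕ} (h : Pk Md pq nd t j x) (ht : t ≡ t' [MOD 8 * Md]) :
    Pk Md pq nd t' j x := by
  obtain ⟨h1, h2, h3, h4⟩ := h
  have e1 : t ≡ t' [MOD Md] := ht.of_mul_left 8
  have e2 : t % 8 = t' % 8 := ht.of_mul_right Md
  refine ⟨?_, h2, h3, by omega⟩
  rw [← h1]
  exact (Nat.ModEq.add_left _ e1).symm

def tj (T r : ℕ) : ℕ := T / 2 ^ (10 * r) % 8
def tx (T r : ℕ) : ℕ := T / 2 ^ (10 * r + 3) % 128

theorem goal_of_pk (ok : ParOK P S) {par : Bool} (hall : All P S par) {kp Md t j x : ℕ}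
    (h1 : 1 ≤ kp) (h2 : kp ≤ S.r0) (h4 : 1 ≤ S.s0) (hMd : Md = P.p ^ kp * P.q ^ 1 * P.l)
    (hnd : P.nodd ∣ Md) (h : Pk Md (P.p * P.q) P.nodd t j x)
    (hbig : (3 * P.K ^ 2 + 1) * 4 ^ j ≤ t) (hd : P.dmax + 4 ^ j < t)
    (hpar : par = true → t % 4 = 2) : Goal P S (2 ^ j) (t - 4 ^ j) := by
  obtain ⟨e1, e2, e3, e4⟩ := h
  have hl : Nat.Coprime P.l (P.p * P.q) := by
    refine ok.hlM.coprime_dvd_right ?_
    rw [ok.hM0]
    exact Nat.mul_dvd_mul (dvd_pow_self _ (by omega)) (dvd_pow_self _ (by omega))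
  have hx : ((P.p ^ kp * P.q ^ 1 * P.l : ℕ) : ℤ) ∣ (x : ℤ) ^ 2 + (t - 4 ^ j) := by
    rw [← hMd]
    have := (Nat.ModEq.symm e1).dvd
    push_cast at this
    rwa [show (x : ℤ) * x + t - 4 ^ j = x ^ 2 + (t - 4 ^ j) by ring] at this
  obtain ⟨mu, m1, m2, m3⟩ := mu_exists h1 h2 le_rfl h4 ok.hpq hl
    (by exact_mod_cast Nat.isCoprime_iff_coprime.2 e2) hx
  have h44 : ((2 : ℤ) ^ j) ^ 2 = 4 ^ j := by rw [← pow_mul, mul_comm, pow_mul]; norm_num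
  have hbig' : ((3 * (P.K : ℤ) ^ 2 + 1) * 4 ^ j ≤ t) := by exact_mod_cast hbig
  have hd' : (P.dmax : ℤ) + 4 ^ j < t := by exact_mod_cast hd
  have e5 : ((4 ^ j : ℕ) : ℤ) = 4 ^ j := by push_cast; rfl
  refine hall _ mu _ ⟨by positivity, by rw [ok.hML, ok.hM0]; exact m2, by rw [ok.hM0]; exact m3,
    ?_, by rw [h44]; linarith, by linarith⟩ (by omega) ?_
  · have a1 := Nat.ModEq.dvd e3
    push_cast at a1
    rw [← hMd] at m1
    have := dvd_sub a1 ((Int.natCast_dvd_natCast.2 hnd).trans m1)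
    rwa [show (2 : ℤ) ^ j - x - (mu - x) = 2 ^ j - mu by ring] at this
  · intro hp
    have := hpar hp
    rw [h44]
    omega

theorem rp_goal {a b c m D M : ℤ} {n k : ℕ} (hg : Goal P S m D) (hbe : S.be = mkH a b c 0)
    (hM0 : 0 < M)
    (hM : M = P.nodd ∨ (M = P.nodd * 2 ∧ P.nodd % 2 = 1 ∧ ∀ v : H, v.re = 0 → nrm v = D →
      PC S.c0 m v → Dv 2 ((sc m + v) * mkH a b c 0)))
    (hn : (m ^ 2 + D) * (a ^ 2 + b ^ 2 + c ^ 2) = M ^ 2 * n)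
    (hk : m * (a ^ 2 + b ^ 2 + c ^ 2) = M * 2 ^ k)
    (hlin : ∀ v : H, P.mg1 * m ≤ dot S.x1 v → P.mg2 * m ≤ dot S.x2 v →
      0 ≤ a * m - b * v.imI - c * v.imJ ∧ 0 ≤ b * m + a * v.imI - c * v.imK ∧
      (c = 0 ∨ 0 ≤ c * m + a * v.imJ + b * v.imK)) : Rp a b c n := by
  obtain ⟨v, h1, h2, h3, h4, h5, h6⟩ := hg
  rw [hbe] at h3
  obtain ⟨l1, l2, l3⟩ := hlin v h5 h6
  have hD : Dv M ((sc m + v) * mkH a b c 0) := by
    rcases hM with rfl | ⟨rfl, ho, h⟩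
    · exact h3
    · refine h3.lcm (h v h1 h2 h4) ?_
      exact_mod_cast Nat.isCoprime_iff_coprime.2 ((Nat.coprime_two_right).2 (Nat.odd_iff.2 ho))
  obtain ⟨u, hu⟩ := hD
  exact rp_of hM0 hu h1 h2 hn hk l1 l2 l3

/-- reduction to the numbers not divisible by four -/
theorem all_of {a b c : ℤ} {E : ℕ → Prop} (hE : ∀ n, E (4 * n) → E n)
    (h : ∀ n, 0 < n → n % 4 ≠ 0 → E n → Rp a b c n) : ∀ n, 0 < n → E n → Rp a b c n := by
  intro n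
  induction n using Nat.strong_induction_on with
  | _ n ih =>
    intro hn he
    by_cases h4 : n % 4 = 0
    · obtain ⟨k, rfl⟩ := Nat.dvd_of_mod_eq_zero h4
      exact rp_four (ih k (by omega) (by omega) (hE k he))
    · exact h n hn h4 he

theorem pow4_le {j J : ℕ} (h : j ≤ J) : 4 ^ j ≤ 4 ^ J := Nat.pow_le_pow_right (by norm_num) h

theorem sq_two_pow (j : ℕ) : ((2 : ℤ) ^ j) ^ 2 = 4 ^ j := by
  rw [← pow_mul, mul_comm, pow_mul]; norm_num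

end Pool.Agent.Lib.MP_094079_nt
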