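import Pool.Agent.Lib.MP_094079_nt.Spec
import Pool.Agent.Lib.MP_094079_nt.Grids

/-! The two grids cover the chamber and the sphere. -/
namespace Pool.Agent.Lib.MP_094079_nt

open Quaternion

/-- lanes of 21 bits, one for each cell of the list -/
def grPk (f : ℕ × ℕ × ℕ → ℕ) (L : List (ℕ × ℕ × ℕ)) : ℕ :=
  L.foldr (fun c acc => f c + 2097152 * acc) 0

theorem gr_cons (f : ℕ × ℕ × ℕ → ℕ) (c : ℕ × ℕ × ℕ) (L : List (ℕ × ℕ × ℕ)) :
    grPk f (c :: L) = 2 ^ 21 * grPk f L + f c := by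
  rw [grPk, List.foldr_cons, add_comm]
  rfl

theorem gr_lane {L : List (ℕ × ℕ × ℕ)} {c : ℕ × ℕ × ℕ} (hc : c ∈ L) :
    ∃ k, ∀ f : ℕ × ℕ × ℕ → ℕ, (∀ x ∈ L, f x < 2 ^ 21) →
      (grPk f L).testBit (21 * k + 20) = (f c).testBit 20 := by
  induction L with
  | nil => exact absurd hc List.not_mem_nil
  | cons x L ih =>
    rcases List.mem_cons.1 hc with rfl | h
    · refine ⟨0, fun f hf => ?_⟩
      rw [gr_cons, Nat.testBit_two_pow_mul_add _ (hf c List.mem_cons_self), if_pos (by omega)]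
    · obtain ⟨k, hk⟩ := ih h
      refine ⟨k + 1, fun f hf => ?_⟩
      rw [gr_cons, Nat.testBit_two_pow_mul_add _ (hf x List.mem_cons_self), if_neg (by omega),
        show 21 * (k + 1) + 20 - 21 = 21 * k + 20 by omega,
        hk f fun y hy => hf y (List.mem_cons_of_mem _ hy)]

theorem gr_lin (a b c d : ℕ) (f1 f2 f3 f4 : ℕ × ℕ × ℕ → ℕ) (L : List (ℕ × ℕ × ℕ)) :
    a * grPk f1 L + b * grPk f2 L + (c * grPk f3 L + d * grPk (fun _ => 1) L) + grPk f4 L =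
      grPk (fun x => a * f1 x + b * f2 x + c * f3 x + d + f4 x) L := by
  induction L with
  | nil => rfl
  | cons x L ih =>
    simp only [gr_cons, ← ih]
    ring

/-- rounding of one coordinate -/
theorem gr_coord {P d C A O rho w : ℤ} (hP : 0 ≤ P) (h1 : P * d ≤ C) (h2 : C < P * (d + 1))
    (h3 : A * rho ≤ w) (h4 : w ≤ (A + 1) * rho) (h5 : -(O * rho) ≤ w) (h6 : 0 ≤ O * rho) :
    P * ((d * A + min d 0 - O) * rho) ≤ C * w := by
  have e1 : (d * A + min d 0) * rho ≤ d * w := by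
    rcases le_total d 0 with h | h
    · rw [min_eq_left h]
      nlinarith
    · rw [min_eq_right h]
      nlinarith
  have e2 := mul_le_mul_of_nonneg_left e1 hP
  have e3 := mul_nonneg (sub_nonneg.2 h1) (show 0 ≤ w + O * rho by omega)
  have e4 := mul_nonneg (sub_nonneg.2 h2.le) h6
  nlinarith

/-- the cell index of one coordinate -/
theorem gr_idx (R : ℕ) (hR : 0 < R) {rho x : ℤ} (h0 : 0 < rho) (h1 : 0 ≤ x) (h2 : x ≤ rho) :
    ∃ A : ℕ, A < R ∧ A * rho ≤ R * x ∧ R * x ≤ (A + 1) * rho ∧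
      (A : ℤ) = min (R * x / rho) (R - 1) := by
  have e0 : 0 ≤ (R : ℤ) * x / rho := Int.ediv_nonneg (by positivity) h0.le
  have e1 := Int.ediv_mul_le ((R : ℤ) * x) h0.ne'
  have e2 := Int.lt_ediv_add_one_mul_self ((R : ℤ) * x) h0
  obtain ⟨A, hA⟩ := Int.eq_ofNat_of_zero_le (show 0 ≤ min ((R : ℤ) * x / rho) (R - 1) by omega)
  refine ⟨A, by omega, ?_, ?_, hA.symm⟩
  · exact (mul_le_mul_of_nonneg_right (hA ▸ min_le_left _ _) h0.le).trans e1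
  · rcases le_total ((R : ℤ) * x / rho) (R - 1) with h | h
    · rw [← hA, min_eq_left h]
      exact e2.le
    · rw [← hA, min_eq_right h, sub_add_cancel]
      exact mul_le_mul_of_nonneg_left h2 (by positivity)

theorem gr_mul {c X : ℕ} (R : ℕ) (hc : c < 8192) (hX : X ≤ R) : c * X ≤ 4096 * X + 4096 * R := by
  nlinarith

theorem gr_mul' {c X : ℕ} (hc : c < 8192) (hX : X ≤ 16) :
    c * X ≤ 4096 * X + 8 * c := by
  rcases le_total X 8 with h | h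
  · nlinarith
  · obtain ⟨Y, rfl⟩ := Nat.exists_eq_add_of_le h
    nlinarith

def grL1 : List (ℕ × ℕ × ℕ) :=
  (List.range 48).flatMap fun j => (List.range (48 - j)).map fun i => (48, j + i, j)

def grSq (g : ℕ → ℕ → ℕ × ℕ × ℕ) : List (ℕ × ℕ × ℕ) :=
  (List.range 16).flatMap fun i => (List.range 16).map fun j => g i j

def grL2 : List (ℕ × ℕ × ℕ) :=
  [16, 0].flatMap fun x =>
    grSq (fun i j => (x, i, j)) ++ grSq (fun i j => (i, x, j)) ++ grSq fun i j => (i, j, x)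

theorem gr_mem1 {c : ℕ × ℕ × ℕ} : c ∈ grL1 ↔ c.1 = 48 ∧ c.2.2 ≤ c.2.1 ∧ c.2.1 < 48 := by
  obtain ⟨x, y, z⟩ := c
  simp only [grL1, List.mem_flatMap, List.mem_map, List.mem_range, Prod.mk.injEq]
  constructor
  · rintro ⟨j, hj, i, hi, h1, h2, h3⟩
    omega
  · rintro ⟨h1, h2, h3⟩
    exact ⟨z, by omega, y - z, by omega, by omega, by omega, rfl⟩

theorem gr_memSq {g : ℕ → ℕ → ℕ × ℕ × ℕ} {c : ℕ × ℕ × ℕ} :
    c ∈ grSq g ↔ ∃ i < 16, ∃ j < 16, g i j = c := by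
  simp only [grSq, List.mem_flatMap, List.mem_map, List.mem_range]

theorem gr_mem2 {c : ℕ × ℕ × ℕ} : c ∈ grL2 ↔
    ((c.1 = 16 ∨ c.1 = 0) ∧ c.2.1 < 16 ∧ c.2.2 < 16) ∨
    ((c.2.1 = 16 ∨ c.2.1 = 0) ∧ c.1 < 16 ∧ c.2.2 < 16) ∨
    ((c.2.2 = 16 ∨ c.2.2 = 0) ∧ c.1 < 16 ∧ c.2.1 < 16) := by
  obtain ⟨x, y, z⟩ := c
  simp only [grL2, List.mem_flatMap, List.mem_append, gr_memSq, List.mem_cons, List.not_mem_nil,
    or_false, Prod.mk.injEq]
  constructor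
  · rintro ⟨a, ha, (⟨i, hi, j, hj, h⟩ | ⟨i, hi, j, hj, h⟩) | ⟨i, hi, j, hj, h⟩⟩ <;> omega
  · rintro (⟨h1, h2, h3⟩ | ⟨h1, h2, h3⟩ | ⟨h1, h2, h3⟩)
    · exact ⟨x, h1, .inl (.inl ⟨y, h2, z, h3, rfl, rfl, rfl⟩)⟩
    · exact ⟨y, h1, .inl (.inr ⟨x, h2, z, h3, rfl, rfl, rfl⟩)⟩
    · exact ⟨z, h1, .inr ⟨x, h2, y, h3, rfl, rfl, rfl⟩⟩

theorem gr_ty1 : G1_48.ty = grPk (fun c => c.2.1) grL1 := by decide +kernel
theorem gr_tz1 : G1_48.tz = grPk (fun c => c.2.2) grL1 := by decide +kernel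
theorem gr_cz1 : G1_48.cz = grPk (fun c => 4096 * (144 - (c.1 + c.2.1 + c.2.2))) grL1 := by
  decide +kernel
theorem gr_ones1 : G1_48.ones = grPk (fun _ => 1) grL1 := by decide +kernel
theorem gr_top1 : G1_48.top = grPk (fun _ => 1048576) grL1 := by decide +kernel
theorem gr_tx2 : G2_8.tx = grPk (fun c => c.1) grL2 := by decide +kernel
theorem gr_ty2 : G2_8.ty = grPk (fun c => c.2.1) grL2 := by decide +kernel
theorem gr_tz2 : G2_8.tz = grPk (fun c => c.2.2) grL2 := by decide +kernel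
theorem gr_cz2 : G2_8.cz = grPk (fun c => 4096 * (48 - (c.1 + c.2.1 + c.2.2))) grL2 := by
  decide +kernel
theorem gr_ones2 : G2_8.ones = grPk (fun _ => 1) grL2 := by decide +kernel
theorem gr_top2 : G2_8.top = grPk (fun _ => 1048576) grL2 := by decide +kernel

theorem gr_fv1 (c1 c2 c3 mgl : ℕ) : fv1 G1_48 c1 c2 c3 mgl =
    grPk (fun x => c2 * x.2.1 + c3 * x.2.2 + 0 * x.1 +
      (c1 * 48 + 458752 - (mgl + (4096 - c2 + (4096 - c3)))) +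
      4096 * (144 - (x.1 + x.2.1 + x.2.2))) grL1 := by
  rw [← gr_lin, ← gr_ty1, ← gr_tz1, ← gr_cz1, ← gr_ones1, zero_mul, zero_add, add_assoc]
  simp only [fv1, Nat.add_eq, Nat.mul_eq, Nat.sub_eq, show G1_48.R = 48 from rfl,
    show G1_48.c0 = 458752 from rfl]

theorem gr_fv2 (c1 c2 c3 mgl : ℕ) : fv2 G2_8 c1 c2 c3 mgl =
    grPk (fun x => c1 * x.1 + c2 * x.2.1 + c3 * x.2.2 +
      (950248 - (8 * (c1 + c2 + c3) + mgl + (4096 - c1 + (4096 - c2 + (4096 - c3))))) +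
      4096 * (48 - (x.1 + x.2.1 + x.2.2))) grL2 := by
  rw [← gr_lin, ← gr_tx2, ← gr_ty2, ← gr_tz2, ← gr_cz2, ← gr_ones2]
  simp only [fv2, Nat.add_eq, Nat.mul_eq, Nat.sub_eq, show G2_8.R = 8 from rfl,
    show G2_8.c0 = 950248 from rfl]

theorem reg1_48 (v : H) (h0 : 0 < v.imI) (h1 : v.imJ ≤ v.imI) (h2 : v.imK ≤ v.imJ)
    (h3 : 0 ≤ v.imK) :
    ∃ j : ℕ, G1_48.top.testBit j = true ∧ Cell (fv1 G1_48) G1_48.rz j v.imI v ∧
      4096 ≤ G1_48.rz := by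
  obtain ⟨Y, y1, y2, y3, y4⟩ := gr_idx 48 (by norm_num) h0 (h3.trans h2) h1
  obtain ⟨Z, z1, z2, z3, z4⟩ := gr_idx 48 (by norm_num) h0 h3 (h2.trans h1)
  have hZY : Z ≤ Y := by
    have := Int.ediv_le_ediv h0 (mul_le_mul_of_nonneg_left h2 (Nat.cast_nonneg 48))
    omega
  obtain ⟨k, hk⟩ := gr_lane (gr_mem1.2 (show (48, Y, Z).1 = 48 ∧ _ from ⟨rfl, hZY, y1⟩))
  have hrz : G1_48.rz = 196608 := rfl
  refine ⟨21 * k + 20, ?_, ?_, by omega⟩
  · rw [gr_top1, hk _ fun _ _ => by norm_num]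
    decide
  rw [hrz]
  intro c1 c2 c3 mgl sh C1 C2 C3 b1 b2 b3 hm a1 _ a3 a4 a5 a6 ht
  rw [gr_fv1, hk] at ht
  · have e0 := Nat.ge_two_pow_of_testBit ht
    dsimp only at e0
    have hP : (0 : ℤ) ≤ 2 ^ sh := by positivity
    push_cast at y2 y3 z2 z3
    have e1 : (mgl : ℤ) ≤ (c1 - 4096) * 48 + ((c2 - 4096) * Y + min ((c2 : ℤ) - 4096) 0 - 0) +
        ((c3 - 4096) * Z + min ((c3 : ℤ) - 4096) 0 - 0) := by
      have p1 : ((c2 : ℤ) - 4096) * Y = (c2 * Y : ℕ) - 4096 * Y := by push_cast; ring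
      have p2 : ((c3 : ℤ) - 4096) * Z = (c3 * Z : ℕ) - 4096 * Z := by push_cast; ring
      rw [p1, p2]
      omega
    have e2 := gr_coord (O := 0) hP a3 (by linarith) y2 y3 (by omega) (by omega)
    have e3 := gr_coord (O := 0) hP a5 (by linarith) z2 z3 (by omega) (by omega)
    have e4 := mul_le_mul_of_nonneg_right a1 h0.le
    have e5 := mul_le_mul_of_nonneg_left (mul_le_mul_of_nonneg_right e1 h0.le) hP
    push_cast
    linarith
  · rintro ⟨x, y, z⟩ hx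
    obtain ⟨x1, x2, x3⟩ := gr_mem1.1 hx
    dsimp only at x1 x2 x3 ⊢
    have p1 := gr_mul 48 b2 x3.le
    have p2 := gr_mul 48 b3 (x2.trans x3.le)
    omega

/-- the cell index of one coordinate on the cube -/
theorem gr_idx2 {rho x : ℤ} (h0 : 0 < rho) (h1 : -rho ≤ x) (h2 : x ≤ rho) :
    ∃ A : ℕ, A < 16 ∧ ((A : ℤ) - 8) * rho ≤ 8 * x ∧ 8 * x ≤ ((A : ℤ) - 8 + 1) * rho := by
  obtain ⟨A, a1, a2, a3, -⟩ := gr_idx 16 (by norm_num) (rho := 2 * rho) (x := x + rho)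
    (by omega) (by omega) (by omega)
  push_cast at a2 a3
  exact ⟨A, a1, by linarith, by linarith⟩

theorem gr_cell2 {v : H} {rho : ℤ} (h0 : 0 < rho) {X Y Z : ℕ} (hc : (X, Y, Z) ∈ grL2)
    (x1 : -rho ≤ v.imI) (x2 : ((X : ℤ) - 8) * rho ≤ 8 * v.imI)
    (x3 : 8 * v.imI ≤ ((X : ℤ) - 8 + 1) * rho)
    (y1 : -rho ≤ v.imJ) (y2 : ((Y : ℤ) - 8) * rho ≤ 8 * v.imJ)
    (y3 : 8 * v.imJ ≤ ((Y : ℤ) - 8 + 1) * rho)
    (z1 : -rho ≤ v.imK) (z2 : ((Z : ℤ) - 8) * rho ≤ 8 * v.imK)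
    (z3 : 8 * v.imK ≤ ((Z : ℤ) - 8 + 1) * rho) :
    ∃ j : ℕ, G2_8.top.testBit j = true ∧ Cell (fv2 G2_8) G2_8.rz j rho v := by
  obtain ⟨k, hk⟩ := gr_lane hc
  have hrz : G2_8.rz = 32768 := rfl
  refine ⟨21 * k + 20, ?_, ?_⟩
  · rw [gr_top2, hk _ fun _ _ => by norm_num]
    decide
  rw [hrz]
  intro c1 c2 c3 mgl sh C1 C2 C3 b1 b2 b3 hm a1 a2 a3 a4 a5 a6 ht
  rw [gr_fv2, hk] at ht
  · have e0 := Nat.ge_two_pow_of_testBit ht
    have hc' := gr_mem2.1 hc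
    dsimp only at e0 hc'
    have hP : (0 : ℤ) ≤ 2 ^ sh := by positivity
    have e1 : (mgl : ℤ) ≤ ((c1 - 4096) * (X - 8) + min ((c1 : ℤ) - 4096) 0 - 8) +
        ((c2 - 4096) * (Y - 8) + min ((c2 : ℤ) - 4096) 0 - 8) +
        ((c3 - 4096) * (Z - 8) + min ((c3 : ℤ) - 4096) 0 - 8) := by
      have p : ∀ c X : ℕ, ((c : ℤ) - 4096) * (X - 8) =
          (c * X : ℕ) - 4096 * X - 8 * c + 32768 := fun c X => by push_cast; ring
      have s : X + Y + Z ≤ 48 := by omega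
      rw [p, p, p]
      clear hc'
      omega
    have e2 := gr_coord (O := 8) hP a1 (by linarith) x2 x3 (by omega) (by omega)
    have e3 := gr_coord (O := 8) hP a3 (by linarith) y2 y3 (by omega) (by omega)
    have e4 := gr_coord (O := 8) hP a5 (by linarith) z2 z3 (by omega) (by omega)
    have e5 := mul_le_mul_of_nonneg_left (mul_le_mul_of_nonneg_right e1 h0.le) hP
    push_cast
    linarith
  · rintro ⟨x, y, z⟩ hx
    have hx' := gr_mem2.1 hx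
    dsimp only at hx' ⊢
    have s : x ≤ 16 ∧ y ≤ 16 ∧ z ≤ 16 := by omega
    have p1 := gr_mul' b1 s.1
    have p2 := gr_mul' b2 s.2.1
    have p3 := gr_mul' b3 s.2.2
    clear hx'
    omega

theorem reg2_8 (D : ℤ) (v : H) (hv : v.re = 0) (hD : nrm v = D) (h0 : 0 < D) :
    Reg G2_8 (fv2 G2_8) 1 D v := by
  obtain ⟨rho, b1, b2, b3, b4, b5, b6, h⟩ : ∃ rho : ℤ, -rho ≤ v.imI ∧ v.imI ≤ rho ∧
      -rho ≤ v.imJ ∧ v.imJ ≤ rho ∧ -rho ≤ v.imK ∧ v.imK ≤ rho ∧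
      (v.imI = rho ∨ v.imI = -rho ∨ v.imJ = rho ∨ v.imJ = -rho ∨ v.imK = rho ∨ v.imK = -rho) :=
    ⟨max (max (max v.imI (-v.imI)) (max v.imJ (-v.imJ))) (max v.imK (-v.imK)), by omega⟩
  have h3 : D ≤ 3 * rho ^ 2 := by
    rw [← hD, nrm, hv]
    linarith [sq_le_sq' b1 b2, sq_le_sq' b3 b4, sq_le_sq' b5 b6]
  have hr : 0 < rho := by
    by_contra hc
    have : rho = 0 := by omega
    rw [this] at h3
    omega
  obtain ⟨X, x1, x2, x3⟩ := gr_idx2 hr b1 b2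
  obtain ⟨Y, y1, y2, y3⟩ := gr_idx2 hr b3 b4
  obtain ⟨Z, z1, z2, z3⟩ := gr_idx2 hr b5 b6
  have key : ∃ j : ℕ, G2_8.top.testBit j = true ∧ Cell (fv2 G2_8) G2_8.rz j rho v := by
    rcases h with h | h | h | h | h | h
    · exact gr_cell2 hr (X := 16) (gr_mem2.2 (by dsimp only; omega)) b1 (by omega) (by omega)
        b3 y2 y3 b5 z2 z3
    · exact gr_cell2 hr (X := 0) (gr_mem2.2 (by dsimp only; omega)) b1 (by omega) (by omega)
        b3 y2 y3 b5 z2 z3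
    · exact gr_cell2 hr (Y := 16) (gr_mem2.2 (by dsimp only; omega)) b1 x2 x3
        b3 (by omega) (by omega) b5 z2 z3
    · exact gr_cell2 hr (Y := 0) (gr_mem2.2 (by dsimp only; omega)) b1 x2 x3
        b3 (by omega) (by omega) b5 z2 z3
    · exact gr_cell2 hr (Z := 16) (gr_mem2.2 (by dsimp only; omega)) b1 x2 x3
        b3 y2 y3 b5 (by omega) (by omega)
    · exact gr_cell2 hr (Z := 0) (gr_mem2.2 (by dsimp only; omega)) b1 x2 x3
        b3 y2 y3 b5 (by omega) (by omega)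
  obtain ⟨j, j1, j2⟩ := key
  exact ⟨j, rho, j1, j2, hr, h3, by decide, fun h => absurd h one_ne_zero⟩

end Pool.Agent.Lib.MP_094079_nt
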