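import Pool.Agent.Lib.MP_094079_nt.Spec

/-! Reading packed lanes. -/
namespace Pool.Agent.Lib.MP_094079_nt

open Quaternion

set_option exponentiation.threshold 4096

theorem ln_succ (w n : ℕ) (z : ℕ → ℕ) :
    pkF w (n + 1) z = z 0 + 2 ^ w * pkF w n fun k => z (k + 1) := by
  rw [pkF, Finset.sum_range_succ', pkF, Finset.mul_sum, add_comm, mul_zero, pow_zero, mul_one]
  congr 1
  exact Finset.sum_congr rfl fun k _ => by rw [mul_add, pow_add]; ring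

theorem ln_div {w k : ℕ} : ∀ {n : ℕ} {z : ℕ → ℕ}, (∀ j < n, z j < 2 ^ w) → k < n →
    ∃ t, pkF w n z / 2 ^ (w * k) = z k + 2 ^ w * t := by
  induction k with
  | zero =>
    intro n z _ hk
    obtain ⟨n, rfl⟩ := Nat.exists_eq_succ_of_ne_zero hk.ne'
    exact ⟨_, by rw [ln_succ, mul_zero, pow_zero, Nat.div_one]⟩
  | succ k ih =>
    intro n z hz hk
    obtain ⟨n, rfl⟩ := Nat.exists_eq_succ_of_ne_zero (show n ≠ 0 by omega)
    obtain ⟨t, ht⟩ := ih (n := n) (z := fun j => z (j + 1)) (fun j hj => hz _ (by omega))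
      (by omega)
    refine ⟨t, ?_⟩
    rw [← ht, ln_succ, mul_add, mul_one, add_comm (w * k), pow_add, ← Nat.div_div_eq_div_mul,
      Nat.add_mul_div_left _ _ (by positivity), Nat.div_eq_of_lt (hz 0 (by omega)), zero_add]

theorem ln_lane {w k n : ℕ} {z : ℕ → ℕ} (hz : ∀ j < n, z j < 2 ^ w) (hk : k < n) :
    pkF w n z / 2 ^ (w * k) % 2 ^ w = z k := by
  obtain ⟨t, ht⟩ := ln_div hz hk
  rw [ht, Nat.add_mul_mod_self_left, Nat.mod_eq_of_lt (hz k hk)]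

theorem ln_lt {w n : ℕ} : ∀ {z : ℕ → ℕ}, (∀ j < n, z j < 2 ^ w) → pkF w n z < 2 ^ (w * n) := by
  induction n with
  | zero => intro z _; simp [pkF]
  | succ n ih =>
    intro z hz
    have h1 := Nat.mul_le_mul_left (2 ^ w)
      (Nat.succ_le_of_lt (ih (z := fun j => z (j + 1)) fun j hj => hz _ (by omega)))
    have h2 := hz 0 (by omega)
    rw [ln_succ, mul_add, mul_one, pow_add, mul_comm (2 ^ (w * n))]
    rw [Nat.mul_succ] at h1
    omega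

theorem ln_exp {w n : ℕ} : ∀ {Q : ℕ}, Q < 2 ^ (w * n) →
    Q = pkF w n fun i => Q / 2 ^ (w * i) % 2 ^ w := by
  induction n with
  | zero => intro Q h; simpa [pkF] using h
  | succ n ih =>
    intro Q h
    have h1 := ih (Q := Q / 2 ^ w) (Nat.div_lt_of_lt_mul (by
      rwa [mul_add, mul_one, pow_add, mul_comm] at h))
    rw [ln_succ, mul_zero, pow_zero, Nat.div_one]
    simp only [mul_add, mul_one, add_comm (w * _) w, pow_add, ← Nat.div_div_eq_div_mul]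
    rw [← h1, Nat.mod_add_div]

theorem ln_add (w n : ℕ) (z z' : ℕ → ℕ) :
    pkF w n z + pkF w n z' = pkF w n fun k => z k + z' k := by
  simp only [pkF, add_mul, Finset.sum_add_distrib]

theorem ln_mul (w n a : ℕ) (z : ℕ → ℕ) : pkF w n z * a = pkF w n fun k => z k * a := by
  simp only [pkF, Finset.sum_mul, mul_right_comm]

variable {W x y n A : ℕ} {q r G : H} {g0 g1 g2 g3 : ℕ}

theorem ln_one (hW : 0 < W) (h : RepQ W x q) {k : ℕ} (hk : k < 4) :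
    ln W x (512 * k) < W ∧ (W : ℤ) ∣ (ln W x (512 * k) : ℤ) - co q k := by
  obtain ⟨z, rfl, hz⟩ := h
  have e : ln W (pkF 512 4 z) (512 * k) = z k % W := by
    rw [← ln_lane (fun j hj => (hz j hj).1.trans (by norm_num : 2 ^ 500 < 2 ^ 512)) hk,
      ← Nat.and_two_pow_sub_one_eq_mod, ← Nat.shiftRight_eq_div_pow]
    rfl
  rw [e]
  refine ⟨Nat.mod_lt _ hW, ?_⟩
  have := dvd_sub (hz k hk).2 (Int.dvd_self_sub_emod (x := z k) (m := W))
  rwa [sub_sub_sub_cancel_left, ← Int.natCast_mod] at this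

theorem ln_neg {g V : ℕ} {a : ℤ} (h1 : g ≤ V) (h2 : V ≤ 2 * W) (h3 : W ∣ V)
    (h : (W : ℤ) ∣ (g : ℤ) - a) : Res W (Nat.sub V g) (-a) := by
  refine ⟨(Nat.sub_le _ _).trans h2, ?_⟩
  have := dvd_sub (Int.natCast_dvd_natCast.2 h3) h
  rw [Nat.sub_eq, Nat.cast_sub h1]
  rwa [show (V : ℤ) - g - -a = V - (g - a) by ring]

theorem ln_res (hW : 0 < W) (h : RepQ W x q) :
    Res4 W (ln W x 0) (ln W x 512) (ln W x 1024) (ln W x 1536) q := by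
  have key : ∀ k < 4, Res W (ln W x (512 * k)) (co q k) := fun k hk =>
    ⟨by have := (ln_one hW h hk).1; omega, (ln_one hW h hk).2⟩
  exact ⟨key 0 (by norm_num), key 1 (by norm_num), key 2 (by norm_num), key 3 (by norm_num)⟩

theorem ln_resc (hW : 0 < W) (h : RepQ W x q) :
    Res4 W (ln W x 0) (Nat.sub W (ln W x 512)) (Nat.sub W (ln W x 1024))
      (Nat.sub W (ln W x 1536)) (star q) := by
  have key : ∀ k < 4, Res W (Nat.sub W (ln W x (512 * k))) (-co q k) := fun k hk =>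
    ln_neg (ln_one hW h hk).1.le (by omega) dvd_rfl (ln_one hW h hk).2
  exact ⟨re_star q ▸ (ln_res hW h).1, key 1 (by norm_num), key 2 (by norm_num), key 3 (by norm_num)⟩

theorem res4_star (h : Res4 W g0 g1 g2 g3 G) :
    Res4 W g0 (Nat.sub (Nat.mul 2 W) g1) (Nat.sub (Nat.mul 2 W) g2) (Nat.sub (Nat.mul 2 W) g3)
      (star G) := by
  have key : ∀ {g a}, Res W g a → Res W (Nat.sub (Nat.mul 2 W) g) (-a) := fun h =>
    ln_neg h.1 le_rfl (dvd_mul_left W 2) h.2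
  exact ⟨re_star G ▸ h.1, key h.2.1, key h.2.2.1, key h.2.2.2⟩

theorem ln_HI : ∀ i < 4, ∀ j < 80, HI.testBit (432 + j + 512 * i) = true := by decide +kernel

theorem ln_grp (h : Rep 4 x (co q) W (2 ^ 512)) (hA : A ∣ W) (hA' : A ≤ 2 ^ 80)
    (h0 : grp x A = 0) : Dv A q := by
  obtain ⟨z, hx, hz⟩ := h
  obtain ⟨h1, h2⟩ : x % A = 0 ∧ x / A &&& HI = 0 := Nat.add_eq_zero_iff.1 h0
  have h3 : ∀ i < 4, x / A / 2 ^ (512 * i) % 2 ^ 512 < 2 ^ 432 := fun i hi => by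
    refine Nat.lt_pow_two_of_testBit _ fun j hj => ?_
    rw [Nat.testBit_mod_two_pow, Nat.testBit_div_two_pow]
    by_cases h : j < 512
    · have := congrArg (·.testBit (j + 512 * i)) h2
      have e := ln_HI i hi (j - 432) (by omega)
      rw [show 432 + (j - 432) = j by omega] at e
      simp only [Nat.testBit_and, e, Bool.and_true, Nat.zero_testBit] at this
      rw [this, Bool.and_false]
    · simp [h]
  have h4 : x / A < 2 ^ (512 * 4) :=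
    (Nat.div_le_self _ _).trans_lt (hx ▸ ln_lt fun j hj => (hz j hj).1)
  have h5 : x = pkF 512 4 fun i => x / A / 2 ^ (512 * i) % 2 ^ 512 * A := by
    rw [← ln_mul, ← ln_exp h4, Nat.div_mul_cancel (Nat.dvd_of_mod_eq_zero h1)]
  have h6 : ∀ k < 4, (A : ℤ) ∣ co q k := fun k hk => by
    have e1 := ln_lane (fun j hj => (hz j hj).1) hk
    have e2 := ln_lane (w := 512) (z := fun i => x / A / 2 ^ (512 * i) % 2 ^ 512 * A)
      (fun j hj => (Nat.mul_lt_mul_of_lt_of_le (h3 j hj) hA' (by positivity)).trans_eq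
        (pow_add 2 432 80).symm) hk
    rw [← h5, hx, e1] at e2
    have e3 : (A : ℤ) ∣ z k := Int.natCast_dvd_natCast.2 (e2 ▸ dvd_mul_left _ _)
    have := dvd_sub e3 ((Int.natCast_dvd_natCast.2 hA).trans (hz k hk).2)
    rwa [sub_sub_cancel] at this
  obtain ⟨a, ha⟩ := h6 0 (by norm_num)
  obtain ⟨b, hb⟩ := h6 1 (by norm_num)
  obtain ⟨c, hc⟩ := h6 2 (by norm_num)
  obtain ⟨d, hd⟩ := h6 3 (by norm_num)
  exact ⟨⟨a, b, c, d⟩, QuaternionAlgebra.ext ha hb hc hd⟩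

theorem grp_dv (hW : 0 < W) (h : RepQ W x q) (hA : A ∣ W) (hA' : A ≤ 2 ^ 80)
    (h0 : grp x A = 0) : Dv A q := by
  obtain ⟨z, hx, hz⟩ := h
  exact ln_grp ⟨z, hx, fun k hk => ⟨(hz k hk).1.trans (by norm_num), (hz k hk).2⟩⟩ hA hA' h0

theorem grp_add_dv (hW : 0 < W) (h : RepQ W x q) (h' : RepQ W y r) (hA : A ∣ W)
    (hA' : A ≤ 2 ^ 80) (h0 : grp (Nat.add x y) A = 0) : Dv A (q + r) := by
  obtain ⟨z, rfl, hz⟩ := h
  obtain ⟨z', rfl, hz'⟩ := h'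
  refine ln_grp ⟨_, ln_add 512 4 z z', fun k hk =>
    ⟨(add_lt_add (hz k hk).1 (hz' k hk).1).trans (by norm_num), ?_⟩⟩ hA hA' h0
  have e : co (q + r) k = co q k + co r k := by rcases k with _ | _ | _ | _ <;> rfl
  have := dvd_add (hz k hk).2 (hz' k hk).2
  rwa [e, Nat.cast_add, add_sub_add_comm]

theorem pk4_rep (hW : W < 2 ^ 140) (h : Res4 W g0 g1 g2 g3 G) :
    RepQ W (pk4 g0 g1 g2 g3) G := by
  refine ⟨fun k => [g0, g1, g2, g3].getD k 0, ?_, fun k hk => ?_⟩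
  · rw [ln_succ, ln_succ, ln_succ, ln_succ, pkF, Finset.sum_range_zero, mul_zero, add_zero]
    rfl
  · have key : ∀ {g a}, Res W g a → g < 2 ^ 500 ∧ (W : ℤ) ∣ (g : ℤ) - a := fun h =>
      ⟨by have := h.1; omega, h.2⟩
    obtain ⟨h0, h1, h2, h3⟩ := h
    interval_cases k
    exacts [key h0, key h1, key h2, key h3]

theorem ln_top {f : ℕ → ℤ} {k : ℕ} (h : Rep n x f (2 ^ 76) (2 ^ 512)) (hk : k < n) :
    (2 ^ 76 : ℤ) ∣ ((x / 2 ^ (512 * k) : ℕ) : ℤ) - f k := by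
  obtain ⟨z, rfl, hz⟩ := h
  obtain ⟨t, ht⟩ := ln_div (fun j hj => (hz j hj).1) hk
  have := dvd_add (hz k hk).2
    (Int.natCast_dvd_natCast.2 ((pow_dvd_pow 2 (by norm_num : 76 ≤ 512)).mul_right t))
  rw [ht, Nat.cast_add, add_sub_right_comm]
  exact_mod_cast this

theorem ln_mono {f : ℕ → ℤ} (h : Rep n x f (2 ^ 76) (2 ^ 400)) : Rep n x f (2 ^ 76) (2 ^ 512) := by
  obtain ⟨z, hx, hz⟩ := h
  exact ⟨z, hx, fun k hk => ⟨(hz k hk).1.trans (by norm_num), (hz k hk).2⟩⟩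

theorem lane0 {f : ℕ → ℤ} (hn : 0 < n) (h : Rep n x f (2 ^ 76) (2 ^ 400)) (h0 : 0 ≤ f 0)
    (h1 : f 0 < 2 ^ 76) : ((Nat.land x m76 : ℕ) : ℤ) = f 0 := by
  have h2 := ln_top (ln_mono h) hn
  have e : Nat.land x m76 = x % 2 ^ 76 := Nat.and_two_pow_sub_one_eq_mod x 76
  rw [mul_zero, pow_zero, Nat.div_one] at h2
  rw [e]
  omega

theorem lane_par {f : ℕ → ℤ} {k sh tau : ℕ} (h : Rep n x f (2 ^ 76) (2 ^ 400)) (hk : k < n)
    (hsh : sh = 512 * k) (ht : tau ∣ 4)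
    (h0 : Nat.xor (Nat.mod (Nat.shiftRight x sh) (Nat.mul 2 tau)) tau = 0) :
    (2 * tau : ℤ) ∣ f k - tau := by
  have h2 := ln_top (ln_mono h) hk
  have h3 : (x >>> sh) % (2 * tau) = tau := Nat.xor_eq_zero_iff.1 h0
  rw [Nat.shiftRight_eq_div_pow, hsh] at h3
  generalize x / 2 ^ (512 * k) = N at h2 h3
  have h4 : tau ≤ 4 := Nat.le_of_dvd (by norm_num) ht
  interval_cases tau <;> omega

theorem ln_on6 : on6 = pkF 512 8 fun j => if 2 ≤ j then 4096 else 0 := by decide +kernel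

theorem lane_cf {f : ℕ → ℤ} {k o sh : ℕ} (h : Rep 8 x f (2 ^ 76) (2 ^ 400)) (hk : 2 ≤ k)
    (hk' : k < 8) (ho : o = 512 * k) (hsh : sh ≤ 63) (hb : |f k| < 4096 * 2 ^ sh) :
    cf (Nat.shiftRight (Nat.add x (Nat.shiftLeft on6 sh)) sh) o < 8192 ∧
    2 ^ sh * ((cf (Nat.shiftRight (Nat.add x (Nat.shiftLeft on6 sh)) sh) o : ℤ) - 4096) ≤ f k ∧
    f k < 2 ^ sh * ((cf (Nat.shiftRight (Nat.add x (Nat.shiftLeft on6 sh)) sh) o : ℤ) - 4095) := by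
  have h1 : Rep 8 (x + on6 * 2 ^ sh)
      (fun j => f j + ((if 2 ≤ j then 4096 else 0) * 2 ^ sh : ℕ)) (2 ^ 76) (2 ^ 512) := by
    obtain ⟨z, rfl, hz⟩ := h
    refine ⟨_, by rw [ln_on6, ln_mul, ln_add], fun j hj => ⟨?_, ?_⟩⟩
    · have h1 := (hz j hj).1
      have h2 : 2 ^ sh ≤ 2 ^ 63 := Nat.pow_le_pow_right (by norm_num) hsh
      split_ifs <;> omega
    · rw [Nat.cast_add, add_sub_add_right_eq_sub]
      exact (hz j hj).2
  have h2 := ln_top h1 hk'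
  have e : cf (Nat.shiftRight (Nat.add x (Nat.shiftLeft on6 sh)) sh) o =
      (x + on6 * 2 ^ sh) / 2 ^ (512 * k) % (2 ^ sh * 8192) / 2 ^ sh := by
    rw [Nat.mod_mul_right_div_self, Nat.div_div_eq_div_mul, mul_comm (2 ^ (512 * k)),
      ← Nat.div_div_eq_div_mul, ← Nat.shiftLeft_eq, ← Nat.shiftRight_eq_div_pow,
      ← Nat.shiftRight_eq_div_pow, ← ho]
    exact Nat.and_two_pow_sub_one_eq_mod _ 13
  rw [e]
  generalize (x + on6 * 2 ^ sh) / 2 ^ (512 * k) = N at h2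
  have h3 : ((2 ^ sh * 8192 : ℕ) : ℤ) ∣ 2 ^ 76 := by
    have : (2 : ℤ) ^ (sh + 13) ∣ 2 ^ 76 := pow_dvd_pow 2 (by omega)
    rw [pow_add] at this
    exact_mod_cast this
  obtain ⟨b1, b2⟩ := abs_lt.1 hb
  rw [if_pos hk] at h2
  have h4 : ((N % (2 ^ sh * 8192) : ℕ) : ℤ) = f k + 4096 * 2 ^ sh := by
    rw [Int.natCast_mod, ← (Int.modEq_iff_dvd.2 (h3.trans h2)).eq]
    push_cast
    exact Int.emod_eq_of_lt (by linarith) (by linarith)
  generalize N % (2 ^ sh * 8192) = R at h4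
  have p : 0 < 2 ^ sh := by positivity
  have h5 : ((2 ^ sh * (R / 2 ^ sh) + R % 2 ^ sh : ℕ) : ℤ) = R :=
    congrArg Nat.cast (Nat.div_add_mod R _)
  have h6 : ((R % 2 ^ sh : ℕ) : ℤ) < (2 ^ sh : ℕ) := Int.ofNat_lt.2 (Nat.mod_lt _ p)
  have h7 : (0 : ℤ) ≤ (R % 2 ^ sh : ℕ) := Int.natCast_nonneg _
  refine ⟨Nat.div_lt_of_lt_mul (Int.ofNat_lt.1 ?_), ?_⟩
  · push_cast
    linarith
  · generalize R / 2 ^ sh = c at h5
    generalize R % 2 ^ sh = d at h5 h6 h7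
    push_cast at h5 h6
    constructor <;> linarith

theorem ln_off {a c : ℕ} (ha : a ≤ W) (hc : c ≤ W) :
    Res W (Nat.add a (Nat.sub W c)) ((a : ℤ) - c) := by
  refine ⟨by simp only [Nat.add_eq, Nat.sub_eq]; omega, 1, ?_⟩
  simp only [Nat.add_eq, Nat.sub_eq]
  omega

theorem ln_nrm {B : ℤ} (h0 : |G.re| ≤ B) (h1 : |G.imI| ≤ B) (h2 : |G.imJ| ≤ B)
    (h3 : |G.imK| ≤ B) : 0 ≤ nrm G ∧ nrm G ≤ 4 * B ^ 2 := by
  have key : ∀ {a : ℤ}, |a| ≤ B → a ^ 2 ≤ B ^ 2 := fun {a} h =>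
    sq_abs a ▸ pow_le_pow_left₀ (abs_nonneg _) h 2
  refine ⟨by unfold nrm; positivity, ?_⟩
  unfold nrm
  linarith [key h0, key h1, key h2, key h3]

/-- the four coordinates of a record -/
theorem gq_res {gb : ℕ} (hgb : gb ≤ 30) (hW : 2 ^ 32 ≤ W) (r o0 o1 o2 o3 : ℕ) :
    ∃ G : H, Res4 W (gq (mkFm W gb) r o0) (gq (mkFm W gb) r o1) (gq (mkFm W gb) r o2)
      (gq (mkFm W gb) r o3) G ∧ |G.re| ≤ 2 ^ 30 ∧ |G.imI| ≤ 2 ^ 30 ∧ |G.imJ| ≤ 2 ^ 30 ∧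
      |G.imK| ≤ 2 ^ 30 ∧ 0 ≤ nrm G ∧ nrm G ≤ 2 ^ 62 := by
  have key : ∀ o, ∃ a : ℤ, Res W (gq (mkFm W gb) r o) a ∧ |a| ≤ 2 ^ 30 := fun o => by
    have h1 : Nat.land (Nat.shiftRight r o) (mkFm W gb).gm ≤ 2 ^ (gb + 1) - 1 := Nat.and_le_right
    have h2 : 2 ^ gb ≤ 2 ^ 30 := Nat.pow_le_pow_right (by norm_num) hgb
    rw [pow_succ] at h1
    refine ⟨_, ln_off (c := 2 ^ gb) (by omega) (by omega), abs_le.2 ?_⟩
    generalize 2 ^ gb = c at h1 h2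
    omega
  choose a h1 h2 using key
  have h3 := ln_nrm (G := ⟨a o0, a o1, a o2, a o3⟩) (h2 _) (h2 _) (h2 _) (h2 _)
  exact ⟨⟨a o0, a o1, a o2, a o3⟩, ⟨h1 _, h1 _, h1 _, h1 _⟩, h2 _, h2 _, h2 _, h2 _, h3.1,
    h3.2.trans (by norm_num)⟩

theorem dq_res (P : Par) (hW : 2 ^ 32 ≤ P.W) (fc : ℕ) :
    Res4 P.W (dq P fc 0) (dq P fc 32) (dq P fc 64) (dq P fc 96) (dec fc) ∧
      0 ≤ nrm (dec fc) ∧ nrm (dec fc) ≤ 2 ^ 64 := by
  have key : ∀ o, Res P.W (dq P fc o) (dcc fc o) ∧ |dcc fc o| ≤ 2 ^ 31 := fun o => by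
    have h1 : Nat.land (Nat.shiftRight fc o) 4294967295 ≤ 4294967295 := Nat.and_le_right
    refine ⟨ln_off (c := 2147483648) (by omega) (by omega), abs_le.2 ?_⟩
    unfold dcc
    omega
  have h3 := ln_nrm (G := dec fc) (key _).2 (key _).2 (key _).2 (key _).2
  exact ⟨⟨(key _).1, (key _).1, (key _).1, (key _).1⟩, h3.1, h3.2.trans (by norm_num)⟩

theorem st_res (P : Par) (hW : 2 ^ 32 ≤ P.W) (st : ℕ) :
    Res4 P.W (snu st) (spos P st 0) (spos P st 16) (spos P st 32) (sc (snu st) + sa st) ∧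
    Res4 P.W (snu st) (sneg P st 0) (sneg P st 16) (sneg P st 32) (sc (snu st) - sa st) ∧
    Res4 P.W 0 (spos P st 0) (spos P st 16) (spos P st 32) (sa st) ∧
    Res4 P.W 0 (sneg P st 0) (sneg P st 16) (sneg P st 32) (-sa st) ∧
    |(sa st).imI| ≤ 2 ^ 15 ∧ |(sa st).imJ| ≤ 2 ^ 15 ∧ |(sa st).imK| ≤ 2 ^ 15 ∧
    0 ≤ nrm (sa st) ∧ nrm (sa st) ≤ 2 ^ 32 ∧ scl st ≤ 3 := by
  have r : ∀ o, sraw st o ≤ 65535 := fun o => Nat.and_le_right
  have k1 : ∀ o, Res P.W (spos P st o) ((sraw st o : ℤ) - 32768) := fun o =>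
    ln_off (c := 32768) (by have := r o; omega) (by omega)
  have k2 : ∀ o, Res P.W (sneg P st o) (-((sraw st o : ℤ) - 32768)) := fun o => by
    have := r o
    refine ⟨by simp only [sneg, Nat.add_eq, Nat.sub_eq]; omega, 1, ?_⟩
    simp only [sneg, Nat.add_eq, Nat.sub_eq]
    omega
  have k3 : ∀ o, |(sraw st o : ℤ) - 32768| ≤ 2 ^ 15 := fun o => abs_le.2 (by have := r o; omega)
  have k4 : Res P.W (snu st) (snu st) :=
    ⟨(show snu st ≤ 1073741823 from Nat.and_le_right).trans (by omega), by simp⟩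
  have k5 : Res P.W 0 0 := ⟨by omega, by simp⟩
  have h3 := ln_nrm (G := sa st) (B := 2 ^ 15) (by simp [sa]) (k3 _) (k3 _) (k3 _)
  have e1 : sc (snu st) + sa st = ⟨snu st, (sa st).imI, (sa st).imJ, (sa st).imK⟩ :=
    QuaternionAlgebra.ext (add_zero _) (zero_add _) (zero_add _) (zero_add _)
  have e2 : sc (snu st) - sa st = ⟨snu st, -(sa st).imI, -(sa st).imJ, -(sa st).imK⟩ :=
    QuaternionAlgebra.ext (sub_zero _) (zero_sub _) (zero_sub _) (zero_sub _)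
  rw [e1, e2]
  exact ⟨⟨k4, k1 _, k1 _, k1 _⟩, ⟨k4, k2 _, k2 _, k2 _⟩, ⟨k5, k1 _, k1 _, k1 _⟩,
    ⟨k5, k2 _, k2 _, k2 _⟩, k3 _, k3 _, k3 _, h3.1, h3.2.trans (by norm_num), Nat.and_le_right⟩

/-- a small quaternion divisible by `2 ^ 64` vanishes -/
theorem small_eq {a a' : H} (ha : a.re = 0 ∧ |a.imI| ≤ 2 ^ 15 ∧ |a.imJ| ≤ 2 ^ 15 ∧ |a.imK| ≤ 2 ^ 15)
    (ha' : a'.re = 0 ∧ |a'.imI| ≤ 2 ^ 15 ∧ |a'.imJ| ≤ 2 ^ 15 ∧ |a'.imK| ≤ 2 ^ 15)
    (hG : |G.re| ≤ 2 ^ 30 ∧ |G.imI| ≤ 2 ^ 30 ∧ |G.imJ| ≤ 2 ^ 30 ∧ |G.imK| ≤ 2 ^ 30)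
    (h : Dv ((18446744073709551616 : ℕ) : ℤ) (a * G + G * (-a'))) : a * G = G * a' := by
  have key : ∀ {b : H}, b.re = 0 ∧ |b.imI| ≤ 2 ^ 15 ∧ |b.imJ| ≤ 2 ^ 15 ∧ |b.imK| ≤ 2 ^ 15 →
      nrm b ≤ 2 ^ 32 := fun h => (ln_nrm (B := 2 ^ 15) (by simp [h.1]) h.2.1 h.2.2.1
        h.2.2.2).2.trans (by norm_num)
  have hg := ln_nrm hG.1 hG.2.1 hG.2.2.1 hG.2.2.2
  have m : ∀ b c : H, nrm (b * c) = nrm b * nrm c := fun b c => by
    simp only [nrm, re_mul, imI_mul, imJ_mul, imK_mul]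
    ring
  have b : ∀ {c : H}, nrm c ≤ 2 ^ 94 →
      |c.re| ≤ 2 ^ 47 ∧ |c.imI| ≤ 2 ^ 47 ∧ |c.imJ| ≤ 2 ^ 47 ∧ |c.imK| ≤ 2 ^ 47 := fun {c} h => by
    unfold nrm at h
    have := sq_nonneg c.re
    have := sq_nonneg c.imI
    have := sq_nonneg c.imJ
    have := sq_nonneg c.imK
    refine ⟨?_, ?_, ?_, ?_⟩ <;> exact abs_le_of_sq_le_sq' (by linarith) (by norm_num) |> abs_le.2
  have b1 := b (c := a * G) (by
    rw [m]
    exact (mul_le_mul (key ha) hg.2 hg.1 (by norm_num)).trans (by norm_num))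
  have b2 := b (c := G * a') (by
    rw [m, mul_comm]
    exact (mul_le_mul (key ha') hg.2 hg.1 (by norm_num)).trans (by norm_num))
  obtain ⟨y, hy⟩ := h
  rw [mul_neg] at hy
  generalize a * G = u at hy b1
  generalize G * a' = v at hy b2
  simp only [abs_le] at b1 b2
  have e0 : u.re + -v.re = 18446744073709551616 * y.re := congrArg (·.re) hy
  have e1 : u.imI + -v.imI = 18446744073709551616 * y.imI := congrArg (·.imI) hy
  have e2 : u.imJ + -v.imJ = 18446744073709551616 * y.imJ := congrArg (·.imJ) hy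
  have e3 : u.imK + -v.imK = 18446744073709551616 * y.imK := congrArg (·.imK) hy
  exact QuaternionAlgebra.ext (by omega) (by omega) (by omega) (by omega)

end Pool.Agent.Lib.MP_094079_nt
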