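import Pool.Agent.Lib.MP_094079_nt.Lanes
import Pool.Agent.Lib.MP_094079_nt.AlgA
import Pool.Agent.Lib.MP_094079_nt.AlgB

/-! Soundness of the tests and of the cuts. -/
namespace Pool.Agent.Lib.MP_094079_nt

open Quaternion

def Tb (W t0 t1 t2 t3 : ℕ) (f : H → H) : Prop :=
  ∀ g0 g1 g2 g3 G, Res4 W g0 g1 g2 g3 G → RepQ W (lin4 g0 g1 g2 g3 t0 t1 t2 t3) (f G)

def Z3 (k : K3) : Prop := ∀ mask e s, k mask e s ≠ 0 → e = 0 ∧ s ≠ 0
def G3 (j : ℕ) (Q : Prop) (k : K3) : Prop :=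
  ∀ mask e s, k mask e s ≠ 0 → mask.testBit j = true → Q

theorem add0 {a b : ℕ} (h : Nat.add a b = 0) : a = 0 ∧ b = 0 := by
  rw [Nat.add_eq] at h; omega

theorem fin_ne {s e : ℕ} (h : fin s e ≠ 0) : e = 0 ∧ s ≠ 0 := by
  unfold fin at h
  rw [Nat.mul_eq, Nat.sub_eq] at h
  refine ⟨?_, left_ne_zero_of_mul h⟩
  have := right_ne_zero_of_mul h
  omega

theorem shr_ne {s n : ℕ} (h : Nat.shiftRight s n ≠ 0) : s ≠ 0 := by
  rintro rfl
  exact h (by rw [Nat.shiftRight_eq', Nat.zero_shiftRight])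

theorem mod0 {a b : ℕ} (h : Nat.mod a b = 0) : b ∣ a := Nat.dvd_of_mod_eq_zero h

theorem xor0 {a b : ℕ} (h : Nat.xor a b = 0) : a = b := Nat.xor_eq_zero_iff.1 h

variable {P : Par} {S : Sp}

theorem ParOK.ML_pos (ok : ParOK P S) : 0 < P.ML := by have := ok.hodd; omega

theorem ParOK.W_pos (ok : ParOK P S) : 0 < P.W := by
  rw [ok.hW]; exact Nat.mul_pos (by positivity) ok.ML_pos

theorem ParOK.W_ge (ok : ParOK P S) : 2 ^ 32 ≤ P.W := by
  rw [ok.hW]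
  calc 2 ^ 32 ≤ 2 ^ 76 * 1 := by norm_num
    _ ≤ _ := Nat.mul_le_mul_left _ ok.ML_pos

theorem ParOK.W_lt (ok : ParOK P S) : P.W < 2 ^ 140 := by
  rw [ok.hW]
  calc 2 ^ 76 * P.ML < 2 ^ 76 * 2 ^ 64 := Nat.mul_lt_mul_of_pos_left ok.hlt (by positivity)
    _ = _ := by norm_num

theorem ParOK.M0_dvd (ok : ParOK P S) : P.M0 ∣ P.ML := ⟨_, ok.hML⟩

/-- reading a divisibility check whose modulus divides `ML` -/
theorem ParOK.grp (ok : ParOK P S) {x A : ℕ} {q : H} (h : RepQ P.W x q) (hA : A ∣ P.ML)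
    (h0 : grp x A = 0) : Dv A q := by
  refine grp_dv ok.W_pos h (hA.trans ⟨2 ^ 76, by rw [ok.hW, mul_comm]⟩) ?_ h0
  exact (Nat.le_of_dvd ok.ML_pos hA).trans (ok.hlt.le.trans (by norm_num))

theorem sh_lt {a sh : ℕ} (h : Nat.shiftRight a sh = 0) : a < 2 ^ sh := by
  rw [Nat.shiftRight_eq', Nat.shiftRight_eq_div_pow] at h
  exact Nat.lt_of_div_eq_zero (by positivity) h

theorem form_use {fv : FV} {rz j g cx sh mgl Pg k o1 o2 o3 : ℕ} {rho : ℤ} {v G xi : H}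
    {f : ℕ → ℤ} (hcell : Cell fv rz j rho v) (hv : v.re = 0)
    (hP : Rep 8 Pg f (2 ^ 76) (2 ^ 400)) (hk : 2 ≤ k) (hk' : k ≤ 5)
    (h1 : f k = 4096 * dot xi (star G * eb 1 * G))
    (h2 : f (k + 1) = 4096 * dot xi (star G * eb 2 * G))
    (h3 : f (k + 2) = 4096 * dot xi (star G * eb 3 * G))
    (ho1 : o1 = 512 * k) (ho2 : o2 = 512 * (k + 1)) (ho3 : o3 = 512 * (k + 2))
    (hx : xi.re = 0 ∧ nrm xi ≤ (cx : ℤ) ^ 2) (hg : (g : ℤ) = nrm G) (hsh : sh ≤ 63)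
    (hgc : g * cx < 2 ^ sh) (hm : 2 * mgl ≤ rz + 2)
    (hb : (fv (cf (Nat.shiftRight (Nat.add Pg (Nat.shiftLeft on6 sh)) sh) o1)
      (cf (Nat.shiftRight (Nat.add Pg (Nat.shiftLeft on6 sh)) sh) o2)
      (cf (Nat.shiftRight (Nat.add Pg (Nat.shiftLeft on6 sh)) sh) o3) mgl).testBit j = true) :
    2 ^ sh * (mgl : ℤ) * rho ≤ rz * dot xi (star G * v * G) := by
  have hgc' : nrm G * cx < 2 ^ sh := by rw [← hg]; exact_mod_cast hgc
  have hbd : ∀ t, 1 ≤ t → |4096 * dot xi (star G * eb t * G)| < 4096 * 2 ^ sh := by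
    intro t ht
    have := dot_bound (G := G) hx.1 hx.2 ht
    rw [abs_mul, abs_of_pos (by norm_num : (0 : ℤ) < 4096)]
    linarith
  obtain ⟨a1, a2, a3⟩ := lane_cf hP hk (by omega) ho1 hsh (by rw [h1]; exact hbd 1 le_rfl)
  obtain ⟨b1, b2, b3⟩ := lane_cf hP (by omega : 2 ≤ k + 1) (by omega) ho2 hsh
    (by rw [h2]; exact hbd 2 (by norm_num))
  obtain ⟨c1, c2, c3⟩ := lane_cf hP (by omega : 2 ≤ k + 2) (by omega) ho3 hsh
    (by rw [h3]; exact hbd 3 (by norm_num))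
  have := hcell _ _ _ mgl sh _ _ _ a1 b1 c1 hm a2 a3 b2 b3 c2 c3 hb
  rw [h1, h2, h3] at this
  rw [dot_lin hv]
  linarith

theorem bit_cases {mask a b j : ℕ} (h : mask.testBit j = true) :
    (Nat.xor mask (Nat.land (Nat.land mask a) b)).testBit j = true ∨
      (a.testBit j = true ∧ b.testBit j = true) := by
  rw [Nat.xor_eq, Nat.land_eq, Nat.land_eq, Nat.testBit_xor, Nat.testBit_and, Nat.testBit_and, h]
  cases a.testBit j <;> cases b.testBit j <;> simp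

theorem bit_cases' {mask a j : ℕ} (h : mask.testBit j = true) :
    (Nat.xor mask (Nat.land mask a)).testBit j = true ∨ a.testBit j = true := by
  rw [Nat.xor_eq, Nat.land_eq, Nat.testBit_xor, Nat.testBit_and, h]
  cases a.testBit j <;> simp

theorem land63 (x : ℕ) : Nat.land x 63 ≤ 63 := Nat.and_le_right

theorem two_le {g cx z : ℕ} (hcx : 2 ≤ cx) (hgc : g * cx < z) : 2 * g ≤ z := by
  have := Nat.mul_le_mul_left g hcx
  omega

theorem margin_bound {g cx sh rz K mg : ℕ} (hcx : 2 ≤ cx) (hgc : g * cx < 2 ^ sh)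
    (hmg : 2 * mg ≤ K ∧ mg ≤ 1024) (hrz : 4096 ≤ rz) :
    2 * (Nat.mul mg (Nat.succ (Nat.div (Nat.mul g rz) (Nat.shiftLeft K sh)))) ≤ rz + 2 := by
  rw [Nat.mul_eq, Nat.mul_eq, Nat.shiftLeft_eq', Nat.shiftLeft_eq]
  change 2 * (mg * (g * rz / (K * 2 ^ sh) + 1)) ≤ rz + 2
  set q := g * rz / (K * 2 ^ sh) with hq
  have h1 : q * (K * 2 ^ sh) ≤ g * rz := Nat.div_mul_le_self _ _
  have h2 : 2 * g ≤ 2 ^ sh := two_le hcx hgc
  generalize 2 ^ sh = z at h1 h2 hgc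
  have h3 : (2 * q * K) * z ≤ rz * z := by
    calc (2 * q * K) * z = 2 * (q * (K * z)) := by ring
      _ ≤ 2 * (g * rz) := Nat.mul_le_mul_left _ h1
      _ = rz * (2 * g) := by ring
      _ ≤ rz * z := Nat.mul_le_mul_left _ h2
  have h4 : 2 * q * K ≤ rz := Nat.le_of_mul_le_mul_right h3 (by omega)
  have h5 : q * (2 * (2 * mg)) ≤ q * (2 * K) := Nat.mul_le_mul_left _ (by omega)
  have h6 : q * (2 * K) = 2 * q * K := by ring
  have h7 : q * (2 * (2 * mg)) = 4 * (mg * q) := by ring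
  have h8 : mg * (q + 1) = mg * q + mg := by ring
  omega

theorem margin_use {g sh rz K mg : ℕ} {m rho d D : ℤ} (hK : 0 < K) (hg : g ≠ 0) (hrz : 4096 ≤ rz)
    (hm : 0 ≤ m) (hrho : 0 < rho) (h1 : 3 * (K : ℤ) ^ 2 * m ^ 2 ≤ D) (h2 : D ≤ 3 * rho ^ 2)
    (h : 2 ^ sh * ((Nat.mul mg (Nat.succ (Nat.div (Nat.mul g rz) (Nat.shiftLeft K sh))) : ℕ) : ℤ) *
      rho ≤ rz * (g * d)) : mg * m ≤ d := by
  rw [Nat.mul_eq, Nat.mul_eq, Nat.shiftLeft_eq', Nat.shiftLeft_eq] at h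
  change 2 ^ sh * ((mg * (g * rz / (K * 2 ^ sh) + 1) : ℕ) : ℤ) * rho ≤ _ at h
  set q := g * rz / (K * 2 ^ sh) with hq
  have h3 : g * rz < (q + 1) * (K * 2 ^ sh) := by
    rw [mul_comm (q + 1)]
    exact Nat.lt_mul_div_succ _ (by positivity)
  have h3' : (g : ℤ) * rz ≤ (q + 1) * (K * 2 ^ sh) := by exact_mod_cast h3.le
  have h4 : (K : ℤ) * m ≤ rho := by
    refine (pow_le_pow_iff_left₀ (by positivity) hrho.le two_ne_zero).1 ?_
    rw [mul_pow]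
    linarith
  push_cast at h
  have hg' : (0 : ℤ) < g := by exact_mod_cast Nat.pos_of_ne_zero hg
  have hrz' : (0 : ℤ) < rz := by exact_mod_cast (by omega : 0 < rz)
  have h5 : (0 : ℤ) ≤ mg * m := by positivity
  have h6 : (0 : ℤ) ≤ 2 ^ sh * (mg * (q + 1)) := by positivity
  have h7 : (rz * g : ℤ) * (mg * m) ≤ (rz * g) * d := by
    calc (rz * g : ℤ) * (mg * m) = (g * rz) * (mg * m) := by ring
      _ ≤ ((q + 1) * (K * 2 ^ sh)) * (mg * m) := mul_le_mul_of_nonneg_right h3' h5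
      _ = 2 ^ sh * (mg * (q + 1)) * (K * m) := by ring
      _ ≤ 2 ^ sh * (mg * (q + 1)) * rho := mul_le_mul_of_nonneg_left h4 h6
      _ ≤ rz * (g * d) := h
      _ = _ := by ring
  exact le_of_mul_le_mul_left h7 (by positivity)

theorem test1_Z {rz : ℕ} {fv : FV} {U : UT} {fm : Fm} {k : K3} (hk : Z3 k)
    {t0 t1 t2 t3 b0 b1 b2 b3 mask e s r : ℕ}
    (h : test1 P rz fv U fm k t0 t1 t2 t3 b0 b1 b2 b3 mask e s r ≠ 0) : e = 0 ∧ s ≠ 0 := by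
  obtain ⟨h1, h2⟩ := hk _ _ _ h
  exact ⟨(add0 h1).1, h2⟩

theorem ext1_Z {rz : ℕ} {fv : FV} {fm : Fm} {k : K3} (hk : Z3 k)
    {t0 t1 t2 t3 PB mask e s r : ℕ}
    (h : ext1 P rz fv fm k t0 t1 t2 t3 PB mask e s r ≠ 0) : e = 0 ∧ s ≠ 0 := by
  obtain ⟨h1, h2⟩ := hk _ _ _ h
  exact ⟨(add0 h1).1, h2⟩

variable {m mu D rho : ℤ} {v F B : H} {c j rz gb : ℕ} {fv : FV}

theorem test1_G (ok : ParOK P S) (hctx : Ctx P m mu D) (hc : c ≤ 3) (hpt : Pt D c m v)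
    (hcell : Cell fv rz j rho v) (hrho : 0 < rho) (hDr : D ≤ 3 * rho ^ 2) (hrz : 4096 ≤ rz)
    (hgb : gb ≤ 30) {k : K3} (hZ : Z3 k) (hG : G3 j (Goal P S m D) k)
    {t0 t1 t2 t3 b0 b1 b2 b3 mask e s r : ℕ}
    (hF : Kn (sc mu - v) F) (hB : Kn (sc mu + v) B)
    (hT : Tb P.W t0 t1 t2 t3 (fun G => star F * G))
    (hT' : Tb P.W b0 b1 b2 b3 (fun G => star B * G * S.be))
    (h : test1 P rz fv (selU P c) (mkFm P.W gb) k t0 t1 t2 t3 b0 b1 b2 b3 mask e s r ≠ 0)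
    (hb : mask.testBit j = true) : Goal P S m D := by
  obtain ⟨G, hres, -, -, -, -, hn0, hn1⟩ := gq_res hgb ok.W_ge r 10 (mkFm P.W gb).o1
    (mkFm P.W gb).o2 (mkFm P.W gb).o3
  unfold test1 testA testB at h
  have hP := ok.hU c hc _ _ _ _ _ hres
  have hPF := hT _ _ _ _ _ hres
  have hPB := hT' _ _ _ _ _ hres
  generalize geo _ _ _ _ _ = Pg at h hP
  generalize lin4 _ _ _ _ t0 t1 t2 t3 = PF at h hPF
  generalize lin4 _ _ _ _ b0 b1 b2 b3 = PB at h hPB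
  have hg : ((Nat.land Pg m76 : ℕ) : ℤ) = nrm G :=
    lane0 (f := fun k => phiU S c k G) (by norm_num) hP hn0 (lt_of_le_of_lt hn1 (by norm_num))
  have hsh := land63 (Nat.shiftRight r 4)
  generalize Nat.land Pg m76 = g at h hg
  generalize Nat.land (Nat.shiftRight r 4) 63 = sh at h hsh
  unfold testC at h
  have he := (add0 (hZ _ _ _ h).1).2
  unfold terr at he
  obtain ⟨he1, he2⟩ := add0 he
  obtain ⟨e1, e2⟩ := add0 he1
  obtain ⟨he3, e5⟩ := add0 he2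
  obtain ⟨e3, e4⟩ := add0 he3
  have hx : g * P.nodd ∣ 4 * P.ML := by rw [← ok.hML4]; exact mod0 e1
  have hgc : g * P.cx < 2 ^ sh := sh_lt e2
  have hA : getA P g r ∣ g := Nat.gcd_dvd_left _ _
  have hA' := ok.hta g r
  have hN : P.nodd ∣ P.ML := ok.hnodd.trans ok.M0_dvd
  have d1 := know hF (ok.grp hPF hA' e3)
  have d2 := ok.grp hPB (move_dvd ok.hodd hN hA hA' hx) e4
  beta_reduce at d2
  rw [mul_assoc] at d2
  have d3 := know hB d2
  rw [← mul_assoc] at d3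
  obtain ⟨hm, c1, c2, c3, c4, -⟩ := hctx
  obtain ⟨p1, p2, -, p4⟩ := hpt
  have hML := ok.hML
  obtain ⟨hg0, v', q1, q2, q3, q4⟩ := move (M0 := P.M0) (l := P.l) p1 p2 (by rw [← hML]; exact c1)
    c2 ok.hl ok.hlM (by rw [← hML]; exact ok.hodd) ok.hbe (by rw [← hML]; exact hN) c3 hg hA
    (by rw [← hML]; exact hA') (by rw [← hML]; exact hx) d1 d3
  rcases bit_cases (a := _) (b := _) hb with hb' | ⟨b1, b2⟩
  · exact hG _ _ _ h hb'
  have hpar := lane_par (f := fun k => phiU S c k G) (k := 1) hP (by norm_num) rfl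
    (Nat.gcd_dvd_right g 4) e5
  have hpc : PC S.c0 m v' := 
    pc_move hc ok.hc0 p1 q1 ok.hodd hg ((Nat.dvd_mul_right _ _).trans hx) q2 hpar p4
  have f1 := form_use (k := 2) (xi := S.x1) hcell p1 hP le_rfl (by norm_num) rfl rfl rfl rfl rfl rfl
    ok.hx1 hg hsh hgc (margin_bound ok.hcx hgc ok.hmg1 hrz) b1
  have f2 := form_use (k := 5) (xi := S.x2) hcell p1 hP (by norm_num) le_rfl rfl rfl rfl rfl rfl rfl
    ok.hx2 hg hsh hgc (margin_bound ok.hcx hgc ok.hmg2 hrz) b2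
  rw [q2, dot_smul] at f1 f2
  exact ⟨v', q1, q3, q4, hpc, margin_use ok.hK hg0 hrz hm hrho c4 hDr f1,
    margin_use ok.hK hg0 hrz hm hrho c4 hDr f2⟩

theorem ParOK.pmul (ok : ParOK P S) {PB g0 g1 g2 g3 : ℕ} {G : H} (h : RepQ P.W PB B)
    (hres : Res4 P.W g0 g1 g2 g3 G) : RepQ P.W (pmul P PB g0 g1 g2 g3) (star B * G) :=
  ok.hkf _ _ _ _ _ _ _ _ _ _ (ln_res ok.W_pos h) hres

theorem ext_bound {g rz z : ℕ} (h2 : 2 * g ≤ z) (hz : 0 < z) : 2 * (g * rz / z + 1) ≤ rz + 2 := by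
  have h1 : g * rz / z * z ≤ g * rz := Nat.div_mul_le_self _ _
  generalize g * rz / z = q at h1 ⊢
  have h3 : (2 * q) * z ≤ rz * z := by
    calc (2 * q) * z = 2 * (q * z) := by ring
      _ ≤ 2 * (g * rz) := Nat.mul_le_mul_left _ h1
      _ = rz * (2 * g) := by ring
      _ ≤ rz * z := Nat.mul_le_mul_left _ h2
  have := Nat.le_of_mul_le_mul_right h3 hz
  omega

theorem one_le_cx {cx : ℕ} (h : 2 ≤ cx) : nrm (eb 1) ≤ (cx : ℤ) ^ 2 := by
  have : (2 : ℤ) ≤ cx := by exact_mod_cast h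
  simp only [nrm, eb]
  nlinarith

theorem ext_use {g rz sh : ℕ} {x rho : ℤ} (hg0 : g ≠ 0) (hrz : 4096 ≤ rz) (hrho : 0 < rho)
    (hle : x ≤ rho) (f1 : 2 ^ sh * ((g * rz / 2 ^ sh + 1 : ℕ) : ℤ) * rho ≤ rz * (g * x)) :
    False := by
  have h3 : g * rz < (g * rz / 2 ^ sh + 1) * 2 ^ sh := by
    rw [mul_comm (_ + 1)]
    exact Nat.lt_mul_div_succ _ (by positivity)
  have h3' : (g : ℤ) * rz < ((g * rz / 2 ^ sh + 1 : ℕ) : ℤ) * 2 ^ sh := by exact_mod_cast h3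
  generalize ((g * rz / 2 ^ sh + 1 : ℕ) : ℤ) = q at f1 h3'
  have hg' : (0 : ℤ) < g := by exact_mod_cast Nat.pos_of_ne_zero hg0
  have hrz' : (0 : ℤ) < rz := by exact_mod_cast (by omega : 0 < rz)
  have h4 : (rz : ℤ) * (g * x) ≤ rz * (g * rho) := by gcongr
  have h5 := mul_lt_mul_of_pos_right h3' hrho
  linarith

theorem ext1_G (ok : ParOK P S) (hctx : Ctx P m mu D) (hpt : Pt D c m v)
    (hcell : Cell fv rz j rho v) (hrho : 0 < rho) (hrz : 4096 ≤ rz)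
    (hext : ∀ v' : H, v'.re = 0 → nrm v' = D → Prim v' → v'.imI ≤ rho)
    (hgb : gb ≤ 30) {k : K3} (hZ : Z3 k) (hG : G3 j (Goal P S m D) k)
    {t0 t1 t2 t3 PB mask e s r : ℕ}
    (hF : Kn (sc mu - v) F) (hB : Kn (sc mu + v) B)
    (hT : Tb P.W t0 t1 t2 t3 (fun G => star F * G)) (hT' : RepQ P.W PB B)
    (h : ext1 P rz fv (mkFm P.W gb) k t0 t1 t2 t3 PB mask e s r ≠ 0)
    (hb : mask.testBit j = true) : Goal P S m D := by
  obtain ⟨G, hres, -, -, -, -, hn0, hn1⟩ := gq_res hgb ok.W_ge r 10 (mkFm P.W gb).o1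
    (mkFm P.W gb).o2 (mkFm P.W gb).o3
  unfold ext1 extA extB at h
  have hP := ok.hX _ _ _ _ _ hres
  have hPF := hT _ _ _ _ _ hres
  have hPB := ok.pmul hT' hres
  generalize geo _ _ _ _ _ = Pg at h hP
  generalize lin4 _ _ _ _ t0 t1 t2 t3 = PF at h hPF
  generalize pmul _ _ _ _ _ _ = PB' at h hPB
  have hg : ((Nat.land Pg m76 : ℕ) : ℤ) = nrm G :=
    lane0 (f := fun k => phiX k G) (by norm_num) hP hn0 (lt_of_le_of_lt hn1 (by norm_num))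
  have hsh := land63 (Nat.shiftRight r 4)
  generalize Nat.land Pg m76 = g at h hg
  generalize Nat.land (Nat.shiftRight r 4) 63 = sh at h hsh
  unfold extC at h
  have he := (add0 (hZ _ _ _ h).1).2
  unfold xerr at he
  obtain ⟨he1, he2⟩ := add0 he
  obtain ⟨e1, e2⟩ := add0 he1
  obtain ⟨e3, e4⟩ := add0 he2
  have hx0 : g ∣ 4 * P.M0 := by rw [← ok.hM4]; exact mod0 e1
  have hx : g * 1 ∣ 4 * P.ML := by
    rw [mul_one]; exact hx0.trans (Nat.mul_dvd_mul_left 4 ok.M0_dvd)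
  have hgc : g * P.cx < 2 ^ sh := sh_lt e2
  have hA : getA P g r ∣ g := Nat.gcd_dvd_left _ _
  have hA' := ok.hta g r
  have d1 := know hF (ok.grp hPF hA' e3)
  have hBd := move_dvd ok.hodd (one_dvd _) hA hA' hx
  rw [mul_one] at hBd
  have d3 := know hB (ok.grp hPB hBd e4)
  obtain ⟨hm, c1, c2, c3, c4, -⟩ := hctx
  obtain ⟨p1, p2, p3, -⟩ := hpt
  have hML := ok.hML
  obtain ⟨hg0, v', q1, q2, q3, -⟩ := move (M0 := P.M0) (l := P.l) (N := 1) (m := mu) (be := 1)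
    p1 p2 (by rw [← hML]; exact c1)
    c2 ok.hl ok.hlM (by rw [← hML]; exact ok.hodd) (Or.inl (by simp [nrm])) (one_dvd _)
    (by simp) hg hA (by rw [← hML]; exact hA') (by rw [← hML]; exact hx) d1
    (by rw [mul_one, mul_one]; exact d3)
  rcases bit_cases' (a := _) hb with hb' | b1
  · exact hG _ _ _ h hb'
  exfalso
  have hpr : Prim v' := prim_move p1 q3 q1
    ((Int.natCast_dvd_natCast.2 ok.M0_dvd).trans c1) c2 hg hx0 p3 q2
  have hle := hext v' q1 q3 hpr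
  have hq : Nat.succ (Nat.shiftRight (Nat.mul g rz) sh) = g * rz / 2 ^ sh + 1 := by
    rw [Nat.shiftRight_eq', Nat.shiftRight_eq_div_pow]; rfl
  have hm1 : 2 * Nat.succ (Nat.shiftRight (Nat.mul g rz) sh) ≤ rz + 2 := by
    rw [hq]; exact ext_bound (two_le ok.hcx hgc) (by positivity)
  have f1 := form_use (k := 2) (xi := eb 1) (cx := P.cx) hcell p1 hP le_rfl (by norm_num)
    rfl rfl rfl rfl rfl rfl ⟨rfl, one_le_cx ok.hcx⟩ hg hsh hgc hm1 b1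
  rw [q2, dot_smul, hq] at f1
  have hd : dot (eb 1) v' = v'.imI := by simp [dot, eb]
  rw [hd] at f1
  exact ext_use hg0 hrz hrho hle f1

end Pool.Agent.Lib.MP_094079_nt
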