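import Pool.Agent.Lib.MP_094079_nt.RunA

/-! Soundness of the search. -/
namespace Pool.Agent.Lib.MP_094079_nt

open Quaternion

def ZB (k : KB) : Prop := ∀ PB b0 b1 b2 b3 nB, Z3 (k PB b0 b1 b2 b3 nB)
def ZF (k : KF) : Prop := ∀ PF t0 t1 t2 t3 nF, ZB (k PF t0 t1 t2 t3 nF)
def ZL (lf : LF) : Prop :=
  ∀ t0 t1 t2 t3 PB e s, lf t0 t1 t2 t3 PB e s ≠ 0 → e = 0 ∧ s ≠ 0
def FI (P : Par) (x F : H) (PF t0 t1 t2 t3 nF : ℕ) : Prop :=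
  Kn x F ∧ (nF : ℤ) = nrm F ∧ RepQ P.W PF F ∧ Tb P.W t0 t1 t2 t3 (fun G => star F * G)
def BI (P : Par) (S : Sp) (y B : H) (PB b0 b1 b2 b3 nB : ℕ) : Prop :=
  Kn y B ∧ (nB : ℤ) = nrm B ∧ RepQ P.W PB B ∧ Tb P.W b0 b1 b2 b3 (fun G => star B * G * S.be)
def GB (P : Par) (S : Sp) (y : H) (j : ℕ) (Q : Prop) (k : KB) : Prop :=
  ∀ B PB b0 b1 b2 b3 nB, BI P S y B PB b0 b1 b2 b3 nB → G3 j Q (k PB b0 b1 b2 b3 nB)
def GF (P : Par) (S : Sp) (x y : H) (j : ℕ) (Q : Prop) (k : KF) : Prop :=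
  ∀ F PF t0 t1 t2 t3 nF, FI P x F PF t0 t1 t2 t3 nF → GB P S y j Q (k PF t0 t1 t2 t3 nF)
def GLf (P : Par) (x y : H) (Q : Prop) (lf : LF) : Prop :=
  ∀ F B t0 t1 t2 t3 PB e s, Kn x F → Kn y B → Tb P.W t0 t1 t2 t3 (fun G => star F * G) →
    RepQ P.W PB B → lf t0 t1 t2 t3 PB e s ≠ 0 → Q

theorem fold_ne {f : T4 → ℕ → ℕ} (hf : ∀ c s, f c s ≠ 0 → s ≠ 0) (L : List T4) (s : ℕ)
    (h : (List.rec (motive := fun _ => ℕ → ℕ) (fun s => s) (fun c _ r s => r (f c s)) L) s ≠ 0) :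
    s ≠ 0 ∧ ∀ c ∈ L, ∃ s', f c s' ≠ 0 := by
  induction L generalizing s with
  | nil => exact ⟨h, by simp⟩
  | cons c L ih =>
    obtain ⟨h1, h2⟩ := ih _ h
    exact ⟨hf _ _ h1, List.forall_mem_cons.2 ⟨⟨s, h1⟩, h2⟩⟩

theorem sel2_ne {x a b : ℕ} (h : sel2 x a b ≠ 0) : a ≠ 0 ∨ b ≠ 0 := by
  rcases x with _ | x
  · exact Or.inl h
  · exact Or.inr h

theorem sel4_ne {x a b c d : ℕ} (h : sel4 x a b c d ≠ 0) : a ≠ 0 ∨ b ≠ 0 ∨ c ≠ 0 ∨ d ≠ 0 := by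
  rcases x with _ | _ | _ | x
  · exact Or.inl h
  · exact Or.inr (Or.inl h)
  · exact Or.inr (Or.inr (Or.inl h))
  · exact Or.inr (Or.inr (Or.inr h))

variable {P : Par} {S : Sp} {x y F B : H} {j : ℕ} {Q : Prop}

theorem withF_Z {k : KF} (hk : ZF k) (PF nF : ℕ) : ZB (withF P PF k nF) := hk _ _ _ _ _ _

theorem withB_Z {k : KB} (hk : ZB k) (PB nB : ℕ) : Z3 (withB P PB k nB) := hk _ _ _ _ _ _

theorem withF_G (ok : ParOK P S) {k : KF} (hk : GF P S x y j Q k) {PF nF : ℕ} (h : Kn x F)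
    (hn : (nF : ℤ) = nrm F) (hR : RepQ P.W PF F) : GB P S y j Q (withF P PF k nF) :=
  hk F _ _ _ _ _ _ ⟨h, hn, hR, fun _ _ _ _ _ hG =>
    ok.hkf _ _ _ _ _ _ _ _ _ _ (ln_res ok.W_pos hR) hG⟩

theorem withB_G (ok : ParOK P S) {k : KB} (hk : GB P S y j Q k) {PB nB : ℕ} (h : Kn y B)
    (hn : (nB : ℤ) = nrm B) (hR : RepQ P.W PB B) : G3 j Q (withB P PB k nB) :=
  hk B _ _ _ _ _ _ ⟨h, hn, hR, fun _ _ _ _ _ hG =>
    ok.hkb _ _ _ _ _ _ _ _ _ _ (ln_res ok.W_pos hR) hG⟩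

theorem brF0_Z {L : List T4} (hL : L ≠ []) {ih : KF} (hZ : ZF ih)
    {PF nF PB b0 b1 b2 b3 nB mask e s : ℕ}
    (h : brF0 P L ih PF nF PB b0 b1 b2 b3 nB mask e s ≠ 0) :
    (e = 0 ∧ s ≠ 0) ∧ nF ∣ P.ML ∧ ∀ c ∈ L, ∃ s', withF P (lin4 (ln P.W PF 0) (ln P.W PF 512)
      (ln P.W PF 1024) (ln P.W PF 1536) c.t0 c.t1 c.t2 c.t3) ih nF PB b0 b1 b2 b3 nB mask
      (Nat.add e (Nat.mod P.ML nF)) s' ≠ 0 := by
  obtain ⟨h1, h2⟩ := fold_ne (fun c s hs => (withF_Z hZ _ _ _ _ _ _ _ _ _ _ _ hs).2) L s h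
  obtain ⟨c, hc⟩ := List.exists_mem_of_ne_nil L hL
  obtain ⟨s', hs⟩ := h2 c hc
  obtain ⟨e1, e2⟩ := add0 (withF_Z hZ _ _ _ _ _ _ _ _ _ _ _ hs).1
  exact ⟨⟨e1, h1⟩, mod0 e2, h2⟩

theorem brB0_Z {L : List T4} (hL : L ≠ []) {ih : KB} (hZ : ZB ih) {PB nB mask e s : ℕ}
    (h : brB0 P L ih PB nB mask e s ≠ 0) :
    (e = 0 ∧ s ≠ 0) ∧ nB ∣ P.ML ∧ ∀ c ∈ L, ∃ s', withB P (lin4 (ln P.W PB 0) (ln P.W PB 512)
      (ln P.W PB 1024) (ln P.W PB 1536) c.t0 c.t1 c.t2 c.t3) ih nB mask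
      (Nat.add e (Nat.mod P.ML nB)) s' ≠ 0 := by
  obtain ⟨h1, h2⟩ := fold_ne (fun c s hs => (withB_Z hZ _ _ _ _ _ hs).2) L s h
  obtain ⟨c, hc⟩ := List.exists_mem_of_ne_nil L hL
  obtain ⟨s', hs⟩ := h2 c hc
  obtain ⟨e1, e2⟩ := add0 (withB_Z hZ _ _ _ _ _ hs).1
  exact ⟨⟨e1, h1⟩, mod0 e2, h2⟩

variable {m mu D rho : ℤ} {v w : H}

theorem ext_ne (ok : ParOK P S) {p n : ℕ} (h : Nat.mul n p ∣ P.ML) : p ≠ 0 := by
  rintro rfl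
  have := ok.ML_pos
  have h0 : P.ML = 0 := Nat.eq_zero_of_zero_dvd h
  omega

theorem ext_step (ok : ParOK P S) (hML : (P.ML : ℤ) ∣ mu ^ 2 + D) (hw : w.re = 0) (hD : nrm w = D)
    {p : ℕ} {L : List T4} {R : List H} (hR : RepL P.W L R) (hE : ExtOK p R) {PF nF : ℕ}
    (hK : Kn (sc mu + w) F) (hn : (nF : ℤ) = nrm F) (hP : RepQ P.W PF F)
    (hd : Nat.mul nF p ∣ P.ML) :
    ∃ c ∈ L, ∃ F', Kn (sc mu + w) F' ∧ ((Nat.mul nF p : ℕ) : ℤ) = nrm F' ∧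
      RepQ P.W (lin4 (ln P.W PF 0) (ln P.W PF 512) (ln P.W PF 1024) (ln P.W PF 1536)
        c.t0 c.t1 c.t2 c.t3) F' := by
  have hc : ((Nat.mul nF p : ℕ) : ℤ) = nrm F * p := by rw [Nat.mul_eq, Nat.cast_mul, hn]
  obtain ⟨a, ha, h1, h2⟩ := extend hE (ext_ne ok hd) hw hD hK
    (by rw [← hc]; exact (Int.natCast_dvd_natCast.2 hd).trans hML)
  obtain ⟨c, hc', h3⟩ := hR.2 a ha
  exact ⟨c, hc', F * a, h2, by rw [hc, h1], h3 _ _ _ _ _ (ln_res ok.W_pos hP)⟩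

theorem nrm_neg (v : H) : nrm (-v) = nrm v := by simp [nrm]

theorem brF0_G (ok : ParOK P S) (hML : (P.ML : ℤ) ∣ mu ^ 2 + D) (hv : v.re = 0) (hD : nrm v = D)
    {p : ℕ} {L : List T4} {R : List H} (hR : RepL P.W L R) (hE : ExtOK p R)
    {ih : KF} (hZ : ZF ih) (hG : GF P S (sc mu - v) y j Q ih)
    {PF t0 t1 t2 t3 nF PB b0 b1 b2 b3 nB mask e s : ℕ}
    (hF : FI P (sc mu - v) F PF t0 t1 t2 t3 nF) (hB : BI P S y B PB b0 b1 b2 b3 nB)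
    (h : brF0 P L ih PF (Nat.mul nF p) PB b0 b1 b2 b3 nB mask e s ≠ 0)
    (hb : mask.testBit j = true) : Q := by
  obtain ⟨-, h1, h2⟩ := brF0_Z hR.1 hZ h
  obtain ⟨c, hc, F', k1, k2, k3⟩ := ext_step (w := -v) ok hML (by simp [hv])
    (by rw [nrm_neg, hD]) hR hE (by rw [← sub_eq_add_neg]; exact hF.1) hF.2.1 hF.2.2.1 h1
  obtain ⟨s', hs⟩ := h2 c hc
  rw [← sub_eq_add_neg] at k1
  exact withF_G ok hG k1 k2 k3 B _ _ _ _ _ _ hB _ _ _ hs hb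

theorem brB0_G (ok : ParOK P S) (hML : (P.ML : ℤ) ∣ mu ^ 2 + D) (hv : v.re = 0) (hD : nrm v = D)
    {p : ℕ} {L : List T4} {R : List H} (hR : RepL P.W L R) (hE : ExtOK p R)
    {ih : KB} (hZ : ZB ih) (hG : GB P S (sc mu + v) j Q ih)
    {PB b0 b1 b2 b3 nB mask e s : ℕ} (hB : BI P S (sc mu + v) B PB b0 b1 b2 b3 nB)
    (h : brB0 P L ih PB (Nat.mul nB p) mask e s ≠ 0) (hb : mask.testBit j = true) : Q := by
  obtain ⟨-, h1, h2⟩ := brB0_Z hR.1 hZ h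
  obtain ⟨c, hc, F', k1, k2, k3⟩ := ext_step ok hML hv hD hR hE hB.1 hB.2.1 hB.2.2.1 h1
  obtain ⟨s', hs⟩ := h2 c hc
  exact withB_G ok hG k1 k2 k3 _ _ _ hs hb

theorem clash1_Z {t0 t1 t2 t3 nF PB nB e s r : ℕ}
    (h : clash1 P t0 t1 t2 t3 nF PB nB e s r ≠ 0) : e = 0 ∧ s ≠ 0 := by
  obtain ⟨h1, h2⟩ := fin_ne h
  exact ⟨(add0 (add0 (add0 h1).1).1).1, h2⟩

theorem clash1_G (ok : ParOK P S) (hc : IsCoprime (2 * mu) (P.M0 : ℤ)) (hv : v.re = 0)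
    {PF t0 t1 t2 t3 nF PB b0 b1 b2 b3 nB e s r : ℕ}
    (hF : FI P (sc mu - v) F PF t0 t1 t2 t3 nF) (hB : BI P S (sc mu + v) B PB b0 b1 b2 b3 nB)
    (h : clash1 P t0 t1 t2 t3 nF PB nB e s r ≠ 0) : False := by
  obtain ⟨h1, h2⟩ := add0 (fin_ne h).1
  obtain ⟨h3, e2⟩ := add0 h1
  obtain ⟨-, e1⟩ := add0 h3
  obtain ⟨e3, e4⟩ := add0 h2
  have hr : r ∣ P.M0 := mod0 e1
  refine clash (r := r) (by rw [Nat.sub_eq] at e2; omega)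
    (hc.of_isCoprime_of_dvd_right (Int.natCast_dvd_natCast.2 hr)) hv hF.1 hB.1 ?_
    (ok.grp (hF.2.2.2 _ _ _ _ _ (ln_res ok.W_pos hB.2.2.1)) (hr.trans ok.M0_dvd) e4)
  rw [← hF.2.1, ← hB.2.1]
  rcases Nat.mul_eq_zero.1 e3 with e | e
  · exact Or.inl (Int.natCast_dvd_natCast.2 (mod0 e))
  · exact Or.inr (Int.natCast_dvd_natCast.2 (mod0 e))

theorem dead_Z : Z3 dead := fun _ _ _ h => ⟨(add0 (fin_ne h).1).1, (fin_ne h).2⟩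

theorem dead_G : G3 j Q dead := by
  intro mask e s h hb
  rw [(add0 (fin_ne h).1).2] at hb
  simp at hb

theorem other_Z (ok : ParOK P S) {lf : LF} (hl : ZL lf) {ih : KF} (hZ : ZF ih)
    {PF t0 t1 t2 t3 nF PB b0 b1 b2 b3 nB mask e s o : ℕ}
    (h : other P lf ih PF t0 t1 t2 t3 nF PB b0 b1 b2 b3 nB mask e s o ≠ 0) : e = 0 ∧ s ≠ 0 := by
  rcases sel2_ne h with h | h <;> rcases sel4_ne h with h | h | h | h
  · exact (brF0_Z ok.hrp.1 hZ h).1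
  · exact (brB0_Z ok.hrp.1 (hZ _ _ _ _ _ _) h).1
  · exact (brF0_Z ok.hrq.1 hZ h).1
  · exact (brB0_Z ok.hrq.1 (hZ _ _ _ _ _ _) h).1
  · exact (brF0_Z ok.hrl.1 hZ h).1
  · exact ⟨(clash1_Z h).1, shr_ne (clash1_Z h).2⟩
  · exact hl _ _ _ _ _ _ _ h
  · exact dead_Z _ _ _ h

theorem other_G (ok : ParOK P S) (hctx : Ctx P m mu D) (hv : v.re = 0) (hD : nrm v = D)
    {lf : LF} (hl : GLf P (sc mu - v) (sc mu + v) Q lf) {ih : KF} (hZ : ZF ih)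
    (hG : GF P S (sc mu - v) (sc mu + v) j Q ih)
    {PF t0 t1 t2 t3 nF PB b0 b1 b2 b3 nB mask e s o : ℕ}
    (hF : FI P (sc mu - v) F PF t0 t1 t2 t3 nF) (hB : BI P S (sc mu + v) B PB b0 b1 b2 b3 nB)
    (h : other P lf ih PF t0 t1 t2 t3 nF PB b0 b1 b2 b3 nB mask e s o ≠ 0)
    (hb : mask.testBit j = true) : Q := by
  have hML := hctx.2.1
  rcases sel2_ne h with h | h <;> rcases sel4_ne h with h | h | h | h
  · exact brF0_G ok hML hv hD ok.hrp ok.hep hZ hG hF hB h hb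
  · exact brB0_G ok hML hv hD ok.hrp ok.hep (hZ _ _ _ _ _ _) (hG F _ _ _ _ _ _ hF) hB h hb
  · exact brF0_G ok hML hv hD ok.hrq ok.heq hZ hG hF hB h hb
  · exact brB0_G ok hML hv hD ok.hrq ok.heq (hZ _ _ _ _ _ _) (hG F _ _ _ _ _ _ hF) hB h hb
  · exact brF0_G ok hML hv hD ok.hrl ok.hel hZ hG hF hB h hb
  · exact (clash1_G ok hctx.2.2.1 hv hF hB h).elim
  · exact hl F B _ _ _ _ _ _ _ hF.1 hB.1 hF.2.2.2 hB.2.2.1 h
  · exact dead_G _ _ _ h hb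

variable {rz xb gb c : ℕ} {fv : FV}

theorem step_Z (ok : ParOK P S) {U : UT} {fm : Fm} {lf : LF} (hl : ZL lf) {ih : KF} (hZ : ZF ih) :
    ZF (step P rz fv U fm xb lf ih) := by
  intro PF t0 t1 t2 t3 nF PB b0 b1 b2 b3 nB mask e s h
  rcases sel4_ne h with h | h | h | h
  · exact (test1_Z dead_Z h).imp_right shr_ne
  · exact (test1_Z (hZ _ _ _ _ _ _ _ _ _ _ _ _) h).imp_right shr_ne
  · exact (other_Z ok hl hZ h).imp_right shr_ne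
  · obtain ⟨h1, h2⟩ := ext1_Z (hZ _ _ _ _ _ _ _ _ _ _ _ _) h
    exact ⟨(add0 h1).1, shr_ne h2⟩

theorem step_G (ok : ParOK P S) (hctx : Ctx P m mu D) (hc : c ≤ 3) (hpt : Pt D c m v)
    (hcell : Cell fv rz j rho v) (hrho : 0 < rho) (hDr : D ≤ 3 * rho ^ 2) (hrz : 4096 ≤ rz)
    (hext : xb = 0 → ∀ v' : H, v'.re = 0 → nrm v' = D → Prim v' → v'.imI ≤ rho)
    (hgb : gb ≤ 30) {lf : LF} (hl : GLf P (sc mu - v) (sc mu + v) (Goal P S m D) lf)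
    {ih : KF} (hZ : ZF ih) (hG : GF P S (sc mu - v) (sc mu + v) j (Goal P S m D) ih) :
    GF P S (sc mu - v) (sc mu + v) j (Goal P S m D)
      (step P rz fv (selU P c) (mkFm P.W gb) xb lf ih) := by
  intro F PF t0 t1 t2 t3 nF hF B PB b0 b1 b2 b3 nB hB mask e s h hb
  rcases sel4_ne h with h | h | h | h
  · exact test1_G ok hctx hc hpt hcell hrho hDr hrz hgb dead_Z dead_G hF.1 hB.1 hF.2.2.2
      hB.2.2.2 h hb
  · exact test1_G ok hctx hc hpt hcell hrho hDr hrz hgb (hZ _ _ _ _ _ _ _ _ _ _ _ _)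
      (hG F _ _ _ _ _ _ hF B _ _ _ _ _ _ hB) hF.1 hB.1 hF.2.2.2 hB.2.2.2 h hb
  · exact other_G ok hctx hpt.1 hpt.2.1 hl hZ hG hF hB h hb
  · have hx := (add0 (ext1_Z (hZ _ _ _ _ _ _ _ _ _ _ _ _) h).1).2
    exact ext1_G ok hctx hpt hcell hrho hrz (hext hx) hgb (hZ _ _ _ _ _ _ _ _ _ _ _ _)
      (hG F _ _ _ _ _ _ hF B _ _ _ _ _ _ hB) hF.1 hB.1 hF.2.2.2 hB.2.2.1 h hb

theorem run_Z (ok : ParOK P S) {U : UT} {fm : Fm} {lf : LF} (hl : ZL lf) (n : ℕ) :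
    ZF (run P rz fv U fm xb lf n) := by
  induction n with
  | zero => exact fun _ _ _ _ _ _ _ _ _ _ _ _ _ _ _ h => (h rfl).elim
  | succ n ih => exact step_Z ok hl ih

theorem start_Z (ok : ParOK P S) {G : Grid} {U : UT} {fm : Fm} {lf : LF} (hl : ZL lf)
    {fc bc e s : ℕ} (h : start P G fv U fm xb lf fc bc e s ≠ 0) : e = 0 ∧ s ≠ 0 :=
  withB_Z (withF_Z (run_Z ok hl 400) _ _) _ _ _ _ _ h

theorem ParOK.nq_eq (ok : ParOK P S) (fc : ℕ) : (nq P fc : ℤ) = nrm (dec fc) := by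
  obtain ⟨h1, h2, h3⟩ := dq_res P ok.W_ge fc
  exact lane0 (f := fun k => phiX k (dec fc)) (by norm_num) (ok.hX _ _ _ _ _ h1) h2
    (lt_of_le_of_lt h3 (by norm_num))

theorem start_G (ok : ParOK P S) (hctx : Ctx P m mu D) (hc : c ≤ 3) (hpt : Pt D c m v)
    {G : Grid} (hreg : Reg G fv xb D v) (hgb : gb ≤ 30) {lf : LF} (hz : ZL lf)
    (hl : GLf P (sc mu - v) (sc mu + v) (Goal P S m D) lf) {fc bc e s : ℕ}
    (hF : Kn (sc mu - v) (dec fc)) (hB : Kn (sc mu + v) (dec bc))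
    (h : start P G fv (selU P c) (mkFm P.W gb) xb lf fc bc e s ≠ 0) : Goal P S m D := by
  obtain ⟨j, rho, hj, hcell, hrho, hDr, hrz, hext⟩ := hreg
  have key : ∀ n, GF P S (sc mu - v) (sc mu + v) j (Goal P S m D)
      (run P G.rz fv (selU P c) (mkFm P.W gb) xb lf n) := by
    intro n
    induction n with
    | zero => exact fun _ _ _ _ _ _ _ _ _ _ _ _ _ _ _ _ _ _ _ h => (h rfl).elim
    | succ n ih => exact step_G ok hctx hc hpt hcell hrho hDr hrz hext hgb hl (run_Z ok hz n) ih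
  exact withB_G ok (withF_G ok (key 400) hF (ok.nq_eq fc)
    (pk4_rep ok.W_lt (dq_res P ok.W_ge fc).1)) hB (ok.nq_eq bc)
    (pk4_rep ok.W_lt (dq_res P ok.W_ge bc).1) _ _ _ h hj

end Pool.Agent.Lib.MP_094079_nt
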