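import Pool.Agent.Lib.MP_094079_nt.RunB

/-! Soundness of the leaves: cuts, fresh locks and agreeing steps. -/
namespace Pool.Agent.Lib.MP_094079_nt

open Quaternion

variable {P : Par} {S : Sp} {m mu D : ℤ} {v x F : H} {xb gb c : ℕ} {fv : FV} {G : Grid}

theorem ParOK.n0_dvd (ok : ParOK P S) : P.n0 ∣ P.M0 := by
  rw [ok.hn0, ok.hM0]
  exact Nat.mul_dvd_mul (pow_dvd_pow _ ok.ht1) (pow_dvd_pow _ ok.hs1)

theorem ParOK.qs_dvd (ok : ParOK P S) : P.qs ∣ P.n0 := by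
  rw [ok.hn0, ok.hqs]; exact Nat.dvd_mul_left _ _

theorem ParOK.p_dvd (ok : ParOK P S) : P.p ∣ P.n0 := by
  rw [ok.hn0]
  exact (dvd_pow_self _ (by have := ok.ht0; omega)).mul_right _

theorem ParOK.cop4 (ok : ParOK P S) {n t : ℕ} (hn : n ∣ P.ML) (ht : t ∣ 4) :
    IsCoprime (n : ℤ) (t : ℤ) := Nat.isCoprime_iff_coprime.2 (aa_cop4 ok.hodd hn ht)

theorem lfS_Z {cs : List (ℕ × ℕ)} {lk : LF} (hl : ZL lk) : ZL (lfS P cs c lk) := by
  intro t0 t1 t2 t3 PB e s h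
  rcases sel2_ne h with h | h
  · obtain ⟨h1, h2⟩ := fin_ne h
    exact ⟨(add0 (add0 (add0 (add0 (add0 h1).1).1).1).1).1, shr_ne h2⟩
  · exact (hl _ _ _ _ _ _ _ h).imp_right shr_ne

theorem ParOK.kn (ok : ParOK P S) {fc : ℕ} (hd : nq P fc ∣ P.ML)
    (h : Dv (nq P fc) (x * dec fc)) : Kn x (dec fc) := by
  rw [ok.nq_eq] at h
  refine ⟨?_, h⟩
  rw [← ok.nq_eq]
  have := ok.ML_pos
  intro h0
  have h1 : nq P fc = 0 := by exact_mod_cast h0
  rw [h1] at hd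
  have := Nat.eq_zero_of_zero_dvd hd
  omega

theorem lfS_G (ok : ParOK P S) (hctx : Ctx P m mu D) (hpt : Pt D c m v) (hreg : Reg G fv xb D v)
    {cs : List (ℕ × ℕ)} (hcs : ∀ x ∈ cs, CutGood P S G fv xb x.1 x.2) {lk : LF}
    (hl : GLf P (sc mu - v) (sc mu + v) (Goal P S m D) lk) :
    GLf P (sc mu - v) (sc mu + v) (Goal P S m D) (lfS P cs c lk) := by
  intro F B t0 t1 t2 t3 PB e s hF hB hT hP h
  rcases sel2_ne h with h | h
  · unfold cutL cutA at h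
    generalize Nat.land (Nat.shiftRight s 1) 255 = i at h
    obtain ⟨h1, h2⟩ := add0 (fin_ne h).1
    obtain ⟨e4, e5⟩ := add0 h2
    obtain ⟨h3, e3⟩ := add0 h1
    obtain ⟨h4, e2⟩ := add0 h3
    obtain ⟨h5, e1⟩ := add0 h4
    have hi : i < cs.length := by
      have := (add0 h5).2
      rw [Nat.sub_eq] at this
      omega
    have hm : cs.getD i (0, 0) ∈ cs := by
      rw [List.getD_eq_getElem _ _ hi]; exact List.getElem_mem hi
    generalize cs.getD i (0, 0) = z at hm e1 e2 e3 e4 e5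
    refine hcs z hm m mu D v hctx (by rw [xor0 e1]; exact hpt) hreg ?_ ?_
    · exact ok.kn (mod0 e2) (know hF (ok.grp (hT _ _ _ _ _ (dq_res P ok.W_ge z.1).1) (mod0 e2) e4))
    · exact ok.kn (mod0 e3) (know hB (ok.grp (ok.pmul hP (dq_res P ok.W_ge z.2).1) (mod0 e3) e5))
  · exact hl F B _ _ _ _ _ _ _ hF hB hT hP h

theorem fresh_Z {fm : Fm} : ZL (fresh P fm c) := by
  intro t0 t1 t2 t3 PB e s h
  obtain ⟨h1, h2⟩ := fin_ne h
  exact ⟨(add0 (add0 (add0 (add0 h1).1).1).1).1, shr_ne (shr_ne h2)⟩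

theorem agree_Z {fm : Fm} {st : ℕ} : ZL (agree P fm st) := by
  intro t0 t1 t2 t3 PB e s h
  obtain ⟨h1, h2⟩ := fin_ne h
  exact ⟨(add0 (add0 (add0 (add0 (add0 h1).1).1).1).1).1, shr_ne (shr_ne h2)⟩

theorem nolf_Z : ZL nolf := fun _ _ _ _ _ _ _ h => (h rfl).elim

theorem perr_use {Pg c' tau : ℕ} {G : H} (hP : Rep 16 Pg (fun k => phiY k G) (2 ^ 76) (2 ^ 400))
    (hc : c ≤ 3) (hc' : c' ≤ 3) (ht : tau ∣ 4) (h : perr Pg c' c tau = 0) :
    (2 * tau : ℤ) ∣ Rm c' c G - tau := by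
  have := lane_par (k := 4 * c' + c) hP (by omega) rfl ht h
  have h1 : (4 * c' + c) / 4 = c' := by omega
  have h2 : (4 * c' + c) % 4 = c := by omega
  simp only [phiY, h1, h2] at this
  exact this

/-- moving the base point without using the target -/
theorem ParOK.mv (ok : ParOK P S) (hctx : Ctx P m mu D) (hc : c ≤ 3) (hpt : Pt D c m v)
    {G : H} {g A c' : ℕ} (hc' : c' ≤ 3) (hg : (g : ℤ) = nrm G) (hA : A ∣ P.M0)
    (hgA : g = A * Nat.gcd g 4) (h1 : Dv A ((sc mu - v) * G))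
    (he : (2 * (Nat.gcd g 4 : ℕ) : ℤ) ∣ Rm c' c G - (Nat.gcd g 4 : ℕ)) :
    g ≠ 0 ∧ ∃ v' : H, star G * v * G = (g : ℤ) • v' ∧ Pt D c' m v' := by
  obtain ⟨hm, c1, c2, c3, c4, -⟩ := hctx
  obtain ⟨p1, p2, p3, p4⟩ := hpt
  have hML := ok.hML
  have hx0 : g ∣ 4 * P.M0 := by
    rw [hgA, mul_comm 4]; exact Nat.mul_dvd_mul hA (Nat.gcd_dvd_right _ _)
  have hx : g ∣ 4 * P.ML := hx0.trans (Nat.mul_dvd_mul_left 4 ok.M0_dvd)
  have hg0 : g ≠ 0 := by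
    rintro rfl
    have := ok.ML_pos
    have := Nat.eq_zero_of_zero_dvd hx
    omega
  have hq : g * 1 / (Nat.gcd g 4 * A) = 1 := by
    rw [mul_one, mul_comm, ← hgA]; exact Nat.div_self (Nat.pos_of_ne_zero hg0)
  obtain ⟨-, v', q1, q2, q3, -⟩ := move (M0 := P.M0) (l := P.l) (N := 1) (m := mu) (be := 1)
    p1 p2 (by rw [← hML]; exact c1)
    c2 ok.hl ok.hlM (by rw [← hML]; exact ok.hodd) (Or.inl (by simp [nrm])) (one_dvd _)
    (by simp) hg ⟨_, hgA⟩ (by rw [← hML]; exact hA.trans ok.M0_dvd)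
    (by rw [← hML, mul_one]; exact hx) h1 (by rw [hq]; exact ⟨_, (one_smul _ _).symm⟩)
  exact ⟨hg0, v', q2, q1, q3, prim_move p1 q3 q1
    ((Int.natCast_dvd_natCast.2 ok.M0_dvd).trans c1) c2 hg hx0 p3 q2,
    pc_move hc hc' p1 q1 ok.hodd hg hx q2 he p4⟩

theorem ParOK.cmulc (ok : ParOK P S) {x0 x1 x2 x3 z : ℕ} {X Z : H} (hX : Res4 P.W x0 x1 x2 x3 X)
    (hZ : RepQ P.W z Z) : RepQ P.W (cmulc P x0 x1 x2 x3 z) (star (Z * X)) := by
  rw [star_mul]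
  exact ok.hkf _ _ _ _ _ _ _ _ _ _ hX (ln_resc ok.W_pos hZ)

theorem neg_conj {G v' : H} {g : ℤ} (h : star G * v * G = g • v') :
    star G * (-v) * G = g • (-v') := by
  rw [mul_neg, neg_mul, h, smul_neg]

theorem fresh_G (ok : ParOK P S) (hctx : Ctx P m mu D) (hc : c ≤ 3) (hpt : Pt D c m v)
    (hgb : gb ≤ 30) (hLG : ∀ i < P.nst, LG0 P S (stR P i)) :
    GLf P (sc mu - v) (sc mu + v) (Goal P S m D) (fresh P (mkFm P.W gb) c) := by
  intro F B t0 t1 t2 t3 PB e s hF hB hT hP h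
  unfold fresh fresh1 freshA at h
  generalize Nat.land (Nat.shiftRight s 16) _ = r at h
  generalize Nat.land s 65535 = i at h
  obtain ⟨G, hres, -, -, -, -, hn0, hn1⟩ := gq_res hgb ok.W_ge r 10 (mkFm P.W gb).o1
    (mkFm P.W gb).o2 (mkFm P.W gb).o3
  have hY := ok.hY _ _ _ _ _ hres
  have hPF := hT _ _ _ _ _ hres
  have hPB := ok.pmul hP hres
  generalize geo _ _ _ _ _ = Pg at h hY
  unfold freshB at h
  generalize lin4 _ _ _ _ t0 t1 t2 t3 = PF at h hPF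
  generalize pmul _ _ _ _ _ _ = PB' at h hPB
  have hg : ((Nat.land Pg m76 : ℕ) : ℤ) = nrm G :=
    lane0 (f := fun k => phiY k G) (by norm_num) hY hn0 (lt_of_le_of_lt hn1 (by norm_num))
  generalize Nat.land Pg m76 = g at h hg
  obtain ⟨h1, h2⟩ := add0 (fin_ne h).1
  obtain ⟨e4, e5⟩ := add0 h2
  obtain ⟨h3, e3⟩ := add0 h1
  obtain ⟨h4, e2⟩ := add0 h3
  have hi : i < P.nst := by
    have := (add0 h4).2
    rw [Nat.sub_eq] at this
    omega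
  have hL := hLG i hi
  generalize stR P i = st at e3 e4 e5 hL
  obtain ⟨r1, r2, -, -, -, -, -, -, -, r3⟩ := st_res P ok.W_ge st
  have g4 : g ∣ 4 := mod0 e2
  have hgc : Nat.gcd g 4 = g := Nat.gcd_eq_left g4
  have hn0 := ok.n0_dvd.trans ok.M0_dvd
  have hqs := ok.qs_dvd.trans hn0
  have d1 := (ok.grp (ok.cmulc r2 hPB) hn0 e4).star
  have d2 := (ok.grp (ok.cmulc r1 hPF) hqs e5).star
  rw [star_star, mul_assoc] at d1 d2
  obtain ⟨-, v', q1, q2⟩ := ok.mv (A := 1) hctx hc hpt r3 hg (one_dvd _) (by rw [hgc, one_mul])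
    ⟨_, (one_smul _ _).symm⟩ (by rw [hgc]; exact perr_use hY hc r3 g4 e3)
  refine hL m mu D v' hctx q2 (lock_fresh hg q1 (ok.cop4 hn0 g4) (know hB d1)) ?_
  have d3 := know hF d2
  rw [sub_eq_add_neg] at d3 ⊢
  exact lock_fresh hg (neg_conj q1) (ok.cop4 hqs g4) d3

theorem chk1_sound (ok : ParOK P S) (hgb : gb ≤ 30) (hLG : ∀ i < P.nst, LG0 P S (stR P i))
    {cs : List (ℕ × ℕ)} (hcs : ∀ x ∈ cs, CutGood P S G (fv1 G) 0 x.1 x.2) {fc bc s : ℕ}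
    (h : chk1 P G gb cs fc bc s = 1) : CutGood P S G (fv1 G) 0 fc bc := by
  intro m mu D v hctx hpt hreg hF hB
  have hc : ccl fc ≤ 3 := Nat.and_le_right
  exact start_G ok hctx hc hpt hreg hgb (lfS_Z fresh_Z)
    (lfS_G ok hctx hpt hreg hcs (fresh_G ok hctx hc hpt hgb hLG)) hF hB
    (by unfold chk1 at h; rw [h]; exact one_ne_zero)

theorem chk2_sound (ok : ParOK P S) (hgb : gb ≤ 30)
    {cs : List (ℕ × ℕ)} (hcs : ∀ x ∈ cs, CutGood P S G (fv2 G) 1 x.1 x.2) {fc bc s : ℕ}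
    (h : chk2 P G gb cs fc bc s = 1) : CutGood P S G (fv2 G) 1 fc bc := by
  intro m mu D v hctx hpt hreg hF hB
  have hc : ccl fc ≤ 3 := Nat.and_le_right
  exact start_G ok hctx hc hpt hreg hgb (lfS_Z nolf_Z)
    (lfS_G ok hctx hpt hreg hcs (fun _ _ _ _ _ _ _ _ _ _ _ _ _ h => (h rfl).elim)) hF hB
    (by unfold chk2 at h; rw [h]; exact one_ne_zero)

end Pool.Agent.Lib.MP_094079_nt
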