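import Pool.Agent.Lib.MP_094079_nt.RunC
import Pool.Agent.Lib.MP_094079_nt.GridL

/-! Soundness of the lock states and the main statement about a checked certificate. -/
namespace Pool.Agent.Lib.MP_094079_nt

open Quaternion

variable {P : Par} {S : Sp} {m mu D nu : ℤ} {v x F : H} {gb T t st : ℕ} {G : Grid}

theorem dv_shift {n nu' : ℤ} {a X : H} (h : Dv n ((sc nu + a) * X)) (hd : n ∣ nu' - nu) :
    Dv n ((sc nu' + a) * X) := by
  have : (sc nu' + a) * X = (sc nu + a) * X + (nu' - nu) • X := by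
    rw [aa_sc, aa_sc, sub_smul]
    simp only [add_mul, smul_mul_assoc, one_mul]
    abel
  rw [this]
  exact aa_dv_add h (aa_dv_smul hd X)

theorem star_add_pure {a : H} (ha : a.re = 0) (z : ℤ) : star (sc z + a) = sc z + -a := by
  ext <;> simp [sc, ha]

theorem star_sub_pure {a : H} (ha : a.re = 0) (z : ℤ) : star (sc z - a) = sc z + a := by
  ext <;> simp [sc, ha]

theorem star_neg_pure {a : H} (ha : a.re = 0) : star (-a) = a := by
  ext <;> simp [ha]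

theorem dv_neg {n : ℤ} (h : Dv n x) : Dv n (-x) := by
  obtain ⟨y, rfl⟩ := h
  exact ⟨-y, (smul_neg _ _).symm⟩

theorem sel2_succ (x a b : ℕ) : sel2 (x + 1) a b = b := rfl

theorem cast_dvd_add {n a b : ℕ} (h : n ∣ Nat.add a b) : (n : ℤ) ∣ (a : ℤ) + b := by
  rw [Nat.add_eq] at h
  exact_mod_cast h

theorem le80 : 18446744073709551616 ≤ 2 ^ 80 := by norm_num

theorem ParOK.cop_nu (ok : ParOK P S) (hc : IsCoprime (2 * mu) (P.M0 : ℤ))
    (hs : Nat.Coprime (snu st) P.M0) {n : ℕ} (hn : n ∣ P.n0) (hnu : (P.n0 : ℤ) ∣ nu - snu st) :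
    IsCoprime (2 * nu) (n : ℤ) := by
  have h1 : (n : ℤ) ∣ P.M0 := Int.natCast_dvd_natCast.2 (hn.trans ok.n0_dvd)
  refine ab_cop (x := snu st) ?_ ((Int.natCast_dvd_natCast.2 hn).trans hnu)
  exact (hc.of_mul_left_left.mul_left (Nat.isCoprime_iff_coprime.2 hs)).of_isCoprime_of_dvd_right h1

theorem agree_G (ok : ParOK P S) (hctx : Ctx P m mu D) (hpt : Pt D (scl st) m v) (hgb : gb ≤ 30)
    (hs : Nat.Coprime (snu st) P.M0) (ht : t < T) (hLG : ∀ j < P.nst, LG P S T (t + 1) (stR P j))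
    (h1 : (P.p : ℤ) ^ (T + 2) ∣ mu ^ 2 + D) (h2 : (P.p : ℤ) ^ (T + 2) ∣ nu ^ 2 + nrm (sa st))
    (h3 : D * P.dmax < (P.p : ℤ) ^ T) (h4 : (P.n0 : ℤ) ∣ nu - snu st)
    (h5 : Dv ((P.p : ℤ) ^ t) ((sc mu + v) * (sc nu - sa st)))
    (h6 : Dv P.qs ((sc mu + v) * (sc nu - sa st))) (h7 : Dv P.qs ((sc mu - v) * (sc nu + sa st))) :
    GLf P (sc mu - v) (sc mu + v) (Goal P S m D) (agree P (mkFm P.W gb) st) := by
  intro F B t0 t1 t2 t3 PB e s hF _ hT _ h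
  unfold agree agree1 agreeA at h
  generalize Nat.land (Nat.shiftRight s 16) _ = r at h
  generalize Nat.land s 65535 = i at h
  obtain ⟨G, hres, b0, b1, b2, b3, hn0, hn1⟩ := gq_res hgb ok.W_ge r 10 (mkFm P.W gb).o1
    (mkFm P.W gb).o2 (mkFm P.W gb).o3
  have hY := ok.hY _ _ _ _ _ hres
  have hPF := hT _ _ _ _ _ hres
  generalize geo _ _ _ _ _ = Pg at h hY
  unfold agreeB at h
  have hg : ((Nat.land Pg m76 : ℕ) : ℤ) = nrm G :=
    lane0 (f := fun k => phiY k G) (by norm_num) hY hn0 (lt_of_le_of_lt hn1 (by norm_num))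
  generalize Nat.land Pg m76 = g at h hg
  generalize Nat.land r 1 = sg at h
  unfold agreeC at h
  obtain ⟨k1, k2⟩ := add0 (fin_ne h).1
  obtain ⟨e6, e7⟩ := add0 k2
  obtain ⟨k3, k4⟩ := add0 k1
  obtain ⟨e4, e5⟩ := add0 k4
  obtain ⟨k5, e3⟩ := add0 k3
  obtain ⟨k6, e2⟩ := add0 k5
  have hi : i < P.nst := by
    have := (add0 k6).2
    rw [Nat.sub_eq] at this
    omega
  have hL := hLG i hi
  clear h k1 k2 k3 k4 k5 k6
  generalize stR P i = st' at e3 e6 e7 hL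
  obtain ⟨r1, -, -, r2, a1, a2, a3, -, -, r3⟩ := st_res P ok.W_ge st
  obtain ⟨-, -, s1, s2, a1', a2', a3', -, -, s3⟩ := st_res P ok.W_ge st'
  have t4 : Nat.gcd g 4 ∣ 4 := Nat.gcd_dvd_right _ _
  have hgp : g = P.p * Nat.gcd g 4 := xor0 e2
  have hpM := ok.p_dvd.trans ok.n0_dvd
  have hpL := hpM.trans ok.M0_dvd
  have d1 := know hF (ok.grp hPF hpL e4)
  have d2 := ok.grp (ok.hkf _ _ _ _ _ _ _ _ _ _ r1 hres) hpL e5
  have ha : (sa st).re = 0 := rfl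
  rw [star_add_pure ha] at d2
  have d3 := dv_shift d2 ((Int.natCast_dvd_natCast.2 ok.p_dvd).trans h4)
  rw [← sub_eq_add_neg] at d3
  obtain ⟨hg0, v', q1, q2⟩ := ok.mv hctx r3 hpt s3 hg hpM hgp d1 (perr_use hY r3 s3 t4 e3)
  have hgz : (g : ℤ) = P.p * (Nat.gcd g 4 : ℕ) := by exact_mod_cast hgp
  have hqL := (ok.qs_dvd.trans ok.n0_dvd).trans ok.M0_dvd
  have hqg : IsCoprime (P.qs : ℤ) (g : ℤ) := by
    rw [hgz]
    refine IsCoprime.mul_right ?_ (ok.cop4 hqL t4)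
    rw [ok.hqs]
    exact Nat.isCoprime_iff_coprime.2 (ok.hpq.symm.pow_left _)
  have hp0 : (P.p : ℤ) ≠ 0 := by have := ok.hp; omega
  have hcp : IsCoprime (2 * mu * nu) (P.p : ℤ) :=
    (hctx.2.2.1.of_isCoprime_of_dvd_right (Int.natCast_dvd_natCast.2 hpM)).mul_left
      (ok.cop_nu hctx.2.2.1 hs ok.p_dvd h4).of_mul_left_right
  have hW : 18446744073709551616 ∣ P.W := by
    rw [ok.hW]; exact Dvd.dvd.mul_right (by norm_num) _
  have main : ∀ a'' : H, sa st * G = G * a'' → nrm a'' = nrm (sa st) ∧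
      Dv ((P.p : ℤ) ^ (t + 1)) ((sc mu + v') * (sc nu - a'')) ∧
      Dv P.qs ((sc mu + v') * (sc nu - a'')) ∧ Dv P.qs ((sc mu - v') * (sc nu + a'')) := by
    intro a'' hq
    refine ⟨?_, lock_step hpt.1 hpt.2.1 ha (by rw [← hg, hgz]) hp0 (ok.cop4 hpL t4) hcp
      (by rw [← hgz]; exact q1) hq ((pow_dvd_pow _ (by omega)).trans h1)
      ((pow_dvd_pow _ (by omega)).trans h2) h5 d1 d3, ?_, ?_⟩
    · have := congrArg nrm hq
      rw [aa_nrm_mul, aa_nrm_mul, mul_comm, ← hg] at this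
      exact (mul_left_cancel₀ (by exact_mod_cast hg0) this).symm
    · rw [sub_eq_add_neg] at h6 ⊢
      exact lock_keep hg q1 (by rw [neg_mul, mul_neg, hq]) hqg h6
    · rw [sub_eq_add_neg] at h7 ⊢
      exact lock_keep hg (neg_conj q1) hq hqg h7
  have u1 := ok.hkf _ _ _ _ _ _ _ _ _ _ r2 hres
  rw [star_neg_pure ha] at u1
  rcases sg with _ | sg
  · have u2 := ok.hkf _ _ _ _ _ _ _ _ _ _ (res4_star hres) s2
    rw [star_star] at u2
    obtain ⟨w1, w2, w3, w4⟩ := main (sa st') (small_eq ⟨ha, a1, a2, a3⟩ ⟨rfl, a1', a2', a3'⟩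
      ⟨b0, b1, b2, b3⟩ (grp_add_dv ok.W_pos u1 u2 hW le80 e7))
    have hmod : snu st' ≡ snu st [MOD P.n0] := xor0 e6
    refine hL m mu D nu v' hctx q2 h1 (by rw [w1]; exact h2) h3 ?_ w2 w3 w4
    have := (dvd_add h4 hmod.dvd)
    rwa [sub_add_sub_cancel] at this
  · have u2 := ok.hkf _ _ _ _ _ _ _ _ _ _ (res4_star hres) s1
    rw [star_star, ← neg_neg (sa st')] at u2
    rw [sel2_succ, sel2_succ, sel2_succ] at e7
    obtain ⟨w1, w2, w3, w4⟩ := main (-sa st') (small_eq ⟨ha, a1, a2, a3⟩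
      ⟨by simp [sa], by simpa using a1', by simpa using a2', by simpa using a3'⟩
      ⟨b0, b1, b2, b3⟩ (grp_add_dv ok.W_pos u1 u2 hW le80 e7))
    have hmod : (P.n0 : ℤ) ∣ (snu st' : ℤ) + snu st := by
      rw [sel2_succ] at e6
      exact cast_dvd_add (mod0 e6)
    have z1 : sc (-nu) - sa st' = -(sc nu - -sa st') := by ext <;> simp [sc, sa]
    have z2 : sc (-nu) + sa st' = -(sc nu + -sa st') := by ext <;> simp [sc, sa]
    refine hL m mu D (-nu) v' hctx q2 h1 (by rw [← nrm_neg, w1, neg_sq]; exact h2) h3 ?_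
      (by rw [z1, mul_neg]; exact dv_neg w2) (by rw [z1, mul_neg]; exact dv_neg w3)
      (by rw [z2, mul_neg]; exact dv_neg w4)
    have := (dvd_add h4 hmod).neg_right
    rwa [show -(nu - (snu st : ℤ) + (snu st' + snu st)) = -nu - snu st' by ring] at this

theorem chkS1_Z (ok : ParOK P S) {fm : Fm} {cs : List (ℕ × ℕ)} {fc bc s : ℕ}
    (h : chkS1 P G fm cs st fc bc s ≠ 0) : serr P st fc bc = 0 ∧ s ≠ 0 :=
  start_Z ok (lfS_Z agree_Z) h

theorem chkS1_sound (ok : ParOK P S) (hgb : gb ≤ 30)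
    (hreg : ∀ (D : ℤ) (v : H), v.re = 0 → nrm v = D → 0 < D → Reg G (fv2 G) 1 D v)
    {cs : List (ℕ × ℕ)} (hcs : ∀ x ∈ cs, CutGood P S G (fv2 G) 1 x.1 x.2) {fc bc s : ℕ}
    (h : chkS1 P G (mkFm P.W gb) cs st fc bc s ≠ 0) : StOK P S st := by
  obtain ⟨k1, k2⟩ := add0 (chkS1_Z ok h).1
  obtain ⟨k3, k4⟩ := add0 k1
  obtain ⟨e1, e2⟩ := add0 k3
  obtain ⟨e3, e4⟩ := add0 k4
  obtain ⟨k5, k6⟩ := add0 k2
  obtain ⟨e5, e6⟩ := add0 k5
  obtain ⟨e7, e8⟩ := add0 k6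
  obtain ⟨r1, r2, r3, -, -, -, -, n0, n1, r4⟩ := st_res P ok.W_ge st
  have hd : (sd P st : ℤ) = nrm (sa st) :=
    lane0 (f := fun k => phiX k (sa st)) (by norm_num) (ok.hX _ _ _ _ _ r3) n0
      (lt_of_le_of_lt n1 (by norm_num))
  rw [Nat.sub_eq] at e1 e2
  have hs : Nat.Coprime (snu st) P.M0 := xor0 e4
  refine ⟨by omega, by omega, ?_, hs, ?_⟩
  · rw [← hd, sq]; exact_mod_cast mod0 e3
  intro T t ht0 ht hLG m mu D nu v hctx hpt h1 h2 h3 h4 h5 h6 h7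
  have ha : (sa st).re = 0 := rfl
  have hD : 0 < D := lt_of_le_of_lt (Int.natCast_nonneg _) hctx.2.2.2.2.2
  have hr := hreg D v hpt.1 hpt.2.1 hD
  have f1 : nq P fc ∣ P.n0 := (mod0 e5).trans ok.qs_dvd
  have f2 : nq P bc ∣ P.n0 := mod0 e6
  have f3 := ok.n0_dvd.trans ok.M0_dvd
  have d1 := ok.grp (ok.hkf _ _ _ _ _ _ _ _ _ _ r1 (dq_res P ok.W_ge fc).1) (f1.trans f3) e7
  have d2 := ok.grp (ok.hkf _ _ _ _ _ _ _ _ _ _ r2 (dq_res P ok.W_ge bc).1) (f2.trans f3) e8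
  rw [star_add_pure ha] at d1
  rw [star_sub_pure ha] at d2
  have d3 : Dv P.n0 ((sc mu + v) * (sc nu - sa st)) := by
    rw [ok.hn0]
    push_cast
    refine (h5.of_dvd (pow_dvd_pow _ ht0)).lcm (by rw [ok.hqs] at h6; exact_mod_cast h6) ?_
    exact (Nat.isCoprime_iff_coprime.2 ok.hpq).pow
  refine start_G ok hctx r4 hpt hr hgb (lfS_Z agree_Z) (lfS_G ok hctx hpt hr hcs
    (agree_G ok hctx hpt hgb hs ht hLG h1 h2 h3 h4 h5 h6 h7)) ?_ ?_ h
  · refine ok.kn (f1.trans f3) (lock_know (a := -sa st) (ok.cop_nu hctx.2.2.1 hs f1 h4) ?_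
      (dv_shift d1 ((Int.natCast_dvd_natCast.2 f1).trans h4)))
    rw [sub_neg_eq_add]
    exact h7.of_dvd (Int.natCast_dvd_natCast.2 (mod0 e5))
  · exact ok.kn (f2.trans f3) (lock_know (ok.cop_nu hctx.2.2.1 hs f2 h4)
      (d3.of_dvd (Int.natCast_dvd_natCast.2 f2))
      (dv_shift d2 ((Int.natCast_dvd_natCast.2 f2).trans h4)))

theorem chkS_sound (ok : ParOK P S) (hgb : gb ≤ 30)
    (hreg : ∀ (D : ℤ) (v : H), v.re = 0 → nrm v = D → 0 < D → Reg G (fv2 G) 1 D v)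
    {cs : List (ℕ × ℕ)} (hcs : ∀ x ∈ cs, CutGood P S G (fv2 G) 1 x.1 x.2) {lo cnt s : ℕ}
    (h : chkS P G gb cs lo cnt s ≠ 0) : ∀ i < cnt, StOK P S (stR P (lo + i)) := by
  induction cnt with
  | zero => exact fun i hi => absurd hi (Nat.not_lt_zero _)
  | succ n ih =>
    intro i hi
    have h' : chkS0 P G (mkFm P.W gb) cs (lo + n) (chkS P G gb cs lo n s) ≠ 0 := h
    unfold chkS0 at h'
    rcases Nat.lt_succ_iff_lt_or_eq.1 hi with hi | rfl
    · exact ih (shr_ne (chkS1_Z ok h').2) i hi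
    · exact chkS1_sound ok hgb hreg hcs h'

/-- one more range of lock states -/
theorem sts_step (ok : ParOK P S) (hgb : gb ≤ 30)
    {cs : List (ℕ × ℕ)} (hcs : ∀ x ∈ cs, CutGood P S G2_8 (fv2 G2_8) 1 x.1 x.2) {lo cnt s : ℕ}
    (h : chkS P G2_8 gb cs lo cnt s = 1) (h0 : ∀ i < lo, StOK P S (stR P i)) :
    ∀ i < lo + cnt, StOK P S (stR P i) := by
  intro i hi
  rcases lt_or_ge i lo with h1 | h1
  · exact h0 i h1
  · obtain ⟨j, rfl⟩ := Nat.exists_eq_add_of_le h1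
    exact chkS_sound ok hgb reg2_8 hcs (by rw [h]; exact one_ne_zero) j (by omega)

theorem lg_all (hS : ∀ i < P.nst, StOK P S (stR P i)) (d : ℕ) :
    ∀ t, S.t0 ≤ t → t + d = T → ∀ j < P.nst, LG P S T t (stR P j) := by
  induction d with
  | zero =>
    intro t _ ht j hj m mu D nu v hctx hpt h1 h2 h3 _ h5 _ _
    obtain ⟨s1, s2, -⟩ := hS j hj
    obtain rfl : t = T := ht
    have hD := hctx.2.2.2.2.2
    have hD0 : 0 ≤ D := le_trans (Int.natCast_nonneg _) hD.le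
    have := lock_end hpt.1 hpt.2.1 rfl hpt.2.2.1 s1 ((pow_dvd_pow _ (by omega)).trans h1)
      ((pow_dvd_pow _ (by omega)).trans h2)
      (lt_of_le_of_lt (mul_le_mul_of_nonneg_left s2 hD0) h3) h5
    omega
  | succ d ih =>
    intro t h0 ht j hj
    exact (hS j hj).2.2.2.2 T t h0 (by omega) (ih (t + 1) (by omega) (by omega))

theorem lg0_all (ok : ParOK P S) (hS : ∀ i < P.nst, StOK P S (stR P i)) :
    ∀ i < P.nst, LG0 P S (stR P i) := by
  intro i hi m mu D v hctx hpt h1 h2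
  obtain ⟨-, -, s3, s4, -⟩ := hS i hi
  have hp : (1 : ℤ) < P.p := by exact_mod_cast ok.hp
  obtain ⟨T0, hT0⟩ := pow_unbounded_of_one_lt (D * P.dmax) hp
  have hL := lg_all hS T0 S.t0 le_rfl rfl i hi
  generalize stR P i = st at *
  obtain ⟨c0, c1, c2, c3, c4, c5⟩ := hctx
  have hpM : (P.p : ℤ) ∣ P.M0 := Int.natCast_dvd_natCast.2 (ok.p_dvd.trans ok.n0_dvd)
  have hpq : IsCoprime (P.q : ℤ) (P.p : ℤ) := Nat.isCoprime_iff_coprime.2 ok.hpq.symm
  have hML : (P.ML : ℤ) = P.p ^ S.r0 * (P.q ^ S.s0 * P.l) := by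
    rw [ok.hML, ok.hM0]; push_cast; ring
  have hn0 : (P.n0 : ℤ) = P.p ^ S.t0 * P.q ^ S.s1 := by rw [ok.hn0]; push_cast; ring
  have hc := c2.of_isCoprime_of_dvd_right hpM
  obtain ⟨mu', m1, m2⟩ := hensel (p := P.p) (M := P.q ^ S.s0 * P.l) (x := mu) (d := D)
    (ok.ht0.trans ok.ht1) (hc.mul_left (hpq.pow_left.mul_left
      ((Nat.isCoprime_iff_coprime.2 ok.hlM).of_isCoprime_of_dvd_right hpM)))
    ((Dvd.intro _ hML.symm).trans c1) (S.t0 + T0 + 2)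
  obtain ⟨nu, n1, n2⟩ := hensel (p := P.p) (M := P.q ^ S.s1) (x := snu st) (d := nrm (sa st))
    ok.ht0 ((ok.cop_nu c2 s4 ok.p_dvd (by simp)).mul_left hpq.pow_left)
    ((Dvd.intro _ hn0.symm).trans s3) (T0 + 2)
  rw [← hML] at m1
  rw [← hn0] at n1
  have hM0 : (P.M0 : ℤ) ∣ P.ML := Int.natCast_dvd_natCast.2 ok.M0_dvd
  have hn : (P.n0 : ℤ) ∣ P.ML := (Int.natCast_dvd_natCast.2 ok.n0_dvd).trans hM0
  have hq : (P.qs : ℤ) ∣ P.n0 := Int.natCast_dvd_natCast.2 ok.qs_dvd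
  have d1 : Dv P.n0 ((sc mu' + v) * (sc nu - sa st)) := by
    rw [sub_eq_add_neg] at h1 ⊢
    exact h1.congr (hn.trans m1) n1
  refine hL m mu' D nu v ⟨c0, ab_sqd c1 m1, ab_cop c2 (hM0.trans m1), ?_, c4, c5⟩ hpt
    ((pow_dvd_pow _ (by omega)).trans m2) (by rw [add_assoc]; exact n2)
    (lt_of_lt_of_le hT0 (pow_le_pow_right₀ hp.le (by omega))) n1
    (d1.of_dvd (Dvd.intro _ hn0.symm)) (d1.of_dvd hq) ?_
  · have := dvd_sub c3 (((Int.natCast_dvd_natCast.2 ok.hnodd).trans hM0).trans m1)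
    rwa [show m - mu - (mu' - mu) = m - mu' by ring] at this
  · rw [sub_eq_add_neg] at h2 ⊢
    exact h2.congr ((hq.trans hn).trans m1) (hq.trans n1)

/-- the code of the quaternion `1` with parity class `c` -/
def rt (c : ℕ) : ℕ := 0x80000000800000008000000080000001 + c * 2 ^ 128

theorem core {c : ℕ} (hc : c ≤ 3) (hroot : CutGood P S G1_48 (fv1 G1_48) 0 (rt c) (rt 0))
    (hctx : Ctx P m mu D) (hv : v.re = 0) (hD : nrm v = D) (hp : Prim v) (h0 : 0 < v.imI)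
    (h1 : v.imJ ≤ v.imI) (h2 : v.imK ≤ v.imJ) (h3 : 0 ≤ v.imK) (h4 : D ≤ 3 * v.imI ^ 2)
    (h5 : ∀ v' : H, v'.re = 0 → nrm v' = D → Prim v' → v'.imI ≤ v.imI) (hpc : PC c m v) :
    Goal P S m D := by
  obtain ⟨j, j1, j2, j3⟩ := reg1_48 v h0 h1 h2 h3
  have hk : ∀ c ≤ 3, ∀ x, Kn x (dec (rt c)) := by
    intro c hc x
    have : nrm (dec (rt c)) = 1 := by interval_cases c <;> decide +kernel
    exact ⟨by rw [this]; exact one_ne_zero, by rw [this]; exact ⟨_, (one_smul _ _).symm⟩⟩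
  have hcl : ccl (rt c) = c := by interval_cases c <;> decide +kernel
  exact hroot m mu D v hctx (by rw [hcl]; exact ⟨hv, hD, hp, hpc⟩)
    ⟨j, v.imI, j1, j2, h0, h4, j3, fun _ => h5⟩ (hk c hc _) (hk 0 (by norm_num) _)

def All (P : Par) (S : Sp) (par : Bool) : Prop :=
  ∀ m mu D : ℤ, Ctx P m mu D → (D % 4 = 1 ∨ D % 4 = 2 ∨ D % 8 = 3) →
    (par = true → (m ^ 2 + D) % 4 = 2) → Goal P S m D

theorem core0 (hroot : CutGood P S G1_48 (fv1 G1_48) 0 (rt 0) (rt 0)) : All P S false := by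
  intro m mu D hctx hD _
  have hD0 : 0 ≤ D := le_trans (Int.natCast_nonneg _) hctx.2.2.2.2.2.le
  lift D to ℕ using hD0
  obtain ⟨v, a1, a2, a3, a4, a5, a6, a7, a8, a9⟩ := extremal D (by omega)
  exact core (by norm_num) hroot hctx a1 a2 a3 a4 a5 a6 a7 a8 a9 (Or.inl rfl)

theorem core1 (r1 : CutGood P S G1_48 (fv1 G1_48) 0 (rt 1) (rt 0))
    (r2 : CutGood P S G1_48 (fv1 G1_48) 0 (rt 2) (rt 0))
    (r3 : CutGood P S G1_48 (fv1 G1_48) 0 (rt 3) (rt 0)) : All P S true := by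
  intro m mu D hctx hD hp
  have hD0 : 0 ≤ D := le_trans (Int.natCast_nonneg _) hctx.2.2.2.2.2.le
  lift D to ℕ using hD0
  obtain ⟨v, a1, a2, a3, a4, a5, a6, a7, a8, a9⟩ := extremal D (by omega)
  rcases pc_exists a1 a2 (hp rfl) with h | h | h
  · exact core (by norm_num) r1 hctx a1 a2 a3 a4 a5 a6 a7 a8 a9 h
  · exact core (by norm_num) r2 hctx a1 a2 a3 a4 a5 a6 a7 a8 a9 h
  · exact core (by norm_num) r3 hctx a1 a2 a3 a4 a5 a6 a7 a8 a9 h

end Pool.Agent.Lib.MP_094079_nt
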