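import Mathlib
import Pool.Agent.Lib.MP_094079_nt.Chk

/-! Meaning of the data handled by the checker. -/
namespace Pool.Agent.Lib.MP_094079_nt

open Quaternion

abbrev H := ℍ[ℤ]

def mkH (a b c d : ℤ) : H := ⟨a, b, c, d⟩
/-- the integer `x` as a quaternion -/
def sc (x : ℤ) : H := ⟨x, 0, 0, 0⟩
def nrm (x : H) : ℤ := x.re ^ 2 + x.imI ^ 2 + x.imJ ^ 2 + x.imK ^ 2
def Dv (n : ℤ) (x : H) : Prop := ∃ y : H, x = n • y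
def co (x : H) : ℕ → ℤ
  | 0 => x.re
  | 1 => x.imI
  | 2 => x.imJ
  | _ => x.imK
def eb : ℕ → H
  | 0 => ⟨1, 0, 0, 0⟩
  | 1 => ⟨0, 1, 0, 0⟩
  | 2 => ⟨0, 0, 1, 0⟩
  | _ => ⟨0, 0, 0, 1⟩
def dot (v w : H) : ℤ := v.imI * w.imI + v.imJ * w.imJ + v.imK * w.imK
def Prim (v : H) : Prop := ∃ w : H, dot v w = 1
/-- entries of the rotation matrix of `G` -/
def Rm (r t : ℕ) (G : H) : ℤ :=
  if r = 0 ∧ t = 0 then nrm G else if r = 0 ∨ t = 0 then 0 else co (star G * eb t * G) r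
/-- parity class -/
def PC (c : ℕ) (m : ℤ) (v : H) : Prop := c = 0 ∨ (2 : ℤ) ∣ co v c - m

structure Sp where
  be : H
  x1 : H
  x2 : H
  c0 : ℕ
  r0 : ℕ
  s0 : ℕ
  t0 : ℕ
  s1 : ℕ
  RP : List H
  RQ : List H
  RL : List H

def pkF (w n : ℕ) (z : ℕ → ℕ) : ℕ := ∑ k ∈ Finset.range n, z k * 2 ^ (w * k)
/-- `x` packs `n` lanes of 512 bits, smaller than `Bd`, congruent to `y` modulo `Md` -/
def Rep (n x : ℕ) (y : ℕ → ℤ) (Md Bd : ℕ) : Prop :=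
  ∃ z : ℕ → ℕ, x = pkF 512 n z ∧ ∀ k < n, z k < Bd ∧ (Md : ℤ) ∣ (z k : ℤ) - y k
def RepQ (W x : ℕ) (q : H) : Prop := Rep 4 x (co q) W (2 ^ 500)
def Res (W g : ℕ) (x : ℤ) : Prop := g ≤ 2 * W ∧ (W : ℤ) ∣ (g : ℤ) - x
def Res4 (W g0 g1 g2 g3 : ℕ) (G : H) : Prop :=
  Res W g0 G.re ∧ Res W g1 G.imI ∧ Res W g2 G.imJ ∧ Res W g3 G.imK
def UOK (W : ℕ) (U : UT) (n : ℕ) (f : ℕ → H → ℤ) : Prop :=
  ∀ g0 g1 g2 g3 G, Res4 W g0 g1 g2 g3 G →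
    Rep n (geo U g0 g1 g2 g3) (fun k => f k G) (2 ^ 76) (2 ^ 400)
def phiU (S : Sp) (c k : ℕ) (G : H) : ℤ :=
  if k = 0 then nrm G else if k = 1 then Rm S.c0 c G
  else if k ≤ 4 then 4096 * dot S.x1 (star G * eb (k - 1) * G)
  else 4096 * dot S.x2 (star G * eb (k - 4) * G)
def phiX (k : ℕ) (G : H) : ℤ :=
  if k = 0 then nrm G else if k = 1 then 0
  else if k ≤ 4 then 4096 * dot (eb 1) (star G * eb (k - 1) * G) else 0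
def phiY (k : ℕ) (G : H) : ℤ := Rm (k / 4) (k % 4) G
def ExtOK (p : ℕ) (L : List H) : Prop :=
  (∀ a ∈ L, nrm a = p) ∧ ∀ y : H, (p : ℤ) ∣ nrm y → ∃ a ∈ L, Dv p (y * a)
def RepL (W : ℕ) (T : List T4) (L : List H) : Prop :=
  T ≠ [] ∧ ∀ a ∈ L, ∃ c ∈ T, ∀ x0 x1 x2 x3 X, Res4 W x0 x1 x2 x3 X →
    RepQ W (lin4 x0 x1 x2 x3 c.t0 c.t1 c.t2 c.t3) (X * a)

structure ParOK (P : Par) (S : Sp) : Prop where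
  hW : P.W = 2 ^ 76 * P.ML
  hML : P.ML = P.M0 * P.l
  hM4 : P.M4 = 4 * P.M0
  hML4 : P.ML4 = 4 * P.ML
  hlt : P.ML < 2 ^ 64
  hodd : P.ML % 2 = 1
  hl : P.l = 1 ∨ P.l.Prime
  hlM : Nat.Coprime P.l P.M0
  hM0 : P.M0 = P.p ^ S.r0 * P.q ^ S.s0
  hn0 : P.n0 = P.p ^ S.t0 * P.q ^ S.s1
  hqs : P.qs = P.q ^ S.s1
  ht0 : 1 ≤ S.t0
  ht1 : S.t0 ≤ S.r0
  hs1 : S.s1 ≤ S.s0
  hpq : Nat.Coprime P.p P.q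
  hp : 2 ≤ P.p
  hnodd : P.nodd ∣ P.M0
  hbe : nrm S.be = P.nodd ∨ nrm S.be = 2 * P.nodd
  hta : ∀ g r, getA P g r ∣ P.ML
  hx1 : S.x1.re = 0 ∧ nrm S.x1 ≤ (P.cx : ℤ) ^ 2
  hx2 : S.x2.re = 0 ∧ nrm S.x2 ≤ (P.cx : ℤ) ^ 2
  hcx : 2 ≤ P.cx
  hK : 0 < P.K
  hmg1 : 2 * P.mg1 ≤ P.K ∧ P.mg1 ≤ 1024
  hmg2 : 2 * P.mg2 ≤ P.K ∧ P.mg2 ≤ 1024
  hc0 : S.c0 ≤ 3
  hkf : ∀ x0 x1 x2 x3 X g0 g1 g2 g3 G, Res4 P.W x0 x1 x2 x3 X → Res4 P.W g0 g1 g2 g3 G →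
    RepQ P.W (cmul P x0 x1 x2 x3 g0 g1 g2 g3) (star X * G)
  hkb : ∀ x0 x1 x2 x3 X g0 g1 g2 g3 G, Res4 P.W x0 x1 x2 x3 X → Res4 P.W g0 g1 g2 g3 G →
    RepQ P.W (cmul2 (lin4 x0 x1 x2 x3 P.kb.t0 P.kb.t1 P.kb.t2 P.kb.t3) g0 g1 g2 g3)
      (star X * G * S.be)
  hrp : RepL P.W P.rp S.RP
  hrq : RepL P.W P.rq S.RQ
  hrl : RepL P.W P.rl S.RL
  hep : ExtOK P.p S.RP
  heq : ExtOK P.q S.RQ
  hel : ExtOK P.l S.RL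
  hU : ∀ c ≤ 3, UOK P.W (selU P c) 8 (phiU S c)
  hX : UOK P.W P.X 8 phiX
  hY : UOK P.W P.Y 16 phiY

def Goal (P : Par) (S : Sp) (m D : ℤ) : Prop :=
  ∃ v : H, v.re = 0 ∧ nrm v = D ∧ Dv P.nodd ((sc m + v) * S.be) ∧ PC S.c0 m v ∧
    P.mg1 * m ≤ dot S.x1 v ∧ P.mg2 * m ≤ dot S.x2 v
def Ctx (P : Par) (m mu D : ℤ) : Prop :=
  0 ≤ m ∧ (P.ML : ℤ) ∣ mu ^ 2 + D ∧ IsCoprime (2 * mu) (P.M0 : ℤ) ∧ (P.nodd : ℤ) ∣ m - mu ∧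
    3 * (P.K : ℤ) ^ 2 * m ^ 2 ≤ D ∧ (P.dmax : ℤ) < D
def Pt (D : ℤ) (c : ℕ) (m : ℤ) (v : H) : Prop := v.re = 0 ∧ nrm v = D ∧ Prim v ∧ PC c m v
def Kn (x F : H) : Prop := nrm F ≠ 0 ∧ Dv (nrm F) (x * F)
/-- the bit `j` of the grid lanes stands for a cell that contains the direction of `v` -/
def Cell (fv : FV) (rz j : ℕ) (rho : ℤ) (v : H) : Prop :=
  ∀ (c1 c2 c3 mgl sh : ℕ) (C1 C2 C3 : ℤ), c1 < 8192 → c2 < 8192 → c3 < 8192 →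
    2 * mgl ≤ rz + 2 →
    2 ^ sh * ((c1 : ℤ) - 4096) ≤ C1 → C1 < 2 ^ sh * ((c1 : ℤ) - 4095) →
    2 ^ sh * ((c2 : ℤ) - 4096) ≤ C2 → C2 < 2 ^ sh * ((c2 : ℤ) - 4095) →
    2 ^ sh * ((c3 : ℤ) - 4096) ≤ C3 → C3 < 2 ^ sh * ((c3 : ℤ) - 4095) →
    (fv c1 c2 c3 mgl).testBit j = true →
    4096 * 2 ^ sh * (mgl : ℤ) * rho ≤ rz * (C1 * v.imI + C2 * v.imJ + C3 * v.imK)
def Reg (G : Grid) (fv : FV) (xb : ℕ) (D : ℤ) (v : H) : Prop :=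
  ∃ (j : ℕ) (rho : ℤ), G.top.testBit j = true ∧ Cell fv G.rz j rho v ∧ 0 < rho ∧
    D ≤ 3 * rho ^ 2 ∧ 4096 ≤ G.rz ∧
    (xb = 0 → ∀ v' : H, v'.re = 0 → nrm v' = D → Prim v' → v'.imI ≤ rho)
/-- one coordinate of a coded quaternion -/
def dcc (fc o : ℕ) : ℤ := ((Nat.land (Nat.shiftRight fc o) 4294967295 : ℕ) : ℤ) - 2147483648
def dec (fc : ℕ) : H := ⟨dcc fc 0, dcc fc 32, dcc fc 64, dcc fc 96⟩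
def CutGood (P : Par) (S : Sp) (G : Grid) (fv : FV) (xb fc bc : ℕ) : Prop :=
  ∀ (m mu D : ℤ) (v : H), Ctx P m mu D → Pt D (ccl fc) m v → Reg G fv xb D v →
    Kn (sc mu - v) (dec fc) → Kn (sc mu + v) (dec bc) → Goal P S m D
/-- the small vector of a lock state -/
def sa (st : ℕ) : H :=
  ⟨0, (sraw st 0 : ℤ) - 32768, (sraw st 16 : ℤ) - 32768, (sraw st 32 : ℤ) - 32768⟩
def LG (P : Par) (S : Sp) (T t st : ℕ) : Prop :=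
  ∀ (m mu D nu : ℤ) (v : H), Ctx P m mu D → Pt D (scl st) m v →
    (P.p : ℤ) ^ (T + 2) ∣ mu ^ 2 + D → (P.p : ℤ) ^ (T + 2) ∣ nu ^ 2 + nrm (sa st) →
    D * P.dmax < (P.p : ℤ) ^ T → (P.n0 : ℤ) ∣ nu - snu st →
    Dv ((P.p : ℤ) ^ t) ((sc mu + v) * (sc nu - sa st)) →
    Dv P.qs ((sc mu + v) * (sc nu - sa st)) → Dv P.qs ((sc mu - v) * (sc nu + sa st)) →
    Goal P S m D
def LG0 (P : Par) (S : Sp) (st : ℕ) : Prop :=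
  ∀ (m mu D : ℤ) (v : H), Ctx P m mu D → Pt D (scl st) m v →
    Dv P.n0 ((sc mu + v) * (sc (snu st) - sa st)) →
    Dv P.qs ((sc mu - v) * (sc (snu st) + sa st)) → Goal P S m D
def StOK (P : Par) (S : Sp) (st : ℕ) : Prop :=
  0 < nrm (sa st) ∧ nrm (sa st) ≤ P.dmax ∧ (P.n0 : ℤ) ∣ (snu st : ℤ) ^ 2 + nrm (sa st) ∧
    Nat.Coprime (snu st) P.M0 ∧
    ∀ T t, S.t0 ≤ t → t < T → (∀ j < P.nst, LG P S T (t + 1) (stR P j)) → LG P S T t st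
/-- representation as in the problem -/
def Rp (a b c : ℤ) (n : ℕ) : Prop :=
  ∃ x y z w k : ℕ, n = x ^ 2 + y ^ 2 + z ^ 2 + w ^ 2 ∧ a * x + b * y + c * z = 2 ^ k

end Pool.Agent.Lib.MP_094079_nt
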